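import Pool.Agent.Lib.MP_ca0fc2_an.Mg.G003
import Pool.Agent.Lib.MP_ca0fc2_an.Mg.G045
import Pool.Agent.Lib.MP_ca0fc2_an.Mg.G054

/-! Levels and dilations in convex domains. -/

set_option autoImplicit false

open Metric Set MeasureTheory Filter Topology

namespace Pool.Agent.MPca0fc2.GW

open Pool.Agent.MPca0fc2.FD

variable {n : ℕ} {U : Set (Ec n)} {δ : Ec n → ℝ} {h : Ec n → Ec n → Fin n → ℂ} {c C : ℝ}

theorem ek_pos (k : ℕ) : 0 < ek k := by
  unfold ek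
  positivity

theorem ek_le_one (k : ℕ) : ek k ≤ 1 := by
  unfold ek
  exact pow_le_one₀ (by norm_num) (by norm_num)

theorem ek_zero : ek 0 = 1 := by
  unfold ek
  exact pow_zero _

theorem ek_succ (k : ℕ) : ek (k + 1) = ek k / 2 := by
  unfold ek
  rw [pow_succ]
  ring

theorem ek_anti {k l : ℕ} (hkl : k ≤ l) : ek l ≤ ek k := by
  unfold ek
  exact pow_le_pow_of_le_one (by norm_num) (by norm_num) hkl

theorem V1_ek (i j : ℕ) : ek i = 2 ^ j * ek (i + j) := by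
  unfold ek
  rw [pow_add]
  have h1 : (2 : ℝ) ^ j * (1 / 2) ^ j = 1 := by
    rw [← mul_pow]
    norm_num
  calc (1 / 2 : ℝ) ^ i = (1 / 2) ^ i * (2 ^ j * (1 / 2) ^ j) := by rw [h1, mul_one]
    _ = 2 ^ j * ((1 / 2) ^ i * (1 / 2) ^ j) := by ring

/-- PROOF. `0 < c ≤ 1 ≤ C` are fields of `CD.geo`. -/
theorem CD.pos (hD : CD U δ h c C) : 0 < c ∧ c ≤ 1 ∧ 1 ≤ C := by
  exact ⟨hD.geo.c0, hD.geo.c1, hD.geo.C1⟩

/-- PROOF. `Geo_shift` for `δ + c / 2` with `s = c / 2 - t`; the function `(δ + c / 2) - s` is `δ + t`. -/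
theorem CD.lev (hD : CD U δ h c C) {t : ℝ} (ht : 0 ≤ t) (htc : t ≤ c / 2) :
    Geo U (fun z => δ z + t) h (c / 2) C := by
  have hp := hD.pos
  have h1 := Geo_shift hD.geo (s := c / 2 - t) (by linarith) (by linarith)
  have e : (fun z => δ z + t) = fun z => (δ z + c / 2) - (c / 2 - t) := by
    funext z
    ring
  rw [e]
  exact h1

/-- PROOF. `CD.lev` with `t = 0`. -/
theorem CD.geo0 (hD : CD U δ h c C) : Geo U δ h (c / 2) C := by
  have hp := hD.pos
  have h1 := hD.lev (t := 0) (le_refl _) (by linarith)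
  have e : (fun z => δ z + 0) = δ := by
    funext z
    exact add_zero _
  rw [e] at h1
  exact h1

/-- PROOF. `geo`: `(δ - s) + (c / 2) / 2 = (δ + c / 2) - (c / 4 + s)`, `Geo_shift`. The other fields are trivial
(`δ - s` is concave; `c / 2 ≤ δ 0 - s`). -/
theorem CD.shift (hD : CD U δ h c C) {s : ℝ} (hs : 0 ≤ s) (hsc : s ≤ c / 4) :
    CD U (fun z => δ z - s) h (c / 2) C := by
  have hp := hD.pos
  refine
    { geo := ?_
      cvx := hD.cvx
      ccv := ?_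
      zero := hD.zero
      cen := ?_ }
  · have h1 := hD.lev (t := c / 4 - s) (by linarith) (by linarith)
    have e : (fun z => δ z - s + c / 2 / 2) = fun z => δ z + (c / 4 - s) := by
      funext z
      ring
    rw [e]
    exact h1
  · have h1 := hD.ccv.add (concaveOn_const (-s) hD.cvx)
    exact h1
  · have := hD.cen
    linarith

/-- PROOF. Definition of `Dk`; `δ w + c / 2 ≤ C` by `Geo.bδ`, so `dk δ c k w ≤ C`. -/
theorem Dk_basic (hD : CD U δ h c C) {k : ℕ} {w : Ec n} (hw : w ∈ Dk U δ c k) :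
    w ∈ U ∧ -(c / 8 * ek k) < δ w ∧ c / 8 * ek k < dk δ c k w ∧ dk δ c k w ≤ C ∧ ‖w‖ ≤ C := by
  have hp := hD.pos
  have he := ek_pos k
  have he1 := ek_le_one k
  have hwU : w ∈ U := hw.1
  have hw2 : 0 < δ w + c / 8 * ek k := hw.2
  have hb : δ w + c / 2 ≤ C := hD.geo.bδ w hwU
  have h1 : c * ek k ≤ c * 1 := mul_le_mul_of_nonneg_left he1 hp.1.le
  have h2 : 0 < c * ek k := mul_pos hp.1 he
  refine ⟨hwU, by linarith, ?_, ?_, hD.geo.bz w hwU⟩
  · unfold dk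
    linarith
  · unfold dk
    linarith

theorem Dk_anti (hD : CD U δ h c C) {k l : ℕ} (hkl : k ≤ l) : Dk U δ c l ⊆ Dk U δ c k := by
  rintro w ⟨hw, h0⟩
  refine ⟨hw, ?_⟩
  have h1 : 0 < δ w + c / 8 * ek l := h0
  have h2 : c * ek l ≤ c * ek k := mul_le_mul_of_nonneg_left (ek_anti hkl) hD.pos.1.le
  show 0 < δ w + c / 8 * ek k
  linarith

theorem Om_sub_Dk (hD : CD U δ h c C) (k : ℕ) : Om U δ ⊆ Dk U δ c k := by
  rintro w ⟨hw, h0⟩
  refine ⟨hw, ?_⟩
  have h2 : 0 < c * ek k := mul_pos hD.pos.1 (ek_pos k)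
  show 0 < δ w + c / 8 * ek k
  linarith

theorem V1_open (hD : CD U δ h c C) (t : ℝ) : IsOpen (Om U (fun z => δ z + t)) := by
  have h1 : ContinuousOn (fun z => δ z + c / 2) U := hD.geo.dδ.continuousOn
  have h2 : ContinuousOn (fun z => δ z + t) U := by
    have h3 := h1.add (continuousOn_const (c := t - c / 2))
    refine h3.congr fun z _ => ?_
    show δ z + t = δ z + c / 2 + (t - c / 2)
    ring
  exact h2.isOpen_inter_preimage hD.geo.opn isOpen_Ioi

/-- PROOF. `δ` is continuous on the open set `U` (`Geo.dδ` for `δ + c / 2`). -/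
theorem Dk_open (hD : CD U δ h c C) (k : ℕ) : IsOpen (Dk U δ c k) := by
  exact V1_open hD _

/-- PROOF. As `Dk_open`. -/
theorem Om_lev_open (hD : CD U δ h c C) (t : ℝ) : IsOpen (Om U (fun z => δ z + t)) := by
  exact V1_open hD t

/-- PROOF. `δ` is concave. -/
theorem Om_lev_convex (hD : CD U δ h c C) (t : ℝ) : Convex ℝ (Om U (fun z => δ z + t)) := by
  have h1 := hD.ccv.convex_gt (-t)
  have e : Om U (fun z => δ z + t) = {x | x ∈ U ∧ -t < δ x} := by
    ext z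
    constructor
    · rintro ⟨hz, h0⟩
      have h0' : 0 < δ z + t := h0
      exact ⟨hz, by linarith⟩
    · rintro ⟨hz, h0⟩
      refine ⟨hz, ?_⟩
      show 0 < δ z + t
      linarith
  rw [e]
  exact h1

/-- The set `Om U δ` and its levels. PROOF. Trivial (`δ w + 0 = δ w`). -/
theorem Om_zero (U : Set (Ec n)) (δ : Ec n → ℝ) : Om U (fun z => δ z + 0) = Om U δ := by
  ext z
  simp [Om]

theorem dk_anti (hD : CD U δ h c C) {i k : ℕ} (hik : i ≤ k) (w : Ec n) :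
    dk δ c k w ≤ dk δ c i w := by
  unfold dk
  have h2 : c * ek k ≤ c * ek i := mul_le_mul_of_nonneg_left (ek_anti hik) hD.pos.1.le
  linarith

/-- PROOF. `dk δ c k w ≤ dk δ c i w ≤ dk δ c k w + (c / 4) ek i` and `dk δ c k w > (c / 8) ek k`, on `Dk k`. So
`dk δ c i w ≤ dk δ c k w (1 + 2 ek i / ek k)`, `≤ 3 * 2 ^ (k - i) * dk δ c k w`. -/
theorem dk_le_pow (hD : CD U δ h c C) {i k : ℕ} (hik : i ≤ k) {w : Ec n} (hw : w ∈ Dk U δ c k) :
    dk δ c i w ≤ 3 * 2 ^ (k - i) * dk δ c k w := by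
  obtain ⟨j, rfl⟩ : ∃ j, k = i + j := ⟨k - i, by omega⟩
  have hb := (Dk_basic hD hw).2.2.1
  have he := ek_pos (i + j)
  have hc := hD.pos.1
  have hj : i + j - i = j := by omega
  rw [hj]
  have h1 := V1_ek i j
  have h2 : (1 : ℝ) ≤ 2 ^ j := one_le_pow₀ (by norm_num)
  have h3 : dk δ c i w = dk δ c (i + j) w + c / 4 * (ek i - ek (i + j)) := by
    unfold dk
    ring
  have hd : 0 < dk δ c (i + j) w := by
    have : 0 < c / 8 * ek (i + j) := by positivity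
    linarith
  have h4 : c / 4 * ek i ≤ 2 * 2 ^ j * dk δ c (i + j) w := by
    rw [h1]
    have h5 : c / 4 * (2 ^ j * ek (i + j)) = 2 * 2 ^ j * (c / 8 * ek (i + j)) := by ring
    rw [h5]
    exact mul_le_mul_of_nonneg_left hb.le (by positivity)
  have h6 : 0 < c / 4 * ek (i + j) := by positivity
  have h7 : dk δ c (i + j) w ≤ 2 ^ j * dk δ c (i + j) w := le_mul_of_one_le_left hd.le h2
  rw [h3]
  linarith

/-- PROOF. `dk δ c i w ≥ (c / 8) ek i` and `ek k = ek i (1 / 2) ^ (k - i)`. -/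
theorem lev_ratio (hD : CD U δ h c C) {i k : ℕ} (hik : i ≤ k) {w : Ec n} (hw : w ∈ Dk U δ c k) :
    dk δ c k w / dk δ c i w ≤ 8 / c * (dk δ c k w / ek k) * (1 / 2) ^ (k - i) := by
  obtain ⟨j, rfl⟩ : ∃ j, k = i + j := ⟨k - i, by omega⟩
  have hb := (Dk_basic hD hw).2.2.1
  have hbi := (Dk_basic hD (Dk_anti hD hik hw)).2.2.1
  have he := ek_pos (i + j)
  have hei := ek_pos i
  have hc := hD.pos.1
  have hj : i + j - i = j := by omega
  rw [hj]
  have hd : 0 < dk δ c (i + j) w := by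
    have : 0 < c / 8 * ek (i + j) := by positivity
    linarith
  have h0 : 0 < c / 8 * ek i := by positivity
  have h1 : dk δ c (i + j) w / dk δ c i w ≤ dk δ c (i + j) w / (c / 8 * ek i) :=
    div_le_div_of_nonneg_left hd.le h0 hbi.le
  refine h1.trans (le_of_eq ?_)
  rw [V1_ek i j, one_div_pow]
  field_simp

theorem dil_zero (w : Ec n) : dil 0 w = w := by
  unfold dil
  rw [sub_zero, Complex.ofReal_one, one_smul]

theorem dil_one (w : Ec n) : dil 1 w = 0 := by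
  unfold dil
  rw [sub_self, Complex.ofReal_zero, zero_smul]

theorem dil_sub (s : ℝ) (w : Ec n) : dil s w - w = -((s : ℂ) • w) := by
  unfold dil
  rw [Complex.ofReal_sub, Complex.ofReal_one, sub_smul, one_smul]
  abel

/-- PROOF. `U` is convex and `0 ∈ U`. -/
theorem dil_U (hD : CD U δ h c C) {w : Ec n} (hw : w ∈ U) {s : ℝ} (hs : 0 ≤ s) (hs1 : s ≤ 1) :
    dil s w ∈ U := by
  have h1 := hD.cvx hw hD.zero (a := 1 - s) (b := s) (by linarith) hs (by ring)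
  have e : dil s w = (1 - s) • w + s • (0 : Ec n) := by
    rw [smul_zero, add_zero]
    rfl
  rw [e]
  exact h1

/-- PROOF. `δ` is concave, `c ≤ δ 0`. -/
theorem dil_conc (hD : CD U δ h c C) {w : Ec n} (hw : w ∈ U) {s : ℝ} (hs : 0 ≤ s) (hs1 : s ≤ 1) :
    (1 - s) * δ w + s * c ≤ δ (dil s w) := by
  have h1 := hD.ccv.2 hw hD.zero (sub_nonneg.mpr hs1) hs (by ring)
  have e : dil s w = (1 - s) • w + s • (0 : Ec n) := by
    rw [smul_zero, add_zero]
    rfl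
  rw [e]
  refine le_trans ?_ h1
  rw [smul_eq_mul, smul_eq_mul]
  have h2 : s * c ≤ s * δ 0 := mul_le_mul_of_nonneg_left hD.cen hs
  linarith

/-- The points of the level `k`.
PROOF. `dil_conc`. If `0 ≤ δ w` and `s ≤ 1 / 2`: `δ (dil s w) ≥ δ w / 2 + (c / 2) ek k ≥ dk / 2`. If `0 ≤ δ w` and `s > 1 / 2`:
`δ (dil s w) ≥ c / 2 ≥ (c / (2 C)) dk`, as `dk ≤ C`. If `δ w < 0`: `(1 - s) δ w ≥ δ w ≥ - (c / 8) ek k`, `s c ≥ (c / 2) ek k`, so
`δ (dil s w) ≥ (3 / 8) c ek k ≥ dk` (`dk ≤ (c / 4) ek k`). -/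
theorem dil_lo (hD : CD U δ h c C) {k : ℕ} {w : Ec n} (hw : w ∈ Dk U δ c k) {s : ℝ}
    (hs : ek (k + 1) ≤ s) (hs1 : s ≤ 1) :
    dil s w ∈ Om U δ ∧ c / (4 * C) * dk δ c k w ≤ δ (dil s w) := by
  have hb := Dk_basic hD hw
  obtain ⟨hwU, hb1, hb2, hb3, _⟩ := hb
  have hp := hD.pos
  obtain ⟨hc, hc1, hC1⟩ := hp
  have he := ek_pos k
  have he1 := ek_le_one k
  rw [ek_succ] at hs
  have hs0 : 0 ≤ s := by linarith
  have hco := dil_conc hD hwU hs0 hs1
  have hU := dil_U hD hwU hs0 hs1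
  have hdk : dk δ c k w = δ w + c / 4 * ek k := rfl
  have hC0 : 0 < C := by linarith
  have hq : c / (4 * C) ≤ 1 / 4 := by
    rw [div_le_div_iff₀ (by positivity) (by norm_num)]
    nlinarith
  have hq0 : 0 < c / (4 * C) := by positivity
  have hd : 0 < dk δ c k w := by
    have : 0 < c / 8 * ek k := by positivity
    linarith
  have hce : 0 < c * ek k := mul_pos hc he
  have hsc : c * (ek k / 2) ≤ c * s := mul_le_mul_of_nonneg_left hs hc.le
  have key : c / (4 * C) * dk δ c k w ≤ δ (dil s w) := by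
    have h14 : c / (4 * C) * dk δ c k w ≤ 1 / 4 * dk δ c k w :=
      mul_le_mul_of_nonneg_right hq hd.le
    rcases le_or_gt 0 (δ w) with h0 | h0
    · rcases le_or_gt s (1 / 2) with h5 | h5
      · have h6 : 1 / 2 * δ w ≤ (1 - s) * δ w := mul_le_mul_of_nonneg_right (by linarith) h0
        linarith
      · have h6 : 0 ≤ (1 - s) * δ w := mul_nonneg (by linarith) h0
        have h7 : c / (4 * C) * dk δ c k w ≤ c / (4 * C) * C :=
          mul_le_mul_of_nonneg_left hb3 hq0.le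
        have h8 : c / (4 * C) * C = c / 4 := by field_simp
        have h9 : c * (1 / 2) ≤ c * s := mul_le_mul_of_nonneg_left h5.le hc.le
        linarith
    · have h6 : δ w ≤ (1 - s) * δ w := by nlinarith
      linarith
  exact ⟨⟨hU, lt_of_lt_of_le (mul_pos hq0 hd) key⟩, key⟩

/-- The points of the domain.
PROOF. `dil_conc`. If `s ≤ 1 / 2`: `δ (dil s w) ≥ δ w / 2 + s c`. If `s > 1 / 2`: `δ (dil s w) ≥ c / 2` and `δ w + s ≤ C + 1 ≤ 2 C`. -/
theorem dil_lo' (hD : CD U δ h c C) {w : Ec n} (hw : w ∈ Om U δ) {s : ℝ} (hs : 0 ≤ s)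
    (hs1 : s ≤ 1) : dil s w ∈ Om U δ ∧ c / (4 * C) * (δ w + s) ≤ δ (dil s w) := by
  obtain ⟨hc, hc1, hC1⟩ := hD.pos
  obtain ⟨hwU, hw0⟩ := hw
  have hco := dil_conc hD hwU hs hs1
  have hU := dil_U hD hwU hs hs1
  have hC0 : 0 < C := by linarith
  have hbd : δ w + c / 2 ≤ C := hD.geo.bδ w hwU
  have hq : c / (4 * C) ≤ 1 / 4 := by
    rw [div_le_div_iff₀ (by positivity) (by norm_num)]
    nlinarith
  have hq2 : c / (4 * C) ≤ c / 4 := by
    rw [div_le_div_iff₀ (by positivity) (by norm_num)]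
    nlinarith
  have hq0 : 0 < c / (4 * C) := by positivity
  have hd : 0 < δ w + s := by linarith
  have hcs : 0 ≤ c * s := mul_nonneg hc.le hs
  have key : c / (4 * C) * (δ w + s) ≤ δ (dil s w) := by
    rcases le_or_gt s (1 / 2) with h5 | h5
    · have h6 : 1 / 2 * δ w ≤ (1 - s) * δ w := mul_le_mul_of_nonneg_right (by linarith) hw0.le
      have h7 : c / (4 * C) * δ w ≤ 1 / 4 * δ w := mul_le_mul_of_nonneg_right hq hw0.le
      have h8 : c / (4 * C) * s ≤ c / 4 * s := mul_le_mul_of_nonneg_right hq2 hs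
      have h9 : c / (4 * C) * (δ w + s) = c / (4 * C) * δ w + c / (4 * C) * s := by ring
      rw [h9]
      linarith
    · have h6 : 0 ≤ (1 - s) * δ w := mul_nonneg (by linarith) hw0.le
      have h7 : c / (4 * C) * (δ w + s) ≤ c / (4 * C) * (2 * C) :=
        mul_le_mul_of_nonneg_left (by linarith) hq0.le
      have h8 : c / (4 * C) * (2 * C) = c / 2 := by
        field_simp
        ring
      have h9 : c * (1 / 2) ≤ c * s := mul_le_mul_of_nonneg_left h5.le hc.le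
      linarith
  exact ⟨⟨hU, lt_of_lt_of_le (mul_pos hq0 hd) key⟩, key⟩

/-- Lipschitz bounds.
PROOF. `δ_lip'` and `h_lip` for `δ + c / 4` (`CD.lev`, constants `c / 2`, `C`). -/
theorem CD_lip (n : ℕ) (c C : ℝ) : ∃ L : ℝ, 1 ≤ L ∧ ∀ (U : Set (Ec n)) (δ : Ec n → ℝ)
    (h : Ec n → Ec n → Fin n → ℂ), CD U δ h c C → ∀ z ∈ Om U (fun w => δ w + c / 4),
    ∀ w ∈ Om U (fun w => δ w + c / 4), |δ z - δ w| ≤ L * ‖z - w‖ ∧
      ‖h z z - h w w‖ ≤ L * ‖z - w‖ ∧ ‖h z w - h w w‖ ≤ L * ‖z - w‖ := by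
  obtain ⟨L, hL0, hL⟩ := δ_lip' n (c / 2) C
  obtain ⟨M, hM0, hM⟩ := h_lip n (c / 2) C
  refine ⟨max 1 (L + 2 * M), le_max_left _ _, ?_⟩
  intro U δ h hD z hz w hw
  have hp := hD.pos
  have hg := hD.lev (t := c / 4) (by linarith) (by linarith)
  have h1 := hL U _ h hg w hw z hz.1 hz.2
  have h2 := hM U _ h hg z hz w hw
  have h0 : 0 ≤ ‖z - w‖ := norm_nonneg _
  have hmax : L + 2 * M ≤ max 1 (L + 2 * M) := le_max_right _ _
  have e1 : δ z + c / 4 - (δ w + c / 4) = δ z - δ w := by ring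
  have h1' : |δ z - δ w| ≤ L * ‖z - w‖ := by
    rw [← e1]
    exact h1
  rw [norm_sub_rev w z] at h2
  have hb : (L + 2 * M) * ‖z - w‖ ≤ max 1 (L + 2 * M) * ‖z - w‖ :=
    mul_le_mul_of_nonneg_right hmax h0
  have hL1 : 0 ≤ L * ‖z - w‖ := mul_nonneg hL0.le h0
  have hM1 : 0 ≤ M * ‖z - w‖ := mul_nonneg hM0.le h0
  refine ⟨?_, ?_, ?_⟩
  · linarith
  · have h3 : ‖h z z - h w w‖ ≤ ‖h z z - h z w‖ + ‖h z w - h w w‖ := by
      have e : h z z - h w w = (h z z - h z w) + (h z w - h w w) := by abel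
      rw [e]
      exact norm_add_le _ _
    rw [norm_sub_rev (h z z) (h z w)] at h3
    linarith [h2.1, h2.2]
  · linarith [h2.1]

/-- PROOF. `CD_lip`, `‖dil s w - w‖ ≤ s C`. (`w`, `dil s w` are in `Om U (δ + c / 4)`: `dil_conc`.) -/
theorem dil_up (n : ℕ) (c C : ℝ) : ∃ L : ℝ, 1 ≤ L ∧ ∀ (U : Set (Ec n)) (δ : Ec n → ℝ)
    (h : Ec n → Ec n → Fin n → ℂ), CD U δ h c C → ∀ w ∈ Dk U δ c 0, ∀ s ∈ Icc (0 : ℝ) 1,
    |δ (dil s w) - δ w| ≤ L * s ∧ ‖h (dil s w) (dil s w) - h w w‖ ≤ L * s := by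
  obtain ⟨L, hL1, hL⟩ := CD_lip n c C
  refine ⟨L * max 1 C, ?_, ?_⟩
  · have h1 : (1 : ℝ) ≤ max 1 C := le_max_left _ _
    nlinarith
  intro U δ h hD w hw s hs
  obtain ⟨hs0, hs1⟩ := hs
  obtain ⟨hc, hc1, hC1⟩ := hD.pos
  have hb := Dk_basic hD hw
  rw [ek_zero] at hb
  have hco := dil_conc hD hw.1 hs0 hs1
  have hU := dil_U hD hw.1 hs0 hs1
  have hcs : 0 ≤ s * c := mul_nonneg hs0 hc.le
  have h1 : -(c / 8) ≤ (1 - s) * δ w := by
    have h2 := hb.2.1
    rcases le_or_gt 0 (δ w) with h3 | h3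
    · have h4 : 0 ≤ (1 - s) * δ w := mul_nonneg (by linarith) h3
      linarith
    · have h4 : δ w ≤ (1 - s) * δ w := by nlinarith
      linarith
  have hz : dil s w ∈ Om U (fun w => δ w + c / 4) := by
    refine ⟨hU, ?_⟩
    show 0 < δ (dil s w) + c / 4
    linarith
  have hw' : w ∈ Om U (fun w => δ w + c / 4) := by
    refine ⟨hw.1, ?_⟩
    show 0 < δ w + c / 4
    linarith [hb.2.1]
  have h2 := hL U δ h hD _ hz _ hw'
  have h3 : ‖dil s w - w‖ ≤ s * max 1 C := by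
    rw [dil_sub, norm_neg, norm_smul, Complex.norm_real, Real.norm_of_nonneg hs0]
    exact mul_le_mul_of_nonneg_left (hb.2.2.2.2.trans (le_max_right _ _)) hs0
  have h4 : L * ‖dil s w - w‖ ≤ L * max 1 C * s := by
    refine (mul_le_mul_of_nonneg_left h3 (by linarith)).trans (le_of_eq ?_)
    ring
  exact ⟨h2.1.trans h4, h2.2.1.trans h4⟩

end Pool.Agent.MPca0fc2.GW
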