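import Pool.Agent.Lib.MP_ca0fc2_an.Mg.G003
import Pool.Agent.Lib.MP_ca0fc2_an.Mg.G046

/-! Estimates for the derivatives of holomorphic discs in a strictly pseudoconvex domain. -/

set_option autoImplicit false

open Metric Set MeasureTheory Filter Topology

namespace Pool.Agent.MPca0fc2.GW

open Pool.Agent.MPca0fc2.FD
open Pool.Agent.Lib.MP_ca0fc2_an

variable {n : ℕ}

/-- PROOF. The Caratheodory inequality: `(G - G 0) / (G + conj (G 0))` maps the disc into the disc and vanishes at `0`; its derivative at `0` is `G' (0) / (2 Re G 0)` (Schwarz lemma). -/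
theorem carath {G : ℂ → ℂ} (hG : DifferentiableOn ℂ G (ball 0 1))
    (hre : ∀ x ∈ ball (0 : ℂ) 1, 0 ≤ (G x).re) (h0 : 0 < (G 0).re) :
    ‖deriv G 0‖ ≤ 2 * (G 0).re := by
  have h0m : (0 : ℂ) ∈ ball (0 : ℂ) 1 := mem_ball_self one_pos
  set b : ℂ := (starRingEnd ℂ) (G 0) with hb
  have hbre : b.re = (G 0).re := by simp [hb]
  have hbim : b.im = -(G 0).im := by simp [hb]
  have hden : ∀ x ∈ ball (0 : ℂ) 1, G x + b ≠ 0 := by
    intro x hx h
    have h1 := congrArg Complex.re h
    rw [Complex.add_re, hbre, Complex.zero_re] at h1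
    have := hre x hx
    linarith
  have hF : DifferentiableOn ℂ (fun x => (G x - G 0) / (G x + b)) (ball 0 1) :=
    (hG.sub_const _).div (hG.add_const _) hden
  have hmaps : MapsTo (fun x => (G x - G 0) / (G x + b)) (ball (0 : ℂ) 1)
      (closedBall ((fun x => (G x - G 0) / (G x + b)) 0) 1) := by
    intro x hx
    have e0 : (fun x => (G x - G 0) / (G x + b)) 0 = 0 := by simp
    rw [e0, mem_closedBall, dist_zero_right]
    show ‖(G x - G 0) / (G x + b)‖ ≤ 1
    rw [norm_div]
    apply div_le_one_of_le₀ _ (norm_nonneg _)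
    rw [← sq_le_sq₀ (norm_nonneg _) (norm_nonneg _), ← Complex.normSq_eq_norm_sq,
      ← Complex.normSq_eq_norm_sq, Complex.normSq_apply, Complex.normSq_apply]
    simp only [Complex.sub_re, Complex.sub_im, Complex.add_re, Complex.add_im, hbre, hbim]
    have := mul_nonneg (hre x hx) h0.le
    nlinarith
  have h1 := Complex.norm_deriv_le_div_of_mapsTo_ball hF hmaps one_pos
  have hGd : HasDerivAt G (deriv G 0) 0 :=
    (hG.differentiableAt (isOpen_ball.mem_nhds h0m)).hasDerivAt
  have hd : HasDerivAt (fun x => (G x - G 0) / (G x + b))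
      ((deriv G 0 * (G 0 + b) - (G 0 - G 0) * deriv G 0) / (G 0 + b) ^ 2) 0 :=
    (hGd.sub_const _).div (hGd.add_const _) (hden 0 h0m)
  rw [hd.deriv, sub_self, zero_mul, sub_zero] at h1
  have h2 : G 0 + b = ((2 * (G 0).re : ℝ) : ℂ) := by
    apply Complex.ext
    · rw [Complex.add_re, hbre, Complex.ofReal_re]; ring
    · rw [Complex.add_im, hbim, Complex.ofReal_im]; ring
  rw [h2, div_one, norm_div, norm_mul, norm_pow, Complex.norm_real, Real.norm_eq_abs,
    abs_of_pos (by linarith)] at h1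
  rw [div_le_one (by positivity)] at h1
  have h3 : ‖deriv G 0‖ * (2 * (G 0).re) ≤ (2 * (G 0).re) * (2 * (G 0).re) := by
    rw [← sq (2 * (G 0).re)]; exact h1
  exact le_of_mul_le_mul_right h3 (by linarith)

/-- The derivatives of holomorphic discs.
PROOF. Let `x = φ 0 ∈ D`, `ψ(lam) = ∑ h_k(φ lam, x) (x_k - φ_k lam)`, holomorphic on the disc (`SupportData.hol`). `SupportData.pos` with `z = φ lam`, `ζ = x`: `2 Re ψ lam ≥ ρ x - ρ (φ lam) + c ‖x - φ lam‖² ≥ - |ρ x| + c ‖x - φ lam‖²` (`ρ (φ lam) < 0`). `G = ψ + |ρ x| / 2`: `Re G ≥ (c / 2) ‖x - φ lam‖² ≥ 0`, `G 0 = |ρ x| / 2 > 0`,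
`G' 0 = - ∑ h_k(x, x) φ_k' (0)`, so `carath` gives the first inequality. For the second one: for `0 < s < 1` the mean of `Re G` over the circle `|lam| = s` is `|ρ x| / 2` (mean value property, e.g. `circleAverage` or the Cauchy integral), so the mean of `‖φ lam - x‖²` is at most `|ρ x| / c`;
`s φ' (0)` is the mean of `(φ lam - x) conj lam / s` (Cauchy), so `s² ‖φ' 0‖² ≤ (mean ‖φ lam - x‖)² ≤ mean ‖φ lam - x‖² ≤ |ρ x| / c`; let `s → 1`. -/
theorem disc_kob {D U : Set (Ec n)} {ρ : Ec n → ℝ} {h : Ec n → Ec n → Fin n → ℂ} {c : ℝ}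
    (hs : SupportData D U ρ h c) {φ : ℂ → Ec n} (hφ : DifferentiableOn ℂ φ (ball 0 1))
    (hD : ∀ x ∈ ball (0 : ℂ) 1, φ x ∈ D) :
    ‖∑ k, h (φ 0) (φ 0) k * (deriv φ 0) k‖ ≤ |ρ (φ 0)| ∧
      c * ‖deriv φ 0‖ ^ 2 ≤ |ρ (φ 0)| := by
  have h0m : (0 : ℂ) ∈ ball (0 : ℂ) 1 := mem_ball_self one_pos
  have hDU : ∀ z ∈ D, z ∈ U := by
    intro z hz
    rw [hs.eq] at hz
    exact hz.1
  have hDρ : ∀ z ∈ D, ρ z < 0 := by
    intro z hz
    rw [hs.eq] at hz
    exact hz.2
  have hxD := hD 0 h0m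
  have hx0 := hDρ _ hxD
  have hxU := hDU _ hxD
  set x := φ 0 with hx
  set G : ℂ → ℂ := fun w => (∑ k, h (φ w) x k * (x k - φ w k)) + ((|ρ x| / 2 : ℝ) : ℂ) with hGdef
  have habs : |ρ x| = - ρ x := abs_of_neg hx0
  have hφk : ∀ k, DifferentiableOn ℂ (fun w => φ w k) (ball 0 1) := fun k => by
    have := (EuclideanSpace.proj k : Ec n →L[ℂ] ℂ).differentiable
    exact this.comp_differentiableOn hφ
  have hmaps : MapsTo φ (ball (0 : ℂ) 1) U := fun w hw => hDU _ (hD w hw)
  have hhk : ∀ k, DifferentiableOn ℂ (fun w => h (φ w) x k) (ball 0 1) := fun k => by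
    have h1 : DifferentiableOn ℂ (fun w => h (φ w) x) (ball 0 1) :=
      (hs.hol x hxU).comp hφ hmaps
    exact (differentiableOn_pi.1 h1) k
  have hG : DifferentiableOn ℂ G (ball 0 1) := by
    apply DifferentiableOn.add_const
    apply DifferentiableOn.fun_sum
    intro k _
    exact (hhk k).mul ((hφk k).const_sub _)
  have hG0 : G 0 = ((|ρ x| / 2 : ℝ) : ℂ) := by
    simp [hGdef, ← hx]
  have hGre : ∀ w ∈ ball (0 : ℂ) 1, c * ‖x - φ w‖ ^ 2 ≤ 2 * (G w).re := by
    intro w hw
    have h1 := hs.pos (φ w) (hmaps hw) x hxU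
    have h2 := hDρ _ (hD w hw)
    simp only [hGdef, Complex.add_re, Complex.ofReal_re]
    rw [habs]
    linarith
  have hc := hs.c0
  constructor
  · have h1 := carath hG (fun w hw => by
      have := hGre w hw
      have h3 : 0 ≤ c * ‖x - φ w‖ ^ 2 := by positivity
      linarith) (by rw [hG0, Complex.ofReal_re]; rw [habs]; linarith)
    rw [hG0, Complex.ofReal_re] at h1
    have hder : HasDerivAt G (∑ k, -(h x x k * deriv φ 0 k)) 0 := by
      apply HasDerivAt.add_const
      apply HasDerivAt.fun_sum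
      intro k _
      have e1 : HasDerivAt (fun w => h (φ w) x k) (deriv (fun w => h (φ w) x k) 0) 0 :=
        ((hhk k).differentiableAt (isOpen_ball.mem_nhds h0m)).hasDerivAt
      have e2 : HasDerivAt (fun w => φ w k) (deriv φ 0 k) 0 := by
        have e3 : HasDerivAt φ (deriv φ 0) 0 :=
          (hφ.differentiableAt (isOpen_ball.mem_nhds h0m)).hasDerivAt
        exact (EuclideanSpace.proj k : Ec n →L[ℂ] ℂ).hasFDerivAt.comp_hasDerivAt (0 : ℂ) e3
      have e4 := e1.mul (e2.const_sub (x k))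
      have e5 : deriv (fun w => h (φ w) x k) 0 * (x k - φ 0 k) + h (φ 0) x k * -deriv φ 0 k
          = -(h x x k * deriv φ 0 k) := by
        rw [← hx]; ring
      rw [← e5]
      exact e4
    rw [hder.deriv, Finset.sum_neg_distrib, norm_neg] at h1
    linarith
  · set u := deriv φ 0 with hu
    have key : ∀ s ∈ Ioo (0 : ℝ) 1, c * s ^ 2 * ‖u‖ ^ 2 ≤ |ρ x| := by
      intro s hs1
      set g : ℂ → ℂ := fun w => inner ℂ u (φ w) with hg
      have hgd : DifferentiableOn ℂ g (ball 0 1) := by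
        exact (innerSL ℂ u).differentiable.comp_differentiableOn hφ
      have hgder : deriv g 0 = ((‖u‖ ^ 2 : ℝ) : ℂ) := by
        have e3 : HasDerivAt φ (deriv φ 0) 0 :=
          (hφ.differentiableAt (isOpen_ball.mem_nhds h0m)).hasDerivAt
        have e4 : HasDerivAt g (inner ℂ u (deriv φ 0)) 0 :=
          (innerSL ℂ u).hasFDerivAt.comp_hasDerivAt (0 : ℂ) e3
        rw [e4.deriv, ← hu, inner_self_eq_norm_sq_to_K]
        push_cast
        rfl
      set K : ℂ → ℂ := fun w => 2 * G w - ((2 * c * s ^ 2 : ℝ) : ℂ) * dslope g 0 w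
        + ((c * s ^ 2 * ‖u‖ ^ 2 : ℝ) : ℂ) with hK
      have hdg : DifferentiableOn ℂ (dslope g 0) (ball 0 1) :=
        (Complex.differentiableOn_dslope (isOpen_ball.mem_nhds h0m)).2 hgd
      have hKd : DifferentiableOn ℂ K (ball 0 1) :=
        ((hG.const_mul 2).sub (hdg.const_mul _)).add_const _
      have hEd : DifferentiableOn ℂ (fun w => Complex.exp (-K w)) (ball 0 1) := hKd.neg.cexp
      have hEc : DiffContOnCl ℂ (fun w => Complex.exp (-K w)) (ball 0 s) :=
        hEd.diffContOnCl_ball (closedBall_subset_ball hs1.2)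
      have hbd : ∀ w ∈ frontier (ball (0 : ℂ) s), ‖Complex.exp (-K w)‖ ≤ 1 := by
        intro w hw
        rw [frontier_ball (0 : ℂ) hs1.1.ne', mem_sphere, dist_zero_right] at hw
        have hw1 : w ∈ ball (0 : ℂ) 1 := by rw [mem_ball, dist_zero_right, hw]; exact hs1.2
        have hw0 : w ≠ 0 := by
          rintro rfl
          rw [norm_zero] at hw
          exact hs1.1.ne hw
        rw [Complex.norm_exp, Complex.neg_re]
        rw [Real.exp_le_one_iff]
        have e1 : dslope g 0 w = inner ℂ u (φ w - x) / w := by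
          rw [dslope_of_ne _ hw0, slope_def_field, sub_zero]
          simp only [hg, inner_sub_right, ← hx]
        have e2 : (w * (starRingEnd ℂ) w) = ((s ^ 2 : ℝ) : ℂ) := by
          rw [Complex.mul_conj, Complex.normSq_eq_norm_sq, hw]
        have e3 : ((s ^ 2 : ℝ) : ℂ) * dslope g 0 w = inner ℂ (w • u) (φ w - x) := by
          rw [e1, inner_smul_left, ← e2]
          field_simp
        have e4 : ‖φ w - x - w • u‖ ^ 2 = ‖φ w - x‖ ^ 2 - 2 * (inner ℂ (w • u) (φ w - x)).re
            + s ^ 2 * ‖u‖ ^ 2 := by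
          have := @norm_sub_sq ℂ (Ec n) _ _ _ (φ w - x) (w • u)
          rw [this, norm_smul, hw, mul_pow]
          have e6 : RCLike.re (inner ℂ (φ w - x) (w • u)) = (inner ℂ (w • u) (φ w - x)).re := by
            rw [inner_re_symm]; rfl
          rw [e6]
        have e5 : (K w).re = 2 * (G w).re - 2 * c * (inner ℂ (w • u) (φ w - x)).re
            + c * s ^ 2 * ‖u‖ ^ 2 := by
          have e7 : ((2 * c * s ^ 2 : ℝ) : ℂ) * dslope g 0 w
              = ((2 * c : ℝ) : ℂ) * inner ℂ (w • u) (φ w - x) := by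
            rw [← e3]; push_cast; ring
          simp only [hK]
          rw [e7]
          rw [Complex.add_re, Complex.sub_re, Complex.re_ofReal_mul, Complex.ofReal_re]
          have : (2 * G w).re = 2 * (G w).re := by
            rw [show (2 : ℂ) = ((2 : ℝ) : ℂ) by norm_num, Complex.re_ofReal_mul]
          rw [this]
        have e8 := hGre w hw1
        have e9 : 0 ≤ ‖φ w - x - w • u‖ ^ 2 := sq_nonneg _
        rw [e4] at e9
        rw [norm_sub_rev x] at e8
        rw [e5]
        nlinarith [mul_nonneg hc.le e9]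
      have h3 := Complex.norm_le_of_forall_mem_frontier_norm_le isBounded_ball hEc hbd
        (subset_closure (mem_ball_self hs1.1))
      rw [Complex.norm_exp, Complex.neg_re, Real.exp_le_one_iff] at h3
      have h4 : (K 0).re = |ρ x| - c * s ^ 2 * ‖u‖ ^ 2 := by
        simp only [hK]
        rw [hG0, dslope_same, hgder]
        have : (2 * ((|ρ x| / 2 : ℝ) : ℂ) - ((2 * c * s ^ 2 : ℝ) : ℂ) * ((‖u‖ ^ 2 : ℝ) : ℂ)
            + ((c * s ^ 2 * ‖u‖ ^ 2 : ℝ) : ℂ)) = ((|ρ x| - c * s ^ 2 * ‖u‖ ^ 2 : ℝ) : ℂ) := by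
          push_cast; ring
        rw [this, Complex.ofReal_re]
      rw [h4] at h3
      linarith
    have ht : Tendsto (fun s : ℝ => c * s ^ 2 * ‖u‖ ^ 2) (𝓝[<] 1) (𝓝 (c * 1 ^ 2 * ‖u‖ ^ 2)) := by
      apply Tendsto.mono_left _ nhdsWithin_le_nhds
      apply Continuous.tendsto
      fun_prop
    have h5 := le_of_tendsto ht (by
      filter_upwards [Ioo_mem_nhdsLT (zero_lt_one (α := ℝ))] with s hs1 using key s hs1)
    simpa using h5

/-- PROOF. `D` is bounded, `ρ` is of class `C²` on a neighbourhood `U` of the compact closure of `D` (`sup_closure` in `FD/T1.lean`), so `‖dρ‖ ≤ L` on `closure D`. For `z ∈ D` the distance to `Dᶜ` (closed, nonempty if `n ≥ 1`; for `n = 0` or `D = ∅` the statement must be checked separately: if `n = 0`, `Dᶜ` may be empty, then `D = univ` and `ρ z = 0`-like problems are excluded by the hypothesis `hn`) is attained at a point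
`y ∈ Dᶜ`; the half open segment from `z` to `y` is in `D` (it is in the ball of radius `infDist` around `z`, which is contained in `D`), so `y ∈ closure D`, `ρ y = 0` (`y ∉ D`), and `|ρ z| = |ρ z - ρ y| ≤ L ‖z - y‖` (mean value theorem on the segment, which is in `closure D ⊆ U`). -/
theorem rho_le_dist (hn : 1 ≤ n) {D U : Set (Ec n)} {ρ : Ec n → ℝ} {h : Ec n → Ec n → Fin n → ℂ}
    {c : ℝ} (hs : SupportData D U ρ h c) : ∃ L : ℝ, 1 ≤ L ∧ ∀ z ∈ D, |ρ z| ≤ L * infDist z Dᶜ ∧
      0 < infDist z Dᶜ ∧ infDist z Dᶜ ≤ L := by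
  have hcl : closure D = {z | z ∈ U ∧ ρ z ≤ 0} := sup_closure hs
  have hK : IsCompact (closure D) := by rw [hcl]; exact hs.cpt
  have hKU : closure D ⊆ U := by rw [hcl]; exact fun z hz => hz.1
  have hDb : Bornology.IsBounded D := hK.isBounded.subset subset_closure
  have hcont : ContinuousOn (fderiv ℝ ρ) U :=
    hs.dρ.continuousOn_fderiv_of_isOpen hs.opn (by norm_num)
  have hdiff : ∀ z ∈ U, HasFDerivAt ρ (fderiv ℝ ρ z) z := fun z hz =>
    ((hs.dρ.contDiffAt (hs.opn.mem_nhds hz)).differentiableAt (by norm_num)).hasFDerivAt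
  have hDo : IsOpen D := by
    rw [hs.eq]
    exact hs.dρ.continuousOn.isOpen_inter_preimage hs.opn isOpen_Iio
  obtain ⟨M, hM⟩ := hK.exists_bound_of_continuousOn (hcont.mono hKU)
  have : Nonempty (Fin n) := ⟨⟨0, hn⟩⟩
  have : Nontrivial (Ec n) := by
    refine ⟨⟨EuclideanSpace.single ⟨0, hn⟩ (1 : ℂ), 0, ?_⟩⟩
    intro h1
    have h2 := congrArg (fun v : Ec n => v ⟨0, hn⟩) h1
    simp at h2
  have hne : (Dᶜ).Nonempty := by
    rw [nonempty_compl]
    intro h1
    rw [h1] at hDb
    exact NormedSpace.unbounded_univ ℂ (Ec n) hDb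
  obtain ⟨y0, hy0⟩ := hne
  obtain ⟨R, hR⟩ := hDb.subset_closedBall y0
  refine ⟨max 1 (max M R), le_max_left _ _, fun z hz => ⟨?_, ?_, ?_⟩⟩
  · obtain ⟨y, hy, hyd⟩ := hDo.isClosed_compl.exists_infDist_eq_dist ⟨y0, hy0⟩ z
    have hseg : ∀ w ∈ segment ℝ z y, w ∈ closure D := by
      have h1 : ∀ t ∈ Ico (0 : ℝ) 1, AffineMap.lineMap z y t ∈ D := by
        intro t ht
        by_contra hcon
        have h2 : infDist z Dᶜ ≤ dist z (AffineMap.lineMap z y t) := infDist_le_dist_of_mem hcon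
        rw [dist_left_lineMap, Real.norm_eq_abs, abs_of_nonneg ht.1, hyd] at h2
        have h3 : 0 < dist z y := by
          rw [← hyd]
          exact (hDo.isClosed_compl.notMem_iff_infDist_pos ⟨y0, hy0⟩).1 (fun h => h hz)
        nlinarith [ht.2]
      rw [segment_eq_image_lineMap]
      rintro _ ⟨t, ht, rfl⟩
      rcases ht.2.lt_or_eq with h2 | h2
      · exact subset_closure (h1 t ⟨ht.1, h2⟩)
      · subst h2
        have hc : Continuous (fun t : ℝ => AffineMap.lineMap z y t) := by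
          exact AffineMap.lineMap_continuous
        have h3 : Tendsto (fun t : ℝ => AffineMap.lineMap z y t) (𝓝[<] 1)
            (𝓝 (AffineMap.lineMap z y (1 : ℝ))) := (hc.tendsto 1).mono_left nhdsWithin_le_nhds
        apply mem_closure_of_tendsto h3
        filter_upwards [Ioo_mem_nhdsLT (zero_lt_one (α := ℝ))] with s hs1
        exact h1 s ⟨hs1.1.le, hs1.2⟩
    have hyc : y ∈ closure D := hseg y (right_mem_segment ℝ z y)
    have hy1 : ρ y = 0 := by
      have h1 := hyc
      rw [hcl] at h1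
      have h2 : ¬ ρ y < 0 := fun h3 => hy (by rw [hs.eq]; exact ⟨h1.1, h3⟩)
      linarith [h1.2, not_lt.1 h2]
    have h4 := (convex_segment (𝕜 := ℝ) z y).norm_image_sub_le_of_norm_hasFDerivWithin_le
      (f := ρ) (f' := fderiv ℝ ρ) (C := M)
      (fun w hw => (hdiff w (hKU (hseg w hw))).hasFDerivWithinAt)
      (fun w hw => hM w (hseg w hw)) (right_mem_segment ℝ z y) (left_mem_segment ℝ z y)
    rw [hy1, sub_zero, Real.norm_eq_abs, ← dist_eq_norm, ← hyd] at h4
    exact h4.trans (mul_le_mul_of_nonneg_right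
      ((le_max_left _ _).trans (le_max_right _ _)) infDist_nonneg)
  · exact (hDo.isClosed_compl.notMem_iff_infDist_pos ⟨y0, hy0⟩).1 (fun h => h hz)
  · exact (infDist_le_dist_of_mem hy0).trans ((hR hz).trans
      ((le_max_right _ _).trans (le_max_right _ _)))

end Pool.Agent.MPca0fc2.GW
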