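import Pool.Agent.Lib.MP_ca0fc2_an.GW.M2a

/-! A convex domain with a given piece of boundary. -/

set_option autoImplicit false

open Metric Set MeasureTheory Filter Topology

namespace Pool.Agent.MPca0fc2.GW

open Pool.Agent.MPca0fc2.FD

variable {n : ℕ}

theorem M2b_H {f : Ec n → ℝ} {a : ℝ} (h3 : ContDiffOn ℝ 3 f (ball 0 a)) :
    ContDiffOn ℝ 2 (fun x => hq f x) (ball (0 : Ec n) a) := by
  have hcf : ContDiffOn ℝ 2 (fderiv ℝ f) (ball 0 a) :=
    h3.fderiv_of_isOpen isOpen_ball (by norm_num)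
  refine contDiffOn_pi.2 fun k => ?_
  have h1 : ∀ X : Ec n, ContDiffOn ℝ 2 (fun x => ((fderiv ℝ f x X : ℝ) : ℂ)) (ball 0 a) := by
    intro X
    exact Complex.ofRealCLM.contDiff.comp_contDiffOn (hcf.clm_apply contDiffOn_const)
  exact contDiffOn_const.mul ((h1 (ee k)).sub (contDiffOn_const.mul (h1 (Complex.I • ee k))))

theorem M2b_cd {f : Ec n → ℝ} {a c₁ M r₂ r' c : ℝ} {x₀ : Ec n} (h3 : ContDiffOn ℝ 3 f (ball 0 a))
    (hcv : ∀ x ∈ ball (0 : Ec n) a, ∀ y ∈ ball (0 : Ec n) a,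
      f x + fderiv ℝ f x (y - x) + c₁ * ‖y - x‖ ^ 2 ≤ f y)
    (c0 : 0 < c) (c1 : c ≤ 1) (cc : c ≤ c₁) (h2c : r₂ + c ≤ r') (hra : r' < a)
    (hx1 : ‖x₀‖ + r' ≤ 1) (hx0 : x₀ ∈ ball (0 : Ec n) r')
    (hbig : ∀ x : Ec n, r₂ ≤ ‖x‖ → ‖x‖ ≤ r' → 1 ≤ f x) (hlow : ∀ x ∈ closedBall (0 : Ec n) r', - f x ≤ M)
    (hc : c * (4 * ((n : ℝ) + 1)) ≤ - f x₀) :
    ∃ C : ℝ, CD {y | x₀ + y ∈ ball (0 : Ec n) r'} (fun y => - f (x₀ + y))
      (fun _ ζ k => hq f (x₀ + ζ) k) c C := by
  have hsub : closedBall (0 : Ec n) r' ⊆ ball 0 a := closedBall_subset_ball hra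
  have hbs : ball (0 : Ec n) r' ⊆ ball 0 a := ball_subset_ball hra.le
  have hH := M2b_H h3
  have hHd : ContDiffOn ℝ 1 (fderiv ℝ (fun x => hq f x)) (ball 0 a) :=
    hH.fderiv_of_isOpen isOpen_ball (by norm_num)
  have hn0 : (0 : ℝ) ≤ n := Nat.cast_nonneg n
  have hfx : c ≤ - f x₀ := by nlinarith
  obtain ⟨M3, hM3⟩ := (isCompact_closedBall (0 : Ec n) r').exists_bound_of_continuousOn
    (hH.continuousOn.mono hsub)
  have hcn0 : Continuous (fun L : Ec n →L[ℝ] (Fin n → ℂ) => ‖L‖) :=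
    @continuous_norm (Ec n →L[ℝ] (Fin n → ℂ)) _
  have hcn : ContinuousOn (fun y => ‖fderiv ℝ (fun x => hq f x) y‖) (closedBall (0 : Ec n) r') :=
    hcn0.comp_continuousOn (hHd.continuousOn.mono hsub)
  obtain ⟨M4, hM4'⟩ := (isCompact_closedBall (0 : Ec n) r').exists_bound_of_continuousOn hcn
  have hM4 : ∀ y ∈ closedBall (0 : Ec n) r', ‖fderiv ℝ (fun x => hq f x) y‖ ≤ M4 := fun y hy => by
    have := hM4' y hy
    rw [Real.norm_eq_abs] at this
    exact (le_abs_self _).trans this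
  set C := max (max M3 M4) (max (M + 1) 1) with hC
  have hC3 : M3 ≤ C := (le_max_left _ _).trans (le_max_left _ _)
  have hC4 : M4 ≤ C := (le_max_right _ _).trans (le_max_left _ _)
  have hCM : M + 1 ≤ C := (le_max_left _ _).trans (le_max_right _ _)
  have hC1 : 1 ≤ C := (le_max_right _ _).trans (le_max_right _ _)
  have hopen : IsOpen {y : Ec n | x₀ + y ∈ ball (0 : Ec n) r'} :=
    isOpen_ball.preimage (by fun_prop)
  have hdf : ∀ y ∈ ball (0 : Ec n) a, DifferentiableAt ℝ f y := fun y hy =>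
    (h3.differentiableOn (by norm_num)).differentiableAt (isOpen_ball.mem_nhds hy)
  have hr2 : ∀ x ∈ ball (0 : Ec n) r', f x < 1 → ‖x‖ < r₂ := by
    intro x hx hfx1
    by_contra h
    have := hbig x (not_lt.1 h) (mem_ball_zero_iff.1 hx).le
    linarith
  have htr : ContDiff ℝ 3 (fun y : Ec n => x₀ + y) := contDiff_const.add contDiff_id
  have hgrad : ∀ z : Ec n, x₀ + z ∈ ball (0 : Ec n) r' → HasFDerivAt (fun y => - f (x₀ + y))
      (-(fderiv ℝ f (x₀ + z))) z := by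
    intro z hz
    have h1 : HasFDerivAt (fun y : Ec n => x₀ + y) (ContinuousLinearMap.id ℝ (Ec n)) z :=
      (hasFDerivAt_id z).const_add x₀
    have h2 := ((hdf _ (hbs hz)).hasFDerivAt.comp z h1).neg
    rw [ContinuousLinearMap.comp_id] at h2
    exact h2
  refine ⟨C, ?_, ?_, ?_, ?_, ?_⟩
  · refine
      { c0 := c0
        c1 := c1
        C1 := hC1
        opn := hopen
        nb := ?_
        bz := ?_
        cpt := ?_
        dδ := ?_
        dh := ?_
        hol := ?_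
        bδ := ?_
        bh := ?_
        bdh := ?_
        grad := ?_
        pos := ?_
        nd := ?_ }
    · intro z hz h0 w hw
      have h0' : 0 < - f (x₀ + z) + c / 2 := h0
      have h1 := hr2 (x₀ + z) hz (by linarith)
      have h2 : ‖w - z‖ < c := by rw [← dist_eq_norm]; exact hw
      have h3' : x₀ + w = (x₀ + z) + (w - z) := by abel
      show x₀ + w ∈ ball (0 : Ec n) r'
      rw [mem_ball_zero_iff, h3']
      have := norm_add_le (x₀ + z) (w - z)
      linarith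
    · intro z hz
      have h1 : ‖x₀ + z‖ < r' := mem_ball_zero_iff.1 hz
      have h2 : z = (x₀ + z) - x₀ := by abel
      have h4 := norm_sub_le (x₀ + z) x₀
      rw [← h2] at h4
      linarith
    · have e : {z : Ec n | z ∈ {y : Ec n | x₀ + y ∈ ball (0 : Ec n) r'} ∧ 0 ≤ - f (x₀ + z) + c / 2} =
          (fun x => x - x₀) '' (closedBall (0 : Ec n) r₂ ∩ f ⁻¹' Iic (c / 2)) := by
        ext z
        constructor
        · rintro ⟨hz, h0⟩
          refine ⟨x₀ + z, ⟨?_, ?_⟩, by simp⟩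
          · rw [mem_closedBall_zero_iff]
            exact (hr2 _ hz (by linarith)).le
          · show f (x₀ + z) ≤ c / 2
            linarith
        · rintro ⟨x, ⟨hx, h0⟩, rfl⟩
          have h0' : f x ≤ c / 2 := h0
          have h1 : x₀ + (x - x₀) = x := by abel
          refine ⟨?_, ?_⟩
          · show x₀ + (x - x₀) ∈ ball (0 : Ec n) r'
            rw [h1, mem_ball_zero_iff]
            have := mem_closedBall_zero_iff.1 hx
            linarith
          · show 0 ≤ - f (x₀ + (x - x₀)) + c / 2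
            rw [h1]
            linarith
      show IsCompact {z : Ec n | z ∈ {y : Ec n | x₀ + y ∈ ball (0 : Ec n) r'} ∧ 0 ≤ - f (x₀ + z) + c / 2}
      rw [e]
      refine IsCompact.image ?_ (by fun_prop)
      have hc2 : closedBall (0 : Ec n) r₂ ⊆ ball 0 a := closedBall_subset_ball (by linarith)
      have hcl := (h3.continuousOn.mono hc2).preimage_isClosed_of_isClosed isClosed_closedBall
        (isClosed_Iic (a := c / 2))
      exact (isCompact_closedBall (0 : Ec n) r₂).of_isClosed_subset hcl inter_subset_left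
    · have h1 : ContDiffOn ℝ 2 (fun y : Ec n => f (x₀ + y)) {y | x₀ + y ∈ ball (0 : Ec n) r'} :=
        (h3.of_le (by norm_num)).comp (htr.of_le (by norm_num)).contDiffOn (fun y hy => hbs hy)
      exact h1.neg.add contDiffOn_const
    · have h1 : ContDiff ℝ 2 (fun p : Ec n × Ec n => x₀ + p.2) := contDiff_const.add contDiff_snd
      exact hH.comp h1.contDiffOn (fun p hp => hbs hp.2)
    · intro ζ hζ
      exact differentiableOn_const _
    · intro z hz
      have h1 := hlow (x₀ + z) (ball_subset_closedBall hz)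
      show - f (x₀ + z) + c / 2 ≤ C
      linarith
    · intro z hz ζ hζ
      exact (hM3 _ (ball_subset_closedBall hζ)).trans hC3
    · intro z hz ζ hζ
      have h1 : HasFDerivAt (fun p : Ec n × Ec n => x₀ + p.2)
          (ContinuousLinearMap.snd ℝ (Ec n) (Ec n)) (z, ζ) :=
        hasFDerivAt_snd.const_add x₀
      have h2 : DifferentiableAt ℝ (fun x => hq f x) (x₀ + ζ) :=
        (hH.differentiableOn (by norm_num)).differentiableAt (isOpen_ball.mem_nhds (hbs hζ))
      have h4 : HasFDerivAt (fun p : Ec n × Ec n => hq f (x₀ + p.2))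
          ((fderiv ℝ (fun x => hq f x) (x₀ + ζ)).comp (ContinuousLinearMap.snd ℝ (Ec n) (Ec n))) (z, ζ) :=
        HasFDerivAt.comp (g := fun x => hq f x) (f := fun p : Ec n × Ec n => x₀ + p.2) (z, ζ)
          h2.hasFDerivAt h1
      have h5 : fderiv ℝ (fun p : Ec n × Ec n => (fun k => hq f (x₀ + p.2) k)) (z, ζ) = _ := h4.fderiv
      rw [h5]
      refine (ContinuousLinearMap.opNorm_comp_le _ _).trans ?_
      have h6 := hM4 _ (ball_subset_closedBall hζ)
      have h7 : ‖ContinuousLinearMap.snd ℝ (Ec n) (Ec n)‖ ≤ 1 := ContinuousLinearMap.norm_snd_le ℝ _ _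
      have h8 : 0 ≤ ‖fderiv ℝ (fun x => hq f x) (x₀ + ζ)‖ := norm_nonneg _
      have h9 : 0 ≤ ‖ContinuousLinearMap.snd ℝ (Ec n) (Ec n)‖ := norm_nonneg _
      calc _ ≤ M4 * 1 := mul_le_mul h6 h7 h9 (h8.trans h6)
        _ ≤ C := by rw [mul_one]; exact hC4
    · intro z hz X
      have h1 := ((hgrad z hz).add_const (c / 2)).fderiv
      rw [h1]
      have h2 := pdq_sum f (x₀ + z) X
      show -(fderiv ℝ f (x₀ + z)) X = -2 * (∑ k, hq f (x₀ + z) k * X k).re
      rw [h2.1, h2.2]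
      ring
    · intro z hz ζ hζ
      have h1 := hcv (x₀ + ζ) (hbs hζ) (x₀ + z) (hbs hz)
      have h2 := pdq_sum f (x₀ + ζ) (ζ - z)
      have e1 : x₀ + z - (x₀ + ζ) = -(ζ - z) := by abel
      rw [e1, map_neg, norm_neg] at h1
      have h4 : (vv (fun z => - f (x₀ + z) + c / 2) (fun _ ζ k => hq f (x₀ + ζ) k) z ζ).re =
          (- f (x₀ + ζ) + c / 2) + (pdq f (x₀ + ζ) (ζ - z)).re := by
        unfold vv
        rw [← h2.1, Complex.add_re, Complex.ofReal_re]
        rfl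
      rw [h4]
      show - f (x₀ + z) + c / 2 + (- f (x₀ + ζ) + c / 2) + c * ‖ζ - z‖ ^ 2 ≤ _
      have h5 : c * ‖ζ - z‖ ^ 2 ≤ c₁ * ‖ζ - z‖ ^ 2 := mul_le_mul_of_nonneg_right cc (sq_nonneg _)
      have h6 := h2.2
      linarith
    · intro z hz h0 h1
      have h0' : 0 < - f (x₀ + z) + c / 2 := h0
      have h1' : - f (x₀ + z) + c / 2 < c := h1
      by_contra hlt
      rw [not_le] at hlt
      have h2 := hcv (x₀ + z) (hbs hz) x₀ (hbs hx0)
      have e1 : x₀ - (x₀ + z) = -z := by abel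
      rw [e1, map_neg, norm_neg] at h2
      have h4 := pdq_sum f (x₀ + z) z
      have hz1 : ‖z‖ ≤ 1 := by
        have h1 : ‖x₀ + z‖ < r' := mem_ball_zero_iff.1 hz
        have h2 : z = (x₀ + z) - x₀ := by abel
        have h4 := norm_sub_le (x₀ + z) x₀
        rw [← h2] at h4
        linarith
      have h5 : ‖pdq f (x₀ + z) z‖ ≤ n * c := by
        rw [← h4.1]
        refine (norm_sum_le _ _).trans ?_
        have h6 : ∀ k ∈ (Finset.univ : Finset (Fin n)), ‖hq f (x₀ + z) k * z k‖ ≤ c := by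
          intro k _
          rw [norm_mul]
          have h7 : ‖hq f (x₀ + z) k‖ ≤ ‖(fun k => hq f (x₀ + z) k)‖ :=
            norm_le_pi_norm (fun k => hq f (x₀ + z) k) k
          have h8 : ‖z k‖ ≤ ‖z‖ := PiLp.norm_apply_le z k
          have h9 : ‖hq f (x₀ + z) k‖ ≤ c := h7.trans hlt.le
          calc _ ≤ c * 1 := mul_le_mul h9 (h8.trans hz1) (norm_nonneg _) c0.le
            _ = c := mul_one c
        refine (Finset.sum_le_card_nsmul _ _ _ h6).trans ?_
        rw [Finset.card_univ, Fintype.card_fin, nsmul_eq_mul]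
      have h6 : (pdq f (x₀ + z) z).re ≤ n * c := (Complex.re_le_norm _).trans h5
      have h7 : 0 ≤ c₁ * ‖z‖ ^ 2 := by
        have : 0 ≤ c₁ := by linarith
        positivity
      have h8 := h4.2
      nlinarith
  · intro y hy z hz s t hs ht hst
    show x₀ + (s • y + t • z) ∈ ball (0 : Ec n) r'
    have e : x₀ + (s • y + t • z) = s • (x₀ + y) + t • (x₀ + z) := by
      rw [smul_add, smul_add]
      have : x₀ = s • x₀ + t • x₀ := by rw [← add_smul, hst, one_smul]
      nth_rewrite 1 [this]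
      abel
    rw [e]
    exact convex_ball (0 : Ec n) r' hy hz hs ht hst
  · have hcvx : Convex ℝ {y : Ec n | x₀ + y ∈ ball (0 : Ec n) r'} := by
      intro y hy z hz s t hs ht hst
      show x₀ + (s • y + t • z) ∈ ball (0 : Ec n) r'
      have e : x₀ + (s • y + t • z) = s • (x₀ + y) + t • (x₀ + z) := by
        rw [smul_add, smul_add]
        have : x₀ = s • x₀ + t • x₀ := by rw [← add_smul, hst, one_smul]
        nth_rewrite 1 [this]
        abel
      rw [e]
      exact convex_ball (0 : Ec n) r' hy hz hs ht hst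
    refine ⟨hcvx, fun y hy z hz s t hs ht hst => ?_⟩
    have hw := hcvx hy hz hs ht hst
    set w := s • y + t • z with hw0
    have hc1 : 0 ≤ c₁ := by linarith
    have h1 := hcv (x₀ + w) (hbs hw) (x₀ + y) (hbs hy)
    have h2 := hcv (x₀ + w) (hbs hw) (x₀ + z) (hbs hz)
    have e1 : x₀ + y - (x₀ + w) = y - w := by abel
    have e2 : x₀ + z - (x₀ + w) = z - w := by abel
    rw [e1] at h1
    rw [e2] at h2
    have h4 : s * fderiv ℝ f (x₀ + w) (y - w) + t * fderiv ℝ f (x₀ + w) (z - w) = 0 := by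
      have e3 : s • (y - w) + t • (z - w) = 0 := by
        rw [smul_sub, smul_sub]
        have : w = s • w + t • w := by rw [← add_smul, hst, one_smul]
        have e4 : s • y - s • w + (t • z - t • w) = (s • y + t • z) - (s • w + t • w) := by abel
        rw [e4, ← this, ← hw0, sub_self]
      have e5 := congrArg (fderiv ℝ f (x₀ + w)) e3
      rw [map_add, map_smul, map_smul, map_zero, smul_eq_mul, smul_eq_mul] at e5
      exact e5
    show s • (- f (x₀ + y)) + t • (- f (x₀ + z)) ≤ - f (x₀ + w)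
    rw [smul_eq_mul, smul_eq_mul]
    have h5 : 0 ≤ c₁ * ‖y - w‖ ^ 2 := by positivity
    have h6 : 0 ≤ c₁ * ‖z - w‖ ^ 2 := by positivity
    have h7 := mul_le_mul_of_nonneg_left (a := s) (by linarith : f (x₀ + w) + fderiv ℝ f (x₀ + w) (y - w) ≤ f (x₀ + y)) hs
    have h8 := mul_le_mul_of_nonneg_left (a := t) (by linarith : f (x₀ + w) + fderiv ℝ f (x₀ + w) (z - w) ≤ f (x₀ + z)) ht
    have h9 : f (x₀ + w) = s * f (x₀ + w) + t * f (x₀ + w) := by rw [← add_mul, hst, one_mul]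
    linarith
  · show x₀ + 0 ∈ ball (0 : Ec n) r'
    rw [add_zero]
    exact hx0
  · show c ≤ - f (x₀ + 0)
    rw [add_zero]
    exact hfx

/-- The convex domain.
PROOF. Radii: `r₁ = a / 4 < r₂ = a / 2 < r' = 5 a / 8 < r₃ = 3 a / 4`; the `a₁` of the statement is `r₁` and the `a₂` of the statement is `r'`. `|q| ≤ M` on the compact ball of radius `r₃`. `K₀` so large that `M + 1 < K₀ (r₂² - r₁²)⁴`; `q' = q + K₀ thp 0 r₁`: so `q' ≥ 1` for `r₂ ≤ ‖x‖ ≤ r₃`, `q' = q` for `‖x‖ ≤ r₁`, `q' ≥ q`. `q'` is of class `C³`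
on the ball of radius `a` and strongly convex there with the same constant (`thp_c3`, `thp_convex`, `thp_fderiv`).
Since `dq(0) ≠ 0`, there is `x₀` with `‖x₀‖ < r₁` and `q' x₀ = q x₀ < 0`. `U = {y | ‖x₀ + y‖ < r'}`, `δ y = - q' (x₀ + y)`, `h y ζ = hq q' (x₀ + ζ)` (independent of `y`).
All the fields of `Geo U (δ + c/2) h c C` for small `c` and large `C`: `0 < δ y + c / 2` implies `q' < c / 2 < 1`, so `‖x₀ + y‖ < r₂` and the ball of radius `c ≤ a / 8` is in `U`; `cpt`: closed subset of the closed ball of radius `r₂`; bounds by compactness of the closed ball of radius `r'` (`q'` is `C³` near it); `grad`: `pdq_sum`; `pos`: it is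
`q'(x₀+y) ≥ q'(x₀+ζ) + dq'(x₀+ζ)(y - ζ) + c ‖y - ζ‖²`; `nd`: if `|q'(x)| < c / 2 ≤ |q' x₀| / 2` then strong convexity at `x` gives `dq'(x)(x - x₀) ≥ q' x - q' x₀ ≥ |q' x₀| / 2`, so `‖dq'(x)‖` is bounded below. `cvx`: a ball. `ccv`: `q'` is convex. `zero`, `cen`: `δ 0 = - q' x₀ > 0`.
(5) The lengths: for `y ∈ Om U δ`, `x = x₀ + y`, `δ = |q' x| ≤ |q x|`, `|q x| = δ + K₀ thp`: `|∂q X| ≤ |∂q' X| + K₀ |∂thp X| ≤ |∂q' X| + K √(thp) ‖X‖` (`thp_bd`), `√thp ≤ K √|q x|`, so `gq q x X ≤ |∂q' X| / |q x| + K ‖X‖ / √|q x| ≤ K' √(δ / |q x|) (|∂q' X| / δ + ‖X‖ / √δ)` as `δ / |q x| ≤ √(δ / |q x|)`. -/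
theorem conv_dom {q : Ec n → ℝ} {a c₁ : ℝ} (hq' : QC q a c₁) :
    ∃ (q' : Ec n → ℝ) (x₀ : Ec n) (a₁ a₂ c C K : ℝ) (U : Set (Ec n)), 0 < a₁ ∧ a₁ < a₂ ∧ a₂ < a ∧ 1 ≤ K ∧
      x₀ ∈ ball (0 : Ec n) a₁ ∧ U ⊆ {y | x₀ + y ∈ ball (0 : Ec n) a₂} ∧
      CD U (fun y => -q' (x₀ + y)) (fun _ ζ k => hq q' (x₀ + ζ) k) c C ∧
      (∀ x ∈ ball (0 : Ec n) a₁, q x < 0 → x - x₀ ∈ Om U (fun y => -q' (x₀ + y))) ∧
      ∀ y ∈ Om U (fun y => -q' (x₀ + y)), q (x₀ + y) < 0 ∧ -q' (x₀ + y) ≤ |q (x₀ + y)| ∧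
        ∀ X : Ec n, gq q (x₀ + y) X ≤ K * Real.sqrt (-q' (x₀ + y) / |q (x₀ + y)|) *
          gau (fun y => -q' (x₀ + y)) (fun _ ζ k => hq q' (x₀ + ζ) k) y X := by
  have a0 := hq'.a0
  have a1 := hq'.a1
  -- the bound of q
  have hsub3 : closedBall (0 : Ec n) (3 * a / 4) ⊆ ball 0 a := closedBall_subset_ball (by linarith)
  obtain ⟨M, hM⟩ := (isCompact_closedBall (0 : Ec n) (3 * a / 4)).exists_bound_of_continuousOn
    (hq'.c3.continuousOn.mono hsub3)
  have hM0 : 0 ≤ M := (norm_nonneg _).trans (hM 0 (mem_closedBall_self (by linarith)))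
  -- the point x₀
  obtain ⟨x₀, hx0, hqx0⟩ : ∃ x₀ ∈ ball (0 : Ec n) (a / 4), q x₀ < 0 := by
    by_contra hcon
    push Not at hcon
    have hmin : IsLocalMin q 0 := by
      have : ball (0 : Ec n) (a / 4) ∈ 𝓝 (0 : Ec n) := ball_mem_nhds _ (by linarith)
      filter_upwards [this] with x hx
      rw [hq'.q0]
      exact hcon x hx
    exact hq'.dq hmin.fderiv_eq_zero
  have hx0n : ‖x₀‖ < a / 4 := mem_ball_zero_iff.1 hx0
  set κ : ℝ := (3 * a ^ 2 / 16) ^ 4 with hκ
  have hκ0 : 0 < κ := by positivity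
  set K₀ : ℝ := (M + 1) / κ with hK0
  have hK00 : 0 ≤ K₀ := by positivity
  have hK0κ : K₀ * κ = M + 1 := by rw [hK0]; field_simp
  set f : Ec n → ℝ := fun x => q x + K₀ * thp (0 : Ec n) (a / 4) x with hf
  have hth0 : ∀ x : Ec n, 0 ≤ thp (0 : Ec n) (a / 4) x := fun x => by
    unfold thp ch
    exact pow_nonneg (le_max_right _ _) _
  have hfq : ∀ x : Ec n, q x ≤ f x := fun x => by
    have := mul_nonneg hK00 (hth0 x)
    show q x ≤ q x + K₀ * thp (0 : Ec n) (a / 4) x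
    linarith
  have hth1 : ∀ x : Ec n, ‖x‖ ≤ a / 4 → thp (0 : Ec n) (a / 4) x = 0 := fun x hx => by
    unfold thp ch
    rw [sub_zero]
    have : ‖x‖ ^ 2 - (a / 4) ^ 2 ≤ 0 := by nlinarith [norm_nonneg x]
    rw [max_eq_right this]
    norm_num
  have hfin : ∀ x : Ec n, ‖x‖ ≤ a / 4 → f x = q x := fun x hx => by
    show q x + K₀ * thp (0 : Ec n) (a / 4) x = q x
    rw [hth1 x hx, mul_zero, add_zero]
  have hthc := thp_c3 (0 : Ec n) (a / 4)
  have h3 : ContDiffOn ℝ 3 f (ball 0 a) := hq'.c3.add (contDiff_const.mul hthc).contDiffOn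
  have hdq : ∀ y ∈ ball (0 : Ec n) a, DifferentiableAt ℝ q y := fun y hy =>
    (hq'.c3.differentiableOn (by norm_num)).differentiableAt (isOpen_ball.mem_nhds hy)
  have hdth : ∀ y : Ec n, DifferentiableAt ℝ (thp (0 : Ec n) (a / 4)) y := fun y =>
    (hthc.differentiable (by norm_num)) y
  have hfd : ∀ y ∈ ball (0 : Ec n) a, ∀ X : Ec n, fderiv ℝ f y X =
      fderiv ℝ q y X + K₀ * fderiv ℝ (thp (0 : Ec n) (a / 4)) y X := by
    intro y hy X
    have e1 : fderiv ℝ f y = fderiv ℝ q y + K₀ • fderiv ℝ (thp (0 : Ec n) (a / 4)) y :=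
      ((hdq y hy).hasFDerivAt.add ((hdth y).hasFDerivAt.const_mul K₀)).fderiv
    rw [e1]
    rfl
  have hcv : ∀ x ∈ ball (0 : Ec n) a, ∀ y ∈ ball (0 : Ec n) a,
      f x + fderiv ℝ f x (y - x) + c₁ * ‖y - x‖ ^ 2 ≤ f y := by
    intro x hx y hy
    have h1 := hq'.conv x hx y hy
    have h2 := thp_convex (0 : Ec n) (a / 4) y x
    have h4 : (∑ k, dthp (0 : Ec n) (a / 4) x k * (x k - (0 : Ec n) k - (y k - (0 : Ec n) k))) =
        ∑ k, dthp (0 : Ec n) (a / 4) x k * (x - y) k := by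
      refine Finset.sum_congr rfl fun k _ => ?_
      simp
    rw [h4, ← thp_fderiv] at h2
    have h5 : fderiv ℝ (thp (0 : Ec n) (a / 4)) x (x - y) =
        - fderiv ℝ (thp (0 : Ec n) (a / 4)) x (y - x) := by
      rw [← map_neg, neg_sub]
    rw [h5] at h2
    rw [hfd x hx]
    have h6 := mul_le_mul_of_nonneg_left h2 hK00
    show q x + K₀ * thp (0 : Ec n) (a / 4) x + _ + _ ≤ q y + K₀ * thp (0 : Ec n) (a / 4) y
    nlinarith
  have hqM : ∀ x ∈ closedBall (0 : Ec n) (3 * a / 4), |q x| ≤ M := fun x hx => by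
    have := hM x hx
    rwa [Real.norm_eq_abs] at this
  have hbig : ∀ x : Ec n, a / 2 ≤ ‖x‖ → ‖x‖ ≤ 5 * a / 8 → 1 ≤ f x := by
    intro x hx1 hx2
    have h1 : |q x| ≤ M := hqM x (by rw [mem_closedBall_zero_iff]; linarith)
    have h2 := (abs_le.1 h1).1
    have h4 : κ ≤ thp (0 : Ec n) (a / 4) x := by
      unfold thp ch
      rw [hκ, sub_zero]
      refine pow_le_pow_left₀ (by positivity) ?_ 4
      refine le_trans ?_ (le_max_left _ _)
      nlinarith
    have h5 := mul_le_mul_of_nonneg_left h4 hK00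
    rw [hK0κ] at h5
    show 1 ≤ q x + K₀ * thp (0 : Ec n) (a / 4) x
    linarith
  have hlow : ∀ x ∈ closedBall (0 : Ec n) (5 * a / 8), - f x ≤ M := by
    intro x hx
    have h1 : |q x| ≤ M := hqM x (closedBall_subset_closedBall (by linarith) hx)
    have h2 := (abs_le.1 h1).1
    have h4 := hfq x
    linarith
  have hfx0 : f x₀ = q x₀ := hfin x₀ hx0n.le
  have hn0 : (0 : ℝ) ≤ n := Nat.cast_nonneg n
  set c : ℝ := min (min c₁ (a / 8)) (- q x₀ / (4 * ((n : ℝ) + 1))) with hc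
  have hcc : c ≤ c₁ := (min_le_left _ _).trans (min_le_left _ _)
  have hca : c ≤ a / 8 := (min_le_left _ _).trans (min_le_right _ _)
  have hcq : c ≤ - q x₀ / (4 * ((n : ℝ) + 1)) := min_le_right _ _
  have hc0 : 0 < c := lt_min (lt_min hq'.c0 (by linarith)) (div_pos (by linarith) (by positivity))
  have hcq' : c * (4 * ((n : ℝ) + 1)) ≤ - f x₀ := by
    rw [hfx0]
    rwa [le_div_iff₀ (by positivity)] at hcq
  have hxr : x₀ ∈ ball (0 : Ec n) (5 * a / 8) := ball_subset_ball (by linarith) hx0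
  obtain ⟨C, hCD⟩ := M2b_cd (r₂ := a / 2) (r' := 5 * a / 8) (M := M) h3 hcv hc0 (by linarith) hcc
    (by linarith) (by linarith) (by linarith) hxr hbig hlow hcq'
  obtain ⟨K₁, hK1, hth⟩ := thp_bd n (a / 4)
  refine ⟨f, x₀, a / 4, 5 * a / 8, c, C, 1 + K₁ * Real.sqrt K₀, {y | x₀ + y ∈ ball (0 : Ec n) (5 * a / 8)},
    by linarith, by linarith, by linarith, ?_, hx0, subset_rfl, hCD, ?_, ?_⟩
  · have : 0 ≤ K₁ * Real.sqrt K₀ := mul_nonneg (by linarith) (Real.sqrt_nonneg _)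
    linarith
  · intro x hx hqx
    have e : x₀ + (x - x₀) = x := by abel
    refine ⟨?_, ?_⟩
    · show x₀ + (x - x₀) ∈ ball (0 : Ec n) (5 * a / 8)
      rw [e]
      exact ball_subset_ball (by linarith) hx
    · show 0 < - f (x₀ + (x - x₀))
      rw [e, hfin x (mem_ball_zero_iff.1 hx).le]
      linarith
  · rintro y ⟨hyU, hy0⟩
    have hyb : x₀ + y ∈ ball (0 : Ec n) (5 * a / 8) := hyU
    have hya : x₀ + y ∈ ball (0 : Ec n) a := ball_subset_ball (by linarith) hyb
    have hy0' : 0 < - f (x₀ + y) := hy0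
    set x := x₀ + y with hx
    have hx1 : ‖x‖ ≤ 1 := by
      have := mem_ball_zero_iff.1 hyb
      linarith
    set δ := - f x with hδ
    have hqx := hfq x
    have hqneg : q x < 0 := by linarith
    have habs : |q x| = - q x := abs_of_neg hqneg
    have habs2 : |q x| = δ + K₀ * thp (0 : Ec n) (a / 4) x := by
      rw [habs, hδ]
      show _ = -(q x + K₀ * thp (0 : Ec n) (a / 4) x) + _
      ring
    have hle : δ ≤ |q x| := by
      rw [habs2]
      have := mul_nonneg hK00 (hth0 x)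
      linarith
    refine ⟨hqneg, hle, fun X => ?_⟩
    have hA0 : 0 < |q x| := lt_of_lt_of_le hy0' hle
    have hth' := (hth x hx1).2 X
    have hpd : pdq f x X = pdq q x X + K₀ * pdq (thp (0 : Ec n) (a / 4)) x X := by
      unfold pdq
      rw [hfd x hya, hfd x hya]
      push_cast
      ring
    have hsK : K₀ * Real.sqrt (thp (0 : Ec n) (a / 4) x) ≤ Real.sqrt K₀ * Real.sqrt |q x| := by
      have h1 : K₀ * Real.sqrt (thp (0 : Ec n) (a / 4) x) =
          Real.sqrt K₀ * Real.sqrt (K₀ * thp (0 : Ec n) (a / 4) x) := by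
        rw [Real.sqrt_mul hK00, ← mul_assoc, Real.mul_self_sqrt hK00]
      rw [h1]
      refine mul_le_mul_of_nonneg_left (Real.sqrt_le_sqrt ?_) (Real.sqrt_nonneg _)
      rw [habs2]
      linarith
    set A := |q x| with hA
    set P := ‖pdq f x X‖ with hP
    set N := ‖X‖ with hN
    have hP0 : 0 ≤ P := norm_nonneg _
    have hN0 : 0 ≤ N := norm_nonneg _
    have h1 : ‖pdq q x X‖ ≤ P + K₁ * Real.sqrt K₀ * Real.sqrt A * N := by
      have e1 : pdq q x X = pdq f x X - K₀ * pdq (thp (0 : Ec n) (a / 4)) x X := by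
        rw [hpd]; ring
      rw [e1]
      refine (norm_sub_le _ _).trans ?_
      rw [norm_mul, Complex.norm_real, Real.norm_eq_abs, abs_of_nonneg hK00]
      have h2 : K₀ * ‖pdq (thp (0 : Ec n) (a / 4)) x X‖ ≤ K₁ * Real.sqrt K₀ * Real.sqrt A * N := by
        calc K₀ * ‖pdq (thp (0 : Ec n) (a / 4)) x X‖
            ≤ K₀ * (K₁ * Real.sqrt (thp (0 : Ec n) (a / 4) x) * N) :=
              mul_le_mul_of_nonneg_left hth' hK00
          _ = K₁ * (K₀ * Real.sqrt (thp (0 : Ec n) (a / 4) x)) * N := by ring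
          _ ≤ K₁ * (Real.sqrt K₀ * Real.sqrt A) * N := by
              refine mul_le_mul_of_nonneg_right (mul_le_mul_of_nonneg_left hsK (by linarith)) hN0
          _ = _ := by ring
      linarith
    have hsA : 0 < Real.sqrt A := Real.sqrt_pos.2 hA0
    have hsδ : 0 < Real.sqrt δ := Real.sqrt_pos.2 hy0'
    set S := Real.sqrt (δ / A) with hS
    have hS0 : 0 ≤ S := Real.sqrt_nonneg _
    have hS2 : S ^ 2 = δ / A := Real.sq_sqrt (by positivity)
    have hS1 : S ≤ 1 := by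
      have h0 : δ / A ≤ 1 := by rw [div_le_one hA0]; exact hle
      have h2 := Real.sqrt_le_sqrt h0
      rwa [Real.sqrt_one] at h2
    have hSe : S = Real.sqrt δ / Real.sqrt A := Real.sqrt_div hy0'.le A
    have hgau : gau (fun y => - f (x₀ + y)) (fun _ ζ k => hq f (x₀ + ζ) k) y X =
        P / δ + N / Real.sqrt δ := by
      unfold gau
      show ‖∑ k, hq f x k * X k‖ / δ + ‖X‖ / Real.sqrt δ = _
      rw [(pdq_sum f x X).1]
    rw [hgau]
    show ‖pdq q x X‖ / A + N / Real.sqrt A ≤ (1 + K₁ * Real.sqrt K₀) * S * (P / δ + N / Real.sqrt δ)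
    have h2 : ‖pdq q x X‖ / A ≤ P / A + K₁ * Real.sqrt K₀ * (N / Real.sqrt A) := by
      have h4 : ‖pdq q x X‖ / A ≤ (P + K₁ * Real.sqrt K₀ * Real.sqrt A * N) / A :=
        div_le_div_of_nonneg_right h1 hA0.le
      have h5 : (P + K₁ * Real.sqrt K₀ * Real.sqrt A * N) / A =
          P / A + K₁ * Real.sqrt K₀ * (N / Real.sqrt A) := by
        have h6 : A = Real.sqrt A * Real.sqrt A := (Real.mul_self_sqrt hA0.le).symm
        rw [add_div]
        congr 1
        nth_rewrite 2 [h6]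
        field_simp
      rw [h5] at h4
      exact h4
    have h4 : N / Real.sqrt A = S * (N / Real.sqrt δ) := by
      rw [hSe]
      field_simp
    have h5 : P / A ≤ S * (P / δ) := by
      have h6 : P / A = S ^ 2 * (P / δ) := by
        rw [hS2]
        field_simp
      rw [h6]
      refine mul_le_mul_of_nonneg_right ?_ (by positivity)
      nlinarith
    have hk0 : 0 ≤ K₁ * Real.sqrt K₀ := mul_nonneg (by linarith) (Real.sqrt_nonneg _)
    have h7 : 0 ≤ S * (P / δ) := by positivity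
    have h8 : 0 ≤ S * (N / Real.sqrt δ) := by positivity
    rw [h4] at h2 ⊢
    have h9 : 0 ≤ K₁ * Real.sqrt K₀ * (S * (P / δ)) := mul_nonneg hk0 h7
    nlinarith

end Pool.Agent.MPca0fc2.GW
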