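import Pool.Agent.Lib.MP_ca0fc2_an.Mg.G007
import Pool.Agent.Lib.MP_ca0fc2_an.GW.M2b
import Pool.Agent.Lib.MP_ca0fc2_an.Mg.G002
import Pool.Agent.Lib.MP_ca0fc2_an.Mg.G046

/-! The classes of functions in convexifying coordinates. -/

set_option autoImplicit false

open Metric Set MeasureTheory Filter Topology

namespace Pool.Agent.MPca0fc2.GW

open Pool.Agent.MPca0fc2.FD
open Pool.Agent.Lib.MP_ca0fc2_an

variable {n : ℕ}

/-- The distance to the complement and the defining function.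
PROOF. Near `p` (`p ∈ U`, `U` open, `ρ` of class `C²`): `|ρ z - ρ z'| ≤ L ‖z - z'‖`. For `z ∈ D` near `p` the distance to `Dᶜ` is attained up to `η` at a point `z' ∈ Dᶜ` which is also near `p` (as `p ∈ Dᶜ`), in `U`, so `ρ z' ≥ 0` and `|ρ z| ≤ ρ z' - ρ z ≤ L ‖z' - z‖`. Conversely: `dρ(p) ≠ 0`, so there is `e`, `‖e‖ = 1`, `dρ(z) e ≥ c₀ > 0` for `z`
near `p`; `ρ (z + t e) ≥ ρ z + c₀ t`, so `z + t e ∉ D` for `t = |ρ z| / c₀` (`|ρ z|` is small near `p`). -/
theorem dist_rho {D U : Set (Ec n)} {ρ : Ec n → ℝ} {h : Ec n → Ec n → Fin n → ℂ} {c : ℝ}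
    (hs : SupportData D U ρ h c) {p : Ec n} (hp : p ∈ frontier D) :
    ∃ L r₁ : ℝ, 1 ≤ L ∧ 0 < r₁ ∧ ∀ z ∈ D ∩ ball p r₁,
      |ρ z| ≤ L * infDist z Dᶜ ∧ infDist z Dᶜ ≤ L * |ρ z| ∧ 0 < infDist z Dᶜ := by
  have hU := hs.opn
  have hDo : IsOpen D := by
    rw [hs.eq]
    exact hs.dρ.continuousOn.isOpen_inter_preimage hU isOpen_Iio
  have hpD : p ∉ D := fun h' => (hDo.frontier_eq ▸ hp).2 h'
  have hpc : p ∈ {z | z ∈ U ∧ ρ z ≤ 0} := by
    rw [← sup_closure hs]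
    exact frontier_subset_closure hp
  have hpU : p ∈ U := hpc.1
  have hρp : ρ p = 0 := by
    refine le_antisymm hpc.2 (not_lt.1 fun hlt => hpD ?_)
    rw [hs.eq]
    exact ⟨hpU, hlt⟩
  obtain ⟨v, hv⟩ : ∃ v : Ec n, 0 < fderiv ℝ ρ p v := by
    have hne := hs.nd p hpU hρp
    obtain ⟨X0, hX0⟩ : ∃ X, fderiv ℝ ρ p X ≠ 0 := by
      by_contra hcon
      push Not at hcon
      exact hne (by ext X; simpa using hcon X)
    rcases lt_or_gt_of_ne hX0 with hlt | hgt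
    · exact ⟨-X0, by rw [map_neg]; linarith⟩
    · exact ⟨X0, hgt⟩
  have hv0 : 0 < ‖v‖ := by
    rw [norm_pos_iff]
    rintro rfl
    simp at hv
  set b : ℝ := fderiv ℝ ρ p v / 2 with hb
  have hb0 : 0 < b := by positivity
  have hε : 0 < b / ‖v‖ := by positivity
  have hstrict : HasStrictFDerivAt ρ (fderiv ℝ ρ p) p :=
    (hs.dρ.contDiffAt (hU.mem_nhds hpU)).hasStrictFDerivAt (by norm_num)
  obtain ⟨s₀, hs₀, happ₀⟩ := hstrict.approximates_deriv_on_nhds
    (c := (⟨b / ‖v‖, hε.le⟩ : NNReal)) (Or.inr hε)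
  obtain ⟨R, hR0, hR⟩ := Metric.mem_nhds_iff.1 (Filter.inter_mem hs₀ (hU.mem_nhds hpU))
  have happ : ∀ x ∈ ball p R, ∀ y ∈ ball p R,
      |ρ x - ρ y - fderiv ℝ ρ p (x - y)| ≤ b / ‖v‖ * ‖x - y‖ := by
    intro x hx y hy
    exact happ₀ x (hR hx).1 y (hR hy).1
  set A : ℝ := ‖fderiv ℝ ρ p‖ + b / ‖v‖ with hA
  have hA0 : 0 ≤ A := by positivity
  have hlip : ∀ x ∈ ball p R, ∀ y ∈ ball p R, |ρ x - ρ y| ≤ A * ‖x - y‖ := by
    intro x hx y hy
    have h1 := happ x hx y hy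
    have h2 := (fderiv ℝ ρ p).le_opNorm (x - y)
    rw [Real.norm_eq_abs] at h2
    have h3 : |ρ x - ρ y| ≤ |ρ x - ρ y - fderiv ℝ ρ p (x - y)| + |fderiv ℝ ρ p (x - y)| := by
      have := abs_add_le (ρ x - ρ y - fderiv ℝ ρ p (x - y)) (fderiv ℝ ρ p (x - y))
      rwa [sub_add_cancel] at this
    rw [hA]
    linarith
  set r₁ : ℝ := R / (2 * (1 + A * ‖v‖ / b)) with hr₁
  have hq : 0 ≤ A * ‖v‖ / b := by positivity
  have hr₁0 : 0 < r₁ := by positivity
  have hr₁R : r₁ * (1 + A * ‖v‖ / b) = R / 2 := by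
    rw [hr₁]
    field_simp
  have hr₁2 : 2 * r₁ ≤ R := by nlinarith
  have hvb : 0 ≤ ‖v‖ / b := by positivity
  refine ⟨1 + A + ‖v‖ / b, r₁, by linarith, hr₁0, ?_⟩
  rintro z ⟨hzD, hzb⟩
  have hzd : ‖z - p‖ < r₁ := by
    rw [mem_ball, dist_eq_norm] at hzb
    exact hzb
  have hzR : z ∈ ball p R := ball_subset_ball (by linarith) hzb
  have hpR : p ∈ ball p R := mem_ball_self hR0
  have hzD' := hzD
  rw [hs.eq] at hzD'
  have hρz : ρ z < 0 := hzD'.2
  have habs : |ρ z| = -ρ z := abs_of_neg hρz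
  have hne : (Dᶜ).Nonempty := ⟨p, hpD⟩
  have hinf0 : 0 ≤ infDist z Dᶜ := infDist_nonneg
  have hρ0 : 0 ≤ |ρ z| := abs_nonneg _
  refine ⟨?_, ?_, ?_⟩
  · have h1 : |ρ z| / (1 + A) ≤ infDist z Dᶜ := by
      rw [le_infDist hne]
      intro z' hz'
      rw [div_le_iff₀ (by linarith), dist_eq_norm]
      by_cases hz'R : z' ∈ ball p R
      · have h2 : 0 ≤ ρ z' := by
          by_contra hneg
          push Not at hneg
          refine hz' ?_
          rw [hs.eq]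
          exact ⟨(hR hz'R).2, hneg⟩
        have h3 := hlip z hzR z' hz'R
        have h4 : |ρ z| ≤ |ρ z - ρ z'| := by
          rw [habs, abs_of_nonpos (by linarith)]
          linarith
        have h5 := norm_nonneg (z - z')
        nlinarith
      · have h2 : R ≤ ‖z' - p‖ := by
          rw [mem_ball, dist_eq_norm] at hz'R
          exact not_lt.1 hz'R
        have h3 := hlip z hzR p hpR
        rw [hρp, sub_zero] at h3
        have h4 : ‖z' - p‖ ≤ ‖z - z'‖ + ‖z - p‖ := by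
          have : z' - p = (z - p) - (z - z') := by abel
          rw [this]
          linarith [norm_sub_le (z - p) (z - z')]
        have h5 : ‖z - p‖ ≤ ‖z - z'‖ := by linarith
        have h6 := norm_nonneg (z - z')
        have h7 : A * ‖z - p‖ ≤ A * ‖z - z'‖ := mul_le_mul_of_nonneg_left h5 hA0
        nlinarith
    rw [div_le_iff₀ (by linarith)] at h1
    nlinarith
  · set t : ℝ := |ρ z| / b with ht
    have ht0 : 0 ≤ t := by positivity
    have h1 : |ρ z| ≤ A * r₁ := by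
      have h3 := hlip z hzR p hpR
      rw [hρp, sub_zero] at h3
      have : A * ‖z - p‖ ≤ A * r₁ := mul_le_mul_of_nonneg_left hzd.le hA0
      linarith
    have h2 : z + t • v ∈ ball p R := by
      rw [mem_ball, dist_eq_norm]
      have h3 : ‖z + t • v - p‖ ≤ ‖z - p‖ + t * ‖v‖ := by
        have : z + t • v - p = (z - p) + t • v := by abel
        rw [this]
        refine (norm_add_le _ _).trans ?_
        rw [norm_smul, Real.norm_eq_abs, abs_of_nonneg ht0]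
      have h4 : t * ‖v‖ ≤ A * r₁ / b * ‖v‖ := by
        rw [ht]
        gcongr
      have h5 : A * r₁ / b * ‖v‖ = r₁ * (A * ‖v‖ / b) := by ring
      nlinarith
    have h3 := happ _ h2 z hzR
    have h4 : z + t • v - z = t • v := by abel
    rw [h4, map_smul, norm_smul, Real.norm_eq_abs, abs_of_nonneg ht0, smul_eq_mul] at h3
    have h5 : b / ‖v‖ * (t * ‖v‖) = t * b := by
      field_simp
    rw [h5] at h3
    have h6 := (abs_le.1 h3).1
    have h7 : t * b = |ρ z| := by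
      rw [ht]
      field_simp
    have h8 : fderiv ℝ ρ p v = 2 * b := by
      rw [hb]
      ring
    have h9 : 0 ≤ ρ (z + t • v) := by
      rw [h8] at h6
      nlinarith
    have h10 : z + t • v ∈ Dᶜ := by
      intro hmem
      rw [hs.eq] at hmem
      exact absurd hmem.2 (not_lt.2 h9)
    have h11 := infDist_le_dist_of_mem h10 (x := z)
    have h12 : dist z (z + t • v) = t * ‖v‖ := by
      rw [dist_eq_norm]
      have : z - (z + t • v) = -(t • v) := by abel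
      rw [this, norm_neg, norm_smul, Real.norm_eq_abs, abs_of_nonneg ht0]
    rw [h12] at h11
    have h13 : t * ‖v‖ = ‖v‖ / b * |ρ z| := by
      rw [ht]
      ring
    rw [h13] at h11
    nlinarith
  · have := (hDo.isClosed_compl.notMem_iff_infDist_pos hne (x := z)).1 (fun h' => h' hzD)
    exact this

/-- All the data near a boundary point: convexifying coordinates and a convex domain. -/
structure LD (D U : Set (Ec n)) (ρ : Ec n → ℝ) (p : Ec n) (r : ℝ) (a L c₁ : ℝ) (Φ : Ec n → Ec n)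
    (q' : Ec n → ℝ) (x₀ : Ec n) (a₁ a₂ c C K : ℝ) (W : Set (Ec n)) : Prop where
  cv : CV U ρ p r a L c₁ Φ
  eqD : D = {z | z ∈ U ∧ ρ z < 0}
  a12 : 0 < a₁ ∧ a₁ < a₂ ∧ a₂ < a
  K1 : 1 ≤ K
  x0 : x₀ ∈ ball (0 : Ec n) a₁
  sub : W ⊆ {y | x₀ + y ∈ ball (0 : Ec n) a₂}
  cd : CD W (fun y => -q' (x₀ + y)) (fun _ ζ k => hq q' (x₀ + ζ) k) c C
  big : ∀ x ∈ ball (0 : Ec n) a₁, ρ (Φ x) < 0 → x - x₀ ∈ Om W (fun y => -q' (x₀ + y))
  cmp : ∀ y ∈ Om W (fun y => -q' (x₀ + y)), ρ (Φ (x₀ + y)) < 0 ∧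
    -q' (x₀ + y) ≤ |ρ (Φ (x₀ + y))| ∧
    ∀ X : Ec n, gq (fun x => ρ (Φ x)) (x₀ + y) X ≤
      K * Real.sqrt (-q' (x₀ + y) / |ρ (Φ (x₀ + y))|) *
        gau (fun y => -q' (x₀ + y)) (fun _ ζ k => hq q' (x₀ + ζ) k) y X
  dist : ∀ x ∈ ball (0 : Ec n) a, ρ (Φ x) < 0 → |ρ (Φ x)| ≤ L * infDist (Φ x) Dᶜ ∧
    infDist (Φ x) Dᶜ ≤ L * |ρ (Φ x)| ∧ 0 < infDist (Φ x) Dᶜ

/-- PROOF. `dist_rho` (radius `r₁`), `convexify` with `min r r₁` (the constant `L` may be enlarged), `conv_dom` for `q = ρ ∘ Φ`. -/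
theorem LD_exists {D U : Set (Ec n)} {ρ : Ec n → ℝ} {h : Ec n → Ec n → Fin n → ℂ} {c : ℝ}
    (hs : SupportData D U ρ h c) (hρ : ContDiffOn ℝ 3 ρ U) {p : Ec n} (hp : p ∈ frontier D)
    {r : ℝ} (hr : 0 < r) : ∃ (a L c₁ : ℝ) (Φ : Ec n → Ec n) (q' : Ec n → ℝ) (x₀ : Ec n)
      (a₁ a₂ c' C K : ℝ) (W : Set (Ec n)), LD D U ρ p r a L c₁ Φ q' x₀ a₁ a₂ c' C K W := by
  obtain ⟨L₀, r₁, hL₀, hr₁, hd⟩ := dist_rho hs hp
  obtain ⟨a, L₁, c₁, Φ, hcv⟩ := convexify hs hρ hp (lt_min hr hr₁)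
  have hqc : QC (fun x => ρ (Φ x)) a c₁ :=
    { a0 := hcv.a0
      a1 := hcv.a1
      c0 := hcv.c0
      c3 := hcv.q3
      q0 := by
        show ρ (Φ 0) = 0
        rw [hcv.zero, hcv.q0]
      dq := hcv.dq
      conv := hcv.conv }
  obtain ⟨q', x₀, a₁, a₂, c', C, K, W, h1, h2, h3, h4, h5, h6, h7, h8, h9⟩ := conv_dom hqc
  have hL1 := hcv.L1
  refine ⟨a, max L₀ L₁, c₁, Φ, q', x₀, a₁, a₂, c', C, K, W, ?_⟩
  exact
    { cv :=
        { a0 := hcv.a0
          a1 := hcv.a1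
          L1 := le_trans hL₀ (le_max_left _ _)
          c0 := hcv.c0
          hol := hcv.hol
          map := fun x hx => ⟨ball_subset_ball (min_le_left _ _) (hcv.map x hx).1,
            (hcv.map x hx).2⟩
          zero := hcv.zero
          lip := fun x hx y hy => ⟨(hcv.lip x hx y hy).1.trans
              (mul_le_mul_of_nonneg_right (le_max_right _ _) (norm_nonneg _)),
            (hcv.lip x hx y hy).2.trans
              (mul_le_mul_of_nonneg_right (le_max_right _ _) (norm_nonneg _))⟩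
          opn := hcv.opn
          inv := hcv.inv
          q3 := hcv.q3
          q0 := hcv.q0
          dq := hcv.dq
          conv := hcv.conv }
      eqD := hs.eq
      a12 := ⟨h1, h2, h3⟩
      K1 := h4
      x0 := h5
      sub := h6
      cd := h7
      big := h8
      cmp := h9
      dist := fun x hx hneg => by
        obtain ⟨m1, m2⟩ := hcv.map x hx
        have hD : Φ x ∈ D := by
          rw [hs.eq]
          exact ⟨m2, hneg⟩
        obtain ⟨k1, k2, k3⟩ := hd (Φ x) ⟨hD, ball_subset_ball (min_le_right _ _) m1⟩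
        exact ⟨k1.trans (mul_le_mul_of_nonneg_right (le_max_left _ _) infDist_nonneg),
          k2.trans (mul_le_mul_of_nonneg_right (le_max_left _ _) (abs_nonneg _)), k3⟩ }

end Pool.Agent.MPca0fc2.GW
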