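import Pool.Agent.Lib.MP_ca0fc2_an.GW.V3
import Pool.Agent.Lib.MP_ca0fc2_an.Mg.G020

/-! The hysteresis function of a holomorphic function. -/

set_option autoImplicit false

open Metric Set MeasureTheory Filter Topology

namespace Pool.Agent.MPca0fc2.GW

open Pool.Agent.MPca0fc2.FD

variable {n : ℕ} {U : Set (Ec n)} {δ : Ec n → ℝ} {h : Ec n → Ec n → Fin n → ℂ} {c C : ℝ}

/-- Approximations `v k` of the functions `uk u k`, with the sum of their gradients bounded by the density `S`. -/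
structure VL (U : Set (Ec n)) (δ : Ec n → ℝ) (h : Ec n → Ec n → Fin n → ℂ) (c : ℝ) (u : Ec n → ℂ)
    (S : ℕ → Ec n → ℝ) (v : ℕ → Ec n → ℂ) (ρ K : ℝ) : Prop where
  v0 : ∀ w, v 0 w = u 0
  c2 : ∀ k, ContDiffOn ℝ 2 (v (k + 1)) (Dk U δ c k)
  near : ∀ k, ∀ w ∈ Dk U δ c k, ‖v (k + 1) w - uk u (k + 1) w‖ ≤ ρ / 2
  grad : ∀ k, ∀ w ∈ Dk U δ c k, ∀ X : Ec n,
    ∑ l ∈ Finset.range k, ‖fderiv ℝ (v (l + 1)) w X‖ ≤
      K * (dk δ c k w / ek k) ^ (1 / 32 : ℝ) * S k w * gau (dk δ c k) h w X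

/-- The hysteresis functions `b k` of `u`. -/
structure BL (U : Set (Ec n)) (δ : Ec n → ℝ) (h : Ec n → Ec n → Fin n → ℂ) (c : ℝ) (u : Ec n → ℂ)
    (S : ℕ → Ec n → ℝ) (b : ℕ → Ec n → ℂ) (M ρ K : ℝ) : Prop where
  b0 : ∀ w, b 0 w = u 0
  c2 : ∀ k, ContDiffOn ℝ 2 (b k) (Dk U δ c k)
  bd : ∀ k, ∀ w ∈ Dk U δ c k, ‖b k w‖ ≤ 5 * M
  near : ∀ k, ∀ w ∈ Dk U δ c k, ‖b k w - uk u k w‖ ≤ 4 * ρ
  grad : ∀ k, ∀ w ∈ Dk U δ c k, ∀ X : Ec n, ‖fderiv ℝ (b k) w X‖ ≤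
    K * (dk δ c k w / ek k) ^ (1 / 32 : ℝ) * S k w * gau (dk δ c k) h w X
  gain : ∀ z ∈ Om U δ, ∀ j k : ℕ, j ≤ k →
    ∑ i ∈ Finset.Ico j k, 2 * ((starRingEnd ℂ) (b i z) * (uk u (i + 1) z - uk u i z)).re ≤
      150 * M ^ 2 - ρ * ∑ i ∈ Finset.Ico j k, ‖b (i + 1) z - b i z‖

/-- The hysteresis functions.
PROOF. `b 0 = u 0`, `b (k+1) w = b k w + tau3 ρ (v (k+1) w - b k w)` (`QT.tau3`). By induction `b (k+1)` is of class `C²` on `Dk k` (`tau3_c2`; `b k` is of class `C²` on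
`Dk (k-1) ⊇ Dk k`, resp. constant), so `b k` is of class `C²` on `Dk k ⊆ Dk (k-1)`. `|b (k+1) - v (k+1)| ≤ 3 ρ` (`tau3_rest`), so `|b (k+1) - uk (k+1)| ≤ 3 ρ + ρ / 2` and `|b| ≤ M + 7 ρ / 2 ≤ 5 M` (`uk_le`; `ρ ≤ M`).
Gradient: `‖db (k+1) X‖ ≤ ‖dv (k+1) X‖ + ‖db k X‖` (`tau3_fderiv` with `a = dv X`, `b = db X`; the chain rule), so `‖db k X‖ ≤ ∑_{l < k} ‖dv (l+1) X‖`. Gain: `seq_gauge3` with `B = 5 M` at the point `z`
(`z ∈ Dk k` for all `k`; `|v k| ≤ M + ρ / 2`; for `i = 0` `u 0 = v 0`: `uk_zero`). -/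
theorem BL_of_VL (hD : CD U δ h c C) {u : Ec n → ℂ} (hu : DifferentiableOn ℂ u (Om U δ)) {M ρ K : ℝ}
    (hM : ∀ z ∈ Om U δ, ‖u z‖ ≤ M) (hρ : 0 < ρ) (hρM : ρ ≤ M) {S : ℕ → Ec n → ℝ}
    {v : ℕ → Ec n → ℂ} (hv : VL U δ h c u S v ρ K) : ∃ b, BL U δ h c u S b M ρ K := by
  obtain ⟨b, hb0, hbs⟩ : ∃ b : ℕ → Ec n → ℂ, (∀ w, b 0 w = u 0) ∧
      ∀ k w, b (k + 1) w = b k w + QT.tau3 ρ (v (k + 1) w - b k w) :=
    ⟨fun k w => Nat.rec (u 0) (fun k y => y + QT.tau3 ρ (v (k + 1) w - y)) k, fun _ => rfl,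
      fun _ _ => rfl⟩
  have hM0 : 0 < M := lt_of_lt_of_le hρ hρM
  have hb0' : b 0 = fun _ => u 0 := funext hb0
  have hbs' : ∀ k, b (k + 1) = fun w => b k w + QT.tau3 ρ (v (k + 1) w - b k w) :=
    fun k => funext (hbs k)
  have hc2 : ∀ k, ContDiffOn ℝ 2 (b k) (Dk U δ c k) := by
    intro k
    induction k with
    | zero =>
      rw [hb0']
      exact contDiffOn_const
    | succ k ih =>
      rw [hbs']
      have h1 : ContDiffOn ℝ 2 (fun w => b k w + QT.tau3 ρ (v (k + 1) w - b k w))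
          (Dk U δ c k) := ih.add ((QT.tau3_c2 hρ).comp_contDiffOn ((hv.c2 k).sub ih))
      exact h1.mono (Dk_anti hD (Nat.le_succ k))
  have hnear : ∀ k, ∀ w ∈ Dk U δ c k, ‖b k w - uk u k w‖ ≤ 4 * ρ := by
    intro k w hw
    cases k with
    | zero =>
      rw [hb0, uk_zero, sub_self, norm_zero]
      linarith
    | succ k =>
      have h1 := hv.near k w (Dk_anti hD (Nat.le_succ k) hw)
      have h2 := QT.tau3_rest hρ (v (k + 1) w - b k w)
      have h3 : b (k + 1) w - uk u (k + 1) w = -(v (k + 1) w - b k w -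
          QT.tau3 ρ (v (k + 1) w - b k w)) + (v (k + 1) w - uk u (k + 1) w) := by
        rw [hbs]
        ring
      rw [h3]
      refine (norm_add_le _ _).trans ?_
      rw [norm_neg]
      linarith
  have hbd : ∀ k, ∀ w ∈ Dk U δ c k, ‖b k w‖ ≤ 5 * M := by
    intro k w hw
    have h1 := hnear k w hw
    have h2 := uk_le hD hM (Nat.le_succ k) hw
    have h3 : b k w = (b k w - uk u k w) + uk u k w := by ring
    rw [h3]
    refine (norm_add_le _ _).trans ?_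
    linarith
  have hgr : ∀ k, ∀ w ∈ Dk U δ c k, ∀ X : Ec n, ‖fderiv ℝ (b k) w X‖ ≤
      ∑ l ∈ Finset.range k, ‖fderiv ℝ (v (l + 1)) w X‖ := by
    intro k
    induction k with
    | zero =>
      intro w _ X
      rw [hb0']
      simp
    | succ k ih =>
      intro w hw X
      have hw' : w ∈ Dk U δ c k := Dk_anti hD (Nat.le_succ k) hw
      have hnh := (Dk_open hD k).mem_nhds hw'
      have d1 : DifferentiableAt ℝ (b k) w := ((hc2 k).contDiffAt hnh).differentiableAt (by norm_num)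
      have d2 : DifferentiableAt ℝ (v (k + 1)) w :=
        ((hv.c2 k).contDiffAt hnh).differentiableAt (by norm_num)
      have d3 : DifferentiableAt ℝ (QT.tau3 ρ) (v (k + 1) w - b k w) :=
        (QT.tau3_c2 hρ).contDiffAt.differentiableAt (by norm_num)
      have h0 : HasFDerivAt (fun w => QT.tau3 ρ (v (k + 1) w - b k w))
          ((fderiv ℝ (QT.tau3 ρ) (v (k + 1) w - b k w)).comp
            (fderiv ℝ (v (k + 1)) w - fderiv ℝ (b k) w)) w :=
        HasFDerivAt.comp (g := QT.tau3 ρ) (f := fun w => v (k + 1) w - b k w) w d3.hasFDerivAt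
          (d2.hasFDerivAt.sub d1.hasFDerivAt)
      have h1 : HasFDerivAt (fun w => b k w + QT.tau3 ρ (v (k + 1) w - b k w))
          (fderiv ℝ (b k) w + (fderiv ℝ (QT.tau3 ρ) (v (k + 1) w - b k w)).comp
            (fderiv ℝ (v (k + 1)) w - fderiv ℝ (b k) w)) w :=
        d1.hasFDerivAt.add h0
      rw [hbs', h1.fderiv, Finset.sum_range_succ]
      have h2 := QT.tau3_fderiv hρ (v (k + 1) w - b k w) (fderiv ℝ (v (k + 1)) w X)
        (fderiv ℝ (b k) w X)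
      have h3 := ih w hw' X
      refine le_trans (le_of_eq ?_) (h2.trans (by linarith))
      rfl
  refine ⟨b, hb0, hc2, hbd, hnear, fun k w hw X => (hgr k w hw X).trans (hv.grad k w hw X),
    fun z hz j k hjk => ?_⟩
  have h1 := QT.seq_gauge3 (u := fun i => uk u i z) (v := fun i => v i z) (b := fun i => b i z)
    (ρ := ρ) (B := 5 * M) hρ (by linarith) (fun i => hbs i z) (fun i => ?_)
    (fun i => hbd i z (Om_sub_Dk hD i hz)) (fun i => ?_) hjk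
  · refine h1.trans (le_of_eq ?_)
    ring
  · cases i with
    | zero =>
      rw [uk_zero, hv.v0, sub_self, norm_zero]
      linarith
    | succ i =>
      rw [norm_sub_rev]
      exact hv.near i z (Om_sub_Dk hD i hz)
  · cases i with
    | zero =>
      have h2 := uk_le hD hM (Nat.zero_le (0 + 1)) (Om_sub_Dk hD 0 hz)
      rw [uk_zero] at h2
      rw [hv.v0]
      linarith
    | succ i =>
      have h2 := hv.near i z (Om_sub_Dk hD i hz)
      have h3 := uk_le hD hM (le_refl (i + 1)) (Om_sub_Dk hD i hz)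
      have h4 : v (i + 1) z = (v (i + 1) z - uk u (i + 1) z) + uk u (i + 1) z := by ring
      rw [h4]
      refine (norm_add_le _ _).trans ?_
      linarith

/-- PROOF. Only `grad` contains `S` and `K`; `gau ≥ 0`. -/
theorem BL_mono (hD : CD U δ h c C) {u : Ec n → ℂ} {M ρ K K' : ℝ} {S S' : ℕ → Ec n → ℝ}
    {b : ℕ → Ec n → ℂ} (hb : BL U δ h c u S b M ρ K) (hK : K ≤ K') (hK0 : 0 ≤ K')
    (hS : ∀ k, ∀ w ∈ Dk U δ c k, 0 ≤ S k w ∧ S k w ≤ S' k w) : BL U δ h c u S' b M ρ K' := by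
  refine ⟨hb.b0, hb.c2, hb.bd, hb.near, fun k w hw X => (hb.grad k w hw X).trans ?_, hb.gain⟩
  obtain ⟨h0, h1⟩ := hS k w hw
  have h2 : 0 < dk δ c k w := by
    have h3 := (Dk_basic hD hw).2.2.1
    have h4 := ek_pos k
    have h5 := hD.pos.1
    have h6 : 0 < c / 8 * ek k := by positivity
    linarith
  have h3 : 0 ≤ gau (dk δ c k) h w X := gau_nonneg h2 X
  have h4 : 0 ≤ (dk δ c k w / ek k) ^ (1 / 32 : ℝ) :=
    Real.rpow_nonneg (div_nonneg h2.le (ek_pos k).le) _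
  refine mul_le_mul_of_nonneg_right ?_ h3
  refine mul_le_mul (mul_le_mul_of_nonneg_right hK h4) h1 h0 (mul_nonneg hK0 h4)

end Pool.Agent.MPca0fc2.GW
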