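import Pool.Agent.Lib.MP_ca0fc2_an.Mg.G038
import Pool.Agent.Lib.MP_ca0fc2_an.GW.U1

/-! The approximations of a slowly oscillating function. -/

set_option autoImplicit false

open Metric Set MeasureTheory Filter Topology

namespace Pool.Agent.MPca0fc2.GW

open Pool.Agent.MPca0fc2.FD

variable {n : ℕ} {U : Set (Ec n)} {δ : Ec n → ℝ} {h : Ec n → Ec n → Fin n → ℂ} {c C A : ℝ}

/-- the slow functions, with the moduli `ω` -/
def SG (U : Set (Ec n)) (δ : Ec n → ℝ) (c C : ℝ) (ω : ℕ → ℝ) (u : Ec n → ℂ) : Prop :=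
  ∀ (i : ℕ), ∀ z ∈ Om U δ, c ^ 2 / (32 * C) * ek i ≤ δ z → ek i * ‖fderiv ℂ u z‖ ≤ ω i

/-- PROOF. `inc_int`: for `s ∈ [ek (i+1), ek i]`, `δ (dil s w) ≥ (c / 4 C) dk ≥ (c / 4 C)(c / 8) ek i` (`dil_lo`), `‖w‖ ≤ C`. -/
theorem inc_slow (hD : CD U δ h c C) {u : Ec n → ℂ} (hu : DifferentiableOn ℂ u (Om U δ)) {ω : ℕ → ℝ}
    (hω : SG U δ c C ω u) {i : ℕ} {w : Ec n} (hw : w ∈ Dk U δ c i) :
    ‖uk u (i + 1) w - uk u i w‖ ≤ C * ω i := by
  obtain ⟨hc0, hc1, hC1⟩ := hD.pos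
  obtain ⟨hwU, hδw, hdk, hdkC, hwC⟩ := Dk_basic hD hw
  have hek : 0 < ek i := ek_pos i
  have hC0 : 0 < C := by linarith
  have hB : ∀ s ∈ Icc (ek (i + 1)) (ek i), ‖fderiv ℂ u (dil s w) w‖ ≤ ω i / ek i * C := by
    intro s hs
    have hs1 : s ≤ 1 := hs.2.trans (ek_le_one i)
    obtain ⟨h1, h2⟩ := dil_lo hD hw hs.1 hs1
    have h3 : c ^ 2 / (32 * C) * ek i ≤ δ (dil s w) := by
      refine le_trans ?_ h2
      calc c ^ 2 / (32 * C) * ek i = c / (4 * C) * (c / 8 * ek i) := by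
            field_simp
            ring
        _ ≤ c / (4 * C) * dk δ c i w := mul_le_mul_of_nonneg_left hdk.le (by positivity)
    have h4 := hω i (dil s w) h1 h3
    have h5 : ‖fderiv ℂ u (dil s w)‖ ≤ ω i / ek i := by
      rw [le_div_iff₀ hek]
      linarith
    refine (ContinuousLinearMap.le_opNorm _ _).trans ?_
    exact mul_le_mul h5 hwC (norm_nonneg _) ((norm_nonneg _).trans h5)
  refine (inc_int hD hu hw hB).trans (le_of_eq ?_)
  field_simp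

/-- The sum of the gradients of the functions `uk u (l - m l)`, `1 ≤ l ≤ k`.
PROOF. `inc_grad` at the level `i = l - m l ≤ k` (`w ∈ Dk k ⊆ Dk i`): `‖d(uk i) X‖ ≤ K M gau (dk i) h w X ≤ K M (dk k / dk i)^(1/32) gau (dk k) h w X`
(`gau_lev`; `dk k ≤ dk i`), and by `lev_ratio` `(dk k / dk i)^(1/32) ≤ K (dk k / ek k)^(1/32) (1/2)^((k - i)/32)`. `k - i = (k - l) + m l`, so `(1/2)^((k-i)/32) ≤ (1/2)^((k-l)/32) (1/2)^((m l)/256)`, and
`m k ≤ m l + (k - l)` gives `(1/2)^((m l)/256) ≤ (1/2)^((m k)/256) 2^((k-l)/256)`. The sum over `l` of `(1/2)^((k-l)(1/32 - 1/256))` is bounded; `(1/2)^((m k)/256) ≤ s k`. -/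
theorem slow_sum (n : ℕ) (c C M : ℝ) : ∃ K : ℝ, 1 ≤ K ∧ ∀ (U : Set (Ec n))
    (δ : Ec n → ℝ) (h : Ec n → Ec n → Fin n → ℂ) (u : Ec n → ℂ), CD U δ h c C →
    DifferentiableOn ℂ u (Om U δ) → (∀ z ∈ Om U δ, ‖u z‖ ≤ M) → ∀ (m : ℕ → ℕ) (s : ℕ → ℝ),
    (∀ k, m k ≤ k) → (∀ l k, l ≤ k → m k ≤ m l + (k - l)) →
    (∀ k, (1 / 2 : ℝ) ^ ((m k : ℝ) / 256) ≤ s k) → ∀ k : ℕ, ∀ w ∈ Dk U δ c k, ∀ X : Ec n,
    ∑ l ∈ Finset.range k, ‖fderiv ℝ (uk u (l + 1 - m (l + 1))) w X‖ ≤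
      K * (dk δ c k w / ek k) ^ (1 / 32 : ℝ) * s k * gau (dk δ c k) h w X := by
  obtain ⟨K1, hK1, H1⟩ := inc_grad n c C
  set q : ℝ := (1 / 2 : ℝ) ^ (7 / 256 : ℝ) with hq
  have hq0 : 0 < q := Real.rpow_pos_of_pos (by norm_num) _
  have hq1 : q < 1 := Real.rpow_lt_one (by norm_num) (by norm_num) (by norm_num)
  have h1q : 0 < 1 - q := by linarith
  refine ⟨1 + K1 * |M| * (8 / |c|) ^ (1 / 32 : ℝ) * (1 / (1 - q)), ?_, ?_⟩
  · have : 0 ≤ K1 * |M| * (8 / |c|) ^ (1 / 32 : ℝ) * (1 / (1 - q)) := by positivity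
    linarith
  intro U δ h u hD hu hM m s hm hml hs k w hw X
  obtain ⟨hc0, hc1, hC1⟩ := hD.pos
  have hcc : |c| = c := abs_of_pos hc0
  have hM0 : 0 ≤ M := by
    have hz : (0 : Ec n) ∈ Om U δ := ⟨hD.zero, lt_of_lt_of_le hc0 hD.cen⟩
    exact (norm_nonneg _).trans (hM 0 hz)
  have hMM : |M| = M := abs_of_nonneg hM0
  rw [hcc, hMM]
  obtain ⟨hwU, hδw, hdk, hdkC, hwC⟩ := Dk_basic hD hw
  have hek : 0 < ek k := ek_pos k
  have hdk0 : 0 < dk δ c k w := lt_trans (by positivity) hdk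
  have hg0 : 0 ≤ gau (dk δ c k) h w X := gau_nonneg hdk0 X
  have hterm : ∀ l ∈ Finset.range k, ‖fderiv ℝ (uk u (l + 1 - m (l + 1))) w X‖ ≤
      K1 * M * (8 / c) ^ (1 / 32 : ℝ) * (dk δ c k w / ek k) ^ (1 / 32 : ℝ) * s k *
        gau (dk δ c k) h w X * q ^ (k - 1 - l) := by
    intro l hl
    have hlk : l + 1 ≤ k := Nat.succ_le_of_lt (Finset.mem_range.mp hl)
    set i := l + 1 - m (l + 1) with hi
    have hik : i ≤ k := (Nat.sub_le _ _).trans hlk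
    have hwi : w ∈ Dk U δ c i := Dk_anti hD hik hw
    have hdi : 0 < dk δ c i w := by
      have h1 := (Dk_basic hD hwi).2.2.1
      have h2 : 0 < ek i := ek_pos i
      exact lt_trans (by positivity) h1
    have h1 := H1 U δ h hD u M hu hM i i (Or.inl rfl) w hwi X
    have h2 := gau_lev hD hik hw X
    set r : ℝ := dk δ c k w / dk δ c i w with hr
    have hr0 : 0 < r := div_pos hdk0 hdi
    have hr1 : r ≤ 1 := by
      rw [hr, div_le_one hdi]
      exact dk_anti hD hik w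
    have h3 : Real.sqrt r ≤ r ^ (1 / 32 : ℝ) := by
      rw [Real.sqrt_eq_rpow]
      exact Real.rpow_le_rpow_of_exponent_ge hr0 hr1 (by norm_num)
    have h4 : r ^ (1 / 32 : ℝ) ≤ (8 / c) ^ (1 / 32 : ℝ) * (dk δ c k w / ek k) ^ (1 / 32 : ℝ) *
        ((1 / 2 : ℝ) ^ (k - i)) ^ (1 / 32 : ℝ) := by
      refine (Real.rpow_le_rpow hr0.le (lev_ratio hD hik hw) (by norm_num)).trans (le_of_eq ?_)
      rw [Real.mul_rpow (by positivity) (by positivity), Real.mul_rpow (by positivity)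
        (by positivity)]
    have h5 : ((1 / 2 : ℝ) ^ (k - i)) ^ (1 / 32 : ℝ) ≤ s k * q ^ (k - 1 - l) := by
      have hmm := hm (l + 1)
      have hmk := hml (l + 1) k hlk
      have e1 : ((1 / 2 : ℝ) ^ (k - i)) ^ (1 / 32 : ℝ) =
          (1 / 2 : ℝ) ^ (((k - i : ℕ) : ℝ) * (1 / 32)) := by
        rw [← Real.rpow_natCast, ← Real.rpow_mul (by norm_num)]
      have e2 : q ^ (k - 1 - l) = (1 / 2 : ℝ) ^ ((7 / 256 : ℝ) * ((k - 1 - l : ℕ) : ℝ)) := by
        rw [hq, ← Real.rpow_natCast, ← Real.rpow_mul (by norm_num)]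
      rw [e1, e2]
      refine le_trans ?_ (mul_le_mul_of_nonneg_right (hs k)
        (Real.rpow_nonneg (by norm_num) _))
      rw [← Real.rpow_add (by norm_num)]
      refine Real.rpow_le_rpow_of_exponent_ge (by norm_num) (by norm_num) ?_
      have e3 : k - i = (k - 1 - l) + m (l + 1) := by omega
      have e4 : m k ≤ m (l + 1) + (k - 1 - l) := by
        have : k - (l + 1) = k - 1 - l := by omega
        omega
      have e5 : ((k - i : ℕ) : ℝ) = ((k - 1 - l : ℕ) : ℝ) + (m (l + 1) : ℝ) := by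
        rw [e3]
        push_cast
        ring
      have e6 : (m k : ℝ) ≤ (m (l + 1) : ℝ) + ((k - 1 - l : ℕ) : ℝ) := by exact_mod_cast e4
      have e7 : (0 : ℝ) ≤ (m (l + 1) : ℝ) := Nat.cast_nonneg _
      rw [e5]
      linarith
    have hsk : 0 ≤ s k := (Real.rpow_nonneg (by norm_num) _).trans (hs k)
    have hgi : 0 ≤ gau (dk δ c i) h w X := gau_nonneg hdi X
    calc ‖fderiv ℝ (uk u i) w X‖ ≤ K1 * M * gau (dk δ c i) h w X := h1
      _ ≤ K1 * M * (Real.sqrt r * gau (dk δ c k) h w X) :=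
          mul_le_mul_of_nonneg_left h2 (by positivity)
      _ ≤ K1 * M * ((8 / c) ^ (1 / 32 : ℝ) * (dk δ c k w / ek k) ^ (1 / 32 : ℝ) *
            (s k * q ^ (k - 1 - l)) * gau (dk δ c k) h w X) := by
          refine mul_le_mul_of_nonneg_left (mul_le_mul_of_nonneg_right ?_ hg0) (by positivity)
          refine (h3.trans h4).trans ?_
          exact mul_le_mul_of_nonneg_left h5 (by positivity)
      _ = K1 * M * (8 / c) ^ (1 / 32 : ℝ) * (dk δ c k w / ek k) ^ (1 / 32 : ℝ) * s k *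
        gau (dk δ c k) h w X * q ^ (k - 1 - l) := by ring
  have hsk : 0 ≤ s k := (Real.rpow_nonneg (by norm_num) _).trans (hs k)
  have hgeo : ∑ l ∈ Finset.range k, q ^ (k - 1 - l) ≤ 1 / (1 - q) := by
    rw [Finset.sum_range_reflect (fun j => q ^ j) k, le_div_iff₀ h1q, geom_sum_mul_neg]
    have : 0 ≤ q ^ k := by positivity
    linarith
  refine (Finset.sum_le_sum hterm).trans ?_
  rw [← Finset.mul_sum]
  have hd0 : 0 ≤ (dk δ c k w / ek k) ^ (1 / 32 : ℝ) := by positivity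
  calc K1 * M * (8 / c) ^ (1 / 32 : ℝ) * (dk δ c k w / ek k) ^ (1 / 32 : ℝ) * s k *
        gau (dk δ c k) h w X * ∑ l ∈ Finset.range k, q ^ (k - 1 - l)
      ≤ K1 * M * (8 / c) ^ (1 / 32 : ℝ) * (dk δ c k w / ek k) ^ (1 / 32 : ℝ) * s k *
        gau (dk δ c k) h w X * (1 / (1 - q)) := mul_le_mul_of_nonneg_left hgeo (by positivity)
    _ = K1 * M * (8 / c) ^ (1 / 32 : ℝ) * (1 / (1 - q)) *
        ((dk δ c k w / ek k) ^ (1 / 32 : ℝ) * s k * gau (dk δ c k) h w X) := by ring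
    _ ≤ (1 + K1 * M * (8 / c) ^ (1 / 32 : ℝ) * (1 / (1 - q))) *
        ((dk δ c k w / ek k) ^ (1 / 32 : ℝ) * s k * gau (dk δ c k) h w X) := by
        refine mul_le_mul_of_nonneg_right ?_ (by positivity)
        linarith
    _ = _ := by ring

/-- PROOF. `slow_seq` for the sequence `C ω i` and `ρ / 2` gives `m`, `s` (put `A' = ` its constant); `v k = uk u (k - m k)`. `v 0 = uk u 0 = u 0`. `near`: `|uk (k+1) w - uk (k + 1 - m (k+1)) w| ≤ ∑ C ω i ≤ ρ / 2` (`inc_slow`). `c2`: `uk_c2`.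
`grad`: `slow_sum`. `BL_of_VL`. -/
theorem BL_slow (n : ℕ) (c C M ρ : ℝ) (hC : 0 < C) (hρ : 0 < ρ) (hρM : ρ ≤ M) (ω : ℕ → ℝ) (hω : ∀ i, 0 < ω i)
    (hs : ∀ b : ℝ, 0 < b → Summable (fun i => Real.exp (-(b / ω i)))) : ∃ (s : ℕ → ℝ) (A' K : ℝ),
    SL s A' ∧ 1 ≤ K ∧ ∀ (U : Set (Ec n))
    (δ : Ec n → ℝ) (h : Ec n → Ec n → Fin n → ℂ) (u : Ec n → ℂ), CD U δ h c C →
    DifferentiableOn ℂ u (Om U δ) → (∀ z ∈ Om U δ, ‖u z‖ ≤ M) → SG U δ c C ω u →
    ∃ b, BL U δ h c u (fun k _ => s k) b M ρ K := by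
  have hsum : ∀ b : ℝ, 0 < b → Summable (fun i => Real.exp (-(b / (C * ω i)))) := by
    intro b hb
    have h1 := hs (b / C) (by positivity)
    refine h1.congr fun i => ?_
    rw [div_div]
  obtain ⟨m, s, A', hm, hwin, hml, hSL, hms⟩ := slow_seq (fun i => C * ω i)
    (fun i => mul_pos hC (hω i)) hsum (ρ / 2) (by linarith)
  obtain ⟨K, hK, HK⟩ := slow_sum n c C M
  refine ⟨s, A', K, hSL, hK, ?_⟩
  intro U δ h u hD hu hM hSG
  have hVL : VL U δ h c u (fun k _ => s k) (fun k => uk u (k - m k)) ρ K := by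
    refine ⟨?_, ?_, ?_, ?_⟩
    · intro w
      have h0 : 0 - m 0 = 0 := Nat.zero_sub _
      change uk u (0 - m 0) w = u 0
      rw [h0, uk_zero]
    · intro k
      exact uk_c2 hD hu (Nat.sub_le _ _)
    · intro k w hw
      rw [norm_sub_rev]
      have htel : uk u (k + 1) w - uk u (k + 1 - m (k + 1)) w =
          ∑ i ∈ Finset.Ico (k + 1 - m (k + 1)) (k + 1), (uk u (i + 1) w - uk u i w) := by
        rw [Finset.sum_Ico_sub (fun i => uk u i w) (Nat.sub_le _ _)]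
      rw [htel]
      refine (norm_sum_le _ _).trans (le_trans (Finset.sum_le_sum fun i hi => ?_) (hwin (k + 1)))
      have hik : i ≤ k := Nat.lt_succ_iff.mp (Finset.mem_Ico.mp hi).2
      exact inc_slow hD hu hSG (Dk_anti hD hik hw)
    · intro k w hw X
      exact HK U δ h u hD hu hM m s hm hml hms k w hw X
  exact BL_of_VL hD hu hM hρ hρM hVL

end Pool.Agent.MPca0fc2.GW
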