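import Pool.Agent.Lib.MP_ca0fc2_an.GW.M4a
import Pool.Agent.Lib.MP_ca0fc2_an.GW.U3

/-! The classes of functions in convexifying coordinates. -/

set_option autoImplicit false

open Metric Set MeasureTheory Filter Topology

namespace Pool.Agent.MPca0fc2.GW

open Pool.Agent.MPca0fc2.FD
open Pool.Agent.Lib.MP_ca0fc2_an

variable {n : ℕ}

/-- The rates at a sequence of scales.
PROOF. For `t ∈ [t₀ 2^(-i) / 2, t₀ 2^(-i)]`: `ω(t₀ 2^(-i)) ≤ 2 ω(t)` (`ω t / t` is decreasing), so `exp(-b / ω(t₀ 2^(-i))) ≤ exp(-(b/2) / ω(t))`, and `∫ dt / t` over this interval is `log 2`: the sum is at most `(1 / log 2) ∫₀¹ exp(-(b/2) / ω t) dt / t`. -/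
theorem rate_sum {ω : ℝ → ℝ} (h : Rate ω) (hω : AntitoneOn (fun t => ω t / t) (Ioo 0 1)) {t₀ : ℝ}
    (h0 : 0 < t₀) (h1 : t₀ < 1) {b : ℝ} (hb : 0 < b) :
    Summable fun i : ℕ => Real.exp (-(b / ω (t₀ * ek i))) := by
  obtain ⟨T, hT⟩ : ∃ T : ℕ → ℝ, T = fun i => t₀ * ek i := ⟨_, rfl⟩
  obtain ⟨F, hF⟩ : ∃ F : ℝ → ℝ, F = fun t => Real.exp (-((b / 2) / ω t)) / t := ⟨_, rfl⟩
  have hTpos : ∀ i, 0 < T i := fun i => by
    rw [hT]; exact mul_pos h0 (ek_pos i)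
  have hTlt : ∀ i, T i < 1 := fun i => by
    rw [hT]
    calc t₀ * ek i ≤ t₀ * 1 := mul_le_mul_of_nonneg_left (ek_le_one i) h0.le
      _ < 1 := by linarith
  have hTsucc : ∀ i, T (i + 1) = T i / 2 := fun i => by
    rw [hT]
    simp only [ek_succ]
    ring
  have hTanti : Antitone T := by
    rw [hT]
    intro i j hij
    exact mul_le_mul_of_nonneg_left (ek_anti hij) h0.le
  have hint : IntegrableOn F (Ioo 0 1) := by
    rw [hF]; exact h.2 (b / 2) (by positivity)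
  have hsub : ∀ i, Ioc (T (i + 1)) (T i) ⊆ Ioo (0 : ℝ) 1 := fun i t ht =>
    ⟨(hTpos _).trans ht.1, ht.2.trans_lt (hTlt i)⟩
  have hdisj : Pairwise (Function.onFun Disjoint fun i : ℕ => Ioc (T (i + 1)) (T i)) := by
    have := hTanti.pairwise_disjoint_on_Ioc_succ
    simpa using this
  have hsum := hasSum_integral_iUnion (μ := volume) (f := F) (s := fun i : ℕ => Ioc (T (i + 1)) (T i))
    (fun i => measurableSet_Ioc) hdisj (hint.mono_set (iUnion_subset hsub))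
  have hkey : ∀ i : ℕ, Real.exp (-(b / ω (T i))) ≤ 2 * ∫ t in Ioc (T (i + 1)) (T i), F t := by
    intro i
    have hTi : T i ∈ Ioo (0 : ℝ) 1 := ⟨hTpos i, hTlt i⟩
    have hlow : ∀ t ∈ Ioc (T (i + 1)) (T i), Real.exp (-(b / ω (T i))) / T i ≤ F t := by
      intro t ht
      have ht' : t ∈ Ioo (0 : ℝ) 1 := hsub i ht
      have h2 : ω (T i) / T i ≤ ω t / t := hω ht' hTi ht.2
      have hω1 : 0 < ω (T i) := h.1 _ hTi
      have hω2 : 0 < ω t := h.1 _ ht'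
      have h3 : ω (T i) ≤ 2 * ω t := by
        rw [div_le_div_iff₀ hTi.1 ht'.1] at h2
        have h4 : T i ≤ 2 * t := by
          have := ht.1
          rw [hTsucc] at this
          linarith
        have h5 : ω (T i) * t ≤ (2 * ω t) * t := by
          calc ω (T i) * t ≤ ω t * T i := h2
            _ ≤ ω t * (2 * t) := mul_le_mul_of_nonneg_left h4 hω2.le
            _ = (2 * ω t) * t := by ring
        exact le_of_mul_le_mul_right h5 ht'.1
      have h4 : (b / 2) / ω t ≤ b / ω (T i) := by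
        rw [div_div, div_le_div_iff₀ (by positivity) hω1]
        exact mul_le_mul_of_nonneg_left h3 hb.le
      rw [hF]
      show Real.exp (-(b / ω (T i))) / T i ≤ Real.exp (-((b / 2) / ω t)) / t
      exact div_le_div₀ (Real.exp_pos _).le (Real.exp_le_exp.mpr (by linarith)) ht'.1 ht.2
    have h5 := setIntegral_ge_of_const_le (μ := volume) measurableSet_Ioc
      (by rw [Real.volume_Ioc]; exact ENNReal.ofReal_ne_top) hlow (hint.mono_set (hsub i))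
    rw [Real.volume_real_Ioc, max_eq_left (by linarith [hTsucc i, hTpos i]), smul_eq_mul,
      mul_comm] at h5
    have h6 : Real.exp (-(b / ω (T i))) / T i * (T i - T (i + 1)) =
        Real.exp (-(b / ω (T i))) / 2 := by
      rw [hTsucc]
      field_simp [(hTpos i).ne']
      ring
    rw [h6] at h5
    linarith
  have hs : Summable fun i : ℕ => 2 * ∫ t in Ioc (T (i + 1)) (T i), F t :=
    hsum.summable.mul_left 2
  have hres := Summable.of_nonneg_of_le (fun i => (Real.exp_pos _).le) hkey hs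
  rw [hT] at hres
  exact hres

/-- The slow functions.
PROOF. Let `κ = c² / (32 C)`, `t₀ = min (κ / L) (1/2)` (so `0 < t₀ < 1`), `ω' i = K' ω(t₀ ek i)`. Let `κ ek i ≤ δ y`, `z = Φ (x₀ + y)`, `D₀ = infDist z Dᶜ ≥ |ρ z| / L ≥ δ y / L ≥ t₀ ek i`. If `D₀ < 1`: `‖du(z)‖ ≤ ω(D₀) / D₀ ≤ ω(t₀ ek i) / (t₀ ek i)`. If `D₀ ≥ 1`: the distance from `z` to the complement of `D ∩ ball p r` is at least `min 1 η` with
`η = ` the distance from `Φ` (closed ball of radius `a₂`) to the complement of `ball p r` (`> 0`; or: `Φ` of the ball of radius `(a - a₂)/2` around `x₀ + y` contains the ball of radius `(a - a₂) / (4 L)` around `z`, ...), so `‖du(z)‖ ≤ K''` (Cauchy) and `ω(t₀ ek i) / (t₀ ek i) ≥ ω(1/2) / (1/2) > 0`. `‖dΦ‖ ≤ L`. `rate_sum`. -/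
theorem slow_SG {D U : Set (Ec n)} {ρ : Ec n → ℝ} {p : Ec n} {r a L c₁ : ℝ} {Φ : Ec n → Ec n}
    {q' : Ec n → ℝ} {x₀ : Ec n} {a₁ a₂ c C K : ℝ} {W : Set (Ec n)}
    (hL : LD D U ρ p r a L c₁ Φ q' x₀ a₁ a₂ c C K W) {u : Ec n → ℂ}
    (hu : u ∈ SlowLoc D (ball p r)) : ∃ ω : ℕ → ℝ, (∀ i, 0 < ω i) ∧
      (∀ b : ℝ, 0 < b → Summable (fun i => Real.exp (-(b / ω i)))) ∧
      SG W (fun y => -q' (x₀ + y)) c C ω (fun y => u (Φ (x₀ + y))) := by
  obtain ⟨⟨hud, M, hM⟩, ω, hR, hanti, hbd⟩ := hu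
  have hL1 : 1 ≤ L := hL.cv.L1
  have hLp : 0 < L := by linarith
  obtain ⟨hc0, hc1, hC1⟩ := hL.cd.pos
  have hCp : 0 < C := by linarith
  obtain ⟨κ, hκ⟩ : ∃ κ : ℝ, κ = c ^ 2 / (32 * C) := ⟨_, rfl⟩
  have hκp : 0 < κ := by rw [hκ]; positivity
  obtain ⟨t₀, ht₀⟩ : ∃ t₀ : ℝ, t₀ = min (κ / L) (1 / 2) := ⟨_, rfl⟩
  have ht0p : 0 < t₀ := by rw [ht₀]; exact lt_min (by positivity) (by norm_num)
  have ht0h : t₀ ≤ 1 / 2 := by rw [ht₀]; exact min_le_right _ _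
  have ht0k : t₀ ≤ κ / L := by rw [ht₀]; exact min_le_left _ _
  have hsmall : ∀ i, 0 < t₀ * ek i ∧ t₀ * ek i ≤ 1 / 2 := fun i =>
    ⟨mul_pos ht0p (ek_pos i), by
      calc t₀ * ek i ≤ t₀ * 1 := mul_le_mul_of_nonneg_left (ek_le_one i) ht0p.le
        _ ≤ 1 / 2 := by linarith⟩
  have hIoo : ∀ i, t₀ * ek i ∈ Ioo (0 : ℝ) 1 := fun i =>
    ⟨(hsmall i).1, by linarith [(hsmall i).2]⟩
  have hhalf : (1 / 2 : ℝ) ∈ Ioo (0 : ℝ) 1 := ⟨by norm_num, by norm_num⟩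
  obtain ⟨m₀, hm₀⟩ : ∃ m₀ : ℝ, m₀ = ω (1 / 2) / (1 / 2) := ⟨_, rfl⟩
  have hm0p : 0 < m₀ := by rw [hm₀]; exact div_pos (hR.1 _ hhalf) (by norm_num)
  obtain ⟨ha1, ha12, ha2⟩ := hL.a12
  -- the distance to the complement of the ball
  have hcb : closedBall (0 : Ec n) a₂ ⊆ ball 0 a := closedBall_subset_ball ha2
  have hcΦ : ContinuousOn Φ (closedBall (0 : Ec n) a₂) := hL.cv.hol.continuousOn.mono hcb
  have hcont : ContinuousOn (fun x => dist (Φ x) p) (closedBall (0 : Ec n) a₂) :=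
    (continuous_id.dist continuous_const).comp_continuousOn hcΦ
  obtain ⟨xm, hxm, hmax⟩ := (isCompact_closedBall (0 : Ec n) a₂).exists_isMaxOn
    ⟨0, mem_closedBall_self (by linarith)⟩ hcont
  have hxr : dist (Φ xm) p < r := mem_ball.mp (hL.cv.map xm (hcb hxm)).1
  obtain ⟨η, hη⟩ : ∃ η : ℝ, η = min 1 (r - dist (Φ xm) p) := ⟨_, rfl⟩
  have hηp : 0 < η := by rw [hη]; exact lt_min one_pos (by linarith)
  have hη1 : η ≤ 1 := by rw [hη]; exact min_le_left _ _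
  have hη2 : η ≤ r - dist (Φ xm) p := by rw [hη]; exact min_le_right _ _
  have hball : ∀ x ∈ closedBall (0 : Ec n) a₂, ball (Φ x) η ⊆ ball p r := by
    intro x hx w hw
    have h1 : dist (Φ x) p ≤ dist (Φ xm) p := hmax hx
    have h2 : dist w (Φ x) < η := hw
    rw [mem_ball]
    calc dist w p ≤ dist w (Φ x) + dist (Φ x) p := dist_triangle _ _ _
      _ < r := by linarith
  obtain ⟨K2, hK2⟩ : ∃ K2 : ℝ, K2 = 2 * |M| / η := ⟨_, rfl⟩
  have hK2p : 0 ≤ K2 := by rw [hK2]; positivity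
  obtain ⟨K', hK'⟩ : ∃ K' : ℝ, K' = L / t₀ * (1 + K2 / m₀) := ⟨_, rfl⟩
  have hK'p : 0 < K' := by
    rw [hK']
    have : 0 ≤ K2 / m₀ := div_nonneg hK2p hm0p.le
    exact mul_pos (div_pos hLp ht0p) (by linarith)
  refine ⟨fun i => K' * ω (t₀ * ek i), fun i => mul_pos hK'p (hR.1 _ (hIoo i)), fun b hb => ?_, ?_⟩
  · have h1 := rate_sum hR hanti ht0p (by linarith) (b := b / K') (by positivity)
    refine h1.congr fun i => ?_
    rw [div_div]
  · intro i y hy hyi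
    have hyW : y ∈ W := hy.1
    have hx2 : x₀ + y ∈ ball (0 : Ec n) a₂ := hL.sub hyW
    have hxa : x₀ + y ∈ ball (0 : Ec n) a := ball_subset_ball ha2.le hx2
    obtain ⟨hρ, hδρ, -⟩ := hL.cmp y hy
    obtain ⟨hz1, hz2⟩ := hL.cv.map _ hxa
    have hzD : Φ (x₀ + y) ∈ D := by
      rw [hL.eqD]; exact ⟨hz2, hρ⟩
    obtain ⟨hd1, hd2, hd3⟩ := hL.dist _ hxa hρ
    obtain ⟨D₀, hD₀⟩ : ∃ D₀ : ℝ, D₀ = infDist (Φ (x₀ + y)) Dᶜ := ⟨_, rfl⟩
    rw [← hD₀] at hd1 hd2 hd3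
    have hlow : t₀ * ek i ≤ D₀ := by
      have h1 : κ * ek i ≤ L * D₀ := by
        rw [hκ]
        exact (hyi.trans hδρ).trans hd1
      have h2 : t₀ * ek i ≤ κ / L * ek i := mul_le_mul_of_nonneg_right ht0k (ek_pos i).le
      have h3 : κ / L * ek i ≤ D₀ := by
        rw [div_mul_eq_mul_div, div_le_iff₀ hLp]
        linarith
      linarith
    have hbD : ball (Φ (x₀ + y)) D₀ ⊆ D := by
      rw [hD₀]; exact ball_infDist_compl_subset
    -- the gradient of `u`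
    have hgrad : ‖fderiv ℂ u (Φ (x₀ + y))‖ ≤
        (1 + K2 / m₀) * (ω (t₀ * ek i) / (t₀ * ek i)) := by
      have hmon : m₀ ≤ ω (t₀ * ek i) / (t₀ * ek i) := by
        rw [hm₀]; exact hanti (hIoo i) hhalf (hsmall i).2
      rcases lt_or_ge D₀ 1 with hlt | hge
      · have h1 := hbd _ ⟨hzD, hz1⟩ (by rw [← hD₀]; exact hlt)
        rw [← hD₀] at h1
        have h2 : ω D₀ / D₀ ≤ ω (t₀ * ek i) / (t₀ * ek i) := hanti (hIoo i) ⟨hd3, hlt⟩ hlow
        have h3 : ‖fderiv ℂ u (Φ (x₀ + y))‖ ≤ ω D₀ / D₀ := by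
          rw [le_div_iff₀ hd3]
          linarith
        have h4 : 0 ≤ K2 / m₀ * (ω (t₀ * ek i) / (t₀ * ek i)) :=
          mul_nonneg (div_nonneg hK2p hm0p.le) (hm0p.le.trans hmon)
        calc ‖fderiv ℂ u (Φ (x₀ + y))‖ ≤ ω (t₀ * ek i) / (t₀ * ek i) := h3.trans h2
          _ ≤ ω (t₀ * ek i) / (t₀ * ek i) + K2 / m₀ * (ω (t₀ * ek i) / (t₀ * ek i)) := by linarith
          _ = _ := by ring
      · have hsubb : ball (Φ (x₀ + y)) η ⊆ D ∩ ball p r := by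
          intro w hw
          exact ⟨hbD (ball_subset_ball (hη1.trans hge) hw),
            hball _ (ball_subset_closedBall hx2) hw⟩
        have h1 : ‖fderiv ℂ u (Φ (x₀ + y))‖ ≤ K2 := by
          refine ContinuousLinearMap.opNorm_le_bound _ hK2p fun v => ?_
          rw [hK2]
          exact norm_fderiv_apply_le hηp (hud.mono hsubb)
            (fun w hw => (hM w (hsubb hw)).trans (le_abs_self M)) v
        have h2 : K2 ≤ K2 / m₀ * (ω (t₀ * ek i) / (t₀ * ek i)) := by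
          calc K2 = K2 / m₀ * m₀ := by field_simp
            _ ≤ _ := mul_le_mul_of_nonneg_left hmon (div_nonneg hK2p hm0p.le)
        have h3 : 0 ≤ ω (t₀ * ek i) / (t₀ * ek i) := hm0p.le.trans hmon
        calc ‖fderiv ℂ u (Φ (x₀ + y))‖ ≤ K2 / m₀ * (ω (t₀ * ek i) / (t₀ * ek i)) := h1.trans h2
          _ ≤ ω (t₀ * ek i) / (t₀ * ek i) + K2 / m₀ * (ω (t₀ * ek i) / (t₀ * ek i)) := by linarith
          _ = _ := by ring
    -- the chain rule
    have hΦd : DifferentiableAt ℂ Φ (x₀ + y) :=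
      hL.cv.hol.differentiableAt (isOpen_ball.mem_nhds hxa)
    have hΦn : ‖fderiv ℂ Φ (x₀ + y)‖ ≤ L := by
      refine norm_fderiv_le_of_lip' ℂ hLp.le ?_
      filter_upwards [isOpen_ball.mem_nhds hxa] with x hx
      exact (hL.cv.lip x hx _ hxa).1
    have hηD : 0 < min D₀ η := lt_min hd3 hηp
    have hud1 : DifferentiableAt ℂ u (Φ (x₀ + y)) := by
      have hsubb : ball (Φ (x₀ + y)) (min D₀ η) ⊆ D ∩ ball p r := by
        intro w hw
        exact ⟨hbD (ball_subset_ball (min_le_left _ _) hw),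
          hball _ (ball_subset_closedBall hx2) (ball_subset_ball (min_le_right _ _) hw)⟩
      exact (hud.mono hsubb).differentiableAt (ball_mem_nhds _ hηD)
    have hchain : HasFDerivAt (fun y => u (Φ (x₀ + y)))
        ((fderiv ℂ u (Φ (x₀ + y))).comp ((fderiv ℂ Φ (x₀ + y)).comp
          (ContinuousLinearMap.id ℂ (Ec n)))) y := by
      have h1 : HasFDerivAt (fun y => x₀ + y) (ContinuousLinearMap.id ℂ (Ec n)) y :=
        (hasFDerivAt_id y).const_add x₀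
      have h2 : HasFDerivAt (fun y => Φ (x₀ + y)) ((fderiv ℂ Φ (x₀ + y)).comp
          (ContinuousLinearMap.id ℂ (Ec n))) y := hΦd.hasFDerivAt.comp y h1
      exact hud1.hasFDerivAt.comp y h2
    show ek i * ‖fderiv ℂ (fun y => u (Φ (x₀ + y))) y‖ ≤ K' * ω (t₀ * ek i)
    rw [hchain.fderiv, ContinuousLinearMap.comp_id]
    have h1 : ‖(fderiv ℂ u (Φ (x₀ + y))).comp (fderiv ℂ Φ (x₀ + y))‖ ≤
        (1 + K2 / m₀) * (ω (t₀ * ek i) / (t₀ * ek i)) * L :=
      (ContinuousLinearMap.opNorm_comp_le _ _).trans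
        (mul_le_mul hgrad hΦn (norm_nonneg _) ((norm_nonneg _).trans hgrad))
    have h2 : ek i * ((1 + K2 / m₀) * (ω (t₀ * ek i) / (t₀ * ek i)) * L) =
        K' * ω (t₀ * ek i) := by
      rw [hK']
      have h3 : t₀ ≠ 0 := ht0p.ne'
      have h4 : ek i ≠ 0 := (ek_pos i).ne'
      field_simp
    calc ek i * ‖(fderiv ℂ u (Φ (x₀ + y))).comp (fderiv ℂ Φ (x₀ + y))‖ ≤
        ek i * ((1 + K2 / m₀) * (ω (t₀ * ek i) / (t₀ * ek i)) * L) :=
          mul_le_mul_of_nonneg_left h1 (ek_pos i).le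
      _ = _ := h2

end Pool.Agent.MPca0fc2.GW
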