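import Pool.Agent.Lib.MP_ca0fc2_an.Mg.G043

/-! The corona theorem for data for which, on each cell, the ideal generated by the data contains functions without common
zeros in the fibres which are near functions of one function. -/

set_option autoImplicit false

open Metric Set MeasureTheory Filter Topology

namespace Pool.Agent.MPca0fc2.IND

open Pool.Agent.Lib.MP_ca0fc2_an
open Pool.Agent.MPca0fc2.CXS (LocOn)

variable {n : ℕ} {Δ : Set (EuclideanSpace ℂ (Fin n))}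

/-- On the set `C` the ideal generated by `f` contains functions `G k` with `∑ |G k|² ≥ δ' > 4 m η²` and with `|G k - q k| ≤ η`,
`q` one-dimensional modulo `T`. -/
def IdealOne {N : ℕ} (C : Set (EuclideanSpace ℂ (Fin n))) (T : Set (EuclideanSpace ℂ (Fin n) → ℂ))
    (f : Fin N → EuclideanSpace ℂ (Fin n) → ℂ) : Prop :=
  ∃ (m : ℕ) (δ' η : ℝ) (B : Fin m → Fin N → EuclideanSpace ℂ (Fin n) → ℂ)
    (q : Fin m → EuclideanSpace ℂ (Fin n) → ℂ), 4 * m * η ^ 2 < δ' ∧ (∀ k j, IsHinf C (B k j)) ∧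
    OneDim C T q ∧ (∀ z ∈ C, δ' ≤ ∑ k, ‖∑ j, f j z * B k j z‖ ^ 2) ∧
    ∀ k, ∀ z ∈ C, ‖∑ j, f j z * B k j z - q k z‖ ≤ η

theorem q1_ideal (hΔ : IsOpen Δ) {A : Set (EuclideanSpace ℂ (Fin n) → ℂ)} (hA : LocOn Δ A)
    (hAH : ∀ a ∈ A, IsHinf Δ a) {N : ℕ} {f : Fin N → EuclideanSpace ℂ (Fin n) → ℂ}
    (hf : ∀ j, IsHinf Δ (f j)) {k : ℕ}
    {a : Fin k → EuclideanSpace ℂ (Fin n) → ℂ} (ha : ∀ i, a i ∈ HullOn Δ A) {s : ℝ} (hs : 0 < s)
    (hc : ∀ c : Fin k → ℂ, (∃ B : ℝ, SolvableOn f (cellOn Δ a c s) B) ∨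
      IdealOne (cellOn Δ a c s) A f) :
    ∃ C : ℝ, SolvableOn f Δ C := by
  classical
  have hA' : LocOn Δ (HullOn Δ A) := CXS.locOn_hull hΔ (fun u hu => (hAH u hu).1) hA
  have hAH' : ∀ b ∈ HullOn Δ A, IsHinf Δ b := fun b hb => hb.1
  refine unimod_of_chars hΔ (fun j => bh_of_hinf (hf j)) (fun Φ => ?_)
  by_contra hcon
  push Not at hcon
  have hE : Ext Δ (HullOn Δ A) Φ := ext_of_loc hA' hAH' Φ
  obtain ⟨Φ₁, hE₁, hΦ₁⟩ := exists_ext hΔ hAH' hE ha hs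
  have hc0 := hc (fun i => Φ.φ (cf (a i)))
  have hsub : cellOn Δ a (fun i => Φ.φ (cf (a i))) s ⊆ Δ := fun z hz => hz.1
  have hopen : IsOpen (cellOn Δ a (fun i => Φ.φ (cf (a i))) s) :=
    CXS.isOpen_cellOn hΔ (fun i => (hAH' _ (ha i)).1) _ _
  generalize cellOn Δ a (fun i => Φ.φ (cf (a i))) s = Δ₁ at *
  have hfB : ∀ j, BH Δ₁ (cf (f j)) := fun j => bh_of_hinf (FD.isHinf_mono hsub (hf j))
  have hf0 : ∀ j, Φ₁.φ (cf (f j)) = 0 := fun j => by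
    rw [hΦ₁ _ (bh_of_hinf (hf j))]
    exact hcon j
  have key : ∀ g : Fin N → EuclideanSpace ℂ (Fin n) → ℂ, (∀ j, IsHinf Δ₁ (g j)) →
      BH Δ₁ (fun (t : Unit) z => ∑ j, cf (f j) t z * cf (g j) t z) ∧
      Φ₁.φ (fun t z => ∑ j, cf (f j) t z * cf (g j) t z) = 0 := by
    intro g hg
    have hgBH : ∀ j, BH Δ₁ (cf (g j)) := fun j => bh_of_hinf (hg j)
    constructor
    · exact BH.sum (s := Finset.univ) (F := fun j t z => cf (f j) t z * cf (g j) t z)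
        (fun j _ => (hfB j).mul (hgBH j))
    · rw [Φ₁.map_sum (s := Finset.univ) (F := fun j t z => cf (f j) t z * cf (g j) t z)
        (fun j _ => (hfB j).mul (hgBH j))]
      refine Finset.sum_eq_zero fun j _ => ?_
      rw [Φ₁.map_mul (hfB j) (hgBH j), hf0 j, zero_mul]
  rcases hc0 with ⟨B, g, hg, hgB, hg1⟩ | ⟨m, δ', η, B, q, hη, hB, hq, hδ', hfq⟩
  · have h1 := (key g fun j => ⟨hg j, B, hgB j⟩).2
    have h2 : Φ₁.φ (fun t z => ∑ j, cf (f j) t z * cf (g j) t z) = 1 := by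
      rw [← Φ₁.map_const 1]
      exact Φ₁.congr (BH.const 1) fun t z hz => hg1 z hz
    rw [h1] at h2
    exact zero_ne_one h2
  -- the functions in the ideal
  have hGB := fun i => key (B i) (hB i)
  -- a small number
  obtain ⟨ε, hε0, hε⟩ : ∃ ε : ℝ, 0 < ε ∧ m * (2 * η + ε) ^ 2 < δ' := by
    have h1 : Filter.Tendsto (fun ε : ℝ => m * (2 * η + ε) ^ 2) (𝓝[>] 0)
        (𝓝 (m * (2 * η + 0) ^ 2)) := by
      refine (Continuous.tendsto' (by fun_prop) _ _ rfl).mono_left nhdsWithin_le_nhds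
    have h2 : m * (2 * η + 0) ^ 2 < δ' := by
      have : m * (2 * η + 0) ^ 2 = 4 * m * η ^ 2 := by ring
      rw [this]; exact hη
    obtain ⟨ε, h3, h4⟩ := ((h1.eventually_lt_const h2).and self_mem_nhdsWithin).exists
    exact ⟨ε, h4, h3⟩
  obtain ⟨hqB, z, hz, hz1⟩ := cluster_one hopen hsub hAH hE₁ hq hε0
  have h3 : ∀ i, ‖∑ j, f j z * B i j z‖ ≤ 2 * η + ε := by
    intro i
    have hη0 : 0 ≤ η := (norm_nonneg _).trans (hfq i z hz)
    have h4 : ‖Φ₁.φ (cf (q i))‖ ≤ η := by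
      have h5 : Φ₁.φ (cf (q i)) =
          -(Φ₁.φ (fun t z => (∑ j, cf (f j) t z * cf (B i j) t z) - cf (q i) t z)) := by
        rw [Char.map_sub Φ₁ (hGB i).1 (hqB i), (hGB i).2]
        ring
      rw [h5, norm_neg]
      exact Φ₁.bound ((hGB i).1.sub (hqB i)) hη0 fun _ z hz => hfq i z hz
    have h6 := (hz1 i).le
    have h7 := hfq i z hz
    calc ‖∑ j, f j z * B i j z‖ = ‖(∑ j, f j z * B i j z - q i z) + (q i z - Φ₁.φ (cf (q i))) +
          Φ₁.φ (cf (q i))‖ := by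
          congr 1; ring
      _ ≤ ‖∑ j, f j z * B i j z - q i z‖ + ‖q i z - Φ₁.φ (cf (q i))‖ + ‖Φ₁.φ (cf (q i))‖ := norm_add₃_le
      _ ≤ 2 * η + ε := by linarith
  have h4 : ∑ i, ‖∑ j, f j z * B i j z‖ ^ 2 ≤ ∑ _j : Fin m, (2 * η + ε) ^ 2 :=
    Finset.sum_le_sum fun i _ => pow_le_pow_left₀ (norm_nonneg _) (h3 i) 2
  rw [Finset.sum_const, Finset.card_univ, Fintype.card_fin, nsmul_eq_mul] at h4
  have h5 := hδ' z hz
  linarith

end Pool.Agent.MPca0fc2.IND
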