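import Pool.Agent.Lib.MP_ca0fc2_an.Mg.G003
import Pool.Agent.Lib.MP_ca0fc2_an.Mg.G051

/-! The calculus of the weight. This file is the second half of `FD/B10.lean`, for a general weight vector `Q`
instead of `Qh P δ κ` (`Wq P U` is replaced by `W`, `Rv` by `R`). -/

set_option autoImplicit false

open Metric Set MeasureTheory Filter Topology

namespace Pool.Agent.MPca0fc2.GW

open Pool.Agent.MPca0fc2.FD

variable {n : ℕ} {U W : Set (Ec n)} {δ : Ec n → ℝ} {h : Ec n → Ec n → Fin n → ℂ} {c C A : ℝ}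
variable {Q R : Ec n → Ec n → Fin n → ℂ}


/-- PROOF. The definition of `wrq` and `WQ.dbQ` (as `rq_eq` of `FD/B10.lean`). -/
theorem wrq_eq (hQ : WQ W δ Q R) {z ζ : Ec n} (hz : z ∈ W) (hζ : ζ ∈ W) (X : Ec n) :
    wrq Q z ζ X = db (fun y => (δ y : ℂ)) ζ X •
      (sn (Fin.append (R z ζ) (0 : Fin 0 → ℂ)) 0 : Fin (n + 0 + 1) → ℂ) := by
  unfold wrq
  rw [← B10_sn_smul]
  congr 2
  funext k
  exact hQ.dbQ z hz ζ hζ X k

/-- PROOF. A finite sum of products of functions of class `C²`. -/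
theorem wEx_c2 (hQ : WQ W δ Q R) : ContDiffOn ℝ 2 (fun p : Ec n × Ec n => wEx Q p.1 p.2) (W ×ˢ W) := by
  unfold wEx
  refine ContDiffOn.neg (ContDiffOn.sum fun k _ => (hQ.c2 k).mul ?_)
  apply ContDiff.contDiffOn
  fun_prop

theorem B10_wQ_diff (hQ : WQ W δ Q R) {z ζ : Ec n} (hz : z ∈ W) (hζ : ζ ∈ W) (k : Fin n) :
    DifferentiableAt ℝ (fun y => Q z y k) ζ := by
  have hW := hQ.opn
  have h1 : ContDiffAt ℝ 2 (fun p : Ec n × Ec n => Q p.1 p.2 k) (z, ζ) :=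
    (hQ.c2 k).contDiffAt ((hW.prod hW).mem_nhds ⟨hz, hζ⟩)
  have h2 : DifferentiableAt ℝ (fun p : Ec n × Ec n => Q p.1 p.2 k) (z, ζ) :=
    h1.differentiableAt two_ne_zero
  exact h2.comp ζ ((differentiableAt_const z).prodMk differentiableAt_id)

/-- PROOF. The `k`-th term: `db (Q z · k * (y k - z k)) = db (Q z · k) * (ζ k - z k)`, since `y ↦ y k - z k` is
holomorphic (`B10_db_mul`). -/
theorem wdb_Ex (hQ : WQ W δ Q R) {z ζ : Ec n} (hz : z ∈ W) (hζ : ζ ∈ W) (X : Ec n) :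
    db (fun y => wEx Q z y) ζ X = -∑ k, (ζ k - z k) * db (fun y => Q z y k) ζ X := by
  have hl : ∀ k : Fin n, DifferentiableAt ℂ (fun y : Ec n => y k - z k) ζ := by
    intro k
    fun_prop
  have hd : ∀ k : Fin n, DifferentiableAt ℝ (fun y : Ec n => Q z y k * (y k - z k)) ζ :=
    fun k => (B10_wQ_diff hQ hz hζ k).mul ((hl k).restrictScalars ℝ)
  unfold wEx
  rw [B10_db_neg, B10_db_sum _ (fun k _ => hd k)]
  congr 1
  refine Finset.sum_congr rfl fun k _ => ?_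
  rw [B10_db_mul (B10_wQ_diff hQ hz hζ k) (hl k), mul_comm]

theorem B10_wEx_c1 (hQ : WQ W δ Q R) {z ζ : Ec n} (τ : ℝ) (hz : z ∈ W) (hζ : ζ ∈ W) :
    ContDiffAt ℝ 1 (fun p : Tn n => wEx Q p.1 p.2.2) (z, τ, ζ) := by
  have hW := hQ.opn
  have h1 : ContDiffAt ℝ 1 (fun p : Ec n × Ec n => wEx Q p.1 p.2) (z, ζ) :=
    ((wEx_c2 hQ).contDiffAt ((hW.prod hW).mem_nhds ⟨hz, hζ⟩)).of_le one_le_two
  have h5 : ContDiffAt ℝ 1 (fun p : Tn n => ((p.1, p.2.2) : Ec n × Ec n)) (z, τ, ζ) := by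
    apply ContDiff.contDiffAt
    fun_prop
  exact ContDiffAt.comp (z, τ, ζ) (g := fun p : Ec n × Ec n => wEx Q p.1 p.2)
    (f := fun p : Tn n => ((p.1, p.2.2) : Ec n × Ec n)) h1 h5

/-- the set where the kernels are smooth -/
def wTset (W : Set (Ec n)) (δ : Ec n → ℝ) (h : Ec n → Ec n → Fin n → ℂ) (ε : ℝ) :
    Set (Tn n) := {p | p.1 ∈ W ∧ p.2.2 ∈ W ∧ aa δ h ε p.2.1 p.1 p.2.2 ≠ 0}

/-- PROOF. As `TsetE_open`. -/
theorem wTset_open (hg : Geo U δ h c C) (hQ : WQ W δ Q R) (hW : W ⊆ U) (ε : ℝ) :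
    IsOpen (wTset W δ h ε) := by
  have hWo := hQ.opn
  have h1 := Tset_open hg (δ := δ) (h := h) ε
  have h2 : IsOpen {p : Tn n | p.1 ∈ W} := hWo.preimage continuous_fst
  have h3 : IsOpen {p : Tn n | p.2.2 ∈ W} := hWo.preimage (continuous_snd.comp continuous_snd)
  have h4 : wTset W δ h ε = Tset U δ h ε ∩ ({p : Tn n | p.1 ∈ W} ∩ {p : Tn n | p.2.2 ∈ W}) := by
    ext p
    constructor
    · rintro ⟨h1, h2, h3⟩
      exact ⟨⟨hW h1, hW h2, h3⟩, h1, h2⟩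
    · rintro ⟨⟨_, _, h3⟩, h1, h2⟩
      exact ⟨h1, h2, h3⟩
  rw [h4]
  exact h1.inter (h2.inter h3)

/-- PROOF. As `B10_rq_c1`: the entries are `db` of functions of class `C²`. -/
theorem wrq_c1 (hQ : WQ W δ Q R) {z ζ : Ec n} (τ : ℝ) (hz : z ∈ W) (hζ : ζ ∈ W) (X : Ec n) :
    ContDiffAt ℝ 1 (fun p : Tn n => wrq Q p.1 p.2.2 X) (z, τ, ζ) := by
  have hW := hQ.opn
  have hWW : W ×ˢ W ∈ 𝓝 (z, ζ) := (hW.prod hW).mem_nhds ⟨hz, hζ⟩
  have hmain : ∀ k : Fin n, ContDiffAt ℝ 1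
      (fun p : Tn n => db (fun y => Q p.1 y k) p.2.2 X) (z, τ, ζ) := by
    intro k
    have h1 : ContDiffAt ℝ 2 (fun p : Ec n × Ec n => Q p.1 p.2 k) (z, ζ) :=
      (hQ.c2 k).contDiffAt hWW
    have h2 : ContDiffAt ℝ 1 (fderiv ℝ fun p : Ec n × Ec n => Q p.1 p.2 k) (z, ζ) :=
      h1.fderiv_right (by norm_num)
    have h3 : ∀ Y : Ec n, ContDiffAt ℝ 1 (fun p : Ec n × Ec n =>
        fderiv ℝ (fun p : Ec n × Ec n => Q p.1 p.2 k) p (0, Y)) (z, ζ) := fun Y =>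
      h2.clm_apply contDiffAt_const
    have h4 : ContDiffAt ℝ 1 (fun p : Ec n × Ec n => (2⁻¹ : ℂ) *
        (fderiv ℝ (fun p : Ec n × Ec n => Q p.1 p.2 k) p (0, X) + Complex.I *
        fderiv ℝ (fun p : Ec n × Ec n => Q p.1 p.2 k) p (0, Complex.I • X))) (z, ζ) :=
      contDiffAt_const.mul ((h3 X).add (contDiffAt_const.mul (h3 (Complex.I • X))))
    have h5 : ContDiffAt ℝ 1 (fun p : Tn n => ((p.1, p.2.2) : Ec n × Ec n)) (z, τ, ζ) := by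
      apply ContDiff.contDiffAt
      fun_prop
    have h6 := ContDiffAt.comp (z, τ, ζ) (g := fun p : Ec n × Ec n => (2⁻¹ : ℂ) *
        (fderiv ℝ (fun p : Ec n × Ec n => Q p.1 p.2 k) p (0, X) + Complex.I *
        fderiv ℝ (fun p : Ec n × Ec n => Q p.1 p.2 k) p (0, Complex.I • X)))
        (f := fun p : Tn n => ((p.1, p.2.2) : Ec n × Ec n)) h4 h5
    refine h6.congr_of_eventuallyEq ?_
    have h7 : ∀ᶠ p in 𝓝 ((z, τ, ζ) : Tn n), p.1 ∈ W ∧ p.2.2 ∈ W :=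
      ((continuous_fst.tendsto _).eventually (hW.mem_nhds hz)).and
        (((continuous_snd.comp continuous_snd).tendsto _).eventually (hW.mem_nhds hζ))
    filter_upwards [h7] with p hp
    have h8 : DifferentiableAt ℝ (fun p : Ec n × Ec n => Q p.1 p.2 k) (p.1, p.2.2) :=
      ((hQ.c2 k).contDiffAt ((hW.prod hW).mem_nhds hp)).differentiableAt two_ne_zero
    have h9 : HasFDerivAt (fun y => Q p.1 y k)
        ((fderiv ℝ (fun p : Ec n × Ec n => Q p.1 p.2 k) (p.1, p.2.2)).comp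
          (ContinuousLinearMap.inr ℝ (Ec n) (Ec n))) p.2.2 :=
      h8.hasFDerivAt.comp p.2.2 (hasFDerivAt_prodMk_right p.1 p.2.2)
    unfold db
    rw [h9.fderiv]
    rfl
  rw [contDiffAt_pi]
  intro i
  unfold wrq
  exact B10_comp (q := 0) hmain i

/-- PROOF. As `KE0_c1`. -/
theorem wKE0_c1 (hg : Geo U δ h c C) (hQ : WQ W δ Q R) (hW : W ⊆ U) (ε : ℝ) :
    ContDiffOn ℝ 1 (fun p : Tn n => wKE0 Q δ h ε p.2.1 p.1 p.2.2) (wTset W δ h ε) := by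
  rintro ⟨z, τ, ζ⟩ ⟨hz, hζ, ha⟩
  apply ContDiffAt.contDiffWithinAt
  have hE : ContDiffAt ℝ 1 (fun p : Tn n => Complex.exp (wEx Q p.1 p.2.2)) (z, τ, ζ) :=
    (B10_wEx_c1 hQ τ hz hζ).cexp
  have hF0 := (F0_c2 hg ε (hW hz) (hW hζ) τ ha).of_le one_le_two
  have hF1 := (F1_c2 hg ε (hW hz) (hW hζ) τ ha).of_le one_le_two
  have hx := (rx_c2 hg ε 0 (hW hz) (hW hζ) τ).of_le one_le_two
  have hr : ∀ l : Fin n, ContDiffAt ℝ 1
      (fun p : Tn n => rζ δ h ε Fin.elim0 p.2.1 p.1 p.2.2 (ee l)) (z, τ, ζ) := fun l =>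
    rζ_c1 hg ε Fin.elim0 (hW hz) (hW hζ) τ (ee l)
  have hq : ∀ l : Fin n, ContDiffAt ℝ 1 (fun p : Tn n => wrq Q p.1 p.2.2 (ee l)) (z, τ, ζ) :=
    fun l => wrq_c1 hQ τ hz hζ (ee l)
  unfold wKE0
  refine hE.mul (ContDiffAt.add ((contDiffAt_const.mul hF0).mul (B10_det hx hr)) (hF1.mul
    (ContDiffAt.sum fun j _ => B10_det hx (B10_upd hr (hq j) j))))

/-- PROOF. As `KEk_c1`. -/
theorem wKEk_c1 (hg : Geo U δ h c C) (hQ : WQ W δ Q R) (hW : W ⊆ U) (ε : ℝ) (k : Fin n) :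
    ContDiffOn ℝ 1 (fun p : Tn n => wKEk Q δ h ε p.2.1 p.1 p.2.2 k) (wTset W δ h ε) := by
  rintro ⟨z, τ, ζ⟩ ⟨hz, hζ, ha⟩
  apply ContDiffAt.contDiffWithinAt
  have hE : ContDiffAt ℝ 1 (fun p : Tn n => Complex.exp (wEx Q p.1 p.2.2)) (z, τ, ζ) :=
    (B10_wEx_c1 hQ τ hz hζ).cexp
  have hF0 := (F0_c2 hg ε (hW hz) (hW hζ) τ ha).of_le one_le_two
  have hF1 := (F1_c2 hg ε (hW hz) (hW hζ) τ ha).of_le one_le_two
  have hx := (rx_c2 hg ε 0 (hW hz) (hW hζ) τ).of_le one_le_two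
  have ht := rτ_c1 hg ε 0 (hW hz) (hW hζ) τ
  have hr : ∀ l : Fin n, ContDiffAt ℝ 1
      (fun p : Tn n => rζ δ h ε Fin.elim0 p.2.1 p.1 p.2.2 (ee l)) (z, τ, ζ) := fun l =>
    rζ_c1 hg ε Fin.elim0 (hW hz) (hW hζ) τ (ee l)
  have hq : ∀ l : Fin n, ContDiffAt ℝ 1 (fun p : Tn n => wrq Q p.1 p.2.2 (ee l)) (z, τ, ζ) :=
    fun l => wrq_c1 hQ τ hz hζ (ee l)
  unfold wKEk
  refine hE.mul (ContDiffAt.add ((contDiffAt_const.mul hF0).mul (B10_det hx (B10_upd hr ht k)))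
    (hF1.mul (ContDiffAt.sum fun j _ => B10_det hx (B10_upd (B10_upd hr (hq j) j) ht k))))

end Pool.Agent.MPca0fc2.GW
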