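import Pool.Agent.Lib.MP_ca0fc2_an.GW.B10
import Pool.Agent.Lib.MP_ca0fc2_an.Mg.G052
import Pool.Agent.Lib.MP_ca0fc2_an.Mg.G048
import Pool.Agent.Lib.MP_ca0fc2_an.FD.B11

/-! The homotopy formula with a general weight. This file is `FD/B11.lean` for a general weight vector `Q`
(`Wq P U` is replaced by `W`, `Rv P δ κ` by `R`, `Ex P δ κ` by `wEx Q`). Copy the proofs of `FD/B11.lean`; many of the auxiliary lemmas
there do not contain `P` and can be cited. -/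

set_option autoImplicit false

open Metric Set MeasureTheory Filter Topology

namespace Pool.Agent.MPca0fc2.GW

open Pool.Agent.MPca0fc2.FD

variable {n : ℕ} {V : Type*} [NormedAddCommGroup V] [NormedSpace ℂ V] [FiniteDimensional ℂ V]
variable {U W : Set (Ec n)} {δ : Ec n → ℝ} {h : Ec n → Ec n → Fin n → ℂ} {c C A : ℝ}
variable {Q R : Ec n → Ec n → Fin n → ℂ}


/-- the weight section -/
noncomputable def B11_wQ (Q : Ec n → Ec n → Fin n → ℂ) (p : Tn n) : Fin (n + 0 + 1) → ℂ :=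
  sn (Fin.append (Q p.1 p.2.2) (0 : Fin 0 → ℂ)) 0

theorem B11_wQh_c2 (hQ : WQ W δ Q R) {z ζ : Ec n} (τ : ℝ)
    (hz : z ∈ W) (hζ : ζ ∈ W) (k : Fin n) :
    ContDiffAt ℝ 2 (fun p : Tn n => Q p.1 p.2.2 k) (z, τ, ζ) := by
  have hWo := hQ.opn
  have h1 : ContDiffAt ℝ 2 (fun p : Ec n × Ec n => Q p.1 p.2 k) (z, ζ) :=
    (hQ.c2 k).contDiffAt ((hWo.prod hWo).mem_nhds ⟨hz, hζ⟩)
  have h5 : ContDiffAt ℝ 2 (fun p : Tn n => ((p.1, p.2.2) : Ec n × Ec n)) (z, τ, ζ) := by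
    apply ContDiff.contDiffAt
    fun_prop
  exact ContDiffAt.comp (z, τ, ζ) (g := fun p : Ec n × Ec n => Q p.1 p.2 k)
    (f := fun p : Tn n => ((p.1, p.2.2) : Ec n × Ec n)) h1 h5

theorem B11_wEx_c2 (hQ : WQ W δ Q R) {z ζ : Ec n} (τ : ℝ)
    (hz : z ∈ W) (hζ : ζ ∈ W) :
    ContDiffAt ℝ 2 (fun p : Tn n => wEx Q p.1 p.2.2) (z, τ, ζ) := by
  have hWo := hQ.opn
  have h1 : ContDiffAt ℝ 2 (fun p : Ec n × Ec n => wEx Q p.1 p.2) (z, ζ) :=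
    (wEx_c2 hQ).contDiffAt ((hWo.prod hWo).mem_nhds ⟨hz, hζ⟩)
  have h5 : ContDiffAt ℝ 2 (fun p : Tn n => ((p.1, p.2.2) : Ec n × Ec n)) (z, τ, ζ) := by
    apply ContDiff.contDiffAt
    fun_prop
  exact ContDiffAt.comp (z, τ, ζ) (g := fun p : Ec n × Ec n => wEx Q p.1 p.2)
    (f := fun p : Tn n => ((p.1, p.2.2) : Ec n × Ec n)) h1 h5

theorem B11_wQ_c2 (hQ : WQ W δ Q R) {z ζ : Ec n} (τ : ℝ)
    (hz : z ∈ W) (hζ : ζ ∈ W) : ContDiffAt ℝ 2 (B11_wQ Q) (z, τ, ζ) := by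
  rw [contDiffAt_pi]
  intro i
  unfold B11_wQ
  exact B11_comp (q := 0) (fun k => B11_wQh_c2 hQ τ hz hζ k) i

theorem B11_wcd_Q (hQ : WQ W δ Q R) {z ζ : Ec n} (τ : ℝ)
    (hz : z ∈ W) (hζ : ζ ∈ W) (X : Ec n) :
    cd (B11_wQ Q) (z, τ, ζ) (dζ X) = wrq Q z ζ X := by
  funext i
  rw [← cd_apply ((B11_wQ_c2 hQ τ hz hζ).differentiableAt (by norm_num))]
  unfold B11_wQ wrq
  refine Fin.lastCases ?_ (fun j => ?_) i
  · simp only [sn, Fin.snoc_last]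
    simp [cd]
  · refine Fin.addCases (m := n) (n := 0) (fun k => ?_) (fun k => ?_) j
    · simp only [sn, Fin.snoc_castSucc, Fin.append_left]
      exact cd_dζ (F := fun p : Tn n => Q p.1 p.2.2 k)
        ((B11_wQh_c2 hQ τ hz hζ k).differentiableAt (by norm_num)) X
    · exact k.elim0

/-- PROOF. As `ke0_closed` of `FD/B11.lean`. -/
theorem wke0_closed (hg : Geo U δ h c C) (hQ : WQ W δ Q R) (hW : W ⊆ U) (ε : ℝ) {z ζ : Ec n}
    (hz : z ∈ W) (hζ : ζ ∈ W) (τ : ℝ) (ha : aa δ h ε τ z ζ ≠ 0) :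
    HasDerivAt (fun τ' => wKE0 Q δ h ε τ' z ζ)
      (∑ k, db (fun ζ' => wKEk Q δ h ε τ z ζ' k) ζ (ee k)) τ := by
  have hWo := hQ.opn
  have hT : wTset W δ h ε ∈ 𝓝 ((z, τ, ζ) : Tn n) :=
    (wTset_open hg hQ hW ε).mem_nhds ⟨hz, hζ, ha⟩
  have hdf : ∀ {K : Tn n → ℂ}, ContDiffOn ℝ 1 K (wTset W δ h ε) →
      DifferentiableAt ℝ K (z, τ, ζ) := fun hK =>
    (hK.contDiffAt hT).differentiableAt (by norm_num)
  obtain ⟨μ, hμ1, hμ2, -⟩ := pow_rel hg ε (Fin.elim0 : Fin 0 → Fin n) (hW hz) (hW hζ) τ ha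
    (n + 8) (2 * n + 9) (by omega)
  obtain ⟨ν, hν1, hν2, hν3⟩ := pow_rel hg ε (Fin.elim0 : Fin 0 → Fin n) (hW hz) (hW hζ) τ ha
    (n + 8) (2 * n + 8) (by omega)
  have hN : ∀ᶠ p : Tn n in 𝓝 (z, τ, ζ), p.1 ∈ W ∧ p.2.2 ∈ W :=
    ((continuous_fst.tendsto _).eventually (hWo.mem_nhds hz)).and
      (((continuous_snd.comp continuous_snd).tendsto _).eventually (hWo.mem_nhds hζ))
  have hrow : ∀ p : Tn n, p.1 ∈ W → p.2.2 ∈ W → ∀ l : Fin n,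
      cd (GG δ h ε (Fin.elim0 : Fin 0 → Fin n)) p (dζ (ee l)) =
      rζ δ h ε (Fin.elim0 : Fin 0 → Fin n) p.2.1 p.1 p.2.2 (ee l) := by
    intro p h1 h2 l
    exact GG_ζ hg ε Fin.elim0 (hW h1) (hW h2) p.2.1 (ee l)
  have hrq : ∀ p : Tn n, p.1 ∈ W → p.2.2 ∈ W → ∀ l : Fin n,
      cd (B11_wQ Q) p (dζ (ee l)) = wrq Q p.1 p.2.2 (ee l) := by
    intro p h1 h2 l
    exact B11_wcd_Q hQ p.2.1 h1 h2 (ee l)
  have ht : ∀ p : Tn n, p.1 ∈ W → p.2.2 ∈ W →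
      cd (GG δ h ε (Fin.elim0 : Fin 0 → Fin n)) p (dt n) = rτ δ h ε 0 p.1 p.2.2 :=
    fun p h1 h2 => GG_t hg ε Fin.elim0 (hW h1) (hW h2) p.2.1
  have hck := closed_wker (T := Tn n) (m := n) (G := GG δ h ε (Fin.elim0 : Fin 0 → Fin n))
    (Q := B11_wQ Q) (F₀ := fun p => F0 δ h ε p.2.1 p.1 p.2.2)
    (F₁ := fun p => F1 δ h ε p.2.1 p.1 p.2.2) (E := fun p => wEx Q p.1 p.2.2)
    (p := (z, τ, ζ)) (2 * n + 8) (GG_c2 hg ε Fin.elim0 (hW hz) (hW hζ) τ)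
    (B11_wQ_c2 hQ τ hz hζ)
    ((F0_c2 hg ε (hW hz) (hW hζ) τ ha).differentiableAt (by norm_num))
    ((F1_c2 hg ε (hW hz) (hW hζ) τ ha).differentiableAt (by norm_num))
    ((B11_wEx_c2 hQ τ hz hζ).differentiableAt (by norm_num))
    (fun l => dζ (ee l)) (dt n) (sn (Fin.append (fun k => ζ k - z k) (0 : Fin 0 → ℂ)) 0) μ ν
    (fun l => db (fun y => (δ y : ℂ)) ζ (ee l))
    (sn (Fin.append (R z ζ) (0 : Fin 0 → ℂ)) 0)
    (Eventually.of_forall fun y => B11_cd_dt _ (fun _ _ _ _ => rfl) y)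
    (fun b => (hrq (z, τ, ζ) hz hζ b).trans (wrq_eq hQ hz hζ (ee b)))
    (B11_cd_dt _ (fun _ _ _ _ => rfl) _)
    ?_ (hμ1 (dt n) (Or.inr (Or.inr rfl))) (fun b => hμ1 _ (Or.inl ⟨_, rfl⟩)) ?_
    (hν1 (dt n) (Or.inr (Or.inr rfl))) (fun b => hν1 _ (Or.inl ⟨_, rfl⟩)) ?_ ?_
  · -- the closedness
    have h0 : cd (fun p : Tn n => wKE0 Q δ h ε p.2.1 p.1 p.2.2) (z, τ, ζ) (dt n) =
        ∑ k, db (fun ζ' => wKEk Q δ h ε τ z ζ' k) ζ (ee k) := by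
      have e1 : (fun p : Tn n => wKE0 Q δ h ε p.2.1 p.1 p.2.2) =ᶠ[𝓝 (z, τ, ζ)]
          (fun y => Complex.exp ((fun p : Tn n => wEx Q p.1 p.2.2) y) *
            ((2 * n + 8) * (fun p : Tn n => F0 δ h ε p.2.1 p.1 p.2.2) y *
            Matrix.det (cn (GG δ h ε (Fin.elim0 : Fin 0 → Fin n) y) (fun b : Fin n =>
              cd (GG δ h ε (Fin.elim0 : Fin 0 → Fin n)) y ((fun l => dζ (ee l)) b))) +
            (fun p : Tn n => F1 δ h ε p.2.1 p.1 p.2.2) y * ∑ j : Fin n,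
              Matrix.det (cn (GG δ h ε (Fin.elim0 : Fin 0 → Fin n) y)
                (Function.update (fun b : Fin n => cd (GG δ h ε (Fin.elim0 : Fin 0 → Fin n)) y
                  ((fun l => dζ (ee l)) b)) j (cd (B11_wQ Q) y
                    ((fun l => dζ (ee l)) j)))))) := by
        filter_upwards [hN] with p hp
        have e2 : (fun b : Fin n => cd (GG δ h ε (Fin.elim0 : Fin 0 → Fin n)) p
            ((fun l => dζ (ee l)) b)) =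
            fun l => rζ δ h ε (Fin.elim0 : Fin 0 → Fin n) p.2.1 p.1 p.2.2 (ee l) := by
          funext l
          exact hrow p hp.1 hp.2 l
        have e3 : ∀ j : Fin n, cd (B11_wQ Q) p ((fun l => dζ (ee l)) j) =
            wrq Q p.1 p.2.2 (ee j) := fun j => hrq p hp.1 hp.2 j
        rw [e2, B11_GG p ε]
        simp only [e3]
        rfl
      rw [cd_congr e1]
      refine hck.trans ?_
      refine Finset.sum_congr rfl fun k _ => ?_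
      rw [← cd_dζ (F := fun p : Tn n => wKEk Q δ h ε p.2.1 p.1 p.2.2 k)
        (hdf (wKEk_c1 hg hQ hW ε k))]
      refine cd_congr ?_ _
      filter_upwards [hN] with p hp
      have e2 : (fun b : Fin n => cd (GG δ h ε (Fin.elim0 : Fin 0 → Fin n)) p
          ((fun l => dζ (ee l)) b)) =
          fun l => rζ δ h ε (Fin.elim0 : Fin 0 → Fin n) p.2.1 p.1 p.2.2 (ee l) := by
        funext l
        exact hrow p hp.1 hp.2 l
      have e3 : ∀ j : Fin n, cd (B11_wQ Q) p ((fun l => dζ (ee l)) j) =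
          wrq Q p.1 p.2.2 (ee j) := fun j => hrq p hp.1 hp.2 j
      rw [e2, B11_GG p ε, ht p hp.1 hp.2]
      simp only [e3]
      rfl
    rw [← h0]
    exact cd_dt (F := fun p : Tn n => wKE0 Q δ h ε p.2.1 p.1 p.2.2) (hdf (wKE0_c1 hg hQ hW ε))
  · -- `E` and `Q`
    intro b
    rw [cd_dζ ((B11_wEx_c2 hQ τ hz hζ).differentiableAt (by norm_num))]
    have h1 : cd (B11_wQ Q) (z, τ, ζ) (dζ (ee b)) = wrq Q z ζ (ee b) :=
      hrq (z, τ, ζ) hz hζ b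
    rw [h1]
    refine (wdb_Ex hQ hz hζ (ee b)).trans ?_
    congr 1
    exact (B11_sum (fun k => ζ k - z k) (fun k => db (fun y => Q z y k) ζ (ee b))).symm
  · -- Euler for `F₀`
    have h1 : ∑ i, μ i * GG δ h ε (Fin.elim0 : Fin 0 → Fin n) (z, τ, ζ) i =
        ∑ i, μ i * (πv n 0 i * GG δ h ε (Fin.elim0 : Fin 0 → Fin n) (z, τ, ζ) i) := by
      refine Finset.sum_congr rfl fun i _ => ?_
      rw [B11_πv, one_mul]
    refine h1.trans (hμ2.trans ?_)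
    unfold F0
    push_cast
    ring
  · -- Euler for `F₁`
    have h1 : ∑ i, ν i * GG δ h ε (Fin.elim0 : Fin 0 → Fin n) (z, τ, ζ) i =
        ∑ i, ν i * (πv n 0 i * GG δ h ε (Fin.elim0 : Fin 0 → Fin n) (z, τ, ζ) i) := by
      refine Finset.sum_congr rfl fun i _ => ?_
      rw [B11_πv, one_mul]
    refine h1.trans (hν2.trans ?_)
    unfold F1
    push_cast
    ring
  · -- `ν` on the rows of the weight
    intro b
    have h1 : cd (B11_wQ Q) (z, τ, ζ) (dζ (ee b)) = wrq Q z ζ (ee b) :=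
      hrq (z, τ, ζ) hz hζ b
    rw [h1]
    have h2 := hν3 (fun k => db (fun y => Q z y k) ζ (ee b))
    refine h2.trans ?_
    have h3 := B11_sum (fun k => ζ k - z k) (fun k => db (fun y => Q z y k) ζ (ee b))
    rw [← h3]
    unfold F0
    push_cast
    rfl

theorem B11_wKc (hW : W ⊆ U) (hK : Kc U δ ⊆ W) : Kc W δ = Kc U δ := by
  apply Subset.antisymm
  · intro z hz
    exact ⟨hW hz.1, hz.2⟩
  · intro z hz
    exact ⟨hK hz, hz.2⟩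

theorem B11_wOm (hW : W ⊆ U) (hK : Kc U δ ⊆ W) : Om W δ = Om U δ := by
  apply Subset.antisymm
  · intro z hz
    exact ⟨hW hz.1, hz.2⟩
  · intro z hz
    exact ⟨hK ⟨hz.1, hz.2.le⟩, hz.2⟩

/-- PROOF. As `B11_geo`: `W` is open, `Kc U δ` is a compact subset of `W`. -/
theorem w_geo (hg : Geo U δ h c C) (hQ : WQ W δ Q R) (hW : W ⊆ U) (hK : Kc U δ ⊆ W) :
    ∃ c', Geo W δ h c' C := by
  have hWo := hQ.opn
  have hsub : W ⊆ U := hW
  obtain ⟨r, hr0, hr⟩ : ∃ r > 0, ∀ z ∈ Kc U δ, ball z r ⊆ W := by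
    obtain ⟨r, hr0, hr⟩ := hg.cpt.exists_thickening_subset_open hWo hK
    refine ⟨r, hr0, fun z hz => ?_⟩
    refine Subset.trans ?_ hr
    exact ball_subset_thickening hz r
  refine ⟨min c r, ?_⟩
  have hc' : min c r ≤ c := min_le_left _ _
  exact
    { c0 := lt_min hg.c0 hr0
      c1 := hc'.trans hg.c1
      C1 := hg.C1
      opn := hWo
      nb := fun z hz hδ => (ball_subset_ball (min_le_right _ _)).trans (hr z ⟨hW hz, hδ.le⟩)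
      bz := fun z hz => hg.bz z (hW hz)
      cpt := by
        have h1 : {z | z ∈ W ∧ 0 ≤ δ z} = Kc U δ := B11_wKc hW hK
        rw [h1]
        exact hg.cpt
      dδ := hg.dδ.mono hsub
      dh := hg.dh.mono (prod_mono hsub hsub)
      hol := fun ζ hζ => (hg.hol ζ (hW hζ)).mono hsub
      bδ := fun z hz => hg.bδ z (hW hz)
      bh := fun z hz ζ hζ => hg.bh z (hW hz) ζ (hW hζ)
      bdh := fun z hz ζ hζ => hg.bdh z (hW hz) ζ (hW hζ)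
      grad := fun z hz X => hg.grad z (hW hz) X
      pos := fun z hz ζ hζ => by
        refine le_trans ?_ (hg.pos z (hW hz) ζ (hW hζ))
        have := mul_le_mul_of_nonneg_right hc' (sq_nonneg ‖ζ - z‖)
        linarith
      nd := fun z hz h0 h1 => hc'.trans (hg.nd z (hW hz) h0 (h1.trans_le hc')) }

/-- the kernel divided by `δ²` -/
noncomputable def B11_wg (Q : Ec n → Ec n → Fin n → ℂ) (δ : Ec n → ℝ) (h : Ec n → Ec n → Fin n → ℂ)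
    (ε τ : ℝ)
    (z ζ : Ec n) (k : Fin n) : ℂ :=
  Complex.exp (wEx Q z ζ) * ((2 * n + 8) *
      (((δ ζ : ℂ) ^ (n + 6) * ((1 - τ) * (ε ^ 2 * δ ζ) + τ : ℂ) ^ (n + 8)) /
        aa δ h ε τ z ζ ^ (2 * n + 9)) *
      Matrix.det (cn (rx δ h ε 0 τ z ζ) (Function.update
        (fun l : Fin n => rζ δ h ε Fin.elim0 τ z ζ (ee l)) k (rτ δ h ε 0 z ζ))) +
    (((δ ζ : ℂ) ^ (n + 6) * ((1 - τ) * (ε ^ 2 * δ ζ) + τ : ℂ) ^ (n + 8)) /
        aa δ h ε τ z ζ ^ (2 * n + 8)) *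
      ∑ j ∈ Finset.univ.erase k, Matrix.det (cn (rx δ h ε 0 τ z ζ)
      (Function.update (Function.update (fun l : Fin n => rζ δ h ε Fin.elim0 τ z ζ (ee l)) j
        (wrq Q z ζ (ee j))) k (rτ δ h ε 0 z ζ))))

theorem B11_wKEk (Q : Ec n → Ec n → Fin n → ℂ) (δ : Ec n → ℝ) (h : Ec n → Ec n → Fin n → ℂ) (ε τ : ℝ)
    (z ζ : Ec n) (k : Fin n) :
    wKEk Q δ h ε τ z ζ k = (δ ζ : ℂ) ^ 2 * B11_wg Q δ h ε τ z ζ k := by
  unfold wKEk B11_wg F0 F1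
  rw [B11_w0]
  ring

theorem B11_wg_c1 (hg : Geo U δ h c C) (hQ : WQ W δ Q R) (hW : W ⊆ U) (ε τ : ℝ) {z ζ : Ec n}
    (hz : z ∈ W) (hζ : ζ ∈ W) (ha : aa δ h ε τ z ζ ≠ 0) (k : Fin n) :
    ContDiffAt ℝ 1 (fun ζ' => B11_wg Q δ h ε τ z ζ' k) ζ := by
  have hi : ContDiffAt ℝ 1 (fun ζ' : Ec n => ((z, τ, ζ') : Tn n)) ζ := by
    apply ContDiff.contDiffAt
    fun_prop
  have hcomp : ∀ {E : Type} [NormedAddCommGroup E] [NormedSpace ℝ E] {K : Tn n → E},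
      ContDiffAt ℝ 1 K (z, τ, ζ) → ContDiffAt ℝ 1 (fun ζ' => K (z, τ, ζ')) ζ :=
    fun {E} _ _ {K} hK => ContDiffAt.comp ζ (g := K) (f := fun ζ' : Ec n => ((z, τ, ζ') : Tn n))
      hK hi
  have hE : ContDiffAt ℝ 1 (fun ζ' => Complex.exp (wEx Q z ζ')) ζ :=
    (hcomp ((B11_wEx_c2 hQ τ hz hζ).of_le one_le_two)).cexp
  have hδ0 : ContDiffAt ℝ 1 δ ζ :=
    (hg.dδ.contDiffAt (hg.opn.mem_nhds (hW hζ))).of_le one_le_two
  have hδ : ContDiffAt ℝ 1 (fun ζ' => (δ ζ' : ℂ)) ζ :=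
    Complex.ofRealCLM.contDiff.contDiffAt.comp ζ hδ0
  have hs : ContDiffAt ℝ 1 (fun ζ' => ((1 - τ) * (ε ^ 2 * δ ζ') + τ : ℂ)) ζ :=
    (contDiffAt_const.mul (contDiffAt_const.mul hδ)).add contDiffAt_const
  have hnum : ContDiffAt ℝ 1 (fun ζ' => (δ ζ' : ℂ) ^ (n + 6) *
      ((1 - τ) * (ε ^ 2 * δ ζ') + τ : ℂ) ^ (n + 8)) ζ := (hδ.pow _).mul (hs.pow _)
  have haa : ContDiffAt ℝ 1 (fun ζ' => aa δ h ε τ z ζ') ζ :=
    hcomp ((aa_c2 hg ε (hW hz) (hW hζ) τ).of_le one_le_two)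
  have hx := (rx_c2 hg ε 0 (hW hz) (hW hζ) τ).of_le one_le_two
  have ht := rτ_c1 hg ε 0 (hW hz) (hW hζ) τ
  have hr : ∀ l : Fin n, ContDiffAt ℝ 1
      (fun p : Tn n => rζ δ h ε Fin.elim0 p.2.1 p.1 p.2.2 (ee l)) (z, τ, ζ) := fun l =>
    rζ_c1 hg ε Fin.elim0 (hW hz) (hW hζ) τ (ee l)
  have hq : ∀ l : Fin n, ContDiffAt ℝ 1 (fun p : Tn n => wrq Q p.1 p.2.2 (ee l)) (z, τ, ζ) :=
    fun l => wrq_c1 hQ τ hz hζ (ee l)
  have hd1 := hcomp (B11_det hx (B11_upd hr ht k))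
  have hd2 := hcomp (ContDiffAt.sum (s := Finset.univ.erase k)
    fun j _ => B11_det hx (B11_upd (B11_upd hr (hq j) j) ht k))
  have hquo : ∀ b : ℕ, ContDiffAt ℝ 1 (fun ζ' => ((δ ζ' : ℂ) ^ (n + 6) *
      ((1 - τ) * (ε ^ 2 * δ ζ') + τ : ℂ) ^ (n + 8)) / aa δ h ε τ z ζ' ^ b) ζ := by
    intro b
    simp only [div_eq_mul_inv]
    exact hnum.mul ((haa.pow b).inv (pow_ne_zero _ ha))
  unfold B11_wg
  exact hE.mul (ContDiffAt.add ((contDiffAt_const.mul (hquo (2 * n + 9))).mul hd1)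
    ((hquo (2 * n + 8)).mul hd2))

/-- PROOF. As `ibp_KE` of `FD/B11.lean`. -/
theorem wibp_KE (hg : Geo U δ h c C) (hQ : WQ W δ Q R) (hW : W ⊆ U) (hK : Kc U δ ⊆ W) {ε : ℝ}
    (hε : 0 < ε) {τ : ℝ} (hτ : τ ∈ Icc (0 : ℝ) 1) (k : Fin n) {z : Ec n} (hz : z ∈ Om U δ)
    {W' : Set (Ec n)} (hW' : IsOpen W') (hK' : Kc U δ ⊆ W') {N : Ec n → V}
    (hN : ContDiffOn ℝ 1 N W') :
    ∫ ζ in Om U δ, wKEk Q δ h ε τ z ζ k • db N ζ (ee k) =
      -∫ ζ in Om U δ, db (fun ζ' => wKEk Q δ h ε τ z ζ' k) ζ (ee k) • N ζ := by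
  have hsubOK : Om U δ ⊆ Kc U δ := fun z hz => ⟨hz.1, hz.2.le⟩
  have hzW : z ∈ W := hK (hsubOK hz)
  set D : Set (Ec n) := {ζ | ((z, τ, ζ) : Tn n) ∈ wTset W δ h ε} with hD
  have hDo : IsOpen D := by
    have h1 : Continuous fun ζ : Ec n => ((z, τ, ζ) : Tn n) := by fun_prop
    exact (wTset_open hg hQ hW ε).preimage h1
  have hDK : Kc U δ ⊆ D := fun ζ hζ =>
    ⟨hzW, hK hζ, aa_ne hg hε hτ hz hζ⟩
  have hWD : IsOpen (W' ∩ D) := hW'.inter hDo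
  have hKD : Kc U δ ⊆ W' ∩ D := subset_inter hK' hDK
  have hgc : ContDiffOn ℝ 1 (fun ζ => B11_wg Q δ h ε τ z ζ k) (W' ∩ D) := fun ζ hζ =>
    (B11_wg_c1 hg hQ hW ε τ hzW hζ.2.2.1 hζ.2.2.2 k).contDiffWithinAt
  have hNc : ContDiffOn ℝ 1 N (W' ∩ D) := hN.mono inter_subset_left
  have hδc : ContDiffOn ℝ 1 (fun ζ => (δ ζ : ℂ)) (W' ∩ D) := by
    intro ζ hζ
    have hδ0 : ContDiffAt ℝ 1 δ ζ :=
      (hg.dδ.contDiffAt (hg.opn.mem_nhds (hW hζ.2.2.1))).of_le one_le_two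
    exact (Complex.ofRealCLM.contDiff.contDiffAt.comp ζ hδ0).contDiffWithinAt
  have hKc : ContDiffOn ℝ 1 (fun ζ => wKEk Q δ h ε τ z ζ k) (W' ∩ D) := by
    simp only [B11_wKEk]
    exact (hδc.pow 2).mul hgc
  have hz0 := ibp_zero hg hWD hKD (hgc.smul hNc) (ee k)
  have e1 : (fun ζ => ((δ ζ : ℂ) ^ 2) • (B11_wg Q δ h ε τ z ζ k • N ζ)) =
      fun ζ => wKEk Q δ h ε τ z ζ k • N ζ := by
    funext ζ
    rw [smul_smul, ← B11_wKEk]
  have hz1 : ∫ ζ in Om U δ, db (fun ζ => wKEk Q δ h ε τ z ζ k • N ζ) ζ (ee k) = 0 := by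
    rw [← e1]
    exact hz0
  have hmeas : MeasurableSet (Om U δ) := (Om_open hg).measurableSet
  have hint : ∀ (f : Ec n → V), ContinuousOn f (W' ∩ D) → IntegrableOn f (Om U δ) := by
    intro f hf
    exact ((hf.mono hKD).integrableOn_compact hg.cpt).mono_set hsubOK
  have e2 : ∫ ζ in Om U δ, db (fun ζ => wKEk Q δ h ε τ z ζ k • N ζ) ζ (ee k) =
      ∫ ζ in Om U δ, (db (fun ζ' => wKEk Q δ h ε τ z ζ' k) ζ (ee k) • N ζ +
        wKEk Q δ h ε τ z ζ k • db N ζ (ee k)) := by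
    refine setIntegral_congr_fun hmeas fun ζ hζ => ?_
    have hζW : ζ ∈ W' ∩ D := hKD (hsubOK hζ)
    exact B11_db_smul ((hKc.contDiffAt (hWD.mem_nhds hζW)).differentiableAt (by norm_num))
      ((hNc.contDiffAt (hWD.mem_nhds hζW)).differentiableAt (by norm_num)) (ee k)
  have hi1 : IntegrableOn (fun ζ => db (fun ζ' => wKEk Q δ h ε τ z ζ' k) ζ (ee k) • N ζ)
      (Om U δ) := hint _ ((B11_db_cont hWD hKc (ee k)).smul hNc.continuousOn)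
  have hi2 : IntegrableOn (fun ζ => wKEk Q δ h ε τ z ζ k • db N ζ (ee k)) (Om U δ) :=
    hint _ (hKc.continuousOn.smul (B11_db_cont hWD hNc (ee k)))
  rw [e2, integral_add hi1 hi2] at hz1
  rw [add_comm] at hz1
  exact eq_neg_of_add_eq_zero_left hz1

theorem B11_wKE0_one (Q : Ec n → Ec n → Fin n → ℂ) (δ : Ec n → ℝ) (h : Ec n → Ec n → Fin n → ℂ)
    (ε : ℝ)
    (z ζ : Ec n) : wKE0 Q δ h ε 1 z ζ = wKE0 Q δ h 1 1 z ζ := by
  have hw : w0 δ ε 1 ζ = w0 δ 1 1 ζ := by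
    unfold w0
    ring
  have ha : aa δ h ε 1 z ζ = aa δ h 1 1 z ζ := by
    unfold aa
    rw [hw]
  have hF : F0 δ h ε 1 z ζ = F0 δ h 1 1 z ζ := by
    unfold F0
    rw [hw, ha]
  have hF1 : F1 δ h ε 1 z ζ = F1 δ h 1 1 z ζ := by
    unfold F1
    rw [hw, ha]
  have hx : rx δ h ε 0 1 z ζ = rx δ h 1 0 1 z ζ := by
    unfold rx
    rw [hw]
  have hr : (fun l : Fin n => rζ δ h ε (Fin.elim0 : Fin 0 → Fin n) 1 z ζ (ee l)) =
      fun l => rζ δ h 1 (Fin.elim0 : Fin 0 → Fin n) 1 z ζ (ee l) := by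
    funext l
    unfold rζ
    have h3 : (((1 - ((1 : ℝ) : ℂ)) * (2 * (ε : ℂ) ^ 2 * (δ ζ : ℂ)) + ((1 : ℝ) : ℂ)) *
        db (fun y => (δ y : ℂ)) ζ (ee l)) =
        (((1 - ((1 : ℝ) : ℂ)) * (2 * ((1 : ℝ) : ℂ) ^ 2 * (δ ζ : ℂ)) + ((1 : ℝ) : ℂ)) *
        db (fun y => (δ y : ℂ)) ζ (ee l)) := by
      rw [Complex.ofReal_one, sub_self, zero_mul, zero_mul]
    rw [h3]
  unfold wKE0
  rw [hF, hF1, hx, hr]

/-- The homotopy formula. PROOF. As `wkoppelman` of `FD/B11.lean`. -/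
theorem gkoppelman (hg : Geo U δ h c C) (hQ : WQ W δ Q R) (hW : W ⊆ U) (hK : Kc U δ ⊆ W) {ε : ℝ}
    (hε : 0 < ε) {z : Ec n} (hz : z ∈ Om U δ) {W' : Set (Ec n)} (hW' : IsOpen W')
    (hK' : Kc U δ ⊆ W') {N : Ec n → V} (hN : ContDiffOn ℝ 1 N W') :
    wRE Q U δ h ε N z = wPE Q U δ h N z + wSE Q U δ h ε N z := by
  obtain ⟨c', hg'⟩ := w_geo hg hQ hW hK
  have hOm := B11_wOm hW hK
  have hKc := B11_wKc hW hK
  have hms : MeasurableSet (Icc (0 : ℝ) 1 ×ˢ Om U δ) :=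
    measurableSet_Icc.prod (Om_open hg).measurableSet
  have hsubOK : Om U δ ⊆ Kc U δ := fun z hz => ⟨hz.1, hz.2.le⟩
  have hz' : z ∈ Om W δ := by
    rw [hOm]
    exact hz
  have hKD : Kc W δ ⊆ W' := by
    rw [hKc]
    exact hK'
  have hT : ∀ {τ : ℝ}, τ ∈ Icc (0 : ℝ) 1 → ∀ {ζ}, ζ ∈ Kc U δ → ((z, τ, ζ) : Tn n) ∈
      wTset W δ h ε := by
    intro τ hτ ζ hζ
    exact ⟨hK (hsubOK hz), hK hζ, aa_ne hg hε hτ hz hζ⟩
  have hTo := wTset_open hg hQ hW ε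
  have hpi : ∀ {K : Tn n → ℂ}, ContinuousOn K (wTset W δ h ε) → ∀ {η : Ec n → V},
      ContinuousOn η W' → IntegrableOn (fun p : ℝ × Ec n => K (z, p) • η p.2)
        (Icc (0 : ℝ) 1 ×ˢ Om U δ) := by
    intro K hKK η hη
    have h1 := param_int hg' hε (k := K) hKK (int_snd hg' hKD hη).1 hz'
    rw [hOm] at h1
    exact h1
  have hdbc : ∀ k : Fin n, ContinuousOn (fun q : Tn n =>
      cd (fun p : Tn n => wKEk Q δ h ε p.2.1 p.1 p.2.2 k) q (dζ (ee k))) (wTset W δ h ε) := by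
    intro k
    have h1 := (wKEk_c1 hg hQ hW ε k).continuousOn_fderiv_of_isOpen hTo le_rfl
    unfold cd
    exact (h1.clm_apply continuousOn_const).add
      ((h1.clm_apply continuousOn_const).const_smul Complex.I)
  have hcdz : ∀ (k : Fin n) {τ : ℝ} {ζ : Ec n}, ((z, τ, ζ) : Tn n) ∈ wTset W δ h ε →
      cd (fun p : Tn n => wKEk Q δ h ε p.2.1 p.1 p.2.2 k) (z, τ, ζ) (dζ (ee k)) =
      db (fun ζ' => wKEk Q δ h ε τ z ζ' k) ζ (ee k) := by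
    intro k τ ζ hq
    exact cd_dζ (F := fun p : Tn n => wKEk Q δ h ε p.2.1 p.1 p.2.2 k)
      (((wKEk_c1 hg hQ hW ε k).contDiffAt (hTo.mem_nhds hq)).differentiableAt (by norm_num)) (ee k)
  have hint1 : ∀ k : Fin n, IntegrableOn (fun p : ℝ × Ec n =>
      wKEk Q δ h ε p.1 z p.2 k • db N p.2 (ee k)) (Icc (0 : ℝ) 1 ×ˢ Om U δ) := fun k =>
    hpi (K := fun p : Tn n => wKEk Q δ h ε p.2.1 p.1 p.2.2 k) (wKEk_c1 hg hQ hW ε k).continuousOn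
      (B11_db_cont hW' hN (ee k))
  have hint2 : ∀ k : Fin n, IntegrableOn (fun p : ℝ × Ec n =>
      db (fun ζ' => wKEk Q δ h ε p.1 z ζ' k) p.2 (ee k) • N p.2) (Icc (0 : ℝ) 1 ×ˢ Om U δ) := by
    intro k
    refine IntegrableOn.congr_fun (hpi (hdbc k) hN.continuousOn) ?_ hms
    intro p hp
    have h3 := hcdz k (hT hp.1 (hsubOK hp.2))
    show cd (fun p : Tn n => wKEk Q δ h ε p.2.1 p.1 p.2.2 k) (z, p.1, p.2) (dζ (ee k)) • N p.2 =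
      db (fun ζ' => wKEk Q δ h ε p.1 z ζ' k) p.2 (ee k) • N p.2
    rw [h3]
  have hdouble : ∀ k : Fin n, ∫ p in Icc (0 : ℝ) 1 ×ˢ Om U δ,
      wKEk Q δ h ε p.1 z p.2 k • db N p.2 (ee k) =
      -∫ p in Icc (0 : ℝ) 1 ×ˢ Om U δ,
        db (fun ζ' => wKEk Q δ h ε p.1 z ζ' k) p.2 (ee k) • N p.2 := by
    intro k
    have e1 : ∫ p in Icc (0 : ℝ) 1 ×ˢ Om U δ, wKEk Q δ h ε p.1 z p.2 k • db N p.2 (ee k) =
        ∫ τ in Icc (0 : ℝ) 1, ∫ ζ in Om U δ, wKEk Q δ h ε τ z ζ k • db N ζ (ee k) :=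
      setIntegral_prod _ (hint1 k)
    have e2 : ∫ p in Icc (0 : ℝ) 1 ×ˢ Om U δ,
        db (fun ζ' => wKEk Q δ h ε p.1 z ζ' k) p.2 (ee k) • N p.2 =
        ∫ τ in Icc (0 : ℝ) 1, ∫ ζ in Om U δ,
          db (fun ζ' => wKEk Q δ h ε τ z ζ' k) ζ (ee k) • N ζ :=
      setIntegral_prod _ (hint2 k)
    rw [e1, e2, ← integral_neg]
    refine setIntegral_congr_fun measurableSet_Icc ?_
    intro τ hτ
    exact wibp_KE hg hQ hW hK hε hτ k hz hW' hK' hN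
  have hk0 : ContDiffOn ℝ 1 (fun p : Tn n => wKE0 Q δ h ε p.2.1 p.1 p.2.2)
      (Tset W δ h ε) := wKE0_c1 hg hQ hW ε
  have e3 := int_dt hg' hε hk0 hKD hN.continuousOn hz'
  rw [hOm] at e3
  have e4 : ∫ p in Icc (0 : ℝ) 1 ×ˢ Om U δ, ∑ k : Fin n,
        db (fun ζ' => wKEk Q δ h ε p.1 z ζ' k) p.2 (ee k) • N p.2 =
      ∫ p in Icc (0 : ℝ) 1 ×ˢ Om U δ,
        fderiv ℝ (fun p : Tn n => wKE0 Q δ h ε p.2.1 p.1 p.2.2) (z, p) (0, 1, 0) • N p.2 := by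
    refine setIntegral_congr_fun hms ?_
    intro p hp
    have h1 := hT hp.1 (hsubOK hp.2)
    have h2 := wke0_closed hg hQ hW ε h1.1 h1.2.1 p.1 h1.2.2
    have h5 : HasFDerivAt (fun p : Tn n => wKE0 Q δ h ε p.2.1 p.1 p.2.2)
        (fderiv ℝ (fun p : Tn n => wKE0 Q δ h ε p.2.1 p.1 p.2.2) (z, p.1, p.2)) (z, p.1, p.2) :=
      (((wKE0_c1 hg hQ hW ε).contDiffAt (hTo.mem_nhds h1)).differentiableAt
        (by norm_num)).hasFDerivAt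
    have h6 : HasDerivAt (fun τ : ℝ => ((z, τ, p.2) : Tn n)) (0, 1, 0) p.1 :=
      (hasDerivAt_const p.1 z).prodMk ((hasDerivAt_id p.1).prodMk (hasDerivAt_const p.1 p.2))
    have h7 := HasFDerivAt.comp_hasDerivAt (f := fun τ : ℝ => ((z, τ, p.2) : Tn n)) p.1 h5 h6
    have h8 := h2.unique h7
    show ∑ l : Fin n, db (fun ζ' => wKEk Q δ h ε p.1 z ζ' l) p.2 (ee l) • N p.2 =
      fderiv ℝ (fun p : Tn n => wKE0 Q δ h ε p.2.1 p.1 p.2.2) (z, p) (0, 1, 0) • N p.2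
    rw [← Finset.sum_smul]
    congr 1
  have e5 : ∫ p in Icc (0 : ℝ) 1 ×ˢ Om U δ, ∑ k : Fin n,
      wKEk Q δ h ε p.1 z p.2 k • db N p.2 (ee k) =
      (∫ ζ in Om U δ, wKE0 Q δ h ε 0 z ζ • N ζ) - ∫ ζ in Om U δ, wKE0 Q δ h 1 1 z ζ • N ζ := by
    rw [integral_finsetSum _ (fun k _ => hint1 k), Finset.sum_congr rfl fun k _ => hdouble k,
      Finset.sum_neg_distrib, ← integral_finsetSum _ (fun k _ => hint2 k), e4, e3]
    have e6 : ∫ ζ in Om U δ, wKE0 Q δ h ε 1 z ζ • N ζ =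
        ∫ ζ in Om U δ, wKE0 Q δ h 1 1 z ζ • N ζ := by
      refine integral_congr_ae (Filter.Eventually.of_forall fun ζ => ?_)
      show wKE0 Q δ h ε 1 z ζ • N ζ = _
      rw [B11_wKE0_one Q δ h ε z ζ]
    have e7 : ∫ ζ in Om U δ, (fun p : Tn n => wKE0 Q δ h ε p.2.1 p.1 p.2.2) (z, 1, ζ) • N ζ =
        ∫ ζ in Om U δ, wKE0 Q δ h ε 1 z ζ • N ζ := rfl
    have e8 : ∫ ζ in Om U δ, (fun p : Tn n => wKE0 Q δ h ε p.2.1 p.1 p.2.2) (z, 0, ζ) • N ζ =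
        ∫ ζ in Om U δ, wKE0 Q δ h ε 0 z ζ • N ζ := rfl
    rw [e7, e8, e6]
    abel
  unfold wRE wPE wSE
  rw [e5, smul_sub]
  abel

theorem B11_wQ_hol (hQ : WQ W δ Q R) {z ζ : Ec n} (hz : z ∈ W) (hζ : ζ ∈ W) (k : Fin n) :
    DifferentiableAt ℂ (fun z => Q z ζ k) z :=
  (hQ.hol ζ hζ k).differentiableAt (hQ.opn.mem_nhds hz)

theorem B11_wEx_hol (hQ : WQ W δ Q R) {z ζ : Ec n} (hz : z ∈ W) (hζ : ζ ∈ W) :
    DifferentiableAt ℂ (fun z => wEx Q z ζ) z := by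
  unfold wEx
  refine DifferentiableAt.fun_neg ?_
  refine DifferentiableAt.fun_sum fun k _ => ?_
  refine (B11_wQ_hol hQ hz hζ k).mul ?_
  refine DifferentiableAt.const_sub ?_ _
  exact (EuclideanSpace.proj (𝕜 := ℂ) k).differentiableAt

theorem B11_wRv_hol (hQ : WQ W δ Q R) {z ζ : Ec n} (hz : z ∈ W) (hζ : ζ ∈ W) (k : Fin n) :
    DifferentiableAt ℂ (fun z => R z ζ k) z :=
  (hQ.Rhol ζ hζ k).differentiableAt (hQ.opn.mem_nhds hz)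

theorem B11_wrq_hol (hQ : WQ W δ Q R) {z ζ : Ec n} (hz : z ∈ W) (hζ : ζ ∈ W) (X : Ec n) (j : Fin (n + 0 + 1)) :
    DifferentiableAt ℂ (fun z => wrq Q z ζ X j) z := by
  have hWo := hQ.opn
  have h1 : (fun z => wrq Q z ζ X j) =ᶠ[𝓝 z] fun z => db (fun y => (δ y : ℂ)) ζ X *
      (sn (Fin.append (R z ζ) (0 : Fin 0 → ℂ)) 0 : Fin (n + 0 + 1) → ℂ) j := by
    filter_upwards [hWo.mem_nhds hz] with z' hz'
    rw [wrq_eq hQ hz' hζ X]
    rfl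
  refine DifferentiableAt.congr_of_eventuallyEq ?_ h1
  refine DifferentiableAt.const_mul ?_ _
  refine Fin.lastCases ?_ (fun i => ?_) j
  · simp only [sn, Fin.snoc_last]
    exact differentiableAt_const _
  · refine Fin.addCases (m := n) (n := 0) (fun k => ?_) (fun k => ?_) i
    · simp only [sn, Fin.snoc_castSucc, Fin.append_left]
      exact B11_wRv_hol hQ hz hζ k
    · exact k.elim0

theorem B11_wKE0_hol (hg : Geo U δ h c C) (hQ : WQ W δ Q R) (hK : Kc U δ ⊆ W) {ζ : Ec n}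
    (hζ : ζ ∈ Kc U δ) : DifferentiableOn ℂ (fun z => wKE0 Q δ h 1 1 z ζ) (Om U δ) := by
  intro z hz
  refine DifferentiableAt.differentiableWithinAt ?_
  have hzU : z ∈ U := hz.1
  have hζU : ζ ∈ U := hζ.1
  have hzW : z ∈ W := hK ⟨hz.1, hz.2.le⟩
  have hζW : ζ ∈ W := hK hζ
  have hne : vv δ h z ζ ≠ 0 := by
    have := aa_ne hg (one_pos) (τ := 1) ⟨zero_le_one, le_refl 1⟩ hz hζ
    rwa [B11_aa_one] at this
  have hF : ∀ b : ℕ, DifferentiableAt ℂ (fun z => (w0 δ 1 1 ζ : ℂ) ^ (n + 8) /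
      aa δ h 1 1 z ζ ^ b) z := by
    intro b
    simp only [B11_aa_one, div_eq_mul_inv]
    exact DifferentiableAt.mul (differentiableAt_const _)
      (DifferentiableAt.fun_inv ((B11_vv_hol hg hzU hζU).fun_pow _) (pow_ne_zero _ hne))
  have hd1 : DifferentiableAt ℂ (fun z => Matrix.det (cn (rx δ h 1 0 1 z ζ)
      (fun l : Fin n => rζ δ h 1 Fin.elim0 1 z ζ (ee l)))) z := by
    refine B11_hdet fun i j => ?_
    unfold cn
    refine Fin.cases ?_ (fun i => ?_) i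
    · simp only [Fin.cons_zero]
      exact B11_rx_hol hg 1 0 hzU hζU j
    · simp only [Fin.cons_succ]
      exact B11_rζ_hol hg 1 (q := 0) Fin.elim0 hzU hζU _ j
  have hd2 : ∀ j : Fin n, DifferentiableAt ℂ (fun z => Matrix.det (cn (rx δ h 1 0 1 z ζ)
      (Function.update (fun l : Fin n => rζ δ h 1 Fin.elim0 1 z ζ (ee l)) j
        (wrq Q z ζ (ee j))))) z := by
    intro j
    refine B11_hdet fun i m => ?_
    unfold cn
    refine Fin.cases ?_ (fun i => ?_) i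
    · simp only [Fin.cons_zero]
      exact B11_rx_hol hg 1 0 hzU hζU m
    · simp only [Fin.cons_succ]
      rcases eq_or_ne i j with rfl | hij
      · simp only [Function.update_self]
        exact B11_wrq_hol hQ hzW hζW _ m
      · simp only [Function.update_of_ne hij]
        exact B11_rζ_hol hg 1 (q := 0) Fin.elim0 hzU hζU _ m
  unfold wKE0
  refine DifferentiableAt.mul ?_ ?_
  · exact (B11_wEx_hol hQ hzW hζW).cexp
  · refine DifferentiableAt.add ?_ ?_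
    · exact ((hF (2 * n + 9)).const_mul _).mul hd1
    · exact (hF (2 * n + 8)).mul (DifferentiableAt.fun_sum fun j _ => hd2 j)

/-- PROOF. As `PE_hol` of `FD/B11.lean`. -/
theorem wPE_hol (hg : Geo U δ h c C) (hQ : WQ W δ Q R) (hW : W ⊆ U) (hK : Kc U δ ⊆ W)
    {W' : Set (Ec n)} (hK' : Kc U δ ⊆ W') {N : Ec n → V} (hN : ContinuousOn N W') :
    DifferentiableOn ℂ (wPE Q U δ h N) (Om U δ) := by
  obtain ⟨c', hg'⟩ := w_geo hg hQ hW hK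
  have hOm := B11_wOm hW hK
  have hKc := B11_wKc hW hK
  have hKD : Kc W δ ⊆ W' := by
    rw [hKc]
    exact hK'
  have h1 : ContDiffOn ℝ 1 (fun p : Ec n × Ec n => wKE0 Q δ h 1 1 p.1 p.2)
      {p | p.1 ∈ W ∧ p.2 ∈ W ∧ aa δ h 1 1 p.1 p.2 ≠ 0} := by
    have h2 : ContDiffOn ℝ 1 (fun p : Ec n × Ec n => ((p.1, (1 : ℝ), p.2) : Tn n))
        {p | p.1 ∈ W ∧ p.2 ∈ W ∧ aa δ h 1 1 p.1 p.2 ≠ 0} := by
      fun_prop
    have h4 := wKE0_c1 hg hQ hW 1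
    have h5 : MapsTo (fun p : Ec n × Ec n => ((p.1, (1 : ℝ), p.2) : Tn n))
        {p | p.1 ∈ W ∧ p.2 ∈ W ∧ aa δ h 1 1 p.1 p.2 ≠ 0} (wTset W δ h 1) :=
      fun p hp => ⟨hp.1, hp.2.1, hp.2.2⟩
    have h6 := ContDiffOn.comp h4 h2 h5
    exact h6
  have h2 : ∀ ζ ∈ Kc W δ, DifferentiableOn ℂ (fun z => wKE0 Q δ h 1 1 z ζ)
      (Om W δ) := by
    intro ζ hζ
    rw [hOm]
    rw [hKc] at hζ
    exact B11_wKE0_hol hg hQ hK hζ
  have h3 := int_hol hg' (k := fun z ζ => wKE0 Q δ h 1 1 z ζ) h1 h2 hKD hN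
  rw [hOm] at h3
  exact h3.const_smul (kn n / (2 * n + 8))

end Pool.Agent.MPca0fc2.GW
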