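import Pool.Agent.Lib.MP_ca0fc2_an.GW.B11
import Pool.Agent.Lib.MP_ca0fc2_an.FD.B13

/-! The approximate identity with a general weight. This is the theorem `RE_lim` of `FD/B13.lean` for a
general weight vector `Q`. -/

set_option autoImplicit false

open Metric Set MeasureTheory Filter Topology

namespace Pool.Agent.MPca0fc2.GW

open Pool.Agent.MPca0fc2.FD

variable {n : ℕ} {V : Type*} [NormedAddCommGroup V] [NormedSpace ℂ V] [FiniteDimensional ℂ V]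
variable {U W : Set (Ec n)} {δ : Ec n → ℝ} {h : Ec n → Ec n → Fin n → ℂ} {c C A : ℝ}
variable {Q R : Ec n → Ec n → Fin n → ℂ}

private lemma B13_sub (U : Set (Ec n)) (δ : Ec n → ℝ) : Om U δ ⊆ Kc U δ := fun _ hz =>
  ⟨hz.1, hz.2.le⟩

private lemma B13_δc (hg : Geo U δ h c C) : ContinuousOn δ (Kc U δ) :=
  (hg.dδ.continuousOn).mono fun _ hz => hz.1

private lemma B13_den (hg : Geo U δ h c C) {ε : ℝ} (hε : 0 < ε) {z ζ : Ec n} (hz : z ∈ Om U δ)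
    (hζ : ζ ∈ Kc U δ) : 0 < ε ^ 2 * δ ζ ^ 2 + ‖ζ - z‖ ^ 2 := by
  by_cases h1 : ζ = z
  · subst h1
    have := hz.2
    positivity
  · have : 0 < ‖ζ - z‖ := norm_pos_iff.2 (sub_ne_zero.2 h1)
    positivity

private lemma B13_kc (hg : Geo U δ h c C) {ε : ℝ} (hε : 0 < ε) {z : Ec n} (hz : z ∈ Om U δ)
    (a b : ℕ) : ContinuousOn (fun ζ => (ε ^ 2 * δ ζ ^ 2) ^ a /
      (ε ^ 2 * δ ζ ^ 2 + ‖ζ - z‖ ^ 2) ^ b) (Kc U δ) := by
  have h1 := B13_δc hg
  refine ContinuousOn.div ?_ ?_ fun ζ hζ => (pow_pos (B13_den hg hε hz hζ) b).ne'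
  · exact ((continuousOn_const.mul (h1.pow 2)).pow a)
  · exact ((continuousOn_const.mul (h1.pow 2)).add (by fun_prop)).pow b

private lemma B13_io (hg : Geo U δ h c C) {W : Type*} [NormedAddCommGroup W] {f : Ec n → W}
    (hf : ContinuousOn f (Kc U δ)) : IntegrableOn f (Om U δ) :=
  (hf.integrableOn_compact hg.cpt).mono_set (B13_sub U δ)

private lemma B13_bdd (hg : Geo U δ h c C) {W : Type*} [NormedAddCommGroup W] {f : Ec n → W}
    (hf : ContinuousOn f (Kc U δ)) : ∃ G : ℝ, 0 < G ∧ ∀ ζ ∈ Kc U δ, ‖f ζ‖ ≤ G := by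
  obtain ⟨G, hG⟩ := hg.cpt.exists_bound_of_continuousOn hf
  exact ⟨max G 1, by positivity, fun ζ hζ => (hG ζ hζ).trans (le_max_left _ _)⟩

private lemma B13_err1 (hg : Geo U δ h c C) (q : ℕ) : ∃ C' : ℝ, 0 < C' ∧ ∀ (ε : ℝ), 0 < ε →
    ε ≤ 1 → ∀ (I J : Fin q → Fin n), ∀ z ∈ Om U δ, ∀ ζ ∈ Om U δ,
    ‖Kr0 δ h ε I (fun i => ee (J i)) 0 z ζ - ((-1) ^ (n + q) * Matrix.det (fun i j : Fin q =>
        (starRingEnd ℂ) ((ee (J i) : Ec n) (I j)))) *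
          ((ε ^ 2 * δ ζ ^ 2) ^ (n + 9) / (ε ^ 2 * δ ζ ^ 2 + ‖ζ - z‖ ^ 2) ^ (2 * n + 9) : ℝ)‖ ≤
      C' * ε * ((ε ^ 2 * δ ζ ^ 2) ^ (n + 8) /
        (ε ^ 2 * δ ζ ^ 2 + ‖ζ - z‖ ^ 2) ^ (2 * n + 8)) := by
  obtain ⟨C', hC', H⟩ := Kr0_zero_est n c C q
  refine ⟨C', hC', fun ε hε hε1 I J z hz ζ hζ => (H U δ h hg ε hε hε1 I J z hz ζ hζ).trans ?_⟩
  have hζ2 := hζ.2
  have hden : 0 < ε ^ 2 * δ ζ ^ 2 + ‖ζ - z‖ ^ 2 := by positivity
  have h1 : ‖ζ - z‖ * ε ^ 2 * δ ζ ≤ ε * (ε ^ 2 * δ ζ ^ 2 + ‖ζ - z‖ ^ 2) := by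
    have : ‖ζ - z‖ * (ε * δ ζ) ≤ ε ^ 2 * δ ζ ^ 2 + ‖ζ - z‖ ^ 2 := by
      nlinarith [sq_nonneg (‖ζ - z‖ - ε * δ ζ), sq_nonneg (‖ζ - z‖ + ε * δ ζ)]
    calc ‖ζ - z‖ * ε ^ 2 * δ ζ = ε * (‖ζ - z‖ * (ε * δ ζ)) := by ring
      _ ≤ _ := mul_le_mul_of_nonneg_left this hε.le
  calc C' * (‖ζ - z‖ * ε ^ 2 * δ ζ) * ((ε ^ 2 * δ ζ ^ 2) ^ (n + 8) /
        (ε ^ 2 * δ ζ ^ 2 + ‖ζ - z‖ ^ 2) ^ (2 * n + 9))
      ≤ C' * (ε * (ε ^ 2 * δ ζ ^ 2 + ‖ζ - z‖ ^ 2)) * ((ε ^ 2 * δ ζ ^ 2) ^ (n + 8) /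
        (ε ^ 2 * δ ζ ^ 2 + ‖ζ - z‖ ^ 2) ^ (2 * n + 9)) :=
        mul_le_mul_of_nonneg_right (mul_le_mul_of_nonneg_left h1 hC'.le) (by positivity)
    _ = _ := by
        rw [show 2 * n + 9 = (2 * n + 8) + 1 by ring, pow_succ (_ + _)]
        field_simp

private lemma B13_det0 {m : ℕ} (Y : Matrix (Fin m) (Fin m) ℂ) {T : ℝ} (hY : ∀ l i, ‖Y l i‖ ≤ T) :
    ‖Y.det‖ ≤ m.factorial * T ^ m := by
  rw [Matrix.det_apply']
  refine (norm_sum_le _ _).trans ?_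
  calc ∑ σ : Equiv.Perm (Fin m), ‖((Equiv.Perm.sign σ : ℤ) : ℂ) * ∏ i, Y (σ i) i‖
      ≤ ∑ _σ : Equiv.Perm (Fin m), T ^ m := by
        refine Finset.sum_le_sum fun σ _ => ?_
        rw [norm_mul]
        have h1 : ‖((Equiv.Perm.sign σ : ℤ) : ℂ)‖ = 1 := by
          rcases Int.units_eq_one_or (Equiv.Perm.sign σ) with h | h <;> simp [h]
        rw [h1, one_mul, norm_prod]
        calc ∏ i, ‖Y (σ i) i‖ ≤ ∏ _i : Fin m, T :=
              Finset.prod_le_prod (fun i _ => norm_nonneg _) fun i _ => hY _ _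
          _ = T ^ m := by simp
    _ = _ := by simp [Fintype.card_perm]

private lemma B13_det {m : ℕ} (x : Fin (m + 1) → ℂ) (Y : Fin m → Fin (m + 1) → ℂ) {u T : ℝ}
    (hx : ∀ i, ‖x i‖ ≤ u) (hY : ∀ l i, ‖Y l i‖ ≤ T) :
    ‖Matrix.det (cn x Y)‖ ≤ ((m + 1) * (m.factorial * T ^ m)) * u := by
  have e := Matrix.det_succ_row_zero (show Matrix (Fin (m + 1)) (Fin (m + 1)) ℂ from cn x Y)
  rw [show Matrix.det (cn x Y) = _ from e]
  refine (norm_sum_le _ _).trans ?_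
  calc _ ≤ ∑ _j : Fin (m + 1), u * (m.factorial * T ^ m) := by
        refine Finset.sum_le_sum fun j _ => ?_
        rw [norm_mul, norm_mul, norm_pow, norm_neg, norm_one, one_pow, one_mul]
        refine mul_le_mul (hx j) (B13_det0 _ fun l i => ?_) (norm_nonneg _)
          ((norm_nonneg _).trans (hx j))
        exact hY l _
    _ = _ := by simp; ring

private lemma B13_dbc {W' : Set (Ec n)} (hW : IsOpen W') {f : Ec n → ℂ}
    (hf : ContDiffOn ℝ 2 f W') (X : Ec n) : ContinuousOn (fun ζ => db f ζ X) W' := by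
  have h1 : ContinuousOn (fderiv ℝ f) W' :=
    hf.continuousOn_fderiv_of_isOpen hW (by norm_num)
  have h2 : ∀ Y : Ec n, ContinuousOn (fun ζ => fderiv ℝ f ζ Y) W' := fun Y =>
    h1.clm_apply continuousOn_const
  unfold db
  exact ((h2 X).add ((h2 (Complex.I • X)).const_smul Complex.I)).const_smul (2⁻¹ : ℂ)

private lemma B13_app {α : Type*} {m : ℕ} (f : Fin m → α) (g : Fin 0 → α) :
    (Fin.append f g : Fin (m + 0) → α) = f := by
  funext i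
  exact Fin.append_left f g i

private lemma B13_Kr00 (ε : ℝ) (z ζ : Ec n) :
    Kr0 δ h ε (Fin.elim0 : Fin 0 → Fin n)
      (fun i : Fin 0 => (ee ((Fin.elim0 : Fin 0 → Fin n) i) : Ec n)) 0 z ζ =
      F0 δ h ε 0 z ζ * Matrix.det (cn (rx δ h ε 0 0 z ζ)
        (fun l : Fin n => rζ δ h ε Fin.elim0 0 z ζ (ee l))) := by
  unfold Kr0
  rw [B13_app]

private lemma B13_F1 (ε : ℝ) (z ζ : Ec n) : F1 δ h ε 0 z ζ = (((ε ^ 2 * δ ζ ^ 2) ^ (n + 8) /
    (ε ^ 2 * δ ζ ^ 2 + ‖ζ - z‖ ^ 2) ^ (2 * n + 8) : ℝ) : ℂ) := by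
  unfold F1
  rw [aa_eq]
  simp [w0]

private lemma B13_snoc {m : ℕ} {f : Fin (m + 0) → ℂ} {g : Fin m → ℂ} {a : ℂ} {T : ℝ}
    (hf : f = Fin.append g (0 : Fin 0 → ℂ)) (h1 : ∀ i, ‖g i‖ ≤ T) (h2 : ‖a‖ ≤ T) :
    ∀ i, ‖(sn f a : Fin (m + 0 + 1) → ℂ) i‖ ≤ T := by
  intro i
  subst hf
  rw [B13_app]
  refine Fin.lastCases ?_ (fun j => ?_) i
  · unfold sn
    rw [Fin.snoc_last]
    exact h2
  · unfold sn
    rw [Fin.snoc_castSucc]
    exact h1 j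

private lemma B13_T (hg : Geo U δ h c C) (hWQ : WQ W δ Q R) (hKq : Kc U δ ⊆ W) {z : Ec n}
    (hz : z ∈ Om U δ) : ∃ T : ℝ, 0 ≤ T ∧ (∀ ζ ∈ Om U δ, ∀ ε : ℝ, 0 < ε → ε ≤ 1 →
      ∀ (l : Fin n) (i : Fin (n + 0 + 1)), ‖rζ δ h ε Fin.elim0 0 z ζ (ee l) i‖ ≤ T) ∧
      (∀ ζ ∈ Om U δ, ∀ (l : Fin n) (i : Fin (n + 0 + 1)), ‖wrq Q z ζ (ee l) i‖ ≤ T) := by
  have hC := hg.C1
  have hzq : z ∈ W := hKq (B13_sub U δ hz)
  have hδ2 : ContDiffOn ℝ 2 (fun y : Ec n => (δ y : ℂ)) U :=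
    Complex.ofRealCLM.contDiff.comp_contDiffOn hg.dδ
  have hKU : Kc U δ ⊆ U := fun ζ hζ => hζ.1
  have h1 : ∀ l : Fin n, ∃ G : ℝ, 0 < G ∧ ∀ ζ ∈ Kc U δ,
      ‖db (fun y => (δ y : ℂ)) ζ (ee l)‖ ≤ G := by
    intro l
    have a1 : ContinuousOn (fun ζ => db (fun y => (δ y : ℂ)) ζ (ee l)) U :=
      B13_dbc hg.opn hδ2 (ee l)
    exact B13_bdd hg (a1.mono hKU)
  choose G1 hG10 hG1 using h1
  have hQ : ∀ k : Fin n, ContDiffOn ℝ 2 (fun y => Q z y k) W := by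
    intro k
    have h2 : ContDiffOn ℝ 2 (fun y : Ec n => (z, y)) W :=
      contDiffOn_const.prodMk contDiffOn_id
    have h2' : MapsTo (fun y : Ec n => (z, y)) W (W ×ˢ W) :=
      fun y hy => Set.mk_mem_prod hzq hy
    have h2'' := (hWQ.c2 k).comp h2 h2'
    exact h2''
  have h3 : ∀ l k : Fin n, ∃ G : ℝ, 0 < G ∧ ∀ ζ ∈ Kc U δ,
      ‖db (fun y => Q z y k) ζ (ee l)‖ ≤ G := by
    intro l k
    have a1 : ContinuousOn (fun ζ => db (fun y => Q z y k) ζ (ee l)) W :=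
      B13_dbc hWQ.opn (hQ k) (ee l)
    exact B13_bdd hg (a1.mono hKq)
  choose G2 hG20 hG2 using h3
  have s1 : ∀ l, 0 ≤ 2 * C * G1 l := fun l => by have := hG10 l; positivity
  have s2 : ∀ l k, 0 ≤ G2 l k := fun l k => (hG20 l k).le
  have p1 : 0 ≤ ∑ l, 2 * C * G1 l := Finset.sum_nonneg fun l _ => s1 l
  have p2 : 0 ≤ ∑ l, ∑ k, G2 l k := Finset.sum_nonneg fun l _ => Finset.sum_nonneg fun k _ => s2 l k
  refine ⟨1 + ∑ l, 2 * C * G1 l + ∑ l, ∑ k, G2 l k, by positivity, ?_, ?_⟩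
  · intro ζ hζ ε hε hε1 l
    have hζ2 := hζ.2
    unfold rζ
    refine B13_snoc (g := fun k => (1 - ((0 : ℝ) : ℂ)) * (starRingEnd ℂ) ((ee l : Ec n) k) +
      ((0 : ℝ) : ℂ) * db (fun y => h z y k) ζ (ee l)) (by congr 1; funext j; exact j.elim0) ?_ ?_
    · intro k
      have : ‖(ee l : Ec n) k‖ ≤ 1 := by
        unfold ee
        rw [EuclideanSpace.single_apply]
        split_ifs <;> simp
      simp only [Complex.ofReal_zero, sub_zero, one_mul, zero_mul, add_zero]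
      rw [RCLike.norm_conj]
      linarith
    · have q1 := hG1 l ζ (B13_sub U δ hζ)
      have q2 : 2 * C * G1 l ≤ ∑ l, 2 * C * G1 l :=
        Finset.single_le_sum (f := fun l => 2 * C * G1 l) (fun j _ => s1 j) (Finset.mem_univ l)
      simp only [Complex.ofReal_zero, sub_zero, one_mul, add_zero]
      rw [norm_mul]
      have q3 : ‖(2 * (ε : ℂ) ^ 2 * (δ ζ : ℂ))‖ ≤ 2 * C := by
        rw [show (2 * (ε : ℂ) ^ 2 * (δ ζ : ℂ)) = ((2 * ε ^ 2 * δ ζ : ℝ) : ℂ) by push_cast; ring,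
          Complex.norm_real, Real.norm_of_nonneg (by positivity)]
        have q4 : ε ^ 2 ≤ 1 := by nlinarith
        have q5 := hg.bδ ζ hζ.1
        calc 2 * ε ^ 2 * δ ζ ≤ 2 * 1 * C :=
              mul_le_mul (mul_le_mul_of_nonneg_left q4 (by norm_num)) q5 hζ2.le (by norm_num)
          _ = 2 * C := by ring
      calc _ ≤ 2 * C * G1 l := mul_le_mul q3 q1 (norm_nonneg _) (by linarith)
        _ ≤ _ := by linarith
  · intro ζ hζ l
    unfold wrq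
    refine B13_snoc rfl ?_ ?_
    · intro k
      have q1 := hG2 l k ζ (B13_sub U δ hζ)
      have q2 : G2 l k ≤ ∑ k, G2 l k :=
        Finset.single_le_sum (f := fun k => G2 l k) (fun j _ => s2 l j) (Finset.mem_univ k)
      have q3 : ∑ k, G2 l k ≤ ∑ l, ∑ k, G2 l k :=
        Finset.single_le_sum (f := fun l => ∑ k, G2 l k)
          (fun j _ => Finset.sum_nonneg fun k _ => s2 j k) (Finset.mem_univ l)
      linarith
    · rw [norm_zero]; positivity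

private lemma B13_KE0c (hg : Geo U δ h c C) (hWQ : WQ W δ Q R) (hWU : W ⊆ U) (hKq : Kc U δ ⊆ W)
    {ε : ℝ} (hε : 0 < ε) {z : Ec n} (hz : z ∈ Om U δ) :
    ContinuousOn (fun ζ => wKE0 Q δ h ε 0 z ζ) (Kc U δ) := by
  have h1 := (wKE0_c1 hg hWQ hWU ε).continuousOn
  have h2 : ContinuousOn (fun ζ : Ec n => ((z, (0 : ℝ), ζ) : Tn n)) (Kc U δ) :=
    continuousOn_const.prodMk (continuousOn_const.prodMk continuousOn_id)
  have h3 : MapsTo (fun ζ : Ec n => ((z, (0 : ℝ), ζ) : Tn n)) (Kc U δ) (wTset W δ h ε) :=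
    fun ζ hζ => ⟨hKq (B13_sub U δ hz), hKq hζ,
      aa_ne hg hε (left_mem_Icc.2 zero_le_one) hz hζ⟩
  have h4 := h1.comp h2 h3
  exact h4

/-- PROOF. As `RE_lim` of `FD/B13.lean` (`wEx Q z z = 0`, and `wEx` is continuous on `W ×ˢ W`). -/
theorem wRE_lim (hg : Geo U δ h c C) (hQ : WQ W δ Q R) (hW : W ⊆ U) (hK : Kc U δ ⊆ W)
    {W' : Set (Ec n)} (hK' : Kc U δ ⊆ W') {N : Ec n → V} (hN : ContinuousOn N W') {z : Ec n}
    (hz : z ∈ Om U δ) :
    Tendsto (fun ε => wRE Q U δ h ε N z) (𝓝[>] 0) (𝓝 (N z)) := by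
  have hcst := cst_pos n
  have hOm := (Om_open hg).measurableSet
  have hzK := B13_sub U δ hz
  have hKq : Kc U δ ⊆ W := hK
  have hzq : z ∈ W := hKq hzK
  have hNK := hN.mono hK'
  have hEx : ContinuousOn (fun ζ => Complex.exp (wEx Q z ζ)) (Kc U δ) := by
    have h1 := (wEx_c2 hQ).continuousOn
    have h2 : ContinuousOn (fun ζ : Ec n => (z, ζ)) (Kc U δ) :=
      continuousOn_const.prodMk continuousOn_id
    have h2' : MapsTo (fun ζ : Ec n => (z, ζ)) (Kc U δ) (W ×ˢ W) :=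
      fun ζ hζ => Set.mk_mem_prod hzq (hKq hζ)
    have h3 : ContinuousOn (fun ζ => wEx Q z ζ) (Kc U δ) := by
      have h2'' := h1.comp h2 h2'
      exact h2''
    exact h3.cexp
  set g : Ec n → V := fun ζ => Complex.exp (wEx Q z ζ) • N ζ with hgdef
  have hgc : ContinuousOn g (Kc U δ) := hEx.smul hNK
  have hgz : g z = N z := by simp [g, wEx]
  obtain ⟨G, hG0, hGb⟩ := B13_bdd hg hgc
  obtain ⟨T, hT0, hT1, hT2⟩ := B13_T hg hQ hK hz
  obtain ⟨C', hC', H2⟩ := B13_err1 (n := n) hg 0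
  obtain ⟨B1, hB1⟩ := err_bd hg hz.2
  obtain ⟨B2, hB2⟩ := err_lim hg hz.2
  set D1 : ℝ := (n + 1) * (n.factorial * T ^ n) with hD1
  have hD10 : 0 ≤ D1 := by positivity
  set M : ℝ := (cst n)⁻¹ * (G * ((2 * n + 8) * C' * |B1| + n * D1 * |B2|)) with hM
  have hM0 : 0 ≤ M := by positivity
  rw [Metric.tendsto_nhdsWithin_nhds]
  intro e he
  obtain ⟨ε₁, hε₁, hε₁1, H1⟩ := main_lim hg (le_refl (Kc U δ)) hgc hz.2 (half_pos (half_pos he))
  refine ⟨min ε₁ (e / (4 * (M + 1))), by positivity, fun ε hε0 hεlt => ?_⟩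
  have hε : 0 < ε := hε0
  rw [Real.dist_eq, sub_zero, abs_of_pos hε] at hεlt
  have hεa : ε ≤ ε₁ := (hεlt.trans_le (min_le_left _ _)).le
  have hεb : ε ≤ e / (4 * (M + 1)) := (hεlt.trans_le (min_le_right _ _)).le
  have hε1 : ε ≤ 1 := hεa.trans hε₁1
  have hm := H1 ε hε hεa z hz le_rfl
  rw [hgz] at hm
  set k : Ec n → ℝ := fun ζ => (ε ^ 2 * δ ζ ^ 2) ^ (n + 9) /
        (ε ^ 2 * δ ζ ^ 2 + ‖ζ - z‖ ^ 2) ^ (2 * n + 9) with hk
  set F : Ec n → ℝ := fun ζ => (ε ^ 2 * δ ζ ^ 2) ^ (n + 8) /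
        (ε ^ 2 * δ ζ ^ 2 + ‖ζ - z‖ ^ 2) ^ (2 * n + 8) with hF
  set F2 : Ec n → ℝ := fun ζ => (‖ζ - z‖ + ε ^ 2 * δ ζ ^ 2) * F ζ with hF2
  have hFc : ContinuousOn F (Kc U δ) := B13_kc hg hε hz (n + 8) (2 * n + 8)
  have hδc := B13_δc hg
  have hF2c : ContinuousOn F2 (Kc U δ) := by
    refine ContinuousOn.mul (ContinuousOn.add (by fun_prop) ?_) hFc
    exact continuousOn_const.mul (hδc.pow 2)
  have hFi : IntegrableOn F (Om U δ) := B13_io hg hFc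
  have hF2i : IntegrableOn F2 (Om U δ) := B13_io hg hF2c
  have hF0 : ∀ ζ, 0 ≤ F ζ := fun ζ => by simp only [hF]; positivity
  have hF20 : ∀ ζ, 0 ≤ F2 ζ := fun ζ => by
    have := hF0 ζ
    simp only [hF2]; positivity
  have hFB : ∫ ζ in Om U δ, F ζ ≤ |B1| := (hB1 ε hε hε1 z hz le_rfl).trans (le_abs_self B1)
  have hF2B : ∫ ζ in Om U δ, F2 ζ ≤ |B2| * ε := (hB2 ε hε hε1 z hz le_rfl).trans
    (mul_le_mul_of_nonneg_right (le_abs_self B2) hε.le)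
  have hkc : ContinuousOn k (Kc U δ) := B13_kc hg hε hz (n + 9) (2 * n + 9)
  set Q1 : Ec n → V := fun ζ => wKE0 Q δ h ε 0 z ζ • N ζ with hQ1
  set Q2 : Ec n → V := fun ζ => (((2 * n + 8) * (-1) ^ n : ℂ) * (k ζ : ℂ)) • g ζ with hQ2
  have hQ1i : IntegrableOn Q1 (Om U δ) := B13_io hg ((B13_KE0c hg hQ hW hK hε hz).smul hNK)
  have hQ2i : IntegrableOn Q2 (Om U δ) :=
    B13_io hg ((continuousOn_const.mul (Complex.continuous_ofReal.comp_continuousOn hkc)).smul hgc)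
  have hpt : ∀ ζ ∈ Om U δ, ‖Q1 ζ - Q2 ζ‖ ≤
      (G * ((2 * n + 8) * C' * ε)) * F ζ + (G * (n * D1)) * F2 ζ := by
    intro ζ hζ
    have hζ2 := hζ.2
    set R1 : ℂ := F0 δ h ε 0 z ζ * Matrix.det (cn (rx δ h ε 0 0 z ζ)
        (fun l : Fin n => rζ δ h ε Fin.elim0 0 z ζ (ee l))) with hR1
    set R2 : ℂ := ∑ j : Fin n, Matrix.det (cn (rx δ h ε 0 0 z ζ)
      (Function.update (fun l : Fin n => rζ δ h ε Fin.elim0 0 z ζ (ee l)) j
        (wrq Q z ζ (ee j)))) with hR2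
    have e1 : Q1 ζ - Q2 ζ = ((2 * n + 8) * (R1 - (-1) ^ n * (k ζ : ℂ)) + (F ζ : ℂ) * R2) • g ζ := by
      simp only [hQ1, hQ2, hgdef]
      rw [smul_smul, smul_smul, ← sub_smul]
      congr 1
      unfold wKE0
      rw [B13_F1, mul_assoc (2 * (n : ℂ) + 8) (F0 δ h ε 0 z ζ), ← hR1, ← hR2]
      ring
    have e2 : ‖R1 - (-1) ^ n * (k ζ : ℂ)‖ ≤ C' * ε * F ζ := by
      have := H2 ε hε hε1 Fin.elim0 Fin.elim0 z hz ζ hζ
      rw [B13_Kr00, ← hR1] at this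
      have d0 : Matrix.det (fun i j : Fin 0 => (starRingEnd ℂ)
          ((ee ((Fin.elim0 : Fin 0 → Fin n) i) : Ec n) ((Fin.elim0 : Fin 0 → Fin n) j))) = 1 :=
        Matrix.det_fin_zero
      rw [d0, add_zero, mul_one] at this
      exact this
    have e3 : ‖R2‖ ≤ n * (D1 * (‖ζ - z‖ + ε ^ 2 * δ ζ ^ 2)) := by
      rw [hR2]
      refine (norm_sum_le _ _).trans ?_
      calc _ ≤ ∑ _j : Fin n, D1 * (‖ζ - z‖ + ε ^ 2 * δ ζ ^ 2) := by
            refine Finset.sum_le_sum fun j _ => ?_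
            have := B13_det (m := n) (rx δ h ε 0 0 z ζ) (Function.update
              (fun l : Fin n => rζ δ h ε Fin.elim0 0 z ζ (ee l)) j (wrq Q z ζ (ee j)))
              (u := ‖ζ - z‖ + ε ^ 2 * δ ζ ^ 2) (T := T) ?_ ?_
            · exact this
            · unfold rx
              refine B13_snoc (g := wk h 0 z ζ) (by congr 1) ?_ ?_
              · intro i
                have : ‖ζ i - z i‖ ≤ ‖ζ - z‖ := PiLp.norm_apply_le (ζ - z) i
                simp only [wk, Complex.ofReal_zero, sub_zero, one_mul, zero_mul, add_zero]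
                rw [RCLike.norm_conj]
                have : 0 ≤ ε ^ 2 * δ ζ ^ 2 := by positivity
                linarith
              · rw [Complex.norm_real]
                simp only [w0, sub_zero, one_mul, zero_mul, add_zero]
                rw [Real.norm_of_nonneg (by positivity)]
                linarith [norm_nonneg (ζ - z)]
            · intro l i
              by_cases hlj : l = j
              · subst hlj
                rw [Function.update_self]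
                exact hT2 ζ hζ l i
              · rw [Function.update_of_ne hlj]
                exact hT1 ζ hζ ε hε hε1 l i
        _ = _ := by simp
    rw [e1, norm_smul]
    have e4 : ‖((2 * n + 8) * (R1 - (-1) ^ n * (k ζ : ℂ)) + (F ζ : ℂ) * R2 : ℂ)‖ ≤
        (2 * n + 8) * (C' * ε * F ζ) + F ζ * (n * (D1 * (‖ζ - z‖ + ε ^ 2 * δ ζ ^ 2))) := by
      refine (norm_add_le _ _).trans (add_le_add ?_ ?_)
      · rw [norm_mul]
        have : ‖(2 * n + 8 : ℂ)‖ = 2 * n + 8 := by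
          rw [show (2 * n + 8 : ℂ) = ((2 * n + 8 : ℕ) : ℂ) by push_cast; ring,
            Complex.norm_natCast]
          push_cast; ring
        rw [this]
        exact mul_le_mul_of_nonneg_left e2 (by positivity)
      · rw [norm_mul, Complex.norm_real, Real.norm_of_nonneg (hF0 ζ)]
        exact mul_le_mul_of_nonneg_left e3 (hF0 ζ)
    calc _ ≤ ((2 * n + 8) * (C' * ε * F ζ) +
          F ζ * (n * (D1 * (‖ζ - z‖ + ε ^ 2 * δ ζ ^ 2)))) * G := by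
          refine mul_le_mul e4 (hGb ζ (B13_sub U δ hζ)) (norm_nonneg _) ?_
          have := hF0 ζ
          positivity
      _ = _ := by simp only [hF2]; ring
  have herr : ‖(∫ ζ in Om U δ, Q1 ζ) - ∫ ζ in Om U δ, Q2 ζ‖ ≤
      (G * ((2 * n + 8) * C' * |B1| + n * D1 * |B2|)) * ε := by
    rw [← integral_sub hQ1i hQ2i]
    refine (norm_integral_le_integral_norm _).trans ?_
    calc ∫ ζ in Om U δ, ‖Q1 ζ - Q2 ζ‖
        ≤ ∫ ζ in Om U δ, ((G * ((2 * n + 8) * C' * ε)) * F ζ + (G * (n * D1)) * F2 ζ) :=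
          integral_mono_of_nonneg (ae_of_all _ fun ζ => norm_nonneg _)
            ((hFi.const_mul _).add (hF2i.const_mul _)) (ae_restrict_of_forall_mem hOm hpt)
      _ = (G * ((2 * n + 8) * C' * ε)) * (∫ ζ in Om U δ, F ζ) +
          (G * (n * D1)) * ∫ ζ in Om U δ, F2 ζ := by
          rw [integral_add (hFi.const_mul _) (hF2i.const_mul _), integral_const_mul,
            integral_const_mul]
      _ ≤ (G * ((2 * n + 8) * C' * ε)) * |B1| + (G * (n * D1)) * (|B2| * ε) :=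
          add_le_add (mul_le_mul_of_nonneg_left hFB (by positivity))
            (mul_le_mul_of_nonneg_left hF2B (by positivity))
      _ = _ := by ring
  have hcne : (cst n : ℂ) ≠ 0 := by exact_mod_cast hcst.ne'
  have h28 : (2 * n + 8 : ℂ) ≠ 0 := by
    rw [show (2 * n + 8 : ℂ) = ((2 * n + 8 : ℕ) : ℂ) by push_cast; ring]
    exact_mod_cast (by omega : 2 * n + 8 ≠ 0)
  have hmain : (kn n / (2 * n + 8)) • ∫ ζ in Om U δ, Q2 ζ =
      ((cst n : ℂ)⁻¹) • ∫ ζ in Om U δ, (k ζ : ℂ) • g ζ := by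
    have e1 : ∀ ζ, Q2 ζ = ((2 * n + 8) * (-1) ^ n : ℂ) • ((k ζ : ℂ) • g ζ) := by
      intro ζ
      exact mul_smul _ _ _
    simp_rw [e1]
    rw [integral_smul, smul_smul]
    congr 1
    rw [kn]
    have e3 : ((-1 : ℂ)) ^ n * (-1) ^ n = 1 := by
      rw [← pow_add]
      exact Even.neg_one_pow ⟨n, rfl⟩
    field_simp
    linear_combination e3
  have hkn : ‖(kn n / (2 * n + 8) : ℂ)‖ ≤ (cst n)⁻¹ := by
    rw [kn, norm_div, norm_div, norm_pow, norm_neg, norm_one, one_pow, Complex.norm_real,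
      Real.norm_of_nonneg hcst.le, one_div]
    have : (1 : ℝ) ≤ ‖(2 * n + 8 : ℂ)‖ := by
      rw [show (2 * n + 8 : ℂ) = ((2 * n + 8 : ℕ) : ℂ) by push_cast; ring, Complex.norm_natCast]
      push_cast
      have : (0 : ℝ) ≤ n := by positivity
      linarith
    exact div_le_self (by positivity) this
  have hR : wRE Q U δ h ε N z - ((cst n : ℂ)⁻¹) • (∫ ζ in Om U δ, (k ζ : ℂ) • g ζ) =
      (kn n / (2 * n + 8)) • ((∫ ζ in Om U δ, Q1 ζ) - ∫ ζ in Om U δ, Q2 ζ) := by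
    rw [← hmain, smul_sub]
    rfl
  have hR2 : ‖wRE Q U δ h ε N z - ((cst n : ℂ)⁻¹) • (∫ ζ in Om U δ, (k ζ : ℂ) • g ζ)‖ ≤
      M * ε := by
    rw [hR, norm_smul]
    calc _ ≤ (cst n)⁻¹ * ((G * ((2 * n + 8) * C' * |B1| + n * D1 * |B2|)) * ε) :=
          mul_le_mul hkn herr (norm_nonneg _) (by positivity)
      _ = M * ε := by rw [hM]; ring
  have hR3 : M * ε ≤ e / 4 := by
    have : (M + 1) * ε ≤ e / 4 := by
      calc (M + 1) * ε ≤ (M + 1) * (e / (4 * (M + 1))) :=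
            mul_le_mul_of_nonneg_left hεb (by positivity)
        _ = _ := by field_simp
    nlinarith
  rw [dist_eq_norm]
  calc ‖wRE Q U δ h ε N z - N z‖
      = ‖(wRE Q U δ h ε N z - ((cst n : ℂ)⁻¹) • (∫ ζ in Om U δ, (k ζ : ℂ) • g ζ)) +
          (((cst n : ℂ)⁻¹) • (∫ ζ in Om U δ, (k ζ : ℂ) • g ζ) - N z)‖ := by
        congr 1; abel
    _ ≤ _ := norm_add_le _ _
    _ ≤ e / 4 + e / 2 / 2 := add_le_add (hR2.trans hR3) hm
    _ < e := by linarith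

end Pool.Agent.MPca0fc2.GW
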