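import Pool.Agent.Lib.MP_ca0fc2_an.GW.U1
import Pool.Agent.Lib.MP_ca0fc2_an.Mg.G027

/-! The holomorphic functions near `conj b (uk (k+1) - uk k)`. -/

set_option autoImplicit false

open Metric Set MeasureTheory Filter Topology

namespace Pool.Agent.MPca0fc2.GW

open Pool.Agent.MPca0fc2.FD

variable {n : ℕ} {U : Set (Ec n)} {δ : Ec n → ℝ} {h : Ec n → Ec n → Fin n → ℂ} {c C A : ℝ}

/-- the data -/
noncomputable def Nk (u : Ec n → ℂ) (b : ℕ → Ec n → ℂ) (k : ℕ) (w : Ec n) : ℂ :=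
  (starRingEnd ℂ) (b k w) * (uk u (k + 1) w - uk u k w)

/-- their projections -/
noncomputable def Lk (U : Set (Ec n)) (δ : Ec n → ℝ) (h : Ec n → Ec n → Fin n → ℂ) (c : ℝ)
    (u : Ec n → ℂ) (b : ℕ → Ec n → ℂ) (k : ℕ) : Ec n → ℂ :=
  Pop U (fun w => δ w + c / 16 * ek k) h (Nk u b k)

/-- The properties of the density `S` which are needed. -/
structure SH (U : Set (Ec n)) (δ : Ec n → ℝ) (h : Ec n → Ec n → Fin n → ℂ) (c : ℝ)
    (S : ℕ → Ec n → ℝ) (K₀ : ℝ) : Prop where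
  nn : ∀ k, ∀ w ∈ Dk U δ c k, 0 ≤ S k w
  le : ∀ k, ∀ w ∈ Dk U δ c k, S k w ≤ K₀
  har : ∀ (k : ℕ) (t : ℝ), 0 ≤ t → t ≤ c / 8 * ek k → ∀ z ∈ Om U (fun w => δ w + t),
    ∀ ζ ∈ Om U (fun w => δ w + t), S k ζ ≤
      K₀ * (‖vv (fun w => δ w + t) h z ζ‖ / (δ ζ + t)) ^ (9 / 4 : ℝ) *
        (max 1 (dk δ c k ζ / dk δ c k z)) ^ (1 / 4 : ℝ) * S k z

/-- PROOF. `conj (b k)` and `uk` are of class `C¹` on `Dk k` (`uk_c2`). -/
theorem Nk_c1 (hD : CD U δ h c C) {u : Ec n → ℂ} (hu : DifferentiableOn ℂ u (Om U δ)) {M ρ K : ℝ}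
    {S : ℕ → Ec n → ℝ} {b : ℕ → Ec n → ℂ} (hb : BL U δ h c u S b M ρ K) (k : ℕ) :
    ContDiffOn ℝ 1 (Nk u b k) (Dk U δ c k) := by
  have h1 : ContDiffOn ℝ 1 (fun w => (starRingEnd ℂ) (b k w)) (Dk U δ c k) :=
    Complex.conjCLE.contDiff.comp_contDiffOn ((hb.c2 k).of_le (by norm_num))
  have h2 : ContDiffOn ℝ 1 (fun w => uk u (k + 1) w - uk u k w) (Dk U δ c k) :=
    ((uk_c2 hD hu le_rfl).of_le (by norm_num)).sub
      ((uk_c2 hD hu (Nat.le_succ k)).of_le (by norm_num))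
  exact h1.mul h2

private theorem E1a_db_hol {G : Ec n → ℂ} {z : Ec n} (hG : DifferentiableAt ℂ G z) (X : Ec n) :
    db G z X = 0 := by
  have h1 : fderiv ℝ G z = (fderiv ℂ G z).restrictScalars ℝ :=
    (hG.hasFDerivAt.restrictScalars ℝ).fderiv
  unfold db
  rw [h1]
  simp only [ContinuousLinearMap.coe_restrictScalars', map_smul, smul_smul, Complex.I_mul_I,
    neg_smul, one_smul]
  simp

/-- The product rule for `db`. -/
private theorem E1a_db_mul {f g : Ec n → ℂ} {w : Ec n} (hf : DifferentiableAt ℝ f w)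
    (hg : DifferentiableAt ℝ g w) (X : Ec n) :
    db (fun y => f y * g y) w X = f w * db g w X + g w * db f w X := by
  unfold db
  rw [fderiv_fun_mul hf hg]
  simp only [_root_.add_apply, _root_.smul_apply, smul_eq_mul]
  ring

private theorem E1a_db_norm {f : Ec n → ℂ} {w X : Ec n} {B : ℝ} (h1 : ‖fderiv ℝ f w X‖ ≤ B)
    (h2 : ‖fderiv ℝ f w (Complex.I • X)‖ ≤ B) : ‖db f w X‖ ≤ B := by
  unfold db
  rw [norm_smul, norm_inv, Complex.norm_ofNat]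
  have h3 : ‖fderiv ℝ f w X + Complex.I • fderiv ℝ f w (Complex.I • X)‖ ≤ B + B := by
    refine (norm_add_le _ _).trans (add_le_add h1 ?_)
    rw [norm_smul, Complex.norm_I, one_mul]
    exact h2
  linarith

private theorem E1a_conj {f : Ec n → ℂ} {w : Ec n} (hf : DifferentiableAt ℝ f w) (X : Ec n) :
    ‖fderiv ℝ (fun y => (starRingEnd ℂ) (f y)) w X‖ = ‖fderiv ℝ f w X‖ := by
  have h1 : fderiv ℝ (fun y => (starRingEnd ℂ) (f y)) w =
      Complex.conjCLE.toContinuousLinearMap.comp (fderiv ℝ f w) :=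
    (Complex.conjCLE.toContinuousLinearMap.hasFDerivAt.comp w hf.hasFDerivAt).fderiv
  rw [h1, ContinuousLinearMap.comp_apply]
  exact Complex.norm_conj _

/-- PROOF. `uk (k+1) - uk k` is holomorphic, so `db N X = db (conj b) X · (uk (k+1) - uk k)`; `|db f X| ≤ (|f' X| + |f' (i X)|) / 2`; `|conj b' X| = |b' X|`, `gau (i X) = gau X` (`gau_smul`); `inc_le`, `BL.grad`.
`(dk / ek)^(1/32) (ek / dk) = (ek / dk)^(31/32)`. -/
theorem Nk_db (n : ℕ) (c C M K : ℝ) : ∃ K' : ℝ, 1 ≤ K' ∧ ∀ (U : Set (Ec n))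
    (δ : Ec n → ℝ) (h : Ec n → Ec n → Fin n → ℂ) (u : Ec n → ℂ) (S : ℕ → Ec n → ℝ)
    (b : ℕ → Ec n → ℂ) (ρ : ℝ), CD U δ h c C → DifferentiableOn ℂ u (Om U δ) →
    (∀ z ∈ Om U δ, ‖u z‖ ≤ M) → BL U δ h c u S b M ρ K → (∀ k, ∀ w ∈ Dk U δ c k, 0 ≤ S k w) →
    ∀ k : ℕ, ∀ w ∈ Dk U δ c k, ∀ X : Ec n, ‖db (Nk u b k) w X‖ ≤
      K' * (ek k / dk δ c k w) ^ (31 / 32 : ℝ) * S k w * gau (dk δ c k) h w X := by
  obtain ⟨K₁, hK₁, hinc⟩ := inc_le n c C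
  have hp : 0 ≤ K₁ * |M| * |K| := mul_nonneg (mul_nonneg hK₁.le (abs_nonneg M)) (abs_nonneg K)
  refine ⟨K₁ * |M| * |K| + 1, by linarith, fun U δ h u S b ρ hD hu hM hb hS k w hw X => ?_⟩
  have hopen := Dk_open hD k
  have hnh := hopen.mem_nhds hw
  obtain ⟨hc, _, _⟩ := hD.pos
  obtain ⟨_, _, hdk, _, _⟩ := Dk_basic hD hw
  have hek := ek_pos k
  have hdk0 : 0 < dk δ c k w := lt_of_le_of_lt (by positivity) hdk
  have hg0 : ∀ Y : Ec n, 0 ≤ gau (dk δ c k) h w Y := fun Y => gau_nonneg hdk0 Y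
  have hbd : DifferentiableAt ℝ (b k) w :=
    ((hb.c2 k).contDiffAt hnh).differentiableAt (by norm_num)
  have hf : DifferentiableAt ℝ (fun y => (starRingEnd ℂ) (b k y)) w :=
    (Complex.conjCLE.toContinuousLinearMap.hasFDerivAt.comp w hbd.hasFDerivAt).differentiableAt
  have hu1 : DifferentiableAt ℂ (uk u (k + 1)) w :=
    (uk_hol hD hu le_rfl).differentiableAt hnh
  have hu2 : DifferentiableAt ℂ (uk u k) w :=
    (uk_hol hD hu (Nat.le_succ k)).differentiableAt hnh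
  have hg : DifferentiableAt ℂ (fun y => uk u (k + 1) y - uk u k y) w := hu1.sub hu2
  have e1 : db (Nk u b k) w X = (uk u (k + 1) w - uk u k w) *
      db (fun y => (starRingEnd ℂ) (b k y)) w X := by
    have e2 : db (Nk u b k) w X =
        db (fun y => (starRingEnd ℂ) (b k y) * (uk u (k + 1) y - uk u k y)) w X := rfl
    rw [e2, E1a_db_mul hf (hg.restrictScalars ℝ), E1a_db_hol hg, mul_zero, zero_add]
  have h3 : ∀ Y : Ec n, ‖fderiv ℝ (fun y => (starRingEnd ℂ) (b k y)) w Y‖ ≤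
      |K| * (dk δ c k w / ek k) ^ (1 / 32 : ℝ) * S k w * gau (dk δ c k) h w Y := by
    intro Y
    rw [E1a_conj hbd]
    refine (hb.grad k w hw Y).trans ?_
    have h4 : 0 ≤ (dk δ c k w / ek k) ^ (1 / 32 : ℝ) * S k w * gau (dk δ c k) h w Y :=
      mul_nonneg (mul_nonneg (Real.rpow_nonneg (by positivity) _) (hS k w hw)) (hg0 Y)
    nlinarith [mul_le_mul_of_nonneg_right (le_abs_self K) h4]
  have h5 : ‖db (fun y => (starRingEnd ℂ) (b k y)) w X‖ ≤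
      |K| * (dk δ c k w / ek k) ^ (1 / 32 : ℝ) * S k w * gau (dk δ c k) h w X := by
    refine E1a_db_norm (h3 X) ?_
    refine (h3 _).trans (le_of_eq ?_)
    rw [gau_smul, Complex.norm_I, one_mul]
  have h6 : ‖uk u (k + 1) w - uk u k w‖ ≤ K₁ * |M| * (ek k / dk δ c k w) := by
    refine (hinc U δ h hD u M hu hM k w hw).trans ?_
    exact mul_le_mul_of_nonneg_right (mul_le_mul_of_nonneg_left (le_abs_self M) hK₁.le)
      (by positivity)
  have h7 : (ek k / dk δ c k w) * (dk δ c k w / ek k) ^ (1 / 32 : ℝ) =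
      (ek k / dk δ c k w) ^ (31 / 32 : ℝ) := by
    have hx : 0 < ek k / dk δ c k w := by positivity
    have e3 : dk δ c k w / ek k = (ek k / dk δ c k w)⁻¹ := by
      rw [inv_div]
    rw [e3, Real.inv_rpow hx.le, ← Real.rpow_neg hx.le]
    nth_rewrite 1 [← Real.rpow_one (ek k / dk δ c k w)]
    rw [← Real.rpow_add hx]
    norm_num
  have h8 : 0 ≤ (ek k / dk δ c k w) ^ (31 / 32 : ℝ) * S k w * gau (dk δ c k) h w X :=
    mul_nonneg (mul_nonneg (Real.rpow_nonneg (by positivity) _) (hS k w hw)) (hg0 X)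
  rw [e1, norm_mul]
  calc ‖uk u (k + 1) w - uk u k w‖ * ‖db (fun y => (starRingEnd ℂ) (b k y)) w X‖
      ≤ (K₁ * |M| * (ek k / dk δ c k w)) *
        (|K| * (dk δ c k w / ek k) ^ (1 / 32 : ℝ) * S k w * gau (dk δ c k) h w X) :=
        mul_le_mul h6 h5 (norm_nonneg _) (by positivity)
    _ = K₁ * |M| * |K| * (((ek k / dk δ c k w) * (dk δ c k w / ek k) ^ (1 / 32 : ℝ)) *
        S k w * gau (dk δ c k) h w X) := by ring
    _ = K₁ * |M| * |K| * ((ek k / dk δ c k w) ^ (31 / 32 : ℝ) *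
        S k w * gau (dk δ c k) h w X) := by rw [h7]
    _ ≤ (K₁ * |M| * |K| + 1) * ((ek k / dk δ c k w) ^ (31 / 32 : ℝ) *
        S k w * gau (dk δ c k) h w X) :=
        mul_le_mul_of_nonneg_right (by linarith) h8
    _ = _ := by ring

/-- PROOF. `inc_le`, `BL.bd`. -/
theorem Nk_le (n : ℕ) (c C M K : ℝ) : ∃ K' : ℝ, 1 ≤ K' ∧ ∀ (U : Set (Ec n))
    (δ : Ec n → ℝ) (h : Ec n → Ec n → Fin n → ℂ) (u : Ec n → ℂ) (S : ℕ → Ec n → ℝ)
    (b : ℕ → Ec n → ℂ) (ρ : ℝ), CD U δ h c C → DifferentiableOn ℂ u (Om U δ) →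
    (∀ z ∈ Om U δ, ‖u z‖ ≤ M) → BL U δ h c u S b M ρ K →
    ∀ k : ℕ, ∀ w ∈ Dk U δ c k, ‖Nk u b k w‖ ≤ K' * (ek k / dk δ c k w) := by
  obtain ⟨K₁, hK₁, hinc⟩ := inc_le n c C
  have hp : 0 ≤ 5 * |M| * (K₁ * |M|) :=
    mul_nonneg (mul_nonneg (by norm_num) (abs_nonneg M)) (mul_nonneg hK₁.le (abs_nonneg M))
  refine ⟨5 * |M| * (K₁ * |M|) + 1, by linarith,
    fun U δ h u S b ρ hD hu hM hb k w hw => ?_⟩
  obtain ⟨hc, _, _⟩ := hD.pos
  obtain ⟨_, _, hdk, _, _⟩ := Dk_basic hD hw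
  have hek := ek_pos k
  have hdk0 : 0 < dk δ c k w := lt_of_le_of_lt (by positivity) hdk
  have hx : 0 ≤ ek k / dk δ c k w := by positivity
  have h6 : ‖uk u (k + 1) w - uk u k w‖ ≤ K₁ * |M| * (ek k / dk δ c k w) := by
    refine (hinc U δ h hD u M hu hM k w hw).trans ?_
    exact mul_le_mul_of_nonneg_right (mul_le_mul_of_nonneg_left (le_abs_self M) hK₁.le) hx
  have h7 : ‖(starRingEnd ℂ) (b k w)‖ ≤ 5 * |M| := by
    rw [Complex.norm_conj]
    exact (hb.bd k w hw).trans (mul_le_mul_of_nonneg_left (le_abs_self M) (by norm_num))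
  unfold Nk
  rw [norm_mul]
  calc ‖(starRingEnd ℂ) (b k w)‖ * ‖uk u (k + 1) w - uk u k w‖
      ≤ (5 * |M|) * (K₁ * |M| * (ek k / dk δ c k w)) :=
        mul_le_mul h7 h6 (norm_nonneg _) (by positivity)
    _ = 5 * |M| * (K₁ * |M|) * (ek k / dk δ c k w) := by ring
    _ ≤ (5 * |M| * (K₁ * |M|) + 1) * (ek k / dk δ c k w) :=
        mul_le_mul_of_nonneg_right (by linarith) hx

end Pool.Agent.MPca0fc2.GW
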