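import Pool.Agent.Lib.MP_ca0fc2_an.Mg.G003
import Mathlib
import Pool.Agent.Lib.MP_ca0fc2_an.CPSP
import Pool.Agent.Lib.MP_ca0fc2_an.Mg.G051

/-! Discretization of Carleson measures on the ball. -/

set_option autoImplicit false

open Metric Set MeasureTheory Filter Topology
open scoped InnerProductSpace ENNReal

namespace Pool.Agent.MPca0fc2.GW

open Pool.Agent.MPca0fc2.FD
open Pool.Agent.Lib.MP_ca0fc2_an

private theorem I1_real {Z α x Da Dx : ℝ} (hZ : 0 ≤ Z) (hα0 : 0 ≤ α) (hα : α < 1)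
    (h1 : x - α ≤ (1 - α) / 4) (h2 : α - x ≤ (1 - α) / 4) (hx0 : 0 ≤ x)
    (hDa : 1 - α ≤ Da) (h3 : Dx - Da ≤ (1 - α) / 4) (h4 : Da - Dx ≤ (1 - α) / 4) :
    Z * (1 - x ^ 2) / Dx ^ 2 ≤ 16 * (Z * (1 - α ^ 2) / Da ^ 2) ∧
      Z * (1 - α ^ 2) / Da ^ 2 ≤ 16 * (Z * (1 - x ^ 2) / Dx ^ 2) := by
  have hDa0 : 0 < Da := by linarith
  have hDx0 : 0 < Dx := by linarith
  have hx1 : x < 1 := by linarith
  have e1 : 1 - x ^ 2 ≤ 4 * (1 - α ^ 2) := by
    have a1 : 1 - x ≤ 5 / 4 * (1 - α) := by linarith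
    have a2 : 1 + x ≤ 5 / 4 * (1 + α) := by linarith
    have a3 : (1 - x) * (1 + x) ≤ (5 / 4 * (1 - α)) * (5 / 4 * (1 + α)) :=
      mul_le_mul a1 a2 (by linarith) (by linarith)
    have a4 : 0 ≤ (1 - α) * (1 + α) := mul_nonneg (by linarith) (by linarith)
    nlinarith
  have e2 : 1 - α ^ 2 ≤ 4 * (1 - x ^ 2) := by
    have a1 : 1 - α ≤ 4 / 3 * (1 - x) := by linarith
    have a2 : 1 + α ≤ 5 / 4 * (1 + x) := by linarith
    have a3 : (1 - α) * (1 + α) ≤ (4 / 3 * (1 - x)) * (5 / 4 * (1 + x)) :=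
      mul_le_mul a1 a2 (by linarith) (by linarith)
    have a4 : 0 ≤ (1 - x) * (1 + x) := mul_nonneg (by linarith) (by linarith)
    nlinarith
  have e3 : Dx ^ 2 ≤ 4 * Da ^ 2 := by
    have : Dx ≤ 2 * Da := by linarith
    nlinarith
  have e4 : Da ^ 2 ≤ 4 * Dx ^ 2 := by
    have : Da ≤ 2 * Dx := by linarith
    nlinarith
  have hα2 : 0 ≤ 1 - α ^ 2 := by nlinarith
  have hx2 : 0 ≤ 1 - x ^ 2 := by nlinarith
  constructor
  · rw [← mul_div_assoc, div_le_div_iff₀ (by positivity) (by positivity)]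
    calc Z * (1 - x ^ 2) * Da ^ 2 ≤ Z * (4 * (1 - α ^ 2)) * (4 * Dx ^ 2) := by
          apply mul_le_mul (mul_le_mul_of_nonneg_left e1 hZ) e4 (by positivity)
          exact mul_nonneg hZ (by linarith)
      _ = 16 * (Z * (1 - α ^ 2)) * Dx ^ 2 := by ring
  · rw [← mul_div_assoc, div_le_div_iff₀ (by positivity) (by positivity)]
    calc Z * (1 - α ^ 2) * Dx ^ 2 ≤ Z * (4 * (1 - x ^ 2)) * (4 * Da ^ 2) := by
          apply mul_le_mul (mul_le_mul_of_nonneg_left e2 hZ) e3 (by positivity)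
          exact mul_nonneg hZ (by linarith)
      _ = 16 * (Z * (1 - x ^ 2)) * Da ^ 2 := by ring

/-- The kernel at nearby points.
PROOF. `‖⟪z, ξ - a⟫‖ ≤ (1 - ‖a‖) / 4 ≤ ‖1 - ⟪z, a⟫‖ / 4`, so `‖1 - ⟪z, ξ⟫‖` and `‖1 - ⟪z, a⟫‖` differ at most by the factor `4/3`; `1 - ‖ξ‖²` and `1 - ‖a‖²` differ at most by the factor `4` (`1 - ‖ξ‖ ≥ (3/4) (1 - ‖a‖)`, `1 - ‖ξ‖ ≤ (5/4) (1 - ‖a‖)`, `1 - t ≤ 1 - t² ≤ 2 (1 - t)`). -/
theorem invKer_near {k : ℕ} {z a ξ : Ec k} (hz : ‖z‖ < 1) (ha : ‖a‖ < 1)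
    (h : ‖ξ - a‖ < (1 - ‖a‖) / 4) : ‖ξ‖ < 1 ∧ invKer z ξ ≤ 16 * invKer z a ∧
      invKer z a ≤ 16 * invKer z ξ := by
  have h1 : ‖ξ‖ - ‖a‖ ≤ ‖ξ - a‖ := norm_sub_norm_le ξ a
  have h2 : ‖a‖ - ‖ξ‖ ≤ ‖ξ - a‖ := by
    have := norm_sub_norm_le a ξ
    rwa [norm_sub_rev] at this
  have hx : ‖ξ‖ < 1 := by linarith
  have hin : ‖⟪z, ξ - a⟫_ℂ‖ ≤ (1 - ‖a‖) / 4 := by
    have := norm_inner_le_norm (𝕜 := ℂ) z (ξ - a)
    have h0 : ‖z‖ * ‖ξ - a‖ ≤ 1 * ‖ξ - a‖ :=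
      mul_le_mul_of_nonneg_right hz.le (norm_nonneg _)
    linarith
  have hDa : 1 - ‖a‖ ≤ ‖1 - ⟪z, a⟫_ℂ‖ := by
    have h5 := norm_inner_le_norm (𝕜 := ℂ) z a
    have h0 : ‖z‖ * ‖a‖ ≤ 1 * ‖a‖ :=
      mul_le_mul_of_nonneg_right hz.le (norm_nonneg _)
    have h6 : ‖(1 : ℂ)‖ - ‖⟪z, a⟫_ℂ‖ ≤ ‖1 - ⟪z, a⟫_ℂ‖ := norm_sub_norm_le _ _
    rw [norm_one] at h6
    linarith
  have h3 : ‖1 - ⟪z, ξ⟫_ℂ‖ - ‖1 - ⟪z, a⟫_ℂ‖ ≤ (1 - ‖a‖) / 4 := by
    have h7 : ‖1 - ⟪z, ξ⟫_ℂ‖ - ‖1 - ⟪z, a⟫_ℂ‖ ≤ ‖(1 - ⟪z, ξ⟫_ℂ) - (1 - ⟪z, a⟫_ℂ)‖ :=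
      norm_sub_norm_le _ _
    have h8 : (1 - ⟪z, ξ⟫_ℂ) - (1 - ⟪z, a⟫_ℂ) = - ⟪z, ξ - a⟫_ℂ := by
      rw [inner_sub_right]; ring
    rw [h8, norm_neg] at h7
    linarith
  have h4 : ‖1 - ⟪z, a⟫_ℂ‖ - ‖1 - ⟪z, ξ⟫_ℂ‖ ≤ (1 - ‖a‖) / 4 := by
    have h7 : ‖1 - ⟪z, a⟫_ℂ‖ - ‖1 - ⟪z, ξ⟫_ℂ‖ ≤ ‖(1 - ⟪z, a⟫_ℂ) - (1 - ⟪z, ξ⟫_ℂ)‖ :=
      norm_sub_norm_le _ _
    have h8 : (1 - ⟪z, a⟫_ℂ) - (1 - ⟪z, ξ⟫_ℂ) = ⟪z, ξ - a⟫_ℂ := by
      rw [inner_sub_right]; ring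
    rw [h8] at h7
    linarith
  have hZ : 0 ≤ 1 - ‖z‖ ^ 2 := by nlinarith [norm_nonneg z]
  exact ⟨hx, I1_real hZ (norm_nonneg a) ha (by linarith) (by linarith) (norm_nonneg ξ) hDa h3 h4⟩

private theorem I1_nonneg {k : ℕ} {z a : Ec k} (hz : ‖z‖ < 1) (ha : ‖a‖ < 1) :
    0 ≤ invKer z a := by
  unfold invKer
  have h1 : 0 ≤ 1 - ‖z‖ ^ 2 := by nlinarith [norm_nonneg z]
  have h2 : 0 ≤ 1 - ‖a‖ ^ 2 := by nlinarith [norm_nonneg a]
  positivity

private theorem I1_self {k : ℕ} {a : Ec k} (ha : ‖a‖ < 1) : invKer a a = 1 := by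
  unfold invKer
  have h2 : 0 < 1 - ‖a‖ ^ 2 := by nlinarith [norm_nonneg a]
  rw [inner_self_eq_norm_sq_to_K]
  have h3 : (1 : ℂ) - ((‖a‖ : ℝ) : ℂ) ^ 2 = ((1 - ‖a‖ ^ 2 : ℝ) : ℂ) := by push_cast; ring
  have h4 : ‖(1 : ℂ) - (((‖a‖ : ℝ) : ℂ)) ^ 2‖ = 1 - ‖a‖ ^ 2 := by
    rw [h3, Complex.norm_real, Real.norm_of_nonneg h2.le]
  rw [show ((RCLike.ofReal ‖a‖ : ℂ)) = ((‖a‖ : ℝ) : ℂ) from rfl, h4]
  field_simp

private theorem I1_bound {k : ℕ} {z a : Ec k} (hz : ‖z‖ < 1) (ha : ‖a‖ < 1) :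
    invKer z a ≤ 1 / (1 - ‖z‖) ^ 2 := by
  unfold invKer
  have h1 : 0 ≤ 1 - ‖z‖ ^ 2 := by nlinarith [norm_nonneg z]
  have h2 : 0 ≤ 1 - ‖a‖ ^ 2 := by nlinarith [norm_nonneg a]
  have h5 := norm_inner_le_norm (𝕜 := ℂ) z a
  have h0 : ‖z‖ * ‖a‖ ≤ ‖z‖ * 1 :=
    mul_le_mul_of_nonneg_left ha.le (norm_nonneg _)
  have h6 : ‖(1 : ℂ)‖ - ‖⟪z, a⟫_ℂ‖ ≤ ‖1 - ⟪z, a⟫_ℂ‖ := norm_sub_norm_le _ _
  rw [norm_one] at h6
  have h7 : 1 - ‖z‖ ≤ ‖1 - ⟪z, a⟫_ℂ‖ := by linarith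
  have h8 : 0 < 1 - ‖z‖ := by linarith
  have h9 : (1 - ‖z‖ ^ 2) * (1 - ‖a‖ ^ 2) ≤ 1 := by
    have : (1 - ‖z‖ ^ 2) * (1 - ‖a‖ ^ 2) ≤ 1 * 1 :=
      mul_le_mul (by nlinarith [norm_nonneg z]) (by nlinarith [norm_nonneg a]) h2 (by norm_num)
    linarith
  apply div_le_div₀ (by norm_num) h9 (by positivity)
  exact pow_le_pow_left₀ h8.le h7 2

private theorem I1_meas {k : ℕ} (z : Ec k) : Measurable fun ξ : Ec k => invKer z ξ := by
  unfold invKer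
  have h1 : Measurable fun ξ : Ec k => ⟪z, ξ⟫_ℂ := (continuous_const.inner continuous_id).measurable
  exact (((measurable_const.sub ((measurable_norm).pow_const 2)).const_mul _)).div
    ((measurable_const.sub h1).norm.pow_const 2)

/-- Discretization of a Carleson measure.
PROOF. Let `a i` be a dense sequence of points of the open unit ball (`TopologicalSpace.denseSeq` of the subtype, which is nonempty: `0`), `E i = {ξ | ‖ξ - a i‖ < (1 - ‖a i‖) / 4} \ ⋃ j < i, {..}`: disjoint Borel sets in the ball (`invKer_near`) whose union is the ball (for `ξ` in the ball there is `i` with `‖ξ - a i‖ < (1 - ‖ξ‖) / 8`). `ν (E i)` is finite: `invKer (a i) ξ ≥ invKer (a i) (a i) / 16 = 1 / 16` on `E i`, so `ν (E i) ≤ 16 A`.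
`w i = 256 * (ν (E i)).toReal`. `∑ w i invKer z (a i) ≤ 256 * 16 ∑ ∫ over E i of invKer z ξ dν ≤ 4096 A` (`lintegral_iUnion`; finite sums). `∫ invKer z ξ ^ 2 dν = ∑' ∫ over E i ≤ ∑' 256 invKer z (a i) ^ 2 ν (E i)`; summable as `invKer ≤ 1` (Cauchy-Schwarz; or as `invKer z (a i) ≤ 4 / (1 - ‖z‖)^2` is bounded in `i`) and the first sums are bounded. (If `invKer z ξ ^ 2` is not integrable then the integral is `0`.) -/
theorem disc_measure {k : ℕ} {A : ℝ} (ν : Measure (Ec k))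
    (hν : ∀ w ∈ ball (0 : Ec k) 1,
      ∫⁻ ξ in ball (0 : Ec k) 1, ENNReal.ofReal (invKer w ξ) ∂ν ≤ ENNReal.ofReal A) :
    ∃ (a : ℕ → Ec k) (w : ℕ → ℝ) (C : ℝ), (∀ i, ‖a i‖ < 1 ∧ 0 ≤ w i) ∧
      (∀ z ∈ ball (0 : Ec k) 1, ∀ m : ℕ, ∑ i ∈ Finset.range m, w i * invKer z (a i) ≤ C) ∧
      ∀ z ∈ ball (0 : Ec k) 1, (Summable fun i => w i * invKer z (a i) ^ 2) ∧
        ∫ ξ in ball (0 : Ec k) 1, invKer z ξ ^ 2 ∂ν ≤ ∑' i, w i * invKer z (a i) ^ 2 := by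
  classical
  have : Nonempty (ball (0 : Ec k) 1) := ⟨⟨0, mem_ball_self one_pos⟩⟩
  set d : ℕ → ball (0 : Ec k) 1 := TopologicalSpace.denseSeq (ball (0 : Ec k) 1) with hd
  have hdense : DenseRange d := TopologicalSpace.denseRange_denseSeq _
  set a : ℕ → Ec k := fun i => (d i : Ec k) with ha_def
  have ha : ∀ i, ‖a i‖ < 1 := fun i => by
    have := (d i).2
    rwa [mem_ball_zero_iff] at this
  set B : ℕ → Set (Ec k) := fun i => ball (a i) ((1 - ‖a i‖) / 4) with hB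
  have hBmem : ∀ i ξ, ξ ∈ B i ↔ ‖ξ - a i‖ < (1 - ‖a i‖) / 4 := fun i ξ => by
    rw [hB]; exact mem_ball_iff_norm
  set E : ℕ → Set (Ec k) := disjointed B with hE
  have hEB : ∀ i, E i ⊆ B i := fun i => disjointed_subset B i
  have hBmeas : ∀ i, MeasurableSet (B i) := fun i => measurableSet_ball
  have hEmeas : ∀ i, MeasurableSet (E i) := fun i => MeasurableSet.disjointed hBmeas i
  have hEdisj : Pairwise (Function.onFun Disjoint E) := disjoint_disjointed B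
  have hBU : ⋃ i, B i = ball (0 : Ec k) 1 := by
    apply Subset.antisymm
    · apply iUnion_subset
      intro i ξ hξ
      rw [mem_ball_zero_iff]
      exact (invKer_near (z := 0) (by simp) (ha i) ((hBmem i ξ).1 hξ)).1
    · intro ξ hξ
      have hξ1 : ‖ξ‖ < 1 := by rwa [mem_ball_zero_iff] at hξ
      obtain ⟨i, hi⟩ := hdense.exists_dist_lt (⟨ξ, hξ⟩ : ball (0 : Ec k) 1)
        (ε := (1 - ‖ξ‖) / 8) (by linarith)
      rw [Subtype.dist_eq] at hi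
      rw [mem_iUnion]
      refine ⟨i, (hBmem i ξ).2 ?_⟩
      have h1 : ‖ξ - a i‖ < (1 - ‖ξ‖) / 8 := by
        rw [← dist_eq_norm]; exact hi
      have h2 : ‖a i‖ - ‖ξ‖ ≤ ‖ξ - a i‖ := by
        have := norm_sub_norm_le (a i) ξ
        rwa [norm_sub_rev] at this
      linarith
  have hEU : ⋃ i, E i = ball (0 : Ec k) 1 := by rw [hE, iUnion_disjointed, hBU]
  have hEball : ∀ i, E i ⊆ ball (0 : Ec k) 1 := fun i => by
    rw [← hEU]; exact subset_iUnion E i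
  -- the measures of the pieces are finite
  have hfin : ∀ i, ν (E i) ≤ 16 * ENNReal.ofReal A := by
    intro i
    have h1 : ∫⁻ _ξ in E i, (1 : ℝ≥0∞) ∂ν ≤
        ∫⁻ ξ in E i, 16 * ENNReal.ofReal (invKer (a i) ξ) ∂ν := by
      apply setLIntegral_mono' (hEmeas i)
      intro ξ hξ
      have h2 := (invKer_near (z := a i) (ha i) (ha i) ((hBmem i ξ).1 (hEB i hξ))).2.2
      rw [I1_self (ha i)] at h2
      calc (1 : ℝ≥0∞) = ENNReal.ofReal 1 := ENNReal.ofReal_one.symm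
        _ ≤ ENNReal.ofReal (16 * invKer (a i) ξ) := ENNReal.ofReal_le_ofReal h2
        _ = 16 * ENNReal.ofReal (invKer (a i) ξ) := by
            rw [ENNReal.ofReal_mul (by norm_num)]
            simp
    rw [setLIntegral_one] at h1
    refine h1.trans ?_
    rw [lintegral_const_mul _ (I1_meas (a i)).ennreal_ofReal]
    refine mul_le_mul_right ?_ _
    refine le_trans (lintegral_mono_set (hEball i)) (hν (a i) ?_)
    rw [mem_ball_zero_iff]; exact ha i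
  have hfin' : ∀ i, ν (E i) ≠ ∞ := fun i =>
    ne_top_of_le_ne_top (ENNReal.mul_ne_top (by norm_num) ENNReal.ofReal_ne_top) (hfin i)
  have hsum : ∀ z ∈ ball (0 : Ec k) 1, ∀ m : ℕ,
      ∑ i ∈ Finset.range m, (256 * (ν (E i)).toReal) * invKer z (a i) ≤ 4096 * max A 0 := by
    intro z hz m
    have hz1 : ‖z‖ < 1 := by rwa [mem_ball_zero_iff] at hz
    have h1 : ∀ i, ν (E i) * ENNReal.ofReal (invKer z (a i)) ≤
        ∫⁻ ξ in E i, 16 * ENNReal.ofReal (invKer z ξ) ∂ν := by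
      intro i
      rw [mul_comm, ← setLIntegral_const]
      apply setLIntegral_mono' (hEmeas i)
      intro ξ hξ
      have h2 := (invKer_near (z := z) hz1 (ha i) ((hBmem i ξ).1 (hEB i hξ))).2.2
      calc ENNReal.ofReal (invKer z (a i)) ≤ ENNReal.ofReal (16 * invKer z ξ) :=
            ENNReal.ofReal_le_ofReal h2
        _ = 16 * ENNReal.ofReal (invKer z ξ) := by
            rw [ENNReal.ofReal_mul (by norm_num)]
            simp
    have h2 : ∑ i ∈ Finset.range m, ν (E i) * ENNReal.ofReal (invKer z (a i)) ≤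
        16 * ENNReal.ofReal A := by
      calc ∑ i ∈ Finset.range m, ν (E i) * ENNReal.ofReal (invKer z (a i))
          ≤ ∑ i ∈ Finset.range m, ∫⁻ ξ in E i, 16 * ENNReal.ofReal (invKer z ξ) ∂ν :=
            Finset.sum_le_sum fun i _ => h1 i
        _ ≤ ∑' i, ∫⁻ ξ in E i, 16 * ENNReal.ofReal (invKer z ξ) ∂ν := ENNReal.sum_le_tsum _
        _ = ∫⁻ ξ in ⋃ i, E i, 16 * ENNReal.ofReal (invKer z ξ) ∂ν :=
            (lintegral_iUnion hEmeas hEdisj _).symm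
        _ = 16 * ∫⁻ ξ in ball (0 : Ec k) 1, ENNReal.ofReal (invKer z ξ) ∂ν := by
            rw [hEU, lintegral_const_mul _ (I1_meas z).ennreal_ofReal]
        _ ≤ 16 * ENNReal.ofReal A := mul_le_mul_right (hν z hz) _
    have h3 : ∑ i ∈ Finset.range m, ν (E i) * ENNReal.ofReal (invKer z (a i)) =
        ENNReal.ofReal (∑ i ∈ Finset.range m, (ν (E i)).toReal * invKer z (a i)) := by
      rw [ENNReal.ofReal_sum_of_nonneg]
      · apply Finset.sum_congr rfl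
        intro i _
        rw [ENNReal.ofReal_mul ENNReal.toReal_nonneg, ENNReal.ofReal_toReal (hfin' i)]
      · intro i _
        exact mul_nonneg ENNReal.toReal_nonneg (I1_nonneg hz1 (ha i))
    have h4 : (16 : ℝ≥0∞) * ENNReal.ofReal A = ENNReal.ofReal (16 * max A 0) := by
      rw [ENNReal.ofReal_mul (by norm_num)]
      have h16 : ENNReal.ofReal 16 = 16 := by simp
      rw [h16]
      apply _root_.congrArg (fun t => (16 : ℝ≥0∞) * t)
      · rcases le_total A 0 with h | h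
        · rw [max_eq_right h, ENNReal.ofReal_of_nonpos h, ENNReal.ofReal_zero]
        · rw [max_eq_left h]
    rw [h3, h4, ENNReal.ofReal_le_ofReal_iff (by positivity)] at h2
    calc ∑ i ∈ Finset.range m, (256 * (ν (E i)).toReal) * invKer z (a i)
        = 256 * ∑ i ∈ Finset.range m, (ν (E i)).toReal * invKer z (a i) := by
          rw [Finset.mul_sum]
          apply Finset.sum_congr rfl
          intro i _
          ring
      _ ≤ 256 * (16 * max A 0) := by linarith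
      _ = 4096 * max A 0 := by ring
  refine ⟨a, fun i => 256 * (ν (E i)).toReal, 4096 * max A 0, fun i => ⟨ha i, by positivity⟩,
    hsum, ?_⟩
  intro z hz
  have hz1 : ‖z‖ < 1 := by rwa [mem_ball_zero_iff] at hz
  have hbd : 0 < (1 - ‖z‖) ^ 2 := by
    have : 0 < 1 - ‖z‖ := by linarith
    positivity
  have hsm : Summable fun i => (256 * (ν (E i)).toReal) * invKer z (a i) ^ 2 := by
    apply summable_of_sum_range_le (c := 1 / (1 - ‖z‖) ^ 2 * (4096 * max A 0))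
    · intro i
      positivity
    · intro m
      calc ∑ i ∈ Finset.range m, (256 * (ν (E i)).toReal) * invKer z (a i) ^ 2
          ≤ ∑ i ∈ Finset.range m, 1 / (1 - ‖z‖) ^ 2 *
              ((256 * (ν (E i)).toReal) * invKer z (a i)) := by
            apply Finset.sum_le_sum
            intro i _
            have h1 := I1_bound hz1 (ha i)
            have h2 := I1_nonneg hz1 (ha i)
            have h3 : 0 ≤ 256 * (ν (E i)).toReal * invKer z (a i) := by positivity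
            calc (256 * (ν (E i)).toReal) * invKer z (a i) ^ 2
                = (256 * (ν (E i)).toReal * invKer z (a i)) * invKer z (a i) := by ring
              _ ≤ (256 * (ν (E i)).toReal * invKer z (a i)) * (1 / (1 - ‖z‖) ^ 2) :=
                  mul_le_mul_of_nonneg_left h1 h3
              _ = _ := by ring
        _ = 1 / (1 - ‖z‖) ^ 2 *
              ∑ i ∈ Finset.range m, (256 * (ν (E i)).toReal) * invKer z (a i) := by
            rw [Finset.mul_sum]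
        _ ≤ 1 / (1 - ‖z‖) ^ 2 * (4096 * max A 0) :=
            mul_le_mul_of_nonneg_left (hsum z hz m) (by positivity)
  refine ⟨hsm, ?_⟩
  have hm2 : Measurable fun ξ : Ec k => invKer z ξ ^ 2 := (I1_meas z).pow_const 2
  rw [integral_eq_lintegral_of_nonneg_ae (Eventually.of_forall fun ξ => sq_nonneg _)
    hm2.aestronglyMeasurable]
  have hts : 0 ≤ ∑' i, (256 * (ν (E i)).toReal) * invKer z (a i) ^ 2 :=
    tsum_nonneg fun i => by positivity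
  apply ENNReal.toReal_le_of_le_ofReal hts
  rw [ENNReal.ofReal_tsum_of_nonneg (fun i => by positivity) hsm, ← hEU,
    lintegral_iUnion hEmeas hEdisj]
  apply ENNReal.tsum_le_tsum
  intro i
  calc ∫⁻ ξ in E i, ENNReal.ofReal (invKer z ξ ^ 2) ∂ν
      ≤ ∫⁻ _ξ in E i, ENNReal.ofReal (256 * invKer z (a i) ^ 2) ∂ν := by
        apply setLIntegral_mono' (hEmeas i)
        intro ξ hξ
        apply ENNReal.ofReal_le_ofReal
        have h2 := (invKer_near (z := z) hz1 (ha i) ((hBmem i ξ).1 (hEB i hξ)))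
        have h3 : 0 ≤ invKer z ξ := I1_nonneg hz1 h2.1
        calc invKer z ξ ^ 2 ≤ (16 * invKer z (a i)) ^ 2 := pow_le_pow_left₀ h3 h2.2.1 2
          _ = 256 * invKer z (a i) ^ 2 := by ring
    _ = ENNReal.ofReal (256 * invKer z (a i) ^ 2) * ν (E i) := by
        rw [setLIntegral_const]
    _ = ENNReal.ofReal ((256 * (ν (E i)).toReal) * invKer z (a i) ^ 2) := by
        rw [show (256 * (ν (E i)).toReal) * invKer z (a i) ^ 2 =
          (256 * invKer z (a i) ^ 2) * (ν (E i)).toReal by ring,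
          ENNReal.ofReal_mul (p := 256 * invKer z (a i) ^ 2) (by positivity),
          ENNReal.ofReal_toReal (hfin' i)]
    _ ≤ _ := le_refl _

end Pool.Agent.MPca0fc2.GW
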