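import Pool.Agent.Lib.MP_ca0fc2_an.GW.I2
import Pool.Agent.Lib.MP_ca0fc2_an.FD.Q1
import Pool.Agent.Lib.MP_ca0fc2_an.Mg.G046

/-! The lemma of Hopf and the tangential derivative for holomorphic maps near a part of the boundary. -/

set_option autoImplicit false

open Metric Set MeasureTheory Filter Topology
open scoped InnerProductSpace

namespace Pool.Agent.MPca0fc2.GW

open Pool.Agent.MPca0fc2.FD
open Pool.Agent.Lib.MP_ca0fc2_an

variable {n : ℕ}

/-- Small discs in the domain, and a nearby point outside of the domain (the proof of `disc_in`). -/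
private theorem I3_disc (n : ℕ) (c C : ℝ) (hc : 0 < c) : ∃ r c₁ : ℝ, 0 < r ∧ r ≤ c / 4 ∧
    0 < c₁ ∧ c₁ ≤ c ∧
    ∀ (U : Set (Ec n)) (δ : Ec n → ℝ) (h : Ec n → Ec n → Fin n → ℂ), Geo U δ h c C →
    ∀ z ∈ Om U δ, δ z ≤ c₁ → ∃ (e : Ec n) (t : ℝ), ‖e‖ = 1 ∧ c₁ * δ z ≤ t ∧ t ≤ r ∧
      (∀ lam : ℂ, ‖lam‖ < r + t → z + (lam - r) • e ∈ Om U δ) ∧ c * r ≤ δ (z - (r : ℂ) • e) ∧
      ∃ s : ℝ, 0 ≤ s ∧ s ≤ δ z / c ∧ z + (s : ℂ) • e ∉ Om U δ := by
  obtain ⟨K₀, hK₀, hT⟩ := δ_taylor n c C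
  set S : ℝ := Real.sqrt n * |C| with hS
  have hS0 : 0 ≤ S := by positivity
  set r : ℝ := min (c / K₀) (c / 4) with hr
  have hr0 : 0 < r := lt_min (by positivity) (by positivity)
  have hrK : K₀ * r ≤ c := by
    have : r ≤ c / K₀ := min_le_left _ _
    rw [le_div_iff₀ hK₀] at this
    linarith
  have hr4 : r ≤ c / 4 := min_le_right _ _
  set c₁ : ℝ := min (min (c / 2) (min (c ^ 2 / 2) (c ^ 2 / (2 * K₀))))
    (min (6 * c * r) (1 / (6 * (S + 1)))) with hc₁
  have hc₁0 : 0 < c₁ := lt_min (lt_min (by positivity) (lt_min (by positivity) (by positivity)))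
    (lt_min (by positivity) (by positivity))
  have hc₁a : c₁ ≤ c / 2 := (min_le_left _ _).trans (min_le_left _ _)
  have hc₁d : c₁ ≤ c ^ 2 / 2 :=
    (min_le_left _ _).trans ((min_le_right _ _).trans (min_le_left _ _))
  have hc₁e : c₁ ≤ c ^ 2 / (2 * K₀) :=
    (min_le_left _ _).trans ((min_le_right _ _).trans (min_le_right _ _))
  have hc₁b : c₁ ≤ 6 * c * r := (min_le_right _ _).trans (min_le_left _ _)
  have hc₁c : c₁ ≤ 1 / (6 * (S + 1)) := (min_le_right _ _).trans (min_le_right _ _)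
  refine ⟨r, c₁, hr0, hr4, hc₁0, by linarith, ?_⟩
  intro U δ h hg z hz hzc
  have hC0 : 0 ≤ C := zero_le_one.trans hg.C1
  have hCa : |C| = C := abs_of_nonneg hC0
  have hδz : 0 < δ z := hz.2
  obtain ⟨hn1, hn2, hn3⟩ := nv_prop h z
  have hc1 : c ≤ ‖nv h z‖ := (hg.nd z hz.1 hz.2 (by linarith)).trans hn2
  have hc2 : ‖nv h z‖ ≤ S := by
    refine hn3.trans ?_
    rw [hS, hCa]
    exact mul_le_mul_of_nonneg_left (hg.bh z hz.1 z hz.1) (Real.sqrt_nonneg _)
  set a : ℝ := ‖nv h z‖ with ha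
  have ha0 : 0 < a := hc.trans_le hc1
  set e : Ec n := ((a⁻¹ : ℝ) : ℂ) • nv h z with he
  have hen : ‖e‖ = 1 := by
    rw [he, norm_smul, Complex.norm_real, Real.norm_eq_abs, abs_of_pos (inv_pos.mpr ha0), ← ha]
    exact inv_mul_cancel₀ ha0.ne'
  have hge : ∑ k, h z z k * e k = (a : ℂ) := by
    have e1 : ∀ k, h z z k * e k = ((a⁻¹ : ℝ) : ℂ) * (h z z k * (nv h z) k) := by
      intro k
      have : e k = ((a⁻¹ : ℝ) : ℂ) * (nv h z) k := rfl
      rw [this]
      ring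
    rw [Finset.sum_congr rfl fun k _ => e1 k, ← Finset.mul_sum, hn1, ← Complex.ofReal_mul]
    congr 1
    field_simp
  set t : ℝ := δ z / (6 * a) with ht
  have ht0 : 0 < t := by positivity
  have hta : 6 * a * t = δ z := by
    rw [ht]
    field_simp
  have htr : t ≤ r := by
    rw [ht, div_le_iff₀ (by positivity)]
    have : 6 * c * r ≤ 6 * a * r := by
      have := mul_le_mul_of_nonneg_right hc1 hr0.le
      linarith
    linarith
  have htc : c₁ * δ z ≤ t := by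
    rw [ht, le_div_iff₀ (by positivity)]
    have h1 : c₁ * (6 * (S + 1)) ≤ 1 := by
      rwa [le_div_iff₀ (by positivity)] at hc₁c
    have h2 : c₁ * (6 * a) ≤ 1 := by
      have : c₁ * (6 * a) ≤ c₁ * (6 * (S + 1)) :=
        mul_le_mul_of_nonneg_left (by linarith) hc₁0.le
      linarith
    calc c₁ * δ z * (6 * a) = δ z * (c₁ * (6 * a)) := by ring
      _ ≤ δ z * 1 := mul_le_mul_of_nonneg_left h2 hδz.le
      _ = δ z := mul_one _
  -- the main estimate
  have key0 : ∀ lam : ℂ, ‖lam - r‖ < c → z + (lam - r) • e ∈ U ∧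
      |δ (z + (lam - r) • e) - δ z + 2 * ((lam.re - r) * a)| ≤ K₀ * ‖lam - r‖ ^ 2 := by
    intro lam hlam
    have hYn : ‖(lam - r) • e‖ = ‖lam - r‖ := by rw [norm_smul, hen, mul_one]
    obtain ⟨hU, hδ⟩ := hT U δ h hg z hz ((lam - r) • e) (by rw [hYn]; exact hlam)
    refine ⟨hU, ?_⟩
    have hgY : ∑ k, h z z k * ((lam - r) • e) k = (lam - r) * (a : ℂ) := by
      have e1 : ∀ k, h z z k * ((lam - r) • e) k = (lam - r) * (h z z k * e k) := by
        intro k
        have : ((lam - r) • e) k = (lam - r) * e k := rfl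
        rw [this]
        ring
      rw [Finset.sum_congr rfl fun k _ => e1 k, ← Finset.mul_sum, hge]
    rw [hgY, Complex.mul_re, Complex.sub_re, Complex.ofReal_re, Complex.ofReal_re,
      Complex.ofReal_im, mul_zero, sub_zero, hYn] at hδ
    exact hδ
  have key : ∀ lam : ℂ, ‖lam - r‖ < c → z + (lam - r) • e ∈ U ∧
      δ z - 2 * a * (lam.re - r) - K₀ * ‖lam - r‖ ^ 2 ≤ δ (z + (lam - r) • e) := by
    intro lam hlam
    obtain ⟨hU, hδ⟩ := key0 lam hlam
    refine ⟨hU, ?_⟩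
    have := (abs_le.mp hδ).1
    linarith
  have hcr : K₀ * r ≤ a := hrK.trans hc1
  refine ⟨e, t, hen, htc, htr, ?_, ?_, ?_⟩
  · intro lam hlam
    have hd : ‖lam - r‖ < c := by
      have h1 : ‖lam - r‖ ≤ ‖lam‖ + ‖(r : ℂ)‖ := norm_sub_le _ _
      rw [Complex.norm_real, Real.norm_eq_abs, abs_of_pos hr0] at h1
      linarith
    obtain ⟨hU, hδ⟩ := key lam hd
    refine ⟨hU, ?_⟩
    have h2 : ‖lam - r‖ ^ 2 = ‖lam‖ ^ 2 - 2 * r * lam.re + r ^ 2 := by
      rw [← Complex.normSq_eq_norm_sq, ← Complex.normSq_eq_norm_sq, Complex.normSq_apply,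
        Complex.normSq_apply, Complex.sub_re, Complex.sub_im, Complex.ofReal_re, Complex.ofReal_im]
      ring
    have h3 : ‖lam‖ ^ 2 ≤ (r + t) ^ 2 := pow_le_pow_left₀ (norm_nonneg _) hlam.le 2
    set D : ℝ := ‖lam - r‖ ^ 2 with hD
    have hD0 : 0 ≤ D := sq_nonneg _
    -- 2 r (Re lam - r) ≤ 2 r t + t² - D
    have h4 : 2 * r * (lam.re - r) ≤ 2 * r * t + t ^ 2 - D := by nlinarith
    have h5 : t ^ 2 ≤ r * t := by nlinarith
    have h6 : 2 * r * (lam.re - r) ≤ 3 * r * t - D := by linarith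
    -- multiply by a / r
    have h7 : 2 * a * (lam.re - r) * r ≤ (3 * a * t) * r - a * D := by
      have := mul_le_mul_of_nonneg_left h6 ha0.le
      nlinarith
    have h8 : K₀ * D * r ≤ a * D := by
      have := mul_le_mul_of_nonneg_right hcr hD0
      nlinarith
    have h9 : (2 * a * (lam.re - r) + K₀ * D) * r ≤ (3 * a * t) * r := by nlinarith
    have h10 : 2 * a * (lam.re - r) + K₀ * D ≤ 3 * a * t := le_of_mul_le_mul_right h9 hr0
    have h11 : 3 * a * t = δ z / 2 := by linarith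
    linarith
  · have hd : ‖(0 : ℂ) - r‖ < c := by
      rw [zero_sub, norm_neg, Complex.norm_real, Real.norm_eq_abs, abs_of_pos hr0]
      linarith
    obtain ⟨-, hδ⟩ := key 0 hd
    have e0 : z + ((0 : ℂ) - r) • e = z - (r : ℂ) • e := by
      rw [zero_sub, neg_smul, sub_eq_add_neg]
    rw [e0, Complex.zero_re, zero_sub, zero_sub, norm_neg, Complex.norm_real, Real.norm_eq_abs,
      abs_of_pos hr0] at hδ
    have h1 : K₀ * r ^ 2 ≤ a * r := by nlinarith
    have h2 : c * r ≤ a * r := mul_le_mul_of_nonneg_right hc1 hr0.le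
    nlinarith
  · set s : ℝ := δ z / a with hs
    have hs0 : 0 < s := by positivity
    have hsc : s ≤ δ z / c := div_le_div_of_nonneg_left hδz.le hc hc1
    refine ⟨s, hs0.le, hsc, ?_⟩
    have hsc' : s < c := by
      refine lt_of_le_of_lt hsc ?_
      rw [div_lt_iff₀ hc]
      nlinarith
    have e0 : (((r + s : ℝ) : ℂ) - (r : ℂ)) = ((s : ℝ) : ℂ) := by
      push_cast
      ring
    have hd : ‖((r + s : ℝ) : ℂ) - r‖ < c := by
      rw [e0, Complex.norm_real, Real.norm_eq_abs, abs_of_pos hs0]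
      exact hsc'
    obtain ⟨-, hδ⟩ := key0 ((r + s : ℝ) : ℂ) hd
    rw [e0, Complex.ofReal_re, Complex.norm_real, Real.norm_eq_abs, abs_of_pos hs0] at hδ
    have h1 := (abs_le.mp hδ).2
    have h2 : s * a = δ z := by
      rw [hs]
      field_simp
    have h3 : r + s - r = s := by ring
    rw [h3, h2] at h1
    have h4 : K₀ * s ^ 2 ≤ δ z / 2 := by
      have h5 : K₀ * δ z ≤ c ^ 2 / 2 := by
        have : δ z ≤ c ^ 2 / (2 * K₀) := hzc.trans hc₁e
        rw [le_div_iff₀ (by positivity)] at this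
        linarith
      have h6 : c ^ 2 ≤ a ^ 2 := pow_le_pow_left₀ hc.le hc1 2
      have h7 : K₀ * δ z ≤ a ^ 2 / 2 := by linarith
      have h8 : K₀ * s ^ 2 = (K₀ * δ z) * δ z / a ^ 2 := by
        rw [hs]
        field_simp
      rw [h8, div_le_iff₀ (by positivity)]
      nlinarith
    intro hmem
    have h9 : 0 < δ (z + ((s : ℝ) : ℂ) • e) := hmem.2
    linarith

/-- A lower bound of `1 - ‖Q‖` on compact sets. -/
private theorem I3_lb {U : Set (Ec n)} {δ : Ec n → ℝ} {h : Ec n → Ec n → Fin n → ℂ} {c C : ℝ}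
    (hg : Geo U δ h c C) {k : ℕ} {p : Ec n} {r r' : ℝ} (hr : r' < r)
    {Q : Ec n → Ec k} (hQ : DifferentiableOn ℂ Q (ball p r))
    (hQ1 : ∀ z ∈ Om U δ ∩ ball p r, ‖Q z‖ < 1) {s : ℝ} (hs : 0 < s) :
    ∃ m : ℝ, 0 < m ∧ ∀ z ∈ U, z ∈ closedBall p r' → s ≤ δ z → m ≤ 1 - ‖Q z‖ := by
  set T : Set (Ec n) := ({z | z ∈ U ∧ 0 ≤ δ z} ∩ δ ⁻¹' Ici s) ∩ closedBall p r' with hT
  have hTc : IsCompact T := by
    have hcont : ContinuousOn δ {z | z ∈ U ∧ 0 ≤ δ z} := hg.dδ.continuousOn.mono fun z hz => hz.1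
    have hcl : IsClosed ({z | z ∈ U ∧ 0 ≤ δ z} ∩ δ ⁻¹' Ici s) :=
      hcont.preimage_isClosed_of_isClosed hg.cpt.isClosed isClosed_Ici
    exact (hg.cpt.of_isClosed_subset hcl inter_subset_left).inter_right isClosed_closedBall
  have hmem : ∀ z ∈ U, z ∈ closedBall p r' → s ≤ δ z → z ∈ T :=
    fun z hz hb h => ⟨⟨⟨hz, hs.le.trans h⟩, h⟩, hb⟩
  rcases T.eq_empty_or_nonempty with hemp | hne
  · refine ⟨1, one_pos, fun z hz hb h => ?_⟩
    have := hmem z hz hb h
    rw [hemp] at this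
    exact absurd this (notMem_empty z)
  · have hqc : ContinuousOn (fun z => ‖Q z‖) T :=
      (hQ.continuousOn.mono fun z hz => closedBall_subset_ball hr hz.2).norm
    obtain ⟨z₀, hz₀, hmax⟩ := hTc.exists_isMaxOn hne hqc
    have hz₀' : ‖Q z₀‖ < 1 := hQ1 z₀ ⟨⟨hz₀.1.1.1, lt_of_lt_of_le hs hz₀.1.2⟩,
      closedBall_subset_ball hr hz₀.2⟩
    refine ⟨1 - ‖Q z₀‖, by linarith, fun z hz hb h => ?_⟩
    have := hmax (hmem z hz hb h)
    have h2 : ‖Q z‖ ≤ ‖Q z₀‖ := this
    linarith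

private theorem I3_dual {k : ℕ} (w : Ec k) :
    ∃ e : Ec k, ‖e‖ ≤ 1 ∧ ‖⟪e, w⟫_ℂ‖ = ‖w‖ := by
  by_cases hw : w = 0
  · refine ⟨0, by simp, ?_⟩
    rw [hw]
    simp
  · have hw0 : 0 < ‖w‖ := norm_pos_iff.mpr hw
    refine ⟨((‖w‖⁻¹ : ℝ) : ℂ) • w, ?_, ?_⟩
    · rw [norm_smul, Complex.norm_real, Real.norm_eq_abs, abs_of_pos (inv_pos.mpr hw0)]
      exact (inv_mul_cancel₀ hw0.ne').le
    · rw [inner_smul_left, norm_mul, RCLike.norm_conj, Complex.norm_real, Real.norm_eq_abs,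
        abs_of_pos (inv_pos.mpr hw0), inner_self_eq_norm_sq_to_K, norm_pow]
      simp only [Complex.coe_algebraMap, Complex.norm_real, Real.norm_eq_abs, abs_norm]
      field_simp

/-- The local lemma of Hopf.
PROOF. `sup_geo` (`FD/T1.lean`): `Geo U' (-ρ) h c₀ C₀`, `Om U' (-ρ) = D`. Let `η = (r - r') / 4`, `c' = min c₀ η`; `Geo_mono`. `disc_in n c' C₀` (`FD/Q1.lean`): for `z ∈ D` with `-ρ z ≤ c₁` there is a disc `z + (lam - R) • e`, `|lam| < R + t`, in `D`, where `‖e‖ = 1`, `R ≤ c' / 4`-like (if the bound `R ≤ η` is not in the statement of `disc_in`, repeat its proof with a smaller `R`, or use that the disc is in `D` which is bounded and shrink: the statement needed is: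
the disc is contained in `ball p r` when `z ∈ ball p r'`), `c₁ (-ρ z) ≤ t ≤ R`, and `-ρ ≥ c' R` at the centre `z - R e`. So for the function `lam ↦ ⟪e', Q (z + (lam - R) • e)⟫`, with `e' = Q z / ‖Q z‖` (`Q z ≠ 0`), `pick_lb` gives `1 - ‖Q z‖ ≥ m t / (4 R)`, where `m > 0` is a lower bound of `1 - ‖Q‖` on the compact set of the points `x` of
`closedBall p (r' + 2 η)` with `x ∈ U'`, `-ρ x ≥ min c₁ (c' R)` (contained in `D ∩ ball p r`). If `-ρ z ≥ c₁` then `1 - ‖Q z‖ ≥ m`. Finally `infDist z Dᶜ ≤ K (-ρ z)`: for `-ρ z ≤ c₁` the point `z + s e` is not in `D` for some `s ≤ K (-ρ z)` (`ρ` increases at least like `c₁ s` in the direction `e = nv / ‖nv‖`, `δ_taylor` in `FD/Q1.lean`), and `infDist` is bounded (`rho_le_dist`). -/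
theorem hopf_loc (hn : 1 ≤ n) {D U : Set (Ec n)} {ρ : Ec n → ℝ} {h : Ec n → Ec n → Fin n → ℂ}
    {c : ℝ} (hs : SupportData D U ρ h c) {k : ℕ} {p : Ec n} {r r' : ℝ} (hr : r' < r)
    {Q : Ec n → Ec k} (hQ : DifferentiableOn ℂ Q (ball p r))
    (hQ1 : ∀ z ∈ D ∩ ball p r, ‖Q z‖ < 1) :
    ∃ K : ℝ, 1 ≤ K ∧ ∀ z ∈ D ∩ ball p r', infDist z Dᶜ ≤ K * (1 - ‖Q z‖) := by
  obtain ⟨U', c₀, C₀, -, -, -, hg0, hOm⟩ := sup_geo hs isOpen_univ (subset_univ _)
  obtain ⟨L, hL1, hL⟩ := rho_le_dist hn hs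
  set δ : Ec n → ℝ := fun z => -ρ z with hδdef
  set η : ℝ := (r - r') / 4 with hη
  have hη0 : 0 < η := by
    rw [hη]
    linarith
  set c' : ℝ := min c₀ η with hc'
  have hc'0 : 0 < c' := lt_min hg0.c0 hη0
  have hc'η : c' ≤ η := min_le_right _ _
  have hg : Geo U' δ h c' C₀ := Geo_mono hg0 hc'0 (min_le_left _ _) le_rfl
  obtain ⟨R, c₁, hR0, hR4, hc₁, hc₁c, hD⟩ := I3_disc n c' C₀ hc'0
  have hQ1' : ∀ z ∈ Om U' δ ∩ ball p r, ‖Q z‖ < 1 := by
    rw [hOm]
    exact hQ1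
  have hr'' : r' + 2 * η < r := by
    rw [hη]
    linarith
  obtain ⟨m, hm, hmq⟩ := I3_lb hg hr'' hQ hQ1' (s := min (c' * R) c₁)
    (lt_min (by positivity) hc₁)
  have hL0 : 0 < L := by linarith
  refine ⟨max 1 (max (L / m) (4 * R / (c' * m * c₁))), le_max_left _ _, ?_⟩
  rintro z ⟨hzD, hzb⟩
  have hzOm : z ∈ Om U' δ := by
    rw [hOm]
    exact hzD
  have hδz : 0 < δ z := hzOm.2
  have hzd : dist z p < r' := mem_ball.mp hzb
  have hzr : z ∈ ball p r := ball_subset_ball hr.le hzb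
  have hQz : 0 < 1 - ‖Q z‖ := by
    have := hQ1 z ⟨hzD, hzr⟩
    linarith
  rcases le_total (δ z) c₁ with hle | hge
  · obtain ⟨e, t, he, ht1, ht2, hin, hctr, s, hs0, hs1, hs2⟩ := hD U' δ h hg z hzOm hle
    have ht0 : 0 < t := lt_of_lt_of_le (by positivity) ht1
    have hRt : 0 < R + t := by positivity
    have hRn : ‖(R : ℂ)‖ = R := by
      rw [Complex.norm_real, Real.norm_eq_abs, abs_of_pos hR0]
    have hnear : ∀ lam : ℂ, ‖lam‖ < R + t → dist (z + (lam - R) • e) p < r' + η := by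
      intro lam hlam
      have h1 : dist (z + (lam - R) • e) z ≤ 3 * R := by
        rw [dist_eq_norm, add_sub_cancel_left, norm_smul, he, mul_one]
        have := norm_sub_le lam (R : ℂ)
        rw [hRn] at this
        linarith
      have h2 := dist_triangle (z + (lam - R) • e) z p
      linarith
    obtain ⟨e', he', he'Q⟩ := I3_dual (Q z)
    set g : ℂ → ℂ := fun lam => ⟪e', Q (z + (lam - R) • e)⟫_ℂ with hgdef
    have hcomp : DifferentiableOn ℂ (fun lam : ℂ => Q (z + (lam - R) • e)) (ball 0 (R + t)) := by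
      refine hQ.comp (g := Q) (f := fun lam : ℂ => z + (lam - R) • e) ?_ ?_
      · exact ((differentiable_const z).add
          ((differentiable_id.sub_const (R : ℂ)).smul_const e)).differentiableOn
      · intro lam hlam
        have := hnear lam (mem_ball_zero_iff.mp hlam)
        rw [mem_ball]
        linarith
    have hgd : DifferentiableOn ℂ g (ball 0 (R + t)) :=
      (innerSL ℂ e').differentiable.comp_differentiableOn hcomp
    have hgle : ∀ lam : ℂ, ‖g lam‖ ≤ ‖Q (z + (lam - R) • e)‖ := by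
      intro lam
      refine (norm_inner_le_norm _ _).trans ?_
      exact mul_le_of_le_one_left (norm_nonneg _) he'
    have hg1 : ∀ lam ∈ ball (0 : ℂ) (R + t), ‖g lam‖ < 1 := by
      intro lam hlam
      have hlam' := mem_ball_zero_iff.mp hlam
      refine lt_of_le_of_lt (hgle lam) (hQ1' _ ⟨hin lam hlam', ?_⟩)
      have := hnear lam hlam'
      rw [mem_ball]
      linarith
    have hrb : (R : ℂ) ∈ ball (0 : ℂ) (R + t) := by
      rw [mem_ball_zero_iff, hRn]
      linarith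
    have h2 := pick_lb hRt hgd hg1 hrb
    have e0 : z + ((0 : ℂ) - R) • e = z - (R : ℂ) • e := by
      rw [zero_sub, neg_smul, sub_eq_add_neg]
    have hg0' : ‖g 0‖ ≤ ‖Q (z - (R : ℂ) • e)‖ := by
      rw [← e0]
      exact hgle 0
    have e1 : ‖g R‖ = ‖Q z‖ := by
      rw [hgdef]
      simp only
      rw [sub_self, zero_smul, add_zero, he'Q]
    rw [e1, hRn] at h2
    have hcm : m ≤ 1 - ‖g 0‖ := by
      have h3 : m ≤ 1 - ‖Q (z - (R : ℂ) • e)‖ := by
        apply hmq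
        · have := (hin 0 (by rw [norm_zero]; exact hRt)).1
          rwa [e0] at this
        · have := hnear 0 (by rw [norm_zero]; exact hRt)
          rw [e0] at this
          rw [mem_closedBall]
          linarith
        · exact (min_le_left _ _).trans hctr
      linarith
    have h3 : 1 - R / (R + t) = t / (R + t) := by
      field_simp
      ring
    have h4 : c₁ * δ z / (2 * R) ≤ t / (R + t) := by
      rw [div_le_div_iff₀ (by positivity) hRt]
      nlinarith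
    rw [h3] at h2
    have h5 : m * (c₁ * δ z / (2 * R)) ≤ (1 - ‖g 0‖) * (t / (R + t)) :=
      mul_le_mul hcm h4 (by positivity) (hm.le.trans hcm)
    have h6 : m * (c₁ * δ z / (2 * R)) / 2 ≤ 1 - ‖Q z‖ := by linarith
    have h7 : infDist z Dᶜ ≤ δ z / c' := by
      have hmem : z + (s : ℂ) • e ∈ Dᶜ := by
        rw [← hOm]
        exact hs2
      refine (infDist_le_dist_of_mem hmem).trans ?_
      rw [dist_eq_norm, sub_add_cancel_left, norm_neg, norm_smul, he, mul_one, Complex.norm_real,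
        Real.norm_eq_abs, abs_of_nonneg hs0]
      exact hs1
    have h8 : δ z / c' = 4 * R / (c' * m * c₁) * (m * (c₁ * δ z / (2 * R)) / 2) := by
      field_simp
      ring
    calc infDist z Dᶜ ≤ δ z / c' := h7
      _ = 4 * R / (c' * m * c₁) * (m * (c₁ * δ z / (2 * R)) / 2) := h8
      _ ≤ 4 * R / (c' * m * c₁) * (1 - ‖Q z‖) := mul_le_mul_of_nonneg_left h6 (by positivity)
      _ ≤ max 1 (max (L / m) (4 * R / (c' * m * c₁))) * (1 - ‖Q z‖) :=
          mul_le_mul_of_nonneg_right ((le_max_right _ _).trans (le_max_right _ _)) hQz.le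
  · have h2 : m ≤ 1 - ‖Q z‖ := by
      apply hmq z hzOm.1
      · rw [mem_closedBall]
        linarith
      · exact (min_le_right _ _).trans hge
    have h3 := (hL z hzD).2.2
    calc infDist z Dᶜ ≤ L := h3
      _ = L / m * m := by field_simp
      _ ≤ L / m * (1 - ‖Q z‖) := mul_le_mul_of_nonneg_left h2 (by positivity)
      _ ≤ max 1 (max (L / m) (4 * R / (c' * m * c₁))) * (1 - ‖Q z‖) :=
          mul_le_mul_of_nonneg_right ((le_max_left _ _).trans (le_max_right _ _)) hQz.le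

end Pool.Agent.MPca0fc2.GW
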