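import Pool.Agent.Lib.MP_ca0fc2_an.GW.I2
import Pool.Agent.Lib.MP_ca0fc2_an.FD.Q1
import Pool.Agent.Lib.MP_ca0fc2_an.Mg.G046
import Pool.Agent.Lib.MP_ca0fc2_an.Mg.G051

/-! The tangential derivative for holomorphic maps near a part of the boundary. -/

set_option autoImplicit false

open Metric Set MeasureTheory Filter Topology
open scoped InnerProductSpace

namespace Pool.Agent.MPca0fc2.GW

open Pool.Agent.MPca0fc2.FD
open Pool.Agent.Lib.MP_ca0fc2_an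

variable {n : ℕ}

/-- Taylor's formula on a closed ball. -/
private theorem I4_taylor {k : ℕ} {p : Ec n} {r s K₁ : ℝ} {Q : Ec n → Ec k}
    (hQ : DifferentiableOn ℂ Q (ball p r)) (hsr : s < r)
    (hK : ∀ z ∈ closedBall p s, ‖fderiv ℂ (fderiv ℂ Q) z‖ ≤ K₁) {z : Ec n}
    (hz : z ∈ closedBall p s) {Y : Ec n} (hY : z + Y ∈ closedBall p s) :
    ‖Q (z + Y) - Q z - fderiv ℂ Q z Y‖ ≤ K₁ * ‖Y‖ ^ 2 := by
  have hK0 : 0 ≤ K₁ := le_trans (norm_nonneg (fderiv ℂ (fderiv ℂ Q) z)) (hK z hz)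
  have hsub : closedBall p s ⊆ ball p r := closedBall_subset_ball hsr
  have hcv := convex_closedBall p s
  have hseg : segment ℝ z (z + Y) ⊆ closedBall p s := hcv.segment_subset hz hY
  have h1 : ∀ w ∈ segment ℝ z (z + Y), ‖fderiv ℂ Q w - fderiv ℂ Q z‖ ≤ K₁ * ‖Y‖ := by
    intro w hw
    have h2 : ∀ x ∈ closedBall p s, HasFDerivWithinAt (fderiv ℂ Q) (fderiv ℂ (fderiv ℂ Q) x)
        (closedBall p s) x := fun x hx =>
      ((hol_fderiv isOpen_ball hQ).differentiableAt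
        (isOpen_ball.mem_nhds (hsub hx))).hasFDerivAt.hasFDerivWithinAt
    have h3 := hcv.norm_image_sub_le_of_norm_hasFDerivWithin_le h2 hK hz (hseg hw)
    refine h3.trans (mul_le_mul_of_nonneg_left ?_ hK0)
    obtain ⟨t, ht, rfl⟩ : ∃ t ∈ Icc (0 : ℝ) 1, z + t • Y = w := by
      rw [segment_eq_image'] at hw
      obtain ⟨t, ht, h⟩ := hw
      refine ⟨t, ht, ?_⟩
      rw [← h, add_sub_cancel_left]
    rw [add_sub_cancel_left, norm_smul, Real.norm_eq_abs, abs_of_nonneg ht.1]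
    exact mul_le_of_le_one_left (norm_nonneg _) ht.2
  have h2 : ∀ w ∈ segment ℝ z (z + Y), HasFDerivWithinAt Q (fderiv ℂ Q w)
      (segment ℝ z (z + Y)) w := fun w hw =>
    (hQ.differentiableAt (isOpen_ball.mem_nhds (hsub (hseg hw)))).hasFDerivAt.hasFDerivWithinAt
  have h3 := (convex_segment z (z + Y)).norm_image_sub_le_of_norm_hasFDerivWithin_le' h2 h1
    (left_mem_segment ℝ z (z + Y)) (right_mem_segment ℝ z (z + Y))
  rw [add_sub_cancel_left] at h3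
  refine h3.trans (le_of_eq ?_)
  ring

/-- The tangential derivative.
PROOF. `sup_geo` (`FD/T1.lean`): `Geo U' (-ρ) h c₀ C₀`, `Om U' (-ρ) = D`. `Q` has bounded first and second derivatives on `ball p r''`, `r'' = (r + r') / 2` (compactness: `‖fderiv ℂ Q z‖ ≤ K₁` on `closedBall p r''`, and `‖fderiv ℂ Q z - fderiv ℂ Q y‖ ≤ K₁ ‖z - y‖` for `z, y` there; see `cauchy_bd` in `M3a.lean`). Let `q y = ⟪e, Q y⟫`, `t = 1 - ‖q z‖ > 0`, `‖X‖ ≤ 1`.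
If `t ≥ t₀` or `-ρ z ≥ t₀` (then `1 - ‖Q z‖ ≥ m > 0` by compactness, so `t ≥ m`) the estimate is trivial: `‖dq(z) X‖ ≤ K₁ ‖X‖ ≤ (K₁ / √t₀) √t ‖X‖`. Otherwise first let `∑ h_k(z, z) X_k = 0`, `‖X‖ = 1`. Let `z_t = z - t • nv h z` (`nv_prop`: inside the domain: `-ρ (z_t + Y) ≥ -ρ z + 2 t ‖nv‖² - K₀ ‖Y - t nv‖²` for tangential `Y`, by `δ_taylor` in `FD/Q1.lean`), so `z_t + lam ε √t X ∈ D ∩ ball p r''` for `|lam| < 1`,
for small `ε` and `t ≤ t₀`. The function `g lam = q (z_t + lam ε √t X)` is bounded by `1` on the disc, so `‖g' 0‖ ≤ 1 - ‖g 0‖² ≤ 2 (1 - ‖q (z_t)‖) ≤ 2 (t + K₁ ‖nv‖ t)` (Schwarz-Pick). So `‖dq(z_t) X‖ ≤ K √t` and `‖dq(z) X‖ ≤ K √t + K₁ ‖nv‖ t`. General `X`: `X = X' + X''` with `X'' = (∑ h_k(z, z) X_k / ‖nv h z‖²) • nv h z` (`‖nv h z‖ ≥ c₀`), `‖dq X''‖ ≤ (K₁ / c₀) ‖∑ h_k X_k‖`. -/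
theorem tan_loc (hn : 1 ≤ n) {D U : Set (Ec n)} {ρ : Ec n → ℝ} {h : Ec n → Ec n → Fin n → ℂ}
    {c : ℝ} (hs : SupportData D U ρ h c) {k : ℕ} {p : Ec n} {r r' : ℝ} (hr : r' < r)
    {Q : Ec n → Ec k} (hQ : DifferentiableOn ℂ Q (ball p r))
    (hQ1 : ∀ z ∈ D ∩ ball p r, ‖Q z‖ < 1) :
    ∃ K : ℝ, 1 ≤ K ∧ ∀ e : Ec k, ‖e‖ ≤ 1 → ∀ z ∈ D ∩ ball p r', ∀ X : Ec n,
      ‖⟪e, fderiv ℂ Q z X⟫_ℂ‖ ≤
        K * (‖∑ j, h z z j * X j‖ + Real.sqrt (1 - ‖⟪e, Q z⟫_ℂ‖) * ‖X‖) := by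
  obtain ⟨U', c₀, C, -, -, -, hg, hOm⟩ := sup_geo hs isOpen_univ (subset_univ _)
  set δ : Ec n → ℝ := fun z => -ρ z with hδdef
  have hc := hg.c0
  have hC : 0 < C := by linarith [hg.C1]
  -- the radius
  set s : ℝ := (r + r') / 2 with hs'
  have hsr : s < r := by rw [hs']; linarith
  have hrs : r' < s := by rw [hs']; linarith
  have hsub : closedBall p s ⊆ ball p r := closedBall_subset_ball hsr
  obtain ⟨K₁, hK₁⟩ := hol_d2_bound isOpen_ball hQ (isCompact_closedBall p s) hsub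
  obtain ⟨M, hMd⟩ : ∃ M : ℝ, M = max K₁ 1 := ⟨_, rfl⟩
  have hM1 : 1 ≤ M := by rw [hMd]; exact le_max_right _ _
  have hM0 : 0 < M := by linarith
  have hKM : K₁ ≤ M := by rw [hMd]; exact le_max_left _ _
  have hdQ : ∀ z ∈ closedBall p s, ∀ X : Ec n, ‖fderiv ℂ Q z X‖ ≤ M * ‖X‖ := fun z hz X =>
    ((fderiv ℂ Q z).le_opNorm X).trans
      (mul_le_mul_of_nonneg_right (((hK₁ z hz).2.1).trans hKM) (norm_nonneg _))
  have hd2 : ∀ z ∈ closedBall p s, ‖fderiv ℂ (fderiv ℂ Q) z‖ ≤ M := fun z hz =>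
    ((hK₁ z hz).2.2).trans hKM
  -- the interior part
  obtain ⟨m, hm, hmq⟩ : ∃ m : ℝ, 0 < m ∧ ∀ z ∈ D ∩ ball p r', c₀ ≤ δ z → m ≤ 1 - ‖Q z‖ := by
    set T : Set (Ec n) := ({z | z ∈ U' ∧ 0 ≤ δ z} ∩ δ ⁻¹' Ici c₀) ∩ closedBall p s with hT
    have hTc : IsCompact T := by
      have hcont : ContinuousOn δ {z | z ∈ U' ∧ 0 ≤ δ z} :=
        hg.dδ.continuousOn.mono fun z hz => hz.1
      have hcl : IsClosed ({z | z ∈ U' ∧ 0 ≤ δ z} ∩ δ ⁻¹' Ici c₀) :=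
        hcont.preimage_isClosed_of_isClosed hg.cpt.isClosed isClosed_Ici
      exact (hg.cpt.of_isClosed_subset hcl inter_subset_left).inter_right isClosed_closedBall
    have hmem : ∀ z ∈ D ∩ ball p r', c₀ ≤ δ z → z ∈ T := by
      intro z hz hcz
      have hz1 : z ∈ Om U' δ := by rw [hOm]; exact hz.1
      exact ⟨⟨⟨hz1.1, hz1.2.le⟩, hcz⟩, ball_subset_closedBall (ball_subset_ball hrs.le hz.2)⟩
    rcases T.eq_empty_or_nonempty with hemp | hne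
    · refine ⟨1, one_pos, fun z hz hcz => ?_⟩
      have := hmem z hz hcz
      rw [hemp] at this
      exact absurd this (notMem_empty z)
    · have hqc : ContinuousOn (fun z => ‖Q z‖) T :=
        (hQ.continuousOn.mono fun z hz => hsub hz.2).norm
      obtain ⟨z₀, hz₀, hmax⟩ := hTc.exists_isMaxOn hne hqc
      have hz₀D : z₀ ∈ D := by
        rw [← hOm]
        exact ⟨hz₀.1.1.1, lt_of_lt_of_le hc hz₀.1.2⟩
      have hz₀' : ‖Q z₀‖ < 1 := hQ1 z₀ ⟨hz₀D, hsub hz₀.2⟩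
      refine ⟨1 - ‖Q z₀‖, by linarith, fun z hz hcz => ?_⟩
      have h2 : ‖Q z‖ ≤ ‖Q z₀‖ := hmax (hmem z hz hcz)
      linarith
  obtain ⟨K, t₁, hK, ht₁, hcur⟩ := curve_in n c₀ C hc
  set N₀ : ℝ := Real.sqrt n * C with hN₀
  have hN₀0 : 0 ≤ N₀ := by positivity
  set L : ℝ := 1 + K * t₁ * N₀ with hL
  have hL0 : 0 < L := by positivity
  obtain ⟨η, hη⟩ : ∃ η : ℝ, η = s - r' := ⟨_, rfl⟩
  have hη0 : 0 < η := by rw [hη]; linarith
  obtain ⟨t₀, ht₀d⟩ : ∃ t₀ : ℝ, t₀ = min t₁ (η / L) := ⟨_, rfl⟩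
  have ht₀ : 0 < t₀ := by rw [ht₀d]; exact lt_min ht₁ (by positivity)
  have ht₀1 : t₀ ≤ t₁ := by rw [ht₀d]; exact min_le_left _ _
  have ht₀2 : t₀ * L ≤ η := by
    have : t₀ ≤ η / L := by rw [ht₀d]; exact min_le_right _ _
    rwa [le_div_iff₀ hL0] at this
  set C₂ : ℝ := M * L ^ 2 + K * (M * N₀) with hC₂
  have hC₂0 : 0 ≤ C₂ := by positivity
  set C₄ : ℝ := 1 / (2 * t₀) + C₂ * t₀ with hC₄
  have hC₄0 : 0 < C₄ := by positivity
  obtain ⟨μ, hμ⟩ : ∃ μ : ℝ, μ = Real.sqrt m := ⟨_, rfl⟩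
  have hμ0 : 0 < μ := by rw [hμ]; exact Real.sqrt_pos.2 hm
  refine ⟨4 * C₄ + 2 * C₄ / c₀ + M / c₀ + M / μ + 2 * M + 1, ?_, ?_⟩
  · have : 0 ≤ 4 * C₄ + 2 * C₄ / c₀ + M / c₀ + M / μ + 2 * M := by positivity
    linarith
  intro e he z hz X
  have hzs : z ∈ closedBall p s := ball_subset_closedBall (ball_subset_ball hrs.le hz.2)
  have hzOm : z ∈ Om U' δ := by rw [hOm]; exact hz.1
  have hinn : ∀ v : Ec k, ‖⟪e, v⟫_ℂ‖ ≤ ‖v‖ := fun v =>
    (norm_inner_le_norm e v).trans (mul_le_of_le_one_left (norm_nonneg _) he)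
  set qz : ℂ := ⟪e, Q z⟫_ℂ with hqzd
  have hQz : ‖Q z‖ < 1 := hQ1 z ⟨hz.1, hsub hzs⟩
  have hqz : ‖qz‖ < 1 := (hinn _).trans_lt hQz
  have hqz0 := norm_nonneg qz
  set dq : Ec n → ℂ := fun X => ⟪e, fderiv ℂ Q z X⟫_ℂ with hdqd
  have hdq : ∀ X : Ec n, ‖dq X‖ ≤ M * ‖X‖ := fun X => (hinn _).trans (hdQ z hzs X)
  have hdqadd : ∀ X Y : Ec n, dq (X + Y) = dq X + dq Y := by
    intro X Y
    simp only [hdqd, map_add, inner_add_right]
  have hdqsmul : ∀ (a : ℂ) (X : Ec n), dq (a • X) = a * dq X := by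
    intro a X
    simp only [hdqd, map_smul, inner_smul_right]
  set ψ : ℝ := 1 - ‖qz‖ ^ 2 with hψ
  have hqsq : ‖qz‖ ^ 2 < 1 := pow_lt_one₀ hqz0 hqz two_ne_zero
  have hψ0 : 0 < ψ := by rw [hψ]; linarith
  have hψ1 : ψ ≤ 1 := by rw [hψ]; linarith [sq_nonneg ‖qz‖]
  set φ : ℝ := 1 - ‖qz‖ with hφ
  have hφ0 : 0 < φ := by rw [hφ]; linarith
  have hφ1 : φ ≤ 1 := by rw [hφ]; linarith
  have hsφ0 : 0 < Real.sqrt φ := Real.sqrt_pos.2 hφ0
  have hsφ1 : Real.sqrt φ ≤ 1 := Real.sqrt_le_one.2 hφ1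
  have hψφ : Real.sqrt ψ ≤ 2 * Real.sqrt φ := by
    have h1 : ψ ≤ 2 ^ 2 * φ := by rw [hψ, hφ]; nlinarith
    have h2 : Real.sqrt (2 ^ 2 * φ) = 2 * Real.sqrt φ := by
      rw [Real.sqrt_mul (by norm_num), Real.sqrt_sq (by norm_num)]
    rw [← h2]
    exact Real.sqrt_le_sqrt h1
  set g : ℝ := ‖∑ k, h z z k * X k‖ with hgd
  have hg0 : 0 ≤ g := norm_nonneg _
  have hX0 := norm_nonneg X
  have hs0 : 0 < Real.sqrt ψ := Real.sqrt_pos.2 hψ0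
  have hs1 : Real.sqrt ψ ≤ 1 := Real.sqrt_le_one.2 hψ1
  have hp0 : 0 ≤ 2 * C₄ / c₀ := by positivity
  have hp1 : 0 ≤ M / c₀ := by positivity
  have hp2 : 0 ≤ M / μ := by positivity
  show ‖dq X‖ ≤ (4 * C₄ + 2 * C₄ / c₀ + M / c₀ + M / μ + 2 * M + 1) * (g + Real.sqrt φ * ‖X‖)
  -- it is enough to have one of the bounds
  have hfin : ∀ a b : ℝ, 0 ≤ a → 0 ≤ b →
      a ≤ 4 * C₄ + 2 * C₄ / c₀ + M / c₀ + M / μ + 2 * M + 1 →
      b ≤ 4 * C₄ + 2 * C₄ / c₀ + M / c₀ + M / μ + 2 * M + 1 →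
      ‖dq X‖ ≤ a * g + b * (Real.sqrt φ * ‖X‖) →
      ‖dq X‖ ≤ (4 * C₄ + 2 * C₄ / c₀ + M / c₀ + M / μ + 2 * M + 1) *
        (g + Real.sqrt φ * ‖X‖) := by
    intro a b _ _ ha hb h1
    have h2 : 0 ≤ Real.sqrt φ * ‖X‖ := by positivity
    calc ‖dq X‖ ≤ a * g + b * (Real.sqrt φ * ‖X‖) := h1
      _ ≤ (4 * C₄ + 2 * C₄ / c₀ + M / c₀ + M / μ + 2 * M + 1) * g +
          (4 * C₄ + 2 * C₄ / c₀ + M / c₀ + M / μ + 2 * M + 1) *
          (Real.sqrt φ * ‖X‖) := by gcongr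
      _ = _ := by ring
  rcases le_or_gt c₀ (δ z) with hδc | hδc
  · -- far from the boundary
    refine hfin 0 (M / μ) le_rfl hp2 (by positivity) (by linarith) ?_
    have h2 : m ≤ φ := by
      have h3 := hmq z hz hδc
      have h4 : ‖qz‖ ≤ ‖Q z‖ := hinn _
      rw [hφ]; linarith
    have h5 : μ ≤ Real.sqrt φ := by rw [hμ]; exact Real.sqrt_le_sqrt h2
    have h6 := hdq X
    calc ‖dq X‖ ≤ M * ‖X‖ := h6
      _ = M / μ * (μ * ‖X‖) := by field_simp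
      _ ≤ M / μ * (Real.sqrt φ * ‖X‖) := by gcongr
      _ = 0 * g + M / μ * (Real.sqrt φ * ‖X‖) := by ring
  rcases le_or_gt ‖qz‖ (1 / 2) with hq2 | hq2
  · refine hfin 0 (2 * M) le_rfl (by linarith) (by positivity) (by linarith) ?_
    have h5 : 1 / 2 ≤ Real.sqrt φ := by
      refine Real.le_sqrt_of_sq_le ?_
      rw [hφ]; norm_num; linarith
    have h6 := hdq X
    calc ‖dq X‖ ≤ M * ‖X‖ := h6
      _ = 2 * M * (1 / 2 * ‖X‖) := by ring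
      _ ≤ 2 * M * (Real.sqrt φ * ‖X‖) := by gcongr
      _ = 0 * g + 2 * M * (Real.sqrt φ * ‖X‖) := by ring
  -- STEP 1
  have hnv : ‖nv h z‖ ≤ N₀ := by
    refine (nv_prop h z).2.2.trans ?_
    rw [hN₀]
    gcongr
    exact hg.bh z hzOm.1 z hzOm.1
  have step : ∀ Z : Ec n, ∑ k, h z z k * Z k = 0 → ‖Z‖ ≤ 1 →
      ((starRingEnd ℂ) qz * dq Z).re ≤ C₄ * Real.sqrt ψ := by
    intro Z hZ hZ1
    set t : ℝ := t₀ * Real.sqrt ψ with ht
    have ht0 : 0 < t := by positivity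
    have htt : t ≤ t₀ := mul_le_of_le_one_right ht₀.le hs1
    have htt1 : t ≤ t₁ := htt.trans ht₀1
    have hY := hcur U' δ h hg z hzOm hδc Z hZ hZ1 t (by rw [abs_of_pos ht0]; exact htt1)
    set Y : Ec n := (t : ℂ) • Z - ((K * t ^ 2 : ℝ) : ℂ) • nv h z with hYd
    have hYn : ‖Y‖ ≤ t * L := by
      rw [hYd]
      refine (norm_sub_le _ _).trans ?_
      rw [norm_smul, norm_smul, Complex.norm_real, Complex.norm_real,
        Real.norm_of_nonneg ht0.le, Real.norm_of_nonneg (by positivity)]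
      have h2 : t ^ 2 ≤ t * t₁ := by rw [sq]; exact mul_le_mul_of_nonneg_left htt1 ht0.le
      calc t * ‖Z‖ + K * t ^ 2 * ‖nv h z‖ ≤ t * 1 + K * (t * t₁) * N₀ := by
            gcongr
        _ = t * L := by rw [hL]; ring
    have hYη : ‖Y‖ ≤ η := hYn.trans ((mul_le_mul_of_nonneg_right htt hL0.le).trans ht₀2)
    have hYs : z + Y ∈ closedBall p s := by
      rw [mem_closedBall, dist_eq_norm]
      have h3 : ‖z - p‖ < r' := by
        have := hz.2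
        rwa [mem_ball, dist_eq_norm] at this
      have h4 : z + Y - p = (z - p) + Y := by abel
      rw [h4]
      refine (norm_add_le _ _).trans ?_
      rw [hη] at hYη
      linarith
    have h1 := I4_taylor hQ hsr hd2 hzs hYs
    have h1' : ‖⟪e, Q (z + Y)⟫_ℂ - qz - dq Y‖ ≤ M * ‖Y‖ ^ 2 := by
      have e1 : ⟪e, Q (z + Y)⟫_ℂ - qz - dq Y = ⟪e, Q (z + Y) - Q z - fderiv ℂ Q z Y⟫_ℂ := by
        rw [inner_sub_right, inner_sub_right]
      rw [e1]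
      exact (hinn _).trans h1
    have h2 : dq Y = (t : ℂ) * dq Z - ((K * t ^ 2 : ℝ) : ℂ) * dq (nv h z) := by
      rw [hYd, sub_eq_add_neg, ← neg_smul, hdqadd, hdqsmul, hdqsmul]
      ring
    set w : ℂ := dq Z with hw
    set q' : ℂ := ⟪e, Q (z + Y)⟫_ℂ with hq'
    set E : ℂ := q' - qz - (t : ℂ) * w with hE
    have hEn : ‖E‖ ≤ C₂ * t ^ 2 := by
      have h3 : E = (q' - qz - dq Y) - ((K * t ^ 2 : ℝ) : ℂ) * dq (nv h z) := by
        rw [hE, h2]; ring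
      rw [h3]
      refine (norm_sub_le _ _).trans ?_
      rw [norm_mul, Complex.norm_real, Real.norm_of_nonneg (by positivity : 0 ≤ K * t ^ 2)]
      have h4 : ‖dq (nv h z)‖ ≤ M * N₀ := (hdq _).trans (by gcongr)
      calc ‖q' - qz - dq Y‖ + K * t ^ 2 * ‖dq (nv h z)‖
          ≤ M * (t * L) ^ 2 + K * t ^ 2 * (M * N₀) := by
            gcongr
            exact h1'.trans (by gcongr)
        _ = C₂ * t ^ 2 := by rw [hC₂]; ring
    have hlt : ‖q'‖ < 1 := by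
      refine (hinn _).trans_lt (hQ1 _ ⟨?_, hsub hYs⟩)
      rw [← hOm]
      exact hY
    have h5 : q' = qz + ((t : ℂ) * w + E) := by rw [hE]; ring
    have h6 : ‖qz + ((t : ℂ) * w + E)‖ ^ 2 = ‖qz‖ ^ 2 +
        2 * ((starRingEnd ℂ) qz * ((t : ℂ) * w + E)).re + ‖(t : ℂ) * w + E‖ ^ 2 := by
      rw [← Complex.normSq_eq_norm_sq, ← Complex.normSq_eq_norm_sq,
        ← Complex.normSq_eq_norm_sq, Complex.normSq_add]
      have : (qz * (starRingEnd ℂ) ((t : ℂ) * w + E)).re =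
          ((starRingEnd ℂ) qz * ((t : ℂ) * w + E)).re := by
        simp only [Complex.mul_re, Complex.conj_re, Complex.conj_im]
        ring
      rw [this]; ring
    have h7 : ((starRingEnd ℂ) qz * ((t : ℂ) * w + E)).re =
        t * ((starRingEnd ℂ) qz * w).re + ((starRingEnd ℂ) qz * E).re := by
      have : (starRingEnd ℂ) qz * ((t : ℂ) * w + E) =
          (t : ℂ) * ((starRingEnd ℂ) qz * w) + (starRingEnd ℂ) qz * E := by ring
      rw [this, Complex.add_re, Complex.re_ofReal_mul]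
    have h8 : -(C₂ * t ^ 2) ≤ ((starRingEnd ℂ) qz * E).re := by
      have h9 : ‖(starRingEnd ℂ) qz * E‖ ≤ C₂ * t ^ 2 := by
        rw [norm_mul, RCLike.norm_conj]
        calc ‖qz‖ * ‖E‖ ≤ 1 * (C₂ * t ^ 2) :=
              mul_le_mul hqz.le hEn (norm_nonneg _) zero_le_one
          _ = C₂ * t ^ 2 := one_mul _
      have := Complex.abs_re_le_norm ((starRingEnd ℂ) qz * E)
      linarith [neg_abs_le ((starRingEnd ℂ) qz * E).re]
    have h10 : ‖q'‖ ^ 2 < 1 := pow_lt_one₀ (norm_nonneg _) hlt two_ne_zero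
    rw [h5, h6, h7] at h10
    have h11 : 0 ≤ ‖(t : ℂ) * w + E‖ ^ 2 := sq_nonneg _
    have h12 : 2 * t * ((starRingEnd ℂ) qz * w).re ≤ ψ + 2 * C₂ * t ^ 2 := by
      rw [hψ]; linarith
    have h14 : ((starRingEnd ℂ) qz * w).re ≤ (ψ + 2 * C₂ * t ^ 2) / (2 * t) := by
      rw [le_div_iff₀ (by positivity)]; linarith
    refine h14.trans (le_of_eq ?_)
    rw [div_eq_iff (by positivity), hC₄, ht]
    have h15 : (Real.sqrt ψ) ^ 2 = ψ := Real.sq_sqrt hψ0.le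
    field_simp
    linear_combination (-1 : ℝ) * h15
  have step2 : ∀ Z : Ec n, ∑ k, h z z k * Z k = 0 →
      ‖dq Z‖ ≤ 2 * C₄ * Real.sqrt ψ * ‖Z‖ := by
    intro Z hZ
    rcases eq_or_ne Z 0 with h0 | h0
    · rw [h0]
      have := hdq 0
      rw [norm_zero, mul_zero] at this
      rw [norm_zero, mul_zero]
      exact this
    have hZ0 : 0 < ‖Z‖ := norm_pos_iff.2 h0
    obtain ⟨lam, hl1, hl2⟩ := RCLike.exists_norm_eq_mul_self ((starRingEnd ℂ) qz * dq Z)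
    have h1 := step (((lam * ((‖Z‖⁻¹ : ℝ) : ℂ)) : ℂ) • Z) (by
      have h2 : ∀ k, h z z k * ((lam * ((‖Z‖⁻¹ : ℝ) : ℂ)) • Z) k =
          (lam * ((‖Z‖⁻¹ : ℝ) : ℂ)) * (h z z k * Z k) := by
        intro k
        simp only [PiLp.smul_apply, smul_eq_mul]
        ring
      simp only [h2]
      rw [← Finset.mul_sum, hZ, mul_zero]) (by
      rw [norm_smul, norm_mul, hl1, Complex.norm_real, Real.norm_of_nonneg (by positivity)]
      rw [one_mul, inv_mul_cancel₀ hZ0.ne'])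
    rw [hdqsmul] at h1
    have h3 : (starRingEnd ℂ) qz * (lam * ((‖Z‖⁻¹ : ℝ) : ℂ) * dq Z) =
        ((‖Z‖⁻¹ : ℝ) : ℂ) * (lam * ((starRingEnd ℂ) qz * dq Z)) := by ring
    rw [h3, ← hl2, Complex.re_ofReal_mul] at h1
    have h4 : (((‖(starRingEnd ℂ) qz * dq Z‖ : ℝ) : ℂ)).re = ‖qz‖ * ‖dq Z‖ := by
      rw [Complex.ofReal_re, norm_mul, RCLike.norm_conj]
    have h5 : ‖Z‖⁻¹ * (‖qz‖ * ‖dq Z‖) ≤ C₄ * Real.sqrt ψ := by
      rw [← h4]; exact h1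
    rw [inv_mul_le_iff₀ hZ0] at h5
    have h6 := norm_nonneg (dq Z)
    have h7 : 1 / 2 * ‖dq Z‖ ≤ ‖qz‖ * ‖dq Z‖ := mul_le_mul_of_nonneg_right hq2.le h6
    linarith
  -- STEP 2
  have hnd := hg.nd z hzOm.1 hzOm.2 hδc
  obtain ⟨k', hk⟩ : ∃ k', c₀ ≤ ‖h z z k'‖ := by
    by_contra hcon
    push Not at hcon
    have := (pi_norm_lt_iff hc).2 hcon
    linarith
  have hk0 : h z z k' ≠ 0 := fun h0 => by rw [h0, norm_zero] at hk; linarith
  set X2 : Ec n := ((∑ k, h z z k * X k) / h z z k') • ee k' with hX2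
  have hX2n : ‖X2‖ ≤ g / c₀ := by
    rw [hX2, norm_smul, norm_div]
    have : ‖(ee k' : Ec n)‖ = 1 := by simp [ee]
    rw [this, mul_one]
    gcongr
  have hgX1 : ∑ j, h z z j * (X - X2) j = 0 := by
    have h1 : ∀ j, h z z j * (X - X2) j = h z z j * X j -
        ((∑ k, h z z k * X k) / h z z k') * (h z z j * (ee k' : Ec n) j) := by
      intro j
      rw [hX2]
      simp only [PiLp.sub_apply, PiLp.smul_apply, smul_eq_mul]
      ring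
    simp only [h1]
    rw [Finset.sum_sub_distrib, ← Finset.mul_sum]
    have h2 : ∑ j, h z z j * (ee k' : Ec n) j = h z z k' := by
      simp [ee]
    rw [h2, div_mul_cancel₀ _ hk0, sub_self]
  have h1 := step2 (X - X2) hgX1
  have h2 := hdq X2
  have h3 : dq X = dq (X - X2) + dq X2 := by
    rw [← hdqadd, sub_add_cancel]
  refine hfin (2 * C₄ / c₀ + M / c₀) (4 * C₄) (by positivity) (by positivity)
    (by linarith) (by linarith) ?_
  have h4 : ‖X - X2‖ ≤ ‖X‖ + g / c₀ := (norm_sub_le _ _).trans (by linarith)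
  have h5 : 0 ≤ g / c₀ := by positivity
  calc ‖dq X‖ ≤ ‖dq (X - X2)‖ + ‖dq X2‖ := by
        rw [h3]; exact norm_add_le _ _
    _ ≤ 2 * C₄ * Real.sqrt ψ * (‖X‖ + g / c₀) + M * (g / c₀) := by
        refine add_le_add (h1.trans (by gcongr)) (h2.trans (by gcongr))
    _ ≤ 2 * C₄ * 1 * (g / c₀) + M * (g / c₀) + 2 * C₄ * ((2 * Real.sqrt φ) * ‖X‖) := by
        have e1 : 2 * C₄ * Real.sqrt ψ * (g / c₀) ≤ 2 * C₄ * 1 * (g / c₀) := by gcongr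
        have e2 : 2 * C₄ * (Real.sqrt ψ * ‖X‖) ≤ 2 * C₄ * ((2 * Real.sqrt φ) * ‖X‖) := by gcongr
        linarith
    _ = (2 * C₄ / c₀ + M / c₀) * g + 4 * C₄ * (Real.sqrt φ * ‖X‖) := by ring

end Pool.Agent.MPca0fc2.GW
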