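import Pool.Agent.Lib.MP_ca0fc2_an.GW.I1
import Pool.Agent.Lib.MP_ca0fc2_an.GW.I3
import Pool.Agent.Lib.MP_ca0fc2_an.GW.I4
import Pool.Agent.Lib.MP_ca0fc2_an.Mg.G024

/-! Compositions are in the Carleson class. -/

set_option autoImplicit false

open Metric Set MeasureTheory Filter Topology
open scoped InnerProductSpace ENNReal

namespace Pool.Agent.MPca0fc2.GW

open Pool.Agent.MPca0fc2.FD
open Pool.Agent.Lib.MP_ca0fc2_an

variable {n : ℕ}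

private theorem I6_cau {V : Type*} [NormedAddCommGroup V] [NormedSpace ℂ V] {F : Ec n → V}
    {p : Ec n} {r η K : ℝ} (hη : 0 < η) (hF : DifferentiableOn ℂ F (ball p (r + η)))
    (hK : ∀ z ∈ ball p (r + η), ‖F z‖ ≤ K) (hK0 : 0 ≤ K) :
    ∀ z ∈ ball p r, ‖fderiv ℂ F z‖ ≤ K / η := by
  intro z hz
  have hz' : ‖z - p‖ < r := by rwa [mem_ball, dist_eq_norm] at hz
  refine ContinuousLinearMap.opNorm_le_bound _ (by positivity) fun X => ?_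
  by_cases hX : X = 0
  · subst hX
    simp
  have hXn : 0 < ‖X‖ := norm_pos_iff.2 hX
  have hr : 0 < η / ‖X‖ := by positivity
  have hin : ∀ l : ℂ, ‖l‖ ≤ η / ‖X‖ → z + l • X ∈ ball p (r + η) := by
    intro l hl
    have hl' : ‖l‖ * ‖X‖ ≤ η := by rwa [le_div_iff₀ hXn] at hl
    rw [mem_ball, dist_eq_norm, show z + l • X - p = (z - p) + l • X by abel]
    refine (norm_add_le _ _).trans_lt ?_
    rw [norm_smul]
    linarith
  have hd : ∀ l : ℂ, ‖l‖ ≤ η / ‖X‖ → DifferentiableAt ℂ (fun l : ℂ => F (z + l • X)) l := by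
    intro l hl
    have h1 : DifferentiableAt ℂ F (z + l • X) :=
      hF.differentiableAt (isOpen_ball.mem_nhds (hin l hl))
    have h2 : DifferentiableAt ℂ (fun l : ℂ => z + l • X) l :=
      (differentiableAt_id.smul_const X).const_add z
    exact h1.comp l h2
  have hdc : DiffContOnCl ℂ (fun l : ℂ => F (z + l • X)) (ball 0 (η / ‖X‖)) := by
    apply DifferentiableOn.diffContOnCl
    rw [closure_ball _ hr.ne']
    intro l hl
    exact (hd l (by simpa using hl)).differentiableWithinAt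
  have hcau := Complex.norm_deriv_le_of_forall_mem_sphere_norm_le hr hdc (C := K) (by
    intro l hl
    exact hK _ (hin l (by simpa using (mem_sphere_zero_iff_norm.1 hl).le)))
  have hder : deriv (fun l : ℂ => F (z + l • X)) 0 = fderiv ℂ F z X := by
    have h1 : HasFDerivAt F (fderiv ℂ F z) (z + (0 : ℂ) • X) := by
      rw [zero_smul, add_zero]
      have h0 := hin 0 (by rw [norm_zero]; exact hr.le)
      rw [zero_smul, add_zero] at h0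
      exact (hF.differentiableAt (isOpen_ball.mem_nhds h0)).hasFDerivAt
    have h2 : HasDerivAt (fun l : ℂ => z + l • X) X 0 := by
      simpa using ((hasDerivAt_id (0 : ℂ)).smul_const X).const_add z
    exact (h1.comp_hasDerivAt (0 : ℂ) h2).deriv
  rw [hder] at hcau
  refine hcau.trans (le_of_eq ?_)
  field_simp

private theorem I6_bd {k : ℕ} {p : Ec n} {r r' : ℝ} (hr : r' < r)
    {Q : Ec n → Ec k} (hQ : DifferentiableOn ℂ Q (ball p r)) :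
    ∃ K : ℝ, 0 ≤ K ∧ ∀ z ∈ ball p r', ‖Q z‖ ≤ K ∧ ‖fderiv ℂ Q z‖ ≤ K := by
  have hη : 0 < (r - r') / 2 := by linarith
  have hsub : closedBall p (r' + (r - r') / 2) ⊆ ball p r := by
    apply closedBall_subset_ball
    linarith
  obtain ⟨M, hM⟩ := (isCompact_closedBall p (r' + (r - r') / 2)).exists_bound_of_continuousOn
    (hQ.continuousOn.mono hsub)
  have hc := I6_cau (p := p) (r := r') (K := |M|) hη
    (hQ.mono (ball_subset_closedBall.trans hsub))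
    (fun z hz => (hM z (ball_subset_closedBall hz)).trans (le_abs_self _)) (abs_nonneg _)
  have h0 : 0 ≤ |M| / ((r - r') / 2) := by positivity
  refine ⟨|M| + |M| / ((r - r') / 2), by positivity, fun z hz => ⟨?_, ?_⟩⟩
  · have h1 : ‖Q z‖ ≤ |M| := (hM z (mem_closedBall.2 (by
      have := mem_ball.1 hz
      linarith))).trans (le_abs_self _)
    linarith
  · have h1 := hc z hz
    have h2 := abs_nonneg M
    linarith

/-- The Bergman length of the image of a disc.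
PROOF. `BB w Y ^ 2 = ‖Y‖² / (1 - ‖w‖²) + |⟨w, Y⟩|² / (1 - ‖w‖²)²` (`CPDefs.lean`), with `w = Q x`, `Y = fderiv ℂ Q x X`, `X = φ' (0)`, `x = φ 0`, `d = infDist x Dᶜ`. `disc_kob` and `rho_le_dist`: `‖∑ h_k(x, x) X_k‖ ≤ |ρ x| ≤ L d`, `‖X‖² ≤ L d / c`. `‖Y‖ ≤ K₁ ‖X‖`. `tan_loc` with `e = Q x` (`⟪Q x, Q x⟫ = ‖Q x‖²`): `|⟨Q x, Y⟩| ≤ K (L d + √(1 - ‖Q x‖²) √(L d / c))`, and
`d ≤ K (1 - ‖Q x‖) ≤ K (1 - ‖Q x‖²)` (`hopf_loc`), `d ≤ √d √(K (1 - ‖Q x‖²))`. -/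
theorem bb_disc (hn : 1 ≤ n) {D U : Set (Ec n)} {ρ : Ec n → ℝ} {h : Ec n → Ec n → Fin n → ℂ}
    {c : ℝ} (hs : SupportData D U ρ h c) {k : ℕ} {p : Ec n} {r r' : ℝ} (hr : r' < r)
    {Q : Ec n → Ec k} (hQ : DifferentiableOn ℂ Q (ball p r))
    (hQ1 : ∀ z ∈ D ∩ ball p r, ‖Q z‖ < 1) :
    ∃ K : ℝ, 1 ≤ K ∧ ∀ φ : ℂ → Ec n, DifferentiableOn ℂ φ (ball 0 1) →
      (∀ x ∈ ball (0 : ℂ) 1, φ x ∈ D ∩ ball p r') →
      CP.BB (Q (φ 0)) (fderiv ℂ Q (φ 0) (deriv φ 0)) ^ 2 ≤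
        K * (infDist (φ 0) Dᶜ / (1 - ‖Q (φ 0)‖ ^ 2)) := by
  obtain ⟨L, hL1, hL⟩ := rho_le_dist hn hs
  obtain ⟨K₀, hK0, hhopf⟩ := hopf_loc hn hs hr hQ hQ1
  obtain ⟨K₂, hK2, htan⟩ := tan_loc hn hs hr hQ hQ1
  obtain ⟨K₁, hK1, hbd⟩ := I6_bd hr hQ
  have hc := hs.c0
  have hc' : 0 ≤ K₁ ^ 2 * (L / c) + 2 * K₂ ^ 2 * (L ^ 2 * K₀ + L / c) := by positivity
  refine ⟨1 + (K₁ ^ 2 * (L / c) + 2 * K₂ ^ 2 * (L ^ 2 * K₀ + L / c)), by linarith,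
    fun φ hφ hφD => ?_⟩
  have h0 := hφD 0 (mem_ball_self one_pos)
  obtain ⟨hk1, hk2⟩ := disc_kob hs hφ fun x hx => (hφD x hx).1
  obtain ⟨hρ, hd0, -⟩ := hL (φ 0) h0.1
  have hh := hhopf (φ 0) h0
  have hQx := hQ1 (φ 0) ⟨h0.1, ball_subset_ball hr.le h0.2⟩
  have ht := htan (Q (φ 0)) hQx.le (φ 0) h0 (deriv φ 0)
  have hb := (hbd (φ 0) h0.2).2
  have hY : ‖fderiv ℂ Q (φ 0) (deriv φ 0)‖ ≤ K₁ * ‖deriv φ 0‖ :=
    (ContinuousLinearMap.le_opNorm _ _).trans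
      (mul_le_mul_of_nonneg_right hb (norm_nonneg _))
  have hin : ‖⟪Q (φ 0), Q (φ 0)⟫_ℂ‖ = ‖Q (φ 0)‖ ^ 2 := by
    rw [inner_self_eq_norm_sq_to_K, norm_pow]
    simp
  rw [hin] at ht
  obtain ⟨s, hsd⟩ : ∃ s, s = 1 - ‖Q (φ 0)‖ ^ 2 := ⟨_, rfl⟩
  obtain ⟨d, hdd⟩ : ∃ d, d = infDist (φ 0) Dᶜ := ⟨_, rfl⟩
  have hs0 : 0 < s := by rw [hsd]; nlinarith [norm_nonneg (Q (φ 0))]
  have hds : d ≤ K₀ * s := by
    rw [hdd, hsd]
    refine hh.trans (mul_le_mul_of_nonneg_left ?_ (by linarith))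
    nlinarith [norm_nonneg (Q (φ 0))]
  rw [← hsd] at ht
  rw [CP.BB_sq hQx, ← hsd, ← hdd]
  rw [← hdd] at hρ hd0
  have hX : ‖deriv φ 0‖ ^ 2 ≤ L / c * d := by
    rw [div_mul_eq_mul_div, le_div_iff₀ hc]
    linarith
  have hY2 : ‖fderiv ℂ Q (φ 0) (deriv φ 0)‖ ^ 2 ≤ K₁ ^ 2 * (L / c) * d := by
    calc ‖fderiv ℂ Q (φ 0) (deriv φ 0)‖ ^ 2 ≤ (K₁ * ‖deriv φ 0‖) ^ 2 :=
          pow_le_pow_left₀ (norm_nonneg _) hY 2
      _ = K₁ ^ 2 * ‖deriv φ 0‖ ^ 2 := by ring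
      _ ≤ K₁ ^ 2 * (L / c * d) := by gcongr
      _ = _ := by ring
  have ht1 : ‖⟪Q (φ 0), fderiv ℂ Q (φ 0) (deriv φ 0)⟫_ℂ‖ ≤
      K₂ * (L * d + Real.sqrt s * ‖deriv φ 0‖) := by
    refine ht.trans (mul_le_mul_of_nonneg_left ?_ (by linarith))
    linarith
  have hd2 : (L * d) ^ 2 ≤ L ^ 2 * K₀ * s * d := by
    have e1 : d * d ≤ K₀ * s * d := mul_le_mul_of_nonneg_right hds hd0.le
    have e2 : L ^ 2 * (d * d) ≤ L ^ 2 * (K₀ * s * d) := mul_le_mul_of_nonneg_left e1 (by positivity)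
    nlinarith
  have hX2 : (Real.sqrt s * ‖deriv φ 0‖) ^ 2 ≤ L / c * s * d := by
    rw [mul_pow, Real.sq_sqrt hs0.le]
    have e2 : s * ‖deriv φ 0‖ ^ 2 ≤ s * (L / c * d) := mul_le_mul_of_nonneg_left hX hs0.le
    linarith
  have ht2 : ‖⟪Q (φ 0), fderiv ℂ Q (φ 0) (deriv φ 0)⟫_ℂ‖ ^ 2 ≤
      2 * K₂ ^ 2 * (L ^ 2 * K₀ + L / c) * (s * d) := by
    calc ‖⟪Q (φ 0), fderiv ℂ Q (φ 0) (deriv φ 0)⟫_ℂ‖ ^ 2
        ≤ (K₂ * (L * d + Real.sqrt s * ‖deriv φ 0‖)) ^ 2 :=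
          pow_le_pow_left₀ (norm_nonneg _) ht1 2
      _ = K₂ ^ 2 * (L * d + Real.sqrt s * ‖deriv φ 0‖) ^ 2 := by ring
      _ ≤ K₂ ^ 2 * (2 * ((L * d) ^ 2 + (Real.sqrt s * ‖deriv φ 0‖) ^ 2)) := by
          refine mul_le_mul_of_nonneg_left ?_ (by positivity)
          nlinarith [sq_nonneg (L * d - Real.sqrt s * ‖deriv φ 0‖)]
      _ ≤ K₂ ^ 2 * (2 * (L ^ 2 * K₀ * s * d + L / c * s * d)) := by gcongr
      _ = _ := by ring
  have e1 : ‖fderiv ℂ Q (φ 0) (deriv φ 0)‖ ^ 2 / s ≤ K₁ ^ 2 * (L / c) * (d / s) := by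
    rw [← mul_div_assoc]
    exact div_le_div_of_nonneg_right hY2 hs0.le
  have e2 : ‖⟪Q (φ 0), fderiv ℂ Q (φ 0) (deriv φ 0)⟫_ℂ‖ ^ 2 / s ^ 2 ≤
      2 * K₂ ^ 2 * (L ^ 2 * K₀ + L / c) * (d / s) := by
    calc ‖⟪Q (φ 0), fderiv ℂ Q (φ 0) (deriv φ 0)⟫_ℂ‖ ^ 2 / s ^ 2
        ≤ 2 * K₂ ^ 2 * (L ^ 2 * K₀ + L / c) * (s * d) / s ^ 2 :=
          div_le_div_of_nonneg_right ht2 (by positivity)
      _ = _ := by field_simp
  have hds0 : 0 ≤ d / s := by positivity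
  nlinarith

/-- Compositions are in the Carleson class.
PROOF. `comp_cg`: `CarlesonGradient q A g` with a measure `ν`, `‖g‖ ≤ M`; `disc_measure`: `a i`, `w i`, `C`. If `r' ≤ 0` then `ball p r'` is empty and everything is trivial (take `V i = 1`, `N i = 1`, `w i = 0`). The family: `V i z = 1 - ⟪a i, Q z⟫`, `N i = 1 - ‖a i‖²`, masses `w' i = K' w i` with a large constant `K'`. `V i` is holomorphic on `ball p r'` and bounded by `1 + sup ‖Q‖` there (compact closed ball of radius `r'` in `ball p r`).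
`re`: `Re V i ≥ 1 - ‖a i‖ ‖Q z‖ ≥ max (1 - ‖a i‖) (1 - ‖Q z‖)`, `N i ≤ 2 (1 - ‖a i‖)`, `infDist ≤ K (1 - ‖Q z‖)` (`hopf_loc`). `carl`: `w' i N i d / |V i|² ≤ K' K w i (1 - ‖a i‖²) (1 - ‖Q z‖²) / |1 - ⟪Q z, a i⟫|² = K' K w i invKer (Q z) (a i)`. The gradient: `X = deriv φ 0`, `deriv (fun x => u (φ x)) 0 = fderiv ℂ g (Q x) (fderiv ℂ Q x X)` (chain rule, near `0`),
`‖..‖ ^ 2 ≤ invGrad2 g (Q x) * BB ^ 2` (`CP.BB_IG`), so with `τ = d / (1 - ‖Q x‖²) ≤ K` (`bb_disc`): `‖..‖ ^ q ≤ invGrad2 ^ (q / 2) (K τ) ^ (q / 2) ≤ K'' τ ^ (1/4) ∫ invKer (Q x) ξ ^ 2 dν ≤ K'' τ ^ (1/4) ∑' w i invKer (Q x) (a i) ^ 2`, and each term is at most `w' i N i ^ 2 d ^ (1/4) / |V i| ^ (9/4)`, as `(1 - ‖Q x‖²) ^ (7/4) ≤ (2 |V i|) ^ (7/4)`. The sum on the right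
is summable: `N i ≤ K |V i|`, so the terms are at most `K (w' i N i d / |V i|²) d ^ (-3/4) |V i| ^ (3/4)`, and the sums of `w' i N i d / |V i|²` are bounded. -/
theorem comp_carl (hn : 1 ≤ n) {D U : Set (Ec n)} {ρ : Ec n → ℝ} {h : Ec n → Ec n → Fin n → ℂ}
    {c : ℝ} (hs : SupportData D U ρ h c) {p : Ec n} {r r' : ℝ} (hr : r' < r) {u : Ec n → ℂ}
    (hu : u ∈ CompOn D (ball p r)) : u ∈ CarlOn D (ball p r') := by
  obtain ⟨k, Q, g, K, pp, hpp, hQ, hQ1, hg, hug⟩ := hu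
  obtain ⟨q, A, M, hq, hgd, hgM, ν, hν1, hν2⟩ := comp_cg hpp hg
  obtain ⟨a, w, C, haw, hC1, hC2⟩ := disc_measure ν hν1
  obtain ⟨K₀, hK0, hhopf⟩ := hopf_loc hn hs hr hQ hQ1
  obtain ⟨K₃, hK3, hbb⟩ := bb_disc hn hs hr hQ hQ1
  obtain ⟨K₁, hK1, hbd⟩ := I6_bd hr hQ
  obtain ⟨L, hL1, hL⟩ := rho_le_dist hn hs
  have hsub : D ∩ ball p r' ⊆ D ∩ ball p r := inter_subset_inter_right _ (ball_subset_ball hr.le)
  have hmaps : ∀ z ∈ D ∩ ball p r', Q z ∈ ball (0 : Ec k) 1 := fun z hz =>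
    mem_ball_zero_iff.2 (hQ1 z (hsub hz))
  -- the constants
  obtain ⟨K', hK'⟩ : ∃ K', K' = K₃ ^ (q / 2) * K₀ ^ (q / 2) * 4 := ⟨_, rfl⟩
  have hK'0 : 0 ≤ K' := by rw [hK']; positivity
  have hC0 : 0 ≤ |C| := abs_nonneg _
  -- facts about `V i z`
  have hVre : ∀ i, ∀ z, ‖Q z‖ < 1 → 1 - ‖a i‖ ≤ (1 - ⟪a i, Q z⟫_ℂ).re ∧
      1 - ‖Q z‖ ≤ (1 - ⟪a i, Q z⟫_ℂ).re := by
    intro i z hz
    have h1 : (⟪a i, Q z⟫_ℂ).re ≤ ‖a i‖ * ‖Q z‖ :=
      (Complex.re_le_norm _).trans (norm_inner_le_norm _ _)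
    have h2 := (haw i).1
    have h3 := norm_nonneg (a i)
    have h4 := norm_nonneg (Q z)
    rw [Complex.sub_re, Complex.one_re]
    constructor <;> nlinarith
  have hVn : ∀ i, ∀ z, (1 - ⟪a i, Q z⟫_ℂ).re ≤ ‖1 - ⟪a i, Q z⟫_ℂ‖ := fun i z =>
    Complex.re_le_norm _
  have hcon : ∀ i, ∀ z, ‖1 - ⟪Q z, a i⟫_ℂ‖ = ‖1 - ⟪a i, Q z⟫_ℂ‖ := by
    intro i z
    rw [← inner_conj_symm (Q z) (a i), ← RCLike.norm_conj (1 - ⟪a i, Q z⟫_ℂ), map_sub, map_one]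
  have hker : ∀ i, ∀ z, invKer (Q z) (a i) =
      (1 - ‖Q z‖ ^ 2) * (1 - ‖a i‖ ^ 2) / ‖1 - ⟪a i, Q z⟫_ℂ‖ ^ 2 := by
    intro i z
    rw [invKer, hcon]
  have hN : ∀ i, 0 < 1 - ‖a i‖ ^ 2 ∧ 1 - ‖a i‖ ^ 2 ≤ 2 * (1 - ‖a i‖) := by
    intro i
    have h2 := (haw i).1
    have h3 := norm_nonneg (a i)
    constructor <;> nlinarith
  refine ⟨⟨?_, M, ?_⟩, max (max (1 + K₁) (2 + K₀)) (K' * K₀ * |C|), q,
    fun i z => 1 - ⟪a i, Q z⟫_ℂ, fun i => 1 - ‖a i‖ ^ 2, fun i => K' * w i, hq, ⟨?_, ?_, ?_, ?_, ?_⟩,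
    ?_⟩
  · refine (hgd.comp (hQ.mono (inter_subset_right.trans (ball_subset_ball hr.le))) hmaps).congr
      fun z hz => hug z (hsub hz)
  · intro z hz
    rw [hug z (hsub hz)]
    exact hgM _ (hmaps z hz)
  · exact fun i => ⟨(hN i).1, mul_nonneg hK'0 (haw i).2⟩
  · intro i
    have h1 : DifferentiableOn ℂ (fun z => ⟪a i, Q z⟫_ℂ) (ball p r') :=
      ((innerSL ℂ (a i)).differentiable.comp_differentiableOn
        (hQ.mono (ball_subset_ball hr.le)))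
    exact (differentiableOn_const _).sub h1
  · intro i z hz
    have h1 := (hbd z hz).1
    have h2 := (haw i).1
    refine le_trans ?_ ((le_max_left _ _).trans (le_max_left _ _))
    calc ‖(1 : ℂ) - ⟪a i, Q z⟫_ℂ‖ ≤ ‖(1 : ℂ)‖ + ‖⟪a i, Q z⟫_ℂ‖ := norm_sub_le _ _
      _ ≤ 1 + ‖a i‖ * ‖Q z‖ := by
          rw [norm_one]
          gcongr
          exact norm_inner_le_norm _ _
      _ ≤ 1 + 1 * K₁ := by gcongr
      _ = 1 + K₁ := by ring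
  · intro i z hz
    have h1 := hVre i z (hQ1 z (hsub hz))
    have h2 := hhopf z hz
    have h3 := (hN i).2
    have h4 : 0 ≤ (1 - ⟪a i, Q z⟫_ℂ).re := by
      have := (haw i).1
      linarith [h1.1]
    calc 1 - ‖a i‖ ^ 2 + infDist z Dᶜ ≤ 2 * (1 - ‖a i‖) + K₀ * (1 - ‖Q z‖) := by linarith
      _ ≤ 2 * (1 - ⟪a i, Q z⟫_ℂ).re + K₀ * (1 - ⟪a i, Q z⟫_ℂ).re := by
          gcongr
          · exact h1.1
          · exact h1.2
      _ = (2 + K₀) * (1 - ⟪a i, Q z⟫_ℂ).re := by ring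
      _ ≤ _ := by
          refine mul_le_mul_of_nonneg_right ?_ h4
          exact (le_max_right _ _).trans (le_max_left _ _)
  · intro z hz m
    have hz1 := hQ1 z (hsub hz)
    refine le_trans ?_ (le_max_right _ _)
    have h2 := hhopf z hz
    have h5 : infDist z Dᶜ ≤ K₀ * (1 - ‖Q z‖ ^ 2) := by
      refine h2.trans (mul_le_mul_of_nonneg_left ?_ (by linarith))
      nlinarith [norm_nonneg (Q z)]
    calc ∑ i ∈ Finset.range m, K' * w i * (1 - ‖a i‖ ^ 2) * infDist z Dᶜ /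
          ‖1 - ⟪a i, Q z⟫_ℂ‖ ^ 2
        ≤ ∑ i ∈ Finset.range m, K' * K₀ * (w i * invKer (Q z) (a i)) := by
          refine Finset.sum_le_sum fun i _ => ?_
          rw [hker]
          have e1 : K' * w i * (1 - ‖a i‖ ^ 2) * infDist z Dᶜ ≤
              K' * w i * (1 - ‖a i‖ ^ 2) * (K₀ * (1 - ‖Q z‖ ^ 2)) := by
            refine mul_le_mul_of_nonneg_left h5 ?_
            exact mul_nonneg (mul_nonneg hK'0 (haw i).2) (hN i).1.le
          calc K' * w i * (1 - ‖a i‖ ^ 2) * infDist z Dᶜ / ‖1 - ⟪a i, Q z⟫_ℂ‖ ^ 2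
              ≤ K' * w i * (1 - ‖a i‖ ^ 2) * (K₀ * (1 - ‖Q z‖ ^ 2)) /
                ‖1 - ⟪a i, Q z⟫_ℂ‖ ^ 2 := div_le_div_of_nonneg_right e1 (by positivity)
            _ = _ := by ring
      _ = K' * K₀ * ∑ i ∈ Finset.range m, w i * invKer (Q z) (a i) := by
          rw [Finset.mul_sum]
      _ ≤ K' * K₀ * |C| := by
          refine mul_le_mul_of_nonneg_left ?_ (mul_nonneg hK'0 (by linarith))
          exact (hC1 (Q z) (mem_ball_zero_iff.2 hz1) m).trans (le_abs_self _)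
  · intro φ hφ hφD
    have h0 := hφD 0 (mem_ball_self one_pos)
    have hQx := hQ1 (φ 0) (hsub h0)
    have hQx' : Q (φ 0) ∈ ball (0 : Ec k) 1 := mem_ball_zero_iff.2 hQx
    obtain ⟨X, hX⟩ : ∃ X, X = fderiv ℂ Q (φ 0) (deriv φ 0) := ⟨_, rfl⟩
    -- the chain rule
    have hder : deriv (fun x => u (φ x)) 0 = fderiv ℂ g (Q (φ 0)) X := by
      have e0 : (fun x => u (φ x)) =ᶠ[𝓝 0] fun x => g (Q (φ x)) := by
        filter_upwards [isOpen_ball.mem_nhds (mem_ball_self (x := (0 : ℂ)) one_pos)] with x hx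
        exact hug (φ x) (hsub (hφD x hx))
      rw [e0.deriv_eq, hX]
      have e1 : HasDerivAt φ (deriv φ 0) 0 :=
        (hφ.differentiableAt (isOpen_ball.mem_nhds (mem_ball_self one_pos))).hasDerivAt
      have e2 : HasFDerivAt Q (fderiv ℂ Q (φ 0)) (φ 0) :=
        (hQ.differentiableAt (isOpen_ball.mem_nhds (hsub h0).2)).hasFDerivAt
      have e3 : HasFDerivAt g (fderiv ℂ g (Q (φ 0))) (Q (φ 0)) :=
        (hgd.differentiableAt (isOpen_ball.mem_nhds hQx')).hasFDerivAt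
      have e4 : HasDerivAt (fun x => Q (φ x)) (fderiv ℂ Q (φ 0) (deriv φ 0)) 0 :=
        e2.comp_hasDerivAt (0 : ℂ) e1
      exact (e3.comp_hasDerivAt (0 : ℂ) e4).deriv
    obtain ⟨s, hsd⟩ : ∃ s, s = 1 - ‖Q (φ 0)‖ ^ 2 := ⟨_, rfl⟩
    obtain ⟨d, hdd⟩ : ∃ d, d = infDist (φ 0) Dᶜ := ⟨_, rfl⟩
    have hs0 : 0 < s := by rw [hsd]; nlinarith [norm_nonneg (Q (φ 0))]
    have hd0 : 0 < d := by rw [hdd]; exact (hL _ h0.1).2.1
    have hds : d ≤ K₀ * s := by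
      rw [hdd, hsd]
      refine (hhopf _ h0).trans (mul_le_mul_of_nonneg_left ?_ (by linarith))
      nlinarith [norm_nonneg (Q (φ 0))]
    have hBB := hbb φ hφ hφD
    rw [← hsd, ← hdd, ← hX] at hBB
    obtain ⟨IG, hIG⟩ : ∃ IG, IG = PT.IG2 g (Q (φ 0)) := ⟨_, rfl⟩
    have hIG0 : 0 ≤ IG := by rw [hIG]; exact PT.gd_IG_nonneg hQx
    have h1 : ‖fderiv ℂ g (Q (φ 0)) X‖ ^ 2 ≤ IG * (K₃ * (d / s)) := by
      refine (CP.BB_IG hQx X).trans ?_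
      rw [← hIG]
      exact mul_le_mul_of_nonneg_left hBB hIG0
    have h2 : IG ^ (q / 2) ≤ ∑' i, w i * invKer (Q (φ 0)) (a i) ^ 2 := by
      have e1 := hν2 (Q (φ 0)) hQx'
      have e2 := (hC2 (Q (φ 0)) hQx').2
      have e3 : invGrad2 g (Q (φ 0)) = IG := by rw [hIG]; exact CG.invGrad2_eq _ _
      rw [e3] at e1
      exact e1.trans e2
    have hsum := (hC2 (Q (φ 0)) hQx').1
    rw [hder, ← hdd]
    have hτ0 : 0 < d / s := by positivity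
    have hτ : d / s ≤ K₀ := by rwa [div_le_iff₀ hs0]
    have h3 : ‖fderiv ℂ g (Q (φ 0)) X‖ ^ q ≤
        (K₃ ^ (q / 2) * K₀ ^ (q / 2) * (d / s) ^ (1 / 4 : ℝ)) *
          ∑' i, w i * invKer (Q (φ 0)) (a i) ^ 2 := by
      have e1 : ‖fderiv ℂ g (Q (φ 0)) X‖ ^ q = (‖fderiv ℂ g (Q (φ 0)) X‖ ^ 2) ^ (q / 2) := by
        rw [← Real.rpow_natCast, ← Real.rpow_mul (norm_nonneg _)]
        congr 1
        push_cast
        ring
      have e2 : (d / s) ^ (q / 2) ≤ K₀ ^ (q / 2) * (d / s) ^ (1 / 4 : ℝ) := by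
        have f1 : (d / s) ^ (q / 2) = (d / s) ^ (q / 2 - 1 / 4) * (d / s) ^ (1 / 4 : ℝ) := by
          rw [← Real.rpow_add hτ0]
          congr 1
          ring
        rw [f1]
        refine mul_le_mul_of_nonneg_right ?_ (by positivity)
        calc (d / s) ^ (q / 2 - 1 / 4) ≤ K₀ ^ (q / 2 - 1 / 4) :=
              Real.rpow_le_rpow hτ0.le hτ (by linarith)
          _ ≤ K₀ ^ (q / 2) := Real.rpow_le_rpow_of_exponent_le hK0 (by linarith)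
      rw [e1]
      calc (‖fderiv ℂ g (Q (φ 0)) X‖ ^ 2) ^ (q / 2) ≤ (IG * (K₃ * (d / s))) ^ (q / 2) :=
            Real.rpow_le_rpow (by positivity) h1 (by linarith)
        _ = IG ^ (q / 2) * (K₃ ^ (q / 2) * (d / s) ^ (q / 2)) := by
            rw [Real.mul_rpow hIG0 (by positivity), Real.mul_rpow (by linarith) hτ0.le]
        _ ≤ (∑' i, w i * invKer (Q (φ 0)) (a i) ^ 2) *
            (K₃ ^ (q / 2) * (K₀ ^ (q / 2) * (d / s) ^ (1 / 4 : ℝ))) := by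
            refine mul_le_mul h2 (mul_le_mul_of_nonneg_left e2 (by positivity)) (by positivity) ?_
            exact tsum_nonneg fun i => mul_nonneg (haw i).2 (sq_nonneg _)
        _ = _ := by ring
    -- the comparison of the terms
    have hterm : ∀ i, (K₃ ^ (q / 2) * K₀ ^ (q / 2) * (d / s) ^ (1 / 4 : ℝ)) *
        (w i * invKer (Q (φ 0)) (a i) ^ 2) ≤
        K' * w i * (1 - ‖a i‖ ^ 2) ^ 2 *
          (d ^ (1 / 4 : ℝ) / ‖1 - ⟪a i, Q (φ 0)⟫_ℂ‖ ^ (9 / 4 : ℝ)) := by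
      intro i
      have hv1 := hVre i (φ 0) hQx
      have hv2 := hVn i (φ 0)
      rw [hker, ← hsd]
      obtain ⟨v, hv⟩ : ∃ v, v = ‖1 - ⟪a i, Q (φ 0)⟫_ℂ‖ := ⟨_, rfl⟩
      obtain ⟨N, hNd⟩ : ∃ N, N = 1 - ‖a i‖ ^ 2 := ⟨_, rfl⟩
      rw [← hv] at hv2 ⊢
      rw [← hNd]
      have hsv : s ≤ 2 * v := by
        rw [hsd]
        nlinarith [norm_nonneg (Q (φ 0)), hv1.2]
      have hv0 : 0 < v := by linarith
      have f1 : s ^ 2 = s ^ (1 / 4 : ℝ) * s ^ (7 / 4 : ℝ) := by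
        rw [← Real.rpow_add hs0, ← Real.rpow_natCast]
        norm_num
      have f2 : v ^ 4 = v ^ (7 / 4 : ℝ) * v ^ (9 / 4 : ℝ) := by
        rw [← Real.rpow_add hv0, ← Real.rpow_natCast]
        norm_num
      have f3 : s ^ (7 / 4 : ℝ) ≤ 4 * v ^ (7 / 4 : ℝ) := by
        calc s ^ (7 / 4 : ℝ) ≤ (2 * v) ^ (7 / 4 : ℝ) :=
              Real.rpow_le_rpow hs0.le hsv (by norm_num)
          _ = 2 ^ (7 / 4 : ℝ) * v ^ (7 / 4 : ℝ) := Real.mul_rpow (by norm_num) hv0.le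
          _ ≤ 2 ^ (2 : ℝ) * v ^ (7 / 4 : ℝ) := by
              refine mul_le_mul_of_nonneg_right ?_ (by positivity)
              exact Real.rpow_le_rpow_of_exponent_le (by norm_num) (by norm_num)
          _ = 4 * v ^ (7 / 4 : ℝ) := by norm_num
      have f4 : (d / s) ^ (1 / 4 : ℝ) * (s * N / v ^ 2) ^ 2 ≤
          4 * N ^ 2 * (d ^ (1 / 4 : ℝ) / v ^ (9 / 4 : ℝ)) := by
        have g1 : 0 < s ^ (1 / 4 : ℝ) := by positivity
        have g2 : 0 < v ^ (7 / 4 : ℝ) := by positivity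
        have g3 : 0 < v ^ (9 / 4 : ℝ) := by positivity
        rw [Real.div_rpow hd0.le hs0.le]
        calc d ^ (1 / 4 : ℝ) / s ^ (1 / 4 : ℝ) * (s * N / v ^ 2) ^ 2
            = d ^ (1 / 4 : ℝ) * N ^ 2 * (s ^ 2 / s ^ (1 / 4 : ℝ)) / v ^ 4 := by
              field_simp
          _ = d ^ (1 / 4 : ℝ) * N ^ 2 * (s ^ (7 / 4 : ℝ)) /
              (v ^ (7 / 4 : ℝ) * v ^ (9 / 4 : ℝ)) := by
              rw [f1, f2, mul_div_cancel_left₀ _ g1.ne']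
          _ ≤ d ^ (1 / 4 : ℝ) * N ^ 2 * (4 * v ^ (7 / 4 : ℝ)) /
              (v ^ (7 / 4 : ℝ) * v ^ (9 / 4 : ℝ)) := by gcongr
          _ = 4 * N ^ 2 * (d ^ (1 / 4 : ℝ) / v ^ (9 / 4 : ℝ)) := by
              field_simp
      have f5 : 0 ≤ K₃ ^ (q / 2) * K₀ ^ (q / 2) * w i :=
        mul_nonneg (by positivity) (haw i).2
      calc (K₃ ^ (q / 2) * K₀ ^ (q / 2) * (d / s) ^ (1 / 4 : ℝ)) *
            (w i * (s * N / v ^ 2) ^ 2)
          = (K₃ ^ (q / 2) * K₀ ^ (q / 2) * w i) *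
            ((d / s) ^ (1 / 4 : ℝ) * (s * N / v ^ 2) ^ 2) := by ring
        _ ≤ (K₃ ^ (q / 2) * K₀ ^ (q / 2) * w i) *
            (4 * N ^ 2 * (d ^ (1 / 4 : ℝ) / v ^ (9 / 4 : ℝ))) :=
            mul_le_mul_of_nonneg_left f4 f5
        _ = _ := by rw [hK']; ring
    -- the terms on the right are summable
    have hsumR : Summable fun i => K' * w i * (1 - ‖a i‖ ^ 2) ^ 2 *
          (d ^ (1 / 4 : ℝ) / ‖1 - ⟪a i, Q (φ 0)⟫_ℂ‖ ^ (9 / 4 : ℝ)) := by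
      have hs1 : Summable fun i => w i * invKer (Q (φ 0)) (a i) := by
        refine summable_of_sum_range_le (c := C) (fun i => ?_) fun m => hC1 _ hQx' m
        rw [hker]
        refine mul_nonneg (haw i).2 (div_nonneg (mul_nonneg ?_ (hN i).1.le) (sq_nonneg _))
        rw [← hsd]; exact hs0.le
      refine Summable.of_nonneg_of_le (fun i => ?_) (fun i => ?_)
        (hs1.mul_left (K' * 4 * d ^ (1 / 4 : ℝ) / s))
      · refine mul_nonneg (mul_nonneg (mul_nonneg hK'0 (haw i).2) (sq_nonneg _)) ?_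
        positivity
      · have hv1 := hVre i (φ 0) hQx
        have hv2 := hVn i (φ 0)
        rw [hker, ← hsd]
        have hv3 : ‖1 - ⟪a i, Q (φ 0)⟫_ℂ‖ ≤ 2 := by
          calc ‖(1 : ℂ) - ⟪a i, Q (φ 0)⟫_ℂ‖ ≤ ‖(1 : ℂ)‖ + ‖⟪a i, Q (φ 0)⟫_ℂ‖ := norm_sub_le _ _
            _ ≤ 1 + ‖a i‖ * ‖Q (φ 0)‖ := by
                rw [norm_one]
                gcongr
                exact norm_inner_le_norm _ _
            _ ≤ 1 + 1 * 1 := by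
                have := (haw i).1
                gcongr
            _ = 2 := by norm_num
        have hN' := hN i
        obtain ⟨v, hv⟩ : ∃ v, v = ‖1 - ⟪a i, Q (φ 0)⟫_ℂ‖ := ⟨_, rfl⟩
        obtain ⟨N, hNd⟩ : ∃ N, N = 1 - ‖a i‖ ^ 2 := ⟨_, rfl⟩
        rw [← hv] at hv2 hv3 ⊢
        rw [← hNd] at hN' ⊢
        have hNv : N ≤ 2 * v := by linarith [hN'.2, hv1.1]
        have hv0 : 0 < v := by linarith [hN'.1]
        have g3 : 0 < v ^ (9 / 4 : ℝ) := by positivity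
        have g4 : v ^ (9 / 4 : ℝ) = v ^ 2 * v ^ (1 / 4 : ℝ) := by
          rw [← Real.rpow_natCast, ← Real.rpow_add hv0]
          norm_num
        have g5 : 0 < v ^ (1 / 4 : ℝ) := by positivity
        have g6 : N / v ^ (1 / 4 : ℝ) ≤ 4 := by
          rw [div_le_iff₀ g5]
          have g7 : v = v ^ (3 / 4 : ℝ) * v ^ (1 / 4 : ℝ) := by
            rw [← Real.rpow_add hv0]
            norm_num
          have g8 : v ^ (3 / 4 : ℝ) ≤ 2 := by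
            calc v ^ (3 / 4 : ℝ) ≤ 2 ^ (3 / 4 : ℝ) := Real.rpow_le_rpow hv0.le hv3 (by norm_num)
              _ ≤ 2 ^ (1 : ℝ) := Real.rpow_le_rpow_of_exponent_le (by norm_num) (by norm_num)
              _ = 2 := by norm_num
          calc N ≤ 2 * v := hNv
            _ = 2 * (v ^ (3 / 4 : ℝ) * v ^ (1 / 4 : ℝ)) := by rw [← g7]
            _ ≤ 2 * (2 * v ^ (1 / 4 : ℝ)) := by gcongr
            _ = 4 * v ^ (1 / 4 : ℝ) := by ring
        have g9 : 0 ≤ K' * w i := mul_nonneg hK'0 (haw i).2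
        calc K' * w i * N ^ 2 * (d ^ (1 / 4 : ℝ) / v ^ (9 / 4 : ℝ))
            = (K' * w i) * (N * d ^ (1 / 4 : ℝ) / v ^ 2) * (N / v ^ (1 / 4 : ℝ)) := by
              rw [g4]
              field_simp
          _ ≤ (K' * w i) * (N * d ^ (1 / 4 : ℝ) / v ^ 2) * 4 := by
              refine mul_le_mul_of_nonneg_left g6 (mul_nonneg g9 ?_)
              have := hN'.1
              positivity
          _ = K' * 4 * d ^ (1 / 4 : ℝ) / s * (w i * (s * N / v ^ 2)) := by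
              field_simp
    calc ‖fderiv ℂ g (Q (φ 0)) X‖ ^ q
        ≤ (K₃ ^ (q / 2) * K₀ ^ (q / 2) * (d / s) ^ (1 / 4 : ℝ)) *
          ∑' i, w i * invKer (Q (φ 0)) (a i) ^ 2 := h3
      _ = ∑' i, (K₃ ^ (q / 2) * K₀ ^ (q / 2) * (d / s) ^ (1 / 4 : ℝ)) *
          (w i * invKer (Q (φ 0)) (a i) ^ 2) := by rw [tsum_mul_left]
      _ ≤ _ := (hsum.mul_left _).tsum_le_tsum hterm hsumR

end Pool.Agent.MPca0fc2.GW
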