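import Pool.Agent.Lib.MP_ca0fc2_an.Mg.G003
import Pool.Agent.Lib.MP_ca0fc2_an.Mg.G045

/-! Convexification near a boundary point. -/

set_option autoImplicit false

open Metric Set MeasureTheory Filter Topology

namespace Pool.Agent.MPca0fc2.GW

open Pool.Agent.MPca0fc2.FD
open Pool.Agent.Lib.MP_ca0fc2_an (SupportData)

variable {n : ℕ}

/-- Convexifying coordinates `Φ` on the ball of radius `a`, near the boundary point `p`. -/
structure CV (U : Set (Ec n)) (ρ : Ec n → ℝ) (p : Ec n) (r a L c₁ : ℝ) (Φ : Ec n → Ec n) :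
    Prop where
  a0 : 0 < a
  a1 : a ≤ 1
  L1 : 1 ≤ L
  c0 : 0 < c₁
  hol : DifferentiableOn ℂ Φ (ball 0 a)
  map : ∀ x ∈ ball (0 : Ec n) a, Φ x ∈ ball p r ∧ Φ x ∈ U
  zero : Φ 0 = p
  lip : ∀ x ∈ ball (0 : Ec n) a, ∀ y ∈ ball (0 : Ec n) a,
    ‖Φ x - Φ y‖ ≤ L * ‖x - y‖ ∧ ‖x - y‖ ≤ L * ‖Φ x - Φ y‖
  opn : ∀ S : Set (Ec n), IsOpen S → S ⊆ ball 0 a → IsOpen (Φ '' S)
  inv : ∃ Ψ : Ec n → Ec n, DifferentiableOn ℂ Ψ (Φ '' ball 0 a) ∧
    ∀ x ∈ ball (0 : Ec n) a, Ψ (Φ x) = x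
  q3 : ContDiffOn ℝ 3 (fun x => ρ (Φ x)) (ball 0 a)
  q0 : ρ p = 0
  dq : fderiv ℝ (fun x => ρ (Φ x)) 0 ≠ 0
  conv : ∀ x ∈ ball (0 : Ec n) a, ∀ y ∈ ball (0 : Ec n) a,
    ρ (Φ x) + fderiv ℝ (fun x => ρ (Φ x)) x (y - x) + c₁ * ‖y - x‖ ^ 2 ≤ ρ (Φ y)

private theorem M1a_diff {q : Ec n → ℝ} {a : ℝ} (hq : ContDiffOn ℝ 3 q (ball 0 a)) {x : Ec n}
    (hx : x ∈ ball (0 : Ec n) a) : HasFDerivAt q (fderiv ℝ q x) x ∧
      HasFDerivAt (fderiv ℝ q) (fderiv ℝ (fderiv ℝ q) x) x ∧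
      ∀ ε : ℝ, 0 < ε → ∀ᶠ w in 𝓝 x,
        ‖fderiv ℝ (fderiv ℝ q) w - fderiv ℝ (fderiv ℝ q) x‖ < ε := by
  have h1 : ContDiffAt ℝ 3 q x := hq.contDiffAt (isOpen_ball.mem_nhds hx)
  have h2 : ContDiffAt ℝ 2 (fderiv ℝ q) x := h1.fderiv_right (by norm_num)
  have h3 : ContDiffAt ℝ 1 (fderiv ℝ (fderiv ℝ q)) x := h2.fderiv_right (by norm_num)
  have h4 := h3.continuousAt
  refine ⟨(h1.differentiableAt (by norm_num)).hasFDerivAt,
    (h2.differentiableAt (by norm_num)).hasFDerivAt, fun ε hε => ?_⟩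
  have h5 := Metric.tendsto_nhds.1 h4.tendsto ε hε
  simpa only [dist_eq_norm] using h5

private theorem M1a_second {q : Ec n → ℝ} {a c₀ : ℝ} (ha : 0 < a)
    (hq : ContDiffOn ℝ 3 q (ball 0 a)) (l : Ec n →L[ℝ] ℝ) (h0 : q 0 = 0)
    (hl : ∀ x ∈ ball (0 : Ec n) a, l x + c₀ * ‖x‖ ^ 2 ≤ q x) (X : Ec n) :
    2 * c₀ * ‖X‖ ^ 2 ≤ fderiv ℝ (fderiv ℝ q) 0 X X := by
  by_contra hcon
  push Not at hcon
  set φ : ℝ → ℝ := fun t => q (t • X) - t * l X - c₀ * ‖X‖ ^ 2 * t ^ 2 with hφ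
  have hsm : ∀ t : ℝ, HasDerivAt (fun t : ℝ => t • X) X t := by
    intro t
    simpa using (hasDerivAt_id t).smul_const X
  have hopen : ∀ᶠ t : ℝ in 𝓝 0, t • X ∈ ball (0 : Ec n) a := by
    have h1 : Tendsto (fun t : ℝ => t • X) (𝓝 0) (𝓝 0) := by
      have := (hsm 0).continuousAt.tendsto
      simpa using this
    exact h1 (ball_mem_nhds 0 ha)
  have h00 : (0 : ℝ) • X ∈ ball (0 : Ec n) a := by
    rw [zero_smul]
    exact mem_ball_self ha
  have hder : ∀ t : ℝ, t • X ∈ ball (0 : Ec n) a →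
      HasDerivAt φ (fderiv ℝ q (t • X) X - l X - c₀ * ‖X‖ ^ 2 * (2 * t)) t := by
    intro t ht
    have h1 : HasDerivAt (fun t : ℝ => q (t • X)) (fderiv ℝ q (t • X) X) t :=
      (M1a_diff hq ht).1.comp_hasDerivAt t (hsm t)
    have h2 : HasDerivAt (fun t : ℝ => t * l X) (l X) t := by
      simpa using (hasDerivAt_id t).mul_const (l X)
    have h3 : HasDerivAt (fun t : ℝ => c₀ * ‖X‖ ^ 2 * t ^ 2) (c₀ * ‖X‖ ^ 2 * (2 * t)) t := by
      have := ((hasDerivAt_id t).pow 2).const_mul (c₀ * ‖X‖ ^ 2)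
      simpa using this
    exact (h1.sub h2).sub h3
  have hev : deriv φ =ᶠ[𝓝 0]
      fun t => fderiv ℝ q (t • X) X - l X - c₀ * ‖X‖ ^ 2 * (2 * t) :=
    hopen.mono fun t ht => (hder t ht).deriv
  have hdd : HasDerivAt (fun t : ℝ => fderiv ℝ q (t • X) X - l X - c₀ * ‖X‖ ^ 2 * (2 * t))
      (fderiv ℝ (fderiv ℝ q) 0 X X - c₀ * ‖X‖ ^ 2 * 2) 0 := by
    have h1 : HasDerivAt (fun t : ℝ => fderiv ℝ q (t • X)) (fderiv ℝ (fderiv ℝ q) ((0 : ℝ) • X) X)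
        0 := (M1a_diff hq h00).2.1.comp_hasDerivAt (0 : ℝ) (hsm 0)
    rw [zero_smul] at h1
    have h2 : HasDerivAt (fun t : ℝ => fderiv ℝ q (t • X) X)
        (fderiv ℝ (fderiv ℝ q) 0 X X) 0 := by
      have := h1.clm_apply (hasDerivAt_const (0 : ℝ) X)
      simpa using this
    have h3 : HasDerivAt (fun t : ℝ => c₀ * ‖X‖ ^ 2 * (2 * t)) (c₀ * ‖X‖ ^ 2 * 2) 0 := by
      have := ((hasDerivAt_id (0 : ℝ)).const_mul 2).const_mul (c₀ * ‖X‖ ^ 2)
      simpa using this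
    exact (h2.sub_const (l X)).sub h3
  have hdd2 : deriv (deriv φ) 0 = fderiv ℝ (fderiv ℝ q) 0 X X - c₀ * ‖X‖ ^ 2 * 2 :=
    hev.deriv_eq.trans hdd.deriv
  have hφ0 : φ 0 = 0 := by
    simp [hφ, h0]
  have hmin : IsLocalMin φ 0 := by
    refine hopen.mono fun t ht => ?_
    have h1 := hl (t • X) ht
    rw [map_smul, norm_smul, smul_eq_mul, mul_pow, Real.norm_eq_abs, sq_abs] at h1
    rw [hφ0]
    simp only [hφ]
    nlinarith
  have hmax : IsLocalMax φ 0 :=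
    isLocalMax_of_deriv_deriv_neg (by rw [hdd2]; linarith) hmin.deriv_eq_zero
      (hder 0 h00).continuousAt
  have heq : φ =ᶠ[𝓝 0] fun _ => φ 0 := by
    filter_upwards [hmin, hmax] with t h1 h2 using le_antisymm h2 h1
  have h5 : deriv (deriv φ) 0 = 0 := by
    rw [heq.deriv.deriv_eq]
    simp
  rw [hdd2] at h5
  linarith

private theorem M1a_taylor {g g' g'' : ℝ → ℝ} {m : ℝ}
    (h1 : ∀ t ∈ Icc (0 : ℝ) 1, HasDerivAt g (g' t) t)
    (h2 : ∀ t ∈ Icc (0 : ℝ) 1, HasDerivAt g' (g'' t) t)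
    (h3 : ∀ t ∈ Icc (0 : ℝ) 1, m ≤ g'' t) : g 0 + g' 0 + m / 2 ≤ g 1 := by
  have hk1 : MonotoneOn (fun t => g' t - m * t) (Icc (0 : ℝ) 1) := by
    have hd : ∀ t ∈ Icc (0 : ℝ) 1, HasDerivAt (fun t => g' t - m * t) (g'' t - m) t := by
      intro t ht
      have := (h2 t ht).sub ((hasDerivAt_id t).const_mul m)
      refine this.congr_deriv ?_
      simp
    refine monotoneOn_of_deriv_nonneg (convex_Icc 0 1)
      (fun t ht => (hd t ht).continuousAt.continuousWithinAt)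
      (fun t ht => (hd t (interior_subset ht)).differentiableAt.differentiableWithinAt) ?_
    intro t ht
    rw [(hd t (interior_subset ht)).deriv]
    have := h3 t (interior_subset ht)
    linarith
  have hk2 : MonotoneOn (fun t => g t - g' 0 * t - m / 2 * t ^ 2) (Icc (0 : ℝ) 1) := by
    have hd : ∀ t ∈ Icc (0 : ℝ) 1,
        HasDerivAt (fun t => g t - g' 0 * t - m / 2 * t ^ 2) (g' t - g' 0 - m * t) t := by
      intro t ht
      have e1 := (h1 t ht).sub ((hasDerivAt_id t).const_mul (g' 0))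
      have e2 := e1.sub (((hasDerivAt_id t).pow 2).const_mul (m / 2))
      refine e2.congr_deriv ?_
      simp
      ring
    refine monotoneOn_of_deriv_nonneg (convex_Icc 0 1)
      (fun t ht => (hd t ht).continuousAt.continuousWithinAt)
      (fun t ht => (hd t (interior_subset ht)).differentiableAt.differentiableWithinAt) ?_
    intro t ht
    rw [(hd t (interior_subset ht)).deriv]
    have ht' := interior_subset ht
    have := hk1 (left_mem_Icc.2 zero_le_one) ht' ht'.1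
    simp only [mul_zero, sub_zero] at this
    linarith
  have := hk2 (left_mem_Icc.2 zero_le_one) (right_mem_Icc.2 zero_le_one) zero_le_one
  simp only at this
  nlinarith

/-- Strong convexity from the behaviour at one point.
PROOF. `G(t) = q(t X) - t l(X) - c₀ t² ‖X‖² ≥ 0 = G(0)` for small `t`, so `D²q(0)(X, X) ≥ 2 c₀ ‖X‖²` for all `X`. `D²q` is continuous on the ball (class `C³`, `C²` is enough), so there is `a' > 0` with
`D²q(x)(X, X) ≥ c₀ ‖X‖²` for `‖x‖ < a'`. Taylor's formula on segments in the (convex) ball of radius `a'`: `q y ≥ q x + dq(x)(y - x) + (c₀ / 2) ‖y - x‖²`. -/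
theorem strong_conv {q : Ec n → ℝ} {a c₀ : ℝ} (ha : 0 < a) (hc : 0 < c₀)
    (hq : ContDiffOn ℝ 3 q (ball 0 a)) (l : Ec n →L[ℝ] ℝ) (h0 : q 0 = 0)
    (hl : ∀ x ∈ ball (0 : Ec n) a, l x + c₀ * ‖x‖ ^ 2 ≤ q x) :
    ∃ a' : ℝ, 0 < a' ∧ a' ≤ a ∧ ∀ x ∈ ball (0 : Ec n) a', ∀ y ∈ ball (0 : Ec n) a',
      q x + fderiv ℝ q x (y - x) + c₀ / 2 * ‖y - x‖ ^ 2 ≤ q y := by
  have h00 : (0 : Ec n) ∈ ball (0 : Ec n) a := mem_ball_self ha
  have hcont := (M1a_diff hq h00).2.2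
  have hev : ∀ᶠ w in 𝓝 (0 : Ec n),
      ‖fderiv ℝ (fderiv ℝ q) w - fderiv ℝ (fderiv ℝ q) 0‖ < c₀ := hcont c₀ hc
  obtain ⟨b, hb0, hb⟩ := Metric.mem_nhds_iff.1 hev
  refine ⟨min a b, lt_min ha hb0, min_le_left _ _, ?_⟩
  have hD2 : ∀ w ∈ ball (0 : Ec n) (min a b), ∀ X : Ec n,
      c₀ * ‖X‖ ^ 2 ≤ fderiv ℝ (fderiv ℝ q) w X X := by
    intro w hw X
    have h1 : ‖fderiv ℝ (fderiv ℝ q) w - fderiv ℝ (fderiv ℝ q) 0‖ < c₀ :=
      hb (ball_subset_ball (min_le_right _ _) hw)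
    have h2 := M1a_second ha hq l h0 hl X
    have h3 : ‖(fderiv ℝ (fderiv ℝ q) w - fderiv ℝ (fderiv ℝ q) 0) X X‖ ≤
        c₀ * ‖X‖ * ‖X‖ := by
      refine (ContinuousLinearMap.le_opNorm₂ _ X X).trans ?_
      gcongr
    have h4 : (fderiv ℝ (fderiv ℝ q) w - fderiv ℝ (fderiv ℝ q) 0) X X =
        fderiv ℝ (fderiv ℝ q) w X X - fderiv ℝ (fderiv ℝ q) 0 X X := by
      simp
    rw [h4, Real.norm_eq_abs] at h3
    have h5 := (abs_le.1 h3).1
    nlinarith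
  intro x hx y hy
  have hseg : ∀ t ∈ Icc (0 : ℝ) 1, x + t • (y - x) ∈ ball (0 : Ec n) (min a b) := by
    intro t ht
    exact (convex_ball (0 : Ec n) (min a b)).add_smul_sub_mem hx hy ht
  have hseg' : ∀ t ∈ Icc (0 : ℝ) 1, x + t • (y - x) ∈ ball (0 : Ec n) a := fun t ht =>
    ball_subset_ball (min_le_left _ _) (hseg t ht)
  have hline : ∀ t : ℝ, HasDerivAt (fun t : ℝ => x + t • (y - x)) (y - x) t := by
    intro t
    have := ((hasDerivAt_id t).smul_const (y - x)).const_add x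
    simpa using this
  have key := M1a_taylor (g := fun t => q (x + t • (y - x)))
    (g' := fun t => fderiv ℝ q (x + t • (y - x)) (y - x))
    (g'' := fun t => fderiv ℝ (fderiv ℝ q) (x + t • (y - x)) (y - x) (y - x))
    (m := c₀ * ‖y - x‖ ^ 2)
    (fun t ht => (M1a_diff hq (hseg' t ht)).1.comp_hasDerivAt t (hline t))
    (fun t ht => by
      have h1 : HasDerivAt (fun t : ℝ => fderiv ℝ q (x + t • (y - x)))
          (fderiv ℝ (fderiv ℝ q) (x + t • (y - x)) (y - x)) t :=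
        (M1a_diff hq (hseg' t ht)).2.1.comp_hasDerivAt t (hline t)
      have := h1.clm_apply (hasDerivAt_const t (y - x))
      simpa using this)
    (fun t ht => hD2 _ (hseg t ht) (y - x))
  simp only [zero_smul, add_zero, one_smul, add_sub_cancel] at key
  linarith

end Pool.Agent.MPca0fc2.GW
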