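import Pool.Agent.Lib.MP_ca0fc2_an.GW.V1
import Pool.Agent.Lib.MP_ca0fc2_an.Mg.G061

/-! A convex domain with a given piece of boundary. -/

set_option autoImplicit false

open Metric Set MeasureTheory Filter Topology

namespace Pool.Agent.MPca0fc2.GW

open Pool.Agent.MPca0fc2.FD

variable {n : ℕ}

/-- `∂q(x) X` -/
noncomputable def pdq (q : Ec n → ℝ) (x X : Ec n) : ℂ :=
  (2⁻¹ : ℂ) * ((fderiv ℝ q x X : ℂ) - Complex.I * (fderiv ℝ q x (Complex.I • X) : ℂ))

/-- the anisotropic length of `{q < 0}` -/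
noncomputable def gq (q : Ec n → ℝ) (x X : Ec n) : ℝ :=
  ‖pdq q x X‖ / |q x| + ‖X‖ / Real.sqrt |q x|

/-- the components of `∂q(x)` -/
noncomputable def hq (q : Ec n → ℝ) (x : Ec n) (k : Fin n) : ℂ := pdq q x (ee k)

theorem M2a_basis (X : Ec n) : ∑ k, X k • (ee k : Ec n) = X := by
  ext j
  simp [ee, Pi.single_apply]

theorem M2a_add (q : Ec n → ℝ) (x X Y : Ec n) : pdq q x (X + Y) = pdq q x X + pdq q x Y := by
  unfold pdq
  rw [smul_add, map_add, map_add]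
  push_cast
  ring

theorem M2a_smul (q : Ec n → ℝ) (x : Ec n) (c : ℂ) (X : Ec n) :
    pdq q x (c • X) = c * pdq q x X := by
  have h1 : c • X = c.re • X + c.im • (Complex.I • X) := by
    have : c • X = ((c.re : ℂ) + (c.im : ℂ) * Complex.I) • X := by rw [Complex.re_add_im]
    rw [this, add_smul, mul_smul]
    rfl
  have h2 : Complex.I • (c • X) = c.re • (Complex.I • X) + (-c.im) • X := by
    have e : Complex.I • (c • X) = (((c.re : ℂ)) * Complex.I + ((-c.im : ℝ) : ℂ)) • X := by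
      rw [smul_smul]
      congr 1
      conv_lhs => rw [← Complex.re_add_im c]
      push_cast
      linear_combination (c.im : ℂ) * Complex.I_mul_I
    rw [e, add_smul, mul_smul]
    rfl
  unfold pdq
  rw [h2, h1]
  simp only [map_add, map_smul, smul_eq_mul]
  push_cast
  conv_rhs => rw [← Complex.re_add_im c]
  linear_combination ((2⁻¹ : ℂ) * (c.im : ℂ) * ((fderiv ℝ q x (Complex.I • X) : ℝ) : ℂ)) * Complex.I_mul_I

theorem M2a_sum (q : Ec n → ℝ) (x : Ec n) (s : Finset (Fin n)) (X : Fin n → Ec n) :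
    pdq q x (∑ k ∈ s, X k) = ∑ k ∈ s, pdq q x (X k) := by
  classical
  induction s using Finset.induction_on with
  | empty => simp [pdq]
  | insert a s ha ih => rw [Finset.sum_insert ha, Finset.sum_insert ha, M2a_add, ih]

/-- PROOF. `fderiv ℝ q x` is real linear, `X = ∑ X k • ee k`. -/
theorem pdq_sum (q : Ec n → ℝ) (x X : Ec n) : ∑ k, hq q x k * X k = pdq q x X ∧
    fderiv ℝ q x X = 2 * (pdq q x X).re := by
  constructor
  · conv_rhs => rw [← M2a_basis X]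
    rw [M2a_sum]
    refine Finset.sum_congr rfl fun k _ => ?_
    rw [M2a_smul, mul_comm]
    rfl
  · unfold pdq
    simp

/-- A strongly convex function on a ball, with a radius `a`. -/
structure QC (q : Ec n → ℝ) (a c₁ : ℝ) : Prop where
  a0 : 0 < a
  a1 : a ≤ 1
  c0 : 0 < c₁
  c3 : ContDiffOn ℝ 3 q (ball 0 a)
  q0 : q 0 = 0
  dq : fderiv ℝ q 0 ≠ 0
  conv : ∀ x ∈ ball (0 : Ec n) a, ∀ y ∈ ball (0 : Ec n) a,
    q x + fderiv ℝ q x (y - x) + c₁ * ‖y - x‖ ^ 2 ≤ q y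

/-- The derivatives of `thp`. PROOF. `thp 0 a₁ x = (max (‖x‖² - a₁²) 0)⁴`, its derivative is `8 (max ..)³ Re ⟨x, X⟩`, `(max ..)³ ≤ K (max ..)²` on a bounded set. -/
theorem thp_bd (n : ℕ) (a₁ : ℝ) : ∃ K : ℝ, 1 ≤ K ∧ ∀ x : Ec n, ‖x‖ ≤ 1 → 0 ≤ thp (0 : Ec n) a₁ x ∧
    ∀ X : Ec n, ‖pdq (thp 0 a₁) x X‖ ≤ K * Real.sqrt (thp 0 a₁ x) * ‖X‖ := by
  refine ⟨8, by norm_num, fun x hx => ?_⟩
  set m := max (‖x‖ ^ 2 - a₁ ^ 2) 0 with hm
  have hm0 : 0 ≤ m := le_max_right _ _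
  have hm1 : m ≤ 1 := by
    apply max_le _ (by norm_num)
    nlinarith [norm_nonneg x, sq_nonneg a₁]
  have hth : thp (0 : Ec n) a₁ x = m ^ 4 := by
    unfold thp ch
    rw [sub_zero]
  have hsq : Real.sqrt (thp (0 : Ec n) a₁ x) = m ^ 2 := by
    rw [hth]
    have : m ^ 4 = (m ^ 2) ^ 2 := by ring
    rw [this, Real.sqrt_sq (by positivity)]
  refine ⟨by rw [hth]; positivity, fun X => ?_⟩
  have key : ∀ Y : Ec n, |fderiv ℝ (thp (0 : Ec n) a₁) x Y| ≤ 8 * m ^ 2 * ‖Y‖ := by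
    intro Y
    rw [thp_fderiv]
    have h3 : (∑ k, dthp (0 : Ec n) a₁ x k * Y k) = ((4 * m ^ 3 : ℝ) : ℂ) *
        ∑ k, (starRingEnd ℂ) (x k) * Y k := by
      rw [Finset.mul_sum]
      refine Finset.sum_congr rfl fun k _ => ?_
      rw [dthp, mul_assoc]
      simp only [sub_zero, PiLp.zero_apply]
      rfl
    have h4 : ‖∑ k, (starRingEnd ℂ) (x k) * Y k‖ ≤ ‖x‖ * ‖Y‖ := by
      have h5 : inner ℂ x Y = ∑ k, (starRingEnd ℂ) (x k) * Y k := by
        rw [PiLp.inner_apply]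
        refine Finset.sum_congr rfl fun k _ => ?_
        rw [RCLike.inner_apply, mul_comm]
      rw [← h5]
      exact norm_inner_le_norm x Y
    rw [h3, Complex.re_ofReal_mul, abs_mul, abs_mul, abs_of_nonneg (by positivity : (0:ℝ) ≤ 2),
      abs_of_nonneg (by positivity : (0:ℝ) ≤ 4 * m ^ 3)]
    have h6 : |(∑ k, (starRingEnd ℂ) (x k) * Y k).re| ≤ ‖Y‖ := by
      refine (Complex.abs_re_le_norm _).trans (h4.trans ?_)
      have := mul_le_mul_of_nonneg_right hx (norm_nonneg Y)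
      rwa [one_mul] at this
    have h7 : m ^ 3 ≤ m ^ 2 := by
      have : m ^ 3 = m ^ 2 * m := by ring
      rw [this]
      nlinarith [sq_nonneg m]
    have h8 : m ^ 3 * |(∑ k, (starRingEnd ℂ) (x k) * Y k).re| ≤ m ^ 2 * ‖Y‖ :=
      mul_le_mul h7 h6 (abs_nonneg _) (by positivity)
    nlinarith
  rw [hsq]
  unfold pdq
  rw [norm_mul]
  have h1 : ‖(2⁻¹ : ℂ)‖ = 2⁻¹ := by simp
  rw [h1]
  have h2 := key X
  have h3 := key (Complex.I • X)
  have h4 : ‖Complex.I • X‖ = ‖X‖ := by rw [norm_smul]; simp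
  rw [h4] at h3
  have h5 : ‖((fderiv ℝ (thp (0 : Ec n) a₁) x X : ℝ) : ℂ) -
      Complex.I * ((fderiv ℝ (thp (0 : Ec n) a₁) x (Complex.I • X) : ℝ) : ℂ)‖ ≤
      8 * m ^ 2 * ‖X‖ + 8 * m ^ 2 * ‖X‖ := by
    refine (norm_sub_le _ _).trans ?_
    rw [norm_mul, Complex.norm_I, one_mul, Complex.norm_real, Complex.norm_real,
      Real.norm_eq_abs, Real.norm_eq_abs]
    exact add_le_add h2 h3
  linarith

/-- Discs in `{q < 0}`.
PROOF. `‖D²q‖ ≤ M` on the ball of radius `(a₂ + a) / 2` (compact closure in the ball of radius `a`). Let `g = gq q x X > 0`, `Y = λ (ε / g) X`, `|λ| < 1`: `‖Y‖ ≤ ε √|q x|`, `|∂q Y| ≤ ε |q x|`, so `q (x + Y) ≤ q x + 2 ε |q x| + M ε² |q x| < 0` and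
`‖x + Y‖ < a` for small `ε` (`|q| ≤ M` on the smaller ball). -/
theorem disc_q {q : Ec n → ℝ} {a c₁ : ℝ} (hq' : QC q a c₁) {a₂ : ℝ} (h2 : a₂ < a) :
    ∃ ε : ℝ, 0 < ε ∧ ∀ x ∈ ball (0 : Ec n) a₂, q x < 0 → ∀ X : Ec n, X ≠ 0 →
      0 < gq q x X ∧ ∀ lam ∈ ball (0 : ℂ) 1,
        x + (lam * ((ε / gq q x X : ℝ) : ℂ)) • X ∈ ball (0 : Ec n) a ∧
        q (x + (lam * ((ε / gq q x X : ℝ) : ℂ)) • X) < 0 := by
  set r := (a₂ + a) / 2 with hr
  have hra : r < a := by rw [hr]; linarith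
  have har : a₂ < r := by rw [hr]; linarith
  have hsub : closedBall (0 : Ec n) r ⊆ ball 0 a := closedBall_subset_ball hra
  have hcf : ContDiffOn ℝ 2 (fderiv ℝ q) (ball 0 a) :=
    hq'.c3.fderiv_of_isOpen isOpen_ball (by norm_num)
  have hcff : ContDiffOn ℝ 1 (fderiv ℝ (fderiv ℝ q)) (ball 0 a) :=
    hcf.fderiv_of_isOpen isOpen_ball (by norm_num)
  obtain ⟨M1, hM1⟩ := (isCompact_closedBall (0 : Ec n) r).exists_bound_of_continuousOn
    (hq'.c3.continuousOn.mono hsub)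
  have hcn0 : Continuous (fun L : Ec n →L[ℝ] Ec n →L[ℝ] ℝ => ‖L‖) :=
    @continuous_norm (Ec n →L[ℝ] Ec n →L[ℝ] ℝ) _
  have hcn : ContinuousOn (fun y => ‖fderiv ℝ (fderiv ℝ q) y‖) (closedBall (0 : Ec n) r) :=
    hcn0.comp_continuousOn (hcff.continuousOn.mono hsub)
  obtain ⟨M2, hM2'⟩ := (isCompact_closedBall (0 : Ec n) r).exists_bound_of_continuousOn hcn
  have hM2 : ∀ y ∈ closedBall (0 : Ec n) r, ‖fderiv ℝ (fderiv ℝ q) y‖ ≤ M2 := fun y hy => by
    have := hM2' y hy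
    rw [Real.norm_eq_abs] at this
    exact (le_abs_self _).trans this
  set M := max (max M1 M2) 1 with hM
  have hM10 : M1 ≤ M := (le_max_left _ _).trans (le_max_left _ _)
  have hM20 : M2 ≤ M := (le_max_right _ _).trans (le_max_left _ _)
  have hM0 : 1 ≤ M := le_max_right _ _
  have hMp : 0 < M := by linarith
  set ε := min (1 / (4 * M)) ((r - a₂) / (2 * M)) with hε
  have hε0 : 0 < ε := lt_min (by positivity) (div_pos (by linarith) (by positivity))
  have hε1 : ε * (4 * M) ≤ 1 := by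
    have : ε ≤ 1 / (4 * M) := min_le_left _ _
    rwa [le_div_iff₀ (by positivity)] at this
  have hε2 : ε * (2 * M) ≤ r - a₂ := by
    have : ε ≤ (r - a₂) / (2 * M) := min_le_right _ _
    rwa [le_div_iff₀ (by positivity)] at this
  have hdf : ∀ y ∈ ball (0 : Ec n) a, DifferentiableAt ℝ q y := fun y hy =>
    (hq'.c3.differentiableOn (by norm_num)).differentiableAt (isOpen_ball.mem_nhds hy)
  have hdff : ∀ y ∈ ball (0 : Ec n) a, DifferentiableAt ℝ (fderiv ℝ q) y := fun y hy =>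
    (hcf.differentiableOn (by norm_num)).differentiableAt (isOpen_ball.mem_nhds hy)
  have hlip : ∀ y ∈ closedBall (0 : Ec n) r, ∀ z ∈ closedBall (0 : Ec n) r,
      ‖fderiv ℝ q z - fderiv ℝ q y‖ ≤ M * ‖z - y‖ := by
    intro y hy z hz
    exact Convex.norm_image_sub_le_of_norm_fderiv_le (𝕜 := ℝ) (s := closedBall (0 : Ec n) r)
      (fun w hw => hdff w (hsub hw)) (fun w hw => (hM2 w hw).trans hM20) (convex_closedBall _ _) hy hz
  have htay : ∀ y ∈ closedBall (0 : Ec n) r, ∀ z ∈ closedBall (0 : Ec n) r,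
      q z ≤ q y + fderiv ℝ q y (z - y) + M * ‖z - y‖ ^ 2 := by
    intro y hy z hz
    have hseg : segment ℝ y z ⊆ closedBall (0 : Ec n) r := (convex_closedBall _ _).segment_subset hy hz
    have h := Convex.norm_image_sub_le_of_norm_fderiv_le' (𝕜 := ℝ) (f := q) (φ := fderiv ℝ q y)
      (C := M * ‖z - y‖) (s := segment ℝ y z) (fun w hw => hdf w (hsub (hseg hw))) (fun w hw => ?_)
      (convex_segment _ _) (left_mem_segment ℝ y z) (right_mem_segment ℝ y z)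
    · rw [Real.norm_eq_abs] at h
      have := (abs_le.1 h).2
      nlinarith
    · refine (hlip y hy w (hseg hw)).trans (mul_le_mul_of_nonneg_left ?_ hMp.le)
      have := norm_sub_le_of_mem_segment hw
      exact this
  refine ⟨ε, hε0, fun x hx hqx X hX => ?_⟩
  have hq0 : 0 < |q x| := abs_pos.2 hqx.ne
  have hsq0 : 0 < Real.sqrt |q x| := Real.sqrt_pos.2 hq0
  have hX0 : 0 < ‖X‖ := norm_pos_iff.2 hX
  have hxr : x ∈ closedBall (0 : Ec n) r := ball_subset_closedBall (ball_subset_ball har.le hx)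
  set g := gq q x X with hg
  have hg1 : ‖pdq q x X‖ / |q x| ≤ g := by
    rw [hg]; unfold gq
    have : 0 ≤ ‖X‖ / Real.sqrt |q x| := by positivity
    linarith
  have hg2 : ‖X‖ / Real.sqrt |q x| ≤ g := by
    rw [hg]; unfold gq
    have : 0 ≤ ‖pdq q x X‖ / |q x| := by positivity
    linarith
  have hg0 : 0 < g := lt_of_lt_of_le (by positivity) hg2
  refine ⟨hg0, fun lam hlam => ?_⟩
  have hl : ‖lam‖ ≤ 1 := by
    have := mem_ball_zero_iff.1 hlam
    exact this.le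
  set Y := (lam * ((ε / g : ℝ) : ℂ)) • X with hY
  have hnc : ‖lam * ((ε / g : ℝ) : ℂ)‖ ≤ ε / g := by
    rw [norm_mul, Complex.norm_real, Real.norm_eq_abs, abs_of_pos (by positivity)]
    have : 0 ≤ ε / g := by positivity
    nlinarith
  have hYn : ‖Y‖ ≤ ε * Real.sqrt |q x| := by
    rw [hY, norm_smul]
    calc ‖lam * ((ε / g : ℝ) : ℂ)‖ * ‖X‖ ≤ ε / g * ‖X‖ := mul_le_mul_of_nonneg_right hnc hX0.le
      _ = ε * (‖X‖ / g) := by ring
      _ ≤ ε * Real.sqrt |q x| := by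
        refine mul_le_mul_of_nonneg_left ?_ hε0.le
        rw [div_le_iff₀ hg0]
        rw [div_le_iff₀ hsq0] at hg2
        linarith
  have hYd : ‖pdq q x Y‖ ≤ ε * |q x| := by
    rw [hY, M2a_smul, norm_mul]
    calc ‖lam * ((ε / g : ℝ) : ℂ)‖ * ‖pdq q x X‖ ≤ ε / g * ‖pdq q x X‖ :=
          mul_le_mul_of_nonneg_right hnc (norm_nonneg _)
      _ = ε * (‖pdq q x X‖ / g) := by ring
      _ ≤ ε * |q x| := by
        refine mul_le_mul_of_nonneg_left ?_ hε0.le
        rw [div_le_iff₀ hg0]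
        rw [div_le_iff₀ hq0] at hg1
        linarith
  have hqM : |q x| ≤ M := by
    have := hM1 x hxr
    rw [Real.norm_eq_abs] at this
    linarith
  have hsM : Real.sqrt |q x| ≤ M := by
    rw [Real.sqrt_le_left hMp.le]
    nlinarith
  have hYr : ‖Y‖ < r - a₂ := by
    have h1 : ε * Real.sqrt |q x| ≤ ε * M := mul_le_mul_of_nonneg_left hsM hε0.le
    have h2 : 0 < ε * M := by positivity
    linarith
  have hxY : x + Y ∈ closedBall (0 : Ec n) r := by
    rw [mem_closedBall_zero_iff]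
    have h1 := mem_ball_zero_iff.1 hx
    have h2 := norm_add_le x Y
    linarith
  refine ⟨hsub hxY, ?_⟩
  have h1 := htay x hxr (x + Y) hxY
  rw [add_sub_cancel_left, (pdq_sum q x Y).2] at h1
  have h2 : (pdq q x Y).re ≤ ε * |q x| := (Complex.re_le_norm _).trans hYd
  have h3 : ‖Y‖ ^ 2 ≤ ε ^ 2 * |q x| := by
    have := pow_le_pow_left₀ (norm_nonneg Y) hYn 2
    rw [mul_pow, Real.sq_sqrt (abs_nonneg _)] at this
    exact this
  have h4 : q x = -|q x| := by rw [abs_of_neg hqx]; ring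
  have h5 : M * ‖Y‖ ^ 2 ≤ (ε * M) * ε * |q x| := by
    calc M * ‖Y‖ ^ 2 ≤ M * (ε ^ 2 * |q x|) := mul_le_mul_of_nonneg_left h3 hMp.le
      _ = _ := by ring
  have h6 : ε ≤ 1 / 4 := by nlinarith
  have h7 : (ε * M) * ε ≤ 1 / 16 := by nlinarith
  nlinarith

end Pool.Agent.MPca0fc2.GW
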