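import Pool.Agent.Lib.MP_ca0fc2_an.Mg.G039
import Pool.Agent.Lib.MP_ca0fc2_an.Mg.G060

/-! The localization theorem near a boundary point, and the theorem on Q1. -/

set_option autoImplicit false

open Metric Set MeasureTheory Filter Topology

namespace Pool.Agent.MPca0fc2.GW

open Pool.Agent.MPca0fc2.FD
open Pool.Agent.Lib.MP_ca0fc2_an

variable {n : ℕ}

/-- Q1 near the analytic closure.
PROOF. As `spd` in `FD/L3.lean`, with `loc_tame` in place of `local_domain` and `locOn_disc`. (`IND.q1_closure` with `LocOn D' (TameOn D (ball p r))`; the functions of `TameOn D (ball p r)` are in `H^∞(D')`: `tame_hinf`, `isHinf_mono`.) -/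
theorem sptame (hn : 2 ≤ n) {D U : Set (Ec n)} {ρ : Ec n → ℝ} {h : Ec n → Ec n → Fin n → ℂ} {c : ℝ}
    (hs : SupportData D U ρ h c) (hρ : ContDiffOn ℝ 3 ρ U) {N : ℕ} {f : Fin N → Ec n → ℂ} {δ : ℝ}
    (hf : ∀ j, IsHinf D (f j)) (hδ0 : 0 < δ) (hδ : ∀ z ∈ D, δ ≤ ∑ j, ‖f j z‖ ^ 2)
    (hloc : ∀ p ∈ frontier D, ∃ r > 0, ∃ F : Ec n → ℂ, IsHinf (D ∩ ball p r) F ∧
      ∃ (η : ℝ) (q : Fin N → Ec n → ℂ), 4 * N * η ^ 2 < δ ∧
        (∀ j, q j ∈ AnalyticClosureOn (D ∩ ball p r)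
          (HullOn (D ∩ ball p r) (TameOn D (ball p r)) ∪ {F})) ∧
        ∀ j, ∀ z ∈ D ∩ ball p r, ‖f j z - q j z‖ ≤ η) :
    ∃ C : ℝ, SolvableOn f D C := by
  have hDo : IsOpen D := by
    rw [hs.eq]
    exact hs.dρ.continuousOn.isOpen_inter_preimage hs.opn (isOpen_Iio (a := (0:ℝ)))
  choose hfd Mf hMf using hf
  refine fibre_loc' hn hs (M := ∑ j, |Mf j|) hfd (fun j z hz => (hMf j z hz).trans ((le_abs_self _).trans
    (Finset.single_le_sum (f := fun j => |Mf j|) (fun _ _ => abs_nonneg _) (Finset.mem_univ j)))) ?_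
  intro p hp
  by_cases hpD : p ∈ D
  · exact solv_interior hDo hfd hδ0 hδ hpD
  · have hpf : p ∈ frontier D := ⟨hp, by rwa [hDo.interior_eq]⟩
    obtain ⟨r, hr, F, hF, η, q, hη, hq, hfq⟩ := hloc p hpf
    obtain ⟨D', r', hr', hD'o, hsub, hsub', hLoc⟩ := loc_tame hn hs hρ hpf hr
    have hne : D'.Nonempty := by
      have := mem_closure_iff_nhds.1 hp (ball p r') (ball_mem_nhds p hr')
      obtain ⟨x, hx⟩ := this
      exact ⟨x, hsub ⟨hx.2, hx.1⟩⟩
    have hD'D : D' ⊆ D := fun z hz => (hsub' hz).1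
    obtain ⟨C, hC⟩ := IND.q1_closure hD'o hne hLoc
      (fun a ha => isHinf_mono hsub' (tame_hinf ha))
      (isHinf_mono hsub' hF) f q hη (fun j => (hfd j).mono hD'D)
      (fun j => analyticClosureOn_mono hsub' (union_subset_union_left _ fun u hu =>
        hullOn_mono hsub' subset_rfl hu) (hq j))
      (fun j z hz => hfq j z (hsub' hz)) (fun z hz => hδ z (hD'D hz))
    exact ⟨r', hr', C, Fib_mono hC hsub le_rfl⟩

end Pool.Agent.MPca0fc2.GW
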