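import Pool.Agent.Lib.MP_ca0fc2_an.Mg.G039
import Pool.Agent.Lib.MP_ca0fc2_an.Mg.G060

/-! The localization theorem near a boundary point, and the theorem on Q1. -/

set_option autoImplicit false

open Metric Set MeasureTheory Filter Topology

namespace Pool.Agent.MPca0fc2.GW

open Pool.Agent.MPca0fc2.FD
open Pool.Agent.Lib.MP_ca0fc2_an

variable {n : ℕ}

/-- The functions which are tame near each boundary point. -/
def TameGlob (D : Set (Ec n)) : Set (Ec n → ℂ) :=
  {u | IsHinf D u ∧ ∀ p ∈ frontier D, ∃ r > 0, u ∈ TameOn D (ball p r)}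

/-- PROOF. Restriction of all the conditions to `D ∩ ball p r'` (`infDist` is to `Dᶜ` in both cases). -/
theorem tame_mono {D : Set (Ec n)} {p : Ec n} {r r' : ℝ} (hr : r' ≤ r) {u : Ec n → ℂ}
    (hu : u ∈ TameOn D (ball p r)) : u ∈ TameOn D (ball p r') := by
  have hb : ball p r' ⊆ ball p r := ball_subset_ball hr
  have hb' : D ∩ ball p r' ⊆ D ∩ ball p r := inter_subset_inter_right _ hb
  rcases hu with hu | hu
  · left
    obtain ⟨h1, K, q, V, N, w, h2, h3, h4⟩ := hu
    refine ⟨isHinf_mono hb' h1, K, q, V, N, w, h2, ?_, fun φ hφ hm => h4 φ hφ fun x hx =>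
      hb' (hm x hx)⟩
    exact ⟨h3.pos, fun i => (h3.hol i).mono hb, fun i z hz => h3.bdd i z (hb hz),
      fun i z hz => h3.re i z (hb' hz), fun z hz m => h3.carl z (hb' hz) m⟩
  · right
    obtain ⟨h1, ω, h2, h3, h4⟩ := hu
    exact ⟨isHinf_mono hb' h1, ω, h2, h3, fun z hz => h4 z (hb' hz)⟩

/-- The localization principle on `D`.
PROOF. `fibre_loc'` (`FD/Fib.lean`): for `p ∈ D`: the functions `a i` are continuous, so a small ball around `p` is in the cell of `p`, where `f` is solvable by hypothesis. For `p ∈ frontier D`: let `r` be the least of the radii for the `a i` (`tame_mono`), `loc_tame`: `D'`; the cells of `a` in `D'` are contained in the cells in `D` (with centre `b ∈ D'`), so `f` is solvable on `D' ⊇ D ∩ ball p r'`. -/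
theorem locOn_tame (hn : 2 ≤ n) {D U : Set (Ec n)} {ρ : Ec n → ℝ} {h : Ec n → Ec n → Fin n → ℂ}
    {c : ℝ} (hs : SupportData D U ρ h c) (hρ : ContDiffOn ℝ 3 ρ U) :
    CXS.LocOn D (TameGlob D) := by
  intro N k f a C ε hf ha hε hloc
  have hDo : IsOpen D := by
    rw [hs.eq]
    exact hs.dρ.continuousOn.isOpen_inter_preimage hs.opn (isOpen_Iio (a := (0:ℝ)))
  have hf' := hf
  choose hfd Mf hMf using hf
  refine fibre_loc' hn hs (M := ∑ j, |Mf j|) hfd (fun j z hz => (hMf j z hz).trans ((le_abs_self _).trans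
    (Finset.single_le_sum (f := fun j => |Mf j|) (fun _ _ => abs_nonneg _) (Finset.mem_univ j)))) ?_
  intro p hp
  by_cases hpD : p ∈ D
  · have hnh : {z | z ∈ D ∧ ∀ i, ‖a i z - a i p‖ < ε} ∈ 𝓝 p := by
      have h1 : ∀ i, ∀ᶠ z in 𝓝 p, ‖a i z - a i p‖ < ε := by
        intro i
        have h2 : ContinuousAt (a i) p :=
          ((ha i).1.1.continuousOn).continuousAt (hDo.mem_nhds hpD)
        have h3 : Tendsto (fun z => ‖a i z - a i p‖) (𝓝 p) (𝓝 ‖a i p - a i p‖) :=
          (h2.sub_const (a i p)).norm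
        rw [sub_self, norm_zero] at h3
        exact h3.eventually_lt_const hε
      filter_upwards [hDo.mem_nhds hpD, eventually_all.2 h1] with z hz1 hz2
      exact ⟨hz1, hz2⟩
    obtain ⟨r, hr, hsub⟩ := Metric.mem_nhds_iff.1 hnh
    exact ⟨r, hr, C, Fib_mono (hloc p hpD) (fun z hz => hsub hz.2) le_rfl⟩
  · have hpf : p ∈ frontier D := ⟨hp, by rwa [hDo.interior_eq]⟩
    choose rr hrr hrt using fun i => (ha i).2 p hpf
    obtain ⟨r, hr, hmin⟩ := Fib_min Finset.univ rr fun i _ => hrr i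
    obtain ⟨D', r', hr', hD'o, hsub, hsub', hLoc⟩ := loc_tame hn hs hρ hpf hr
    have hD'D : D' ⊆ D := fun z hz => (hsub' hz).1
    obtain ⟨C', hC'⟩ := hLoc N k f a C ε (fun j => isHinf_mono hD'D (hf' j))
      (fun i => tame_mono (hmin i (Finset.mem_univ i)) (hrt i)) hε
      (fun b hb => Fib_mono (hloc b (hD'D hb)) (fun z hz => ⟨hD'D hz.1, hz.2⟩) le_rfl)
    exact ⟨r', hr', C', Fib_mono hC' hsub le_rfl⟩

end Pool.Agent.MPca0fc2.GW
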