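import Pool.Agent.Lib.MP_ca0fc2_an.Mg.G002
import Pool.Agent.Lib.MP_ca0fc2_an.CXSRate
import Pool.Agent.Lib.MP_ca0fc2_an.Mg.G003

/-! The localization theorem near a boundary point, and the theorem on Q1. -/

set_option autoImplicit false

open Metric Set MeasureTheory Filter Topology

namespace Pool.Agent.MPca0fc2.GW

open Pool.Agent.MPca0fc2.FD
open Pool.Agent.Lib.MP_ca0fc2_an

variable {n : ℕ}

/-- The slowly oscillating functions on `D` in the sense of `SlowOn` are in `SlowLoc`.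
PROOF. Let `ω` be the rate of `u`, `g(t) = t · sup {‖du(z)‖ : z ∈ D, infDist z Dᶜ ≥ t}` for `0 < t < t₁`, where `t₁ ≤ 1` is such that the level sets `{infDist z Dᶜ = t}`, `t < t₁`, are nonempty (`infDist` is continuous and tends to `0` at the boundary; if `D` is nonempty and bounded, `t₁ = ` its supremum). By `CXS.grad_maxD` `g(t) ≤ ω(t)`; `g(t) / t` is decreasing. Let `ω₁(t) = max (g t) t` for
`t < t₁`, and `ω₁(t) = K t` with a constant for `t₁ ≤ t < 1`, chosen so that `ω₁ t / t` is decreasing (take `ω₁ t / t = max (g t / t) 1` for `t < t₁` and `= 1` for `t ≥ t₁`). `Rate ω₁`: `ω₁ > 0`; `exp(-c / ω₁) ≤ exp(-c / ω) + exp(-c / t)` for `t < t₁`; `g` is measurable as `g t / t` is monotone. For `z` with `infDist < t₁` the inequality holds by definition of `g`; no point of `D` has a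
distance `> t₁`, and distance `= t₁` is handled by `g(t₁)`-like constants (or take `ω₁ t / t = max (‖du‖ sup over infDist ≥ t) 1` for all `t ∈ (0, 1)`, with `sup ∅ = 0`). -/
theorem slow_incl {D : Set (Ec n)} (hn : 1 ≤ n) (hDo : IsOpen D) (hDb : Bornology.IsBounded D) {u : Ec n → ℂ}
    (hu : u ∈ SlowOn D) (B : Set (Ec n)) (hB : IsOpen B) : u ∈ SlowLoc D B := by
  classical
  haveI : Nonempty (Fin n) := ⟨⟨0, hn⟩⟩
  obtain ⟨hu1, ω, hω, hle⟩ := hu
  obtain ⟨hdiff, M, hM⟩ := hu1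
  -- the bound by the maximum principle
  have hmax : ∀ t : ℝ, 0 < t → t < 1 → ∀ z ∈ D, t ≤ infDist z Dᶜ →
      ‖fderiv ℂ u z‖ ≤ ω t / t := by
    intro t ht0 ht1 z _ hz
    have hωt := hω.1 t ⟨ht0, ht1⟩
    refine CXS.grad_maxD hDo hDb hdiff hM ht0 (div_nonneg hωt.le ht0.le) ?_ hz
    intro w hw hwt
    have h1 := hle w hw (by rw [hwt]; exact ht1)
    rw [hwt] at h1
    rw [le_div_iff₀ ht0]
    linarith
  obtain ⟨S, hS⟩ : ∃ S : ℝ → Set ℝ, ∀ t, S t =
      {x | ∃ z ∈ D, t ≤ infDist z Dᶜ ∧ x = ‖fderiv ℂ u z‖} := ⟨_, fun _ => rfl⟩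
  obtain ⟨G, hG⟩ : ∃ G : ℝ → ℝ, ∀ t, G t = sSup (S t) := ⟨_, fun _ => rfl⟩
  have hG0 : ∀ t, 0 ≤ G t := by
    intro t
    rw [hG]
    refine Real.sSup_nonneg fun x hx => ?_
    rw [hS] at hx
    obtain ⟨z, _, _, rfl⟩ := hx
    exact norm_nonneg _
  have hbdd : ∀ t : ℝ, 0 < t → t < 1 → BddAbove (S t) := by
    intro t ht0 ht1
    refine ⟨ω t / t, ?_⟩
    intro x hx
    rw [hS] at hx
    obtain ⟨z, hz, hzt, rfl⟩ := hx
    exact hmax t ht0 ht1 z hz hzt
  have hGle : ∀ t : ℝ, 0 < t → t < 1 → G t ≤ ω t / t := by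
    intro t ht0 ht1
    rw [hG]
    refine Real.sSup_le ?_ (div_nonneg (hω.1 t ⟨ht0, ht1⟩).le ht0.le)
    intro x hx
    rw [hS] at hx
    obtain ⟨z, hz, hzt, rfl⟩ := hx
    exact hmax t ht0 ht1 z hz hzt
  have hanti : AntitoneOn G (Ioo 0 1) := by
    intro a ha b hb hab
    rw [hG b]
    refine Real.sSup_le ?_ (hG0 a)
    intro x hx
    rw [hG a]
    refine le_csSup (hbdd a ha.1 ha.2) ?_
    rw [hS] at hx ⊢
    obtain ⟨z, hz, hzt, rfl⟩ := hx
    exact ⟨z, hz, hab.trans hzt, rfl⟩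
  have hanti2 : AntitoneOn (fun t => max (G t) 1) (Ioo 0 1) := by
    intro a ha b hb hab
    exact max_le_max (hanti ha hb hab) (le_refl _)
  refine ⟨⟨hdiff.mono inter_subset_left, M, fun z hz => hM z hz.1⟩,
    fun t => t * max (G t) 1, ⟨?_, ?_⟩, ?_, ?_⟩
  · intro t ht
    exact mul_pos ht.1 (lt_of_lt_of_le one_pos (le_max_right _ _))
  · intro c hc
    have hint := (CXS.rate_max hω CXS.rate_id).2 c hc
    refine Integrable.mono' hint ?_ ?_
    · have h1 : AEMeasurable (fun t => max (G t) 1) (volume.restrict (Ioo (0 : ℝ) 1)) :=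
        aemeasurable_restrict_of_antitoneOn measurableSet_Ioo hanti2
      have h2 : AEMeasurable (fun t : ℝ => t * max (G t) 1) (volume.restrict (Ioo (0 : ℝ) 1)) :=
        aemeasurable_id.mul h1
      have h3 : AEMeasurable (fun t : ℝ => Real.exp (-(c / (t * max (G t) 1))) / t)
          (volume.restrict (Ioo (0 : ℝ) 1)) :=
        ((Real.measurable_exp.comp_aemeasurable (h2.const_div c).neg)).div aemeasurable_id
      exact h3.aestronglyMeasurable
    · rw [ae_restrict_iff' measurableSet_Ioo]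
      refine Eventually.of_forall fun t ht => ?_
      have ht0 : 0 < t := ht.1
      have hωt := hω.1 t ht
      have hp1 : 0 < t * max (G t) 1 := mul_pos ht0 (lt_of_lt_of_le one_pos (le_max_right _ _))
      have h1 : t * max (G t) 1 ≤ max (ω t) t := by
        rw [mul_max_of_nonneg _ _ ht0.le]
        refine max_le_max ?_ (by rw [mul_one])
        have h2 := hGle t ht0 ht.2
        rw [le_div_iff₀ ht0] at h2
        linarith
      rw [Real.norm_eq_abs, abs_of_pos (div_pos (Real.exp_pos _) ht0)]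
      show Real.exp (-(c / (t * max (G t) 1))) / t ≤ Real.exp (-(c / max (ω t) t)) / t
      refine div_le_div_of_nonneg_right (Real.exp_le_exp.mpr (neg_le_neg ?_)) ht0.le
      exact div_le_div_of_nonneg_left hc.le hp1 h1
  · intro a ha b hb hab
    show b * max (G b) 1 / b ≤ a * max (G a) 1 / a
    rw [mul_div_cancel_left₀ _ ha.1.ne', mul_div_cancel_left₀ _ hb.1.ne']
    exact hanti2 ha hb hab
  · intro z hz hz1
    rcases (infDist_nonneg (x := z) (s := Dᶜ)).eq_or_lt with h0 | h0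
    · rw [← h0]
      simp
    · refine mul_le_mul_of_nonneg_left (le_trans ?_ (le_max_left _ _)) h0.le
      rw [hG]
      refine le_csSup (hbdd _ h0 hz1) ?_
      rw [hS]
      exact ⟨z, hz.1, le_refl _, rfl⟩

end Pool.Agent.MPca0fc2.GW
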