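import Pool.Agent.Lib.MP_ca0fc2_an.Mg.G023
import Pool.Agent.Lib.MP_ca0fc2_an.Mg.G065

/-! Joint cluster values of the functions in the analytic closure. -/

set_option autoImplicit false

open Metric Set MeasureTheory Filter Topology

namespace Pool.Agent.MPca0fc2.IND

open Pool.Agent.Lib.MP_ca0fc2_an
open Pool.Agent.MPca0fc2.CXS (LocOn)

variable {n : ℕ} {Δ : Set (EuclideanSpace ℂ (Fin n))}

private theorem N4_glue {A : Set (EuclideanSpace ℂ (Fin n) → ℂ)} {F : EuclideanSpace ℂ (Fin n) → ℂ} (hF : IsHinf Δ F)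
    {Φ : Char Δ Unit} (hE : Ext Δ A Φ) {N : ℕ} (w : Fin N → EuclideanSpace ℂ (Fin n) → ℂ)
    (hBw : ∀ j, BH Δ (cf (w j))) (hΦw : ∀ j, Φ.φ (cf (w j)) = 0) (J' : Finset A) {ε₂ CL : ℝ}
    (hε₂ : 0 < ε₂)
    (hloc : ∀ D : Set (EuclideanSpace ℂ (Fin n)), D ⊆ Δ →
      (∀ k ∈ J', ∀ z ∈ D, ‖k.1 z - Φ.φ (cf k.1)‖ ≤ ε₂) →
      ∃ (h₀ : EuclideanSpace ℂ (Fin n) → ℂ) (h : Fin N → EuclideanSpace ℂ (Fin n) → ℂ),
        DifferentiableOn ℂ h₀ D ∧ (∀ j, DifferentiableOn ℂ (h j) D) ∧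
        (∀ z ∈ D, ‖h₀ z‖ ≤ CL) ∧ (∀ j, ∀ z ∈ D, ‖h j z‖ ≤ CL) ∧
        ∀ z ∈ D, (F z - Φ.φ (cf F)) * h₀ z + ∑ j, w j z * h j z = 1) : False := by
  classical
  obtain ⟨K, hK⟩ : ∃ K, K = Fintype.card J' := ⟨_, rfl⟩
  obtain ⟨e⟩ : Nonempty (Fin K ≃ J') := by rw [hK]; exact ⟨(Fintype.equivFin _).symm⟩
  obtain ⟨a, ha⟩ : ∃ a : Fin K → EuclideanSpace ℂ (Fin n) → ℂ, a = fun i => (e i).1.1 := ⟨_, rfl⟩
  have haA : ∀ i, a i ∈ A := fun i => by rw [ha]; exact (e i).1.2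
  obtain ⟨x, hx⟩ : ∃ x : EuclideanSpace ℂ (Fin n) → ℂ, x = fun z => F z - Φ.φ (cf F) := ⟨_, rfl⟩
  have hxB : BH Δ (cf x) := by rw [hx]; exact (bh_of_hinf hF).sub (BH.const _)
  have hx0 : Φ.φ (cf x) = 0 := by
    have h1 := Char.map_sub Φ (bh_of_hinf hF) (BH.const (Φ.φ (cf F)))
    rw [Φ.map_const, sub_self] at h1
    rw [hx]
    exact h1
  obtain ⟨h₀, h, h1, h2, h3, h4, h5⟩ := hloc (cellOn Δ a (fun i => Φ.φ (cf (a i))) ε₂)
    (fun z hz => hz.1) (by
      intro k hk z hz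
      have h6 := (hz.2 (e.symm ⟨k, hk⟩)).le
      dsimp only at h6
      have h8 : a (e.symm ⟨k, hk⟩) = k.1 := by
        rw [ha]
        show (e (e.symm ⟨k, hk⟩)).1.1 = k.1
        rw [Equiv.apply_symm_apply]
      rw [h8] at h6
      exact h6)
  refine hE (1 + N) (Fin.append (fun _ : Fin 1 => x) w) ?_ ?_ K a haA ε₂ hε₂ CL ?_
  · intro j
    refine Fin.addCases (fun i => ?_) (fun j => ?_) j
    · rw [Fin.append_left]; exact hxB
    · rw [Fin.append_right]; exact hBw j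
  · intro j
    refine Fin.addCases (fun i => ?_) (fun j => ?_) j
    · rw [Fin.append_left]; exact hx0
    · rw [Fin.append_right]; exact hΦw j
  · refine ⟨Fin.append (fun _ : Fin 1 => h₀) h, fun j => ?_, fun j => ?_, fun z hz => ?_⟩
    · refine Fin.addCases (fun i => ?_) (fun j => ?_) j
      · rw [Fin.append_left]; exact h1
      · rw [Fin.append_right]; exact h2 j
    · refine Fin.addCases (fun i => ?_) (fun j => ?_) j
      · rw [Fin.append_left]; exact h3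
      · rw [Fin.append_right]; exact h4 j
    · rw [Fin.sum_univ_add, Fin.sum_univ_one]
      simp only [Fin.append_left, Fin.append_right]
      rw [hx]
      exact h5 z hz

private theorem N4_nonempty {A : Set (EuclideanSpace ℂ (Fin n) → ℂ)} {Φ : Char Δ Unit}
    (hE : Ext Δ A Φ) : Δ.Nonempty := by
  by_contra hne
  rw [Set.not_nonempty_iff_eq_empty] at hne
  refine hE 0 (fun j => j.elim0) (fun j => j.elim0) (fun j => j.elim0) 0 (fun j => j.elim0)
    (fun j => j.elim0) 1 one_pos 0 ?_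
  refine ⟨fun j => j.elim0, fun j => j.elim0, fun j => j.elim0, fun z hz => ?_⟩
  have h1 : z ∈ Δ := hz.1
  rw [hne] at h1
  exact absurd h1 (Set.notMem_empty z)

/-- Joint cluster values of the functions in the class, for a character with `Ext`.
PROOF. Copy the proof of `cluster_T` (`INDClT.lean`); only the use of `glue_core` is different. Instead of `glue_core` use `hE` directly: the family `(F - Φ F, w j)` is killed by `Φ` and is solvable on the cell `cellOn Δ a (Φ (a i)) ε₂`, where `a` is an enumeration of `J'` (take `D` = this cell in the local solution). -/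
theorem cluster_E {A : Set (EuclideanSpace ℂ (Fin n) → ℂ)}
    (hAH : ∀ a ∈ A, IsHinf Δ a) {F : EuclideanSpace ℂ (Fin n) → ℂ} (hF : IsHinf Δ F)
    {Φ : Char Δ Unit} (hE : Ext Δ A Φ) {N : ℕ} (G : Fin N → EuclideanSpace ℂ (Fin n) → ℂ)
    (hG : ∀ j, InT Φ (flt Φ A F) (G j)) {ε : ℝ} (hε : 0 < ε) :
    ∃ z ∈ Δ, ∀ j, ‖G j z - Φ.φ (cf (G j))‖ < ε := by
  classical
  by_contra hcon
  push Not at hcon
  have hg := flt_good Φ A F
  choose e he hr using fun j => (hG j).2 (ε / 16) (by positivity)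
  have h1 := prod_nb hg (fun j => Φ.φ (cf (G j))) hε he hr hcon
  have h2 : Ide Φ (flt Φ A F) (1 - ∏ j, e j) := (Idm.prod hg Finset.univ he).ide
  have h3 : Ide Φ (flt Φ A F) (1 : Fam (EuclideanSpace ℂ (Fin n))) := by
    refine h2.congr ?_
    rw [sub_sub_cancel]
    exact fun θ hθ => h1.mono hθ.le
  obtain ⟨k, v, h, hv, hh, Ψ, hΨ, hΨe⟩ := h3 (1 / 2) (by norm_num)
  obtain ⟨BΨ, hBΨ0, hBΨ⟩ := hΨ.bdd'
  choose Bh hBh0 hBh using fun i => (hh i).bdd'
  have hev : ∀ᶠ w in flt Φ A F, ((∀ z ∈ w.1, ‖(1 - ∑ i, gl (v i) * h i : Fam _) w z -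
      w.2 z * Ψ w z‖ ≤ 1 / 2) ∧ (DifferentiableOn ℂ (Ψ w) w.1 ∧ ∀ z ∈ w.1, ‖Ψ w z‖ ≤ BΨ)) ∧
      ∀ i, DifferentiableOn ℂ (h i w) w.1 ∧ ∀ z ∈ w.1, ‖h i w z‖ ≤ Bh i :=
    (hΨe.and hBΨ).and (eventually_all.2 hBh)
  obtain ⟨J', ε₂, hε₂, hW⟩ := (mem_flt Φ A F).1 hev
  have hBd : ∀ j, BH Δ (cf fun z => G j z - Φ.φ (cf (G j))) := fun j =>
    (hG j).1.sub (BH.const _)
  obtain ⟨w, hw⟩ : ∃ w : Fin (k + N) → EuclideanSpace ℂ (Fin n) → ℂ,
    w = Fin.append v (fun j z => G j z - Φ.φ (cf (G j))) := ⟨_, rfl⟩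
  obtain ⟨CL, hCL⟩ : ∃ CL, CL = 2 * BΨ + ∑ i, 2 * Bh i := ⟨_, rfl⟩
  have hs0 : ∀ i, 0 ≤ 2 * Bh i := fun i => by have := hBh0 i; positivity
  have hCL1 : 2 * BΨ ≤ CL := by
    rw [hCL]
    have := Finset.sum_nonneg (s := Finset.univ) fun i _ => hs0 i
    linarith
  have hCL2 : ∀ i, 2 * Bh i ≤ CL := by
    intro i
    rw [hCL]
    have := Finset.single_le_sum (f := fun i => 2 * Bh i) (fun i _ => hs0 i) (Finset.mem_univ i)
    linarith
  have hCL0 : 0 ≤ CL := le_trans (by positivity) hCL1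
  refine N4_glue hF hE w ?_ ?_ J' (ε₂ := ε₂) (CL := CL) hε₂ ?_
  · intro i
    rw [hw]
    refine Fin.addCases (fun i => ?_) (fun i => ?_) i
    · rw [Fin.append_left]; exact (hv i).1
    · rw [Fin.append_right]; exact hBd i
  · intro i
    rw [hw]
    refine Fin.addCases (fun i => ?_) (fun i => ?_) i
    · rw [Fin.append_left]; exact (hv i).2
    · rw [Fin.append_right]
      have h4 := Char.map_sub Φ (hG i).1 (BH.const (Φ.φ (cf (G i))))
      rw [Φ.map_const, sub_self] at h4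
      exact h4
  · intro D hD hJ'
    obtain ⟨x, hxdef⟩ : ∃ x : EuclideanSpace ℂ (Fin n) → ℂ, x = fun z => F z - Φ.φ (cf F) :=
      ⟨_, rfl⟩
    have hx : DifferentiableOn ℂ x D := by
      rw [hxdef]; exact (hF.1.mono hD).sub_const _
    have hxz : ∀ z, F z - Φ.φ (cf F) = x z := fun z => by rw [hxdef]
    simp only [hxz]
    obtain ⟨⟨a1, a2⟩, a3⟩ := hW (D, x) ⟨hD, hx, fun z _ => hxz z, hJ'⟩
    dsimp only at a1 a2 a3
    obtain ⟨Λ, hΛ⟩ : ∃ Λ : EuclideanSpace ℂ (Fin n) → ℂ, Λ = fun z =>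
      ∑ i, v i z * h i (D, x) z + x z * Ψ (D, x) z := ⟨_, rfl⟩
    have hval : ∀ z, (1 - ∑ i, gl (v i) * h i : Fam (EuclideanSpace ℂ (Fin n))) (D, x) z -
        x z * Ψ (D, x) z = 1 - Λ z := by
      intro z
      have : (1 - ∑ i, gl (v i) * h i : Fam (EuclideanSpace ℂ (Fin n))) (D, x) z =
          1 - ∑ i, v i z * h i (D, x) z := by
        simp only [Pi.sub_apply, Pi.one_apply, Finset.sum_apply, Pi.mul_apply, gl]
      rw [this, hΛ]
      ring
    have hΛ2 : ∀ z ∈ D, 1 / 2 ≤ ‖Λ z‖ := by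
      intro z hz
      have h6 := a1 z hz
      rw [hval z] at h6
      have h7 : (1 : ℝ) ≤ ‖1 - Λ z‖ + ‖Λ z‖ := by
        calc (1 : ℝ) = ‖(1 - Λ z) + Λ z‖ := by rw [sub_add_cancel, norm_one]
          _ ≤ _ := norm_add_le _ _
      linarith
    have hΛ0 : ∀ z ∈ D, Λ z ≠ 0 := by
      intro z hz h0
      have := hΛ2 z hz
      rw [h0, norm_zero] at this
      norm_num at this
    have hv' : ∀ i, DifferentiableOn ℂ (v i) D := fun i => ((hv i).1.holo ()).mono hD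
    have hΛd : DifferentiableOn ℂ Λ D := by
      rw [hΛ]
      exact (DifferentiableOn.fun_sum fun i _ => (hv' i).mul (a3 i).1).add (hx.mul a2.1)
    have hdiv : ∀ (q : EuclideanSpace ℂ (Fin n) → ℂ) (B : ℝ), (∀ z ∈ D, ‖q z‖ ≤ B) →
        ∀ z ∈ D, ‖q z / Λ z‖ ≤ 2 * B := by
      intro q B hq z hz
      rw [norm_div, div_le_iff₀ (by have := hΛ2 z hz; linarith)]
      have h8 := hq z hz
      have h9 := hΛ2 z hz
      have h10 := norm_nonneg (q z)
      nlinarith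
    have hinv : DifferentiableOn ℂ (fun z => (Λ z)⁻¹) D := hΛd.inv hΛ0
    refine ⟨fun z => Ψ (D, x) z / Λ z,
      Fin.append (fun i z => h i (D, x) z / Λ z) (fun _ _ => 0), ?_, ?_, ?_, ?_, ?_⟩
    · simp only [div_eq_mul_inv]
      exact a2.1.mul hinv
    · intro i
      refine Fin.addCases (fun i => ?_) (fun i => ?_) i
      · rw [Fin.append_left]
        simp only [div_eq_mul_inv]
        exact (a3 i).1.mul hinv
      · rw [Fin.append_right]; exact differentiableOn_const _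
    · exact fun z hz => (hdiv _ BΨ a2.2 z hz).trans hCL1
    · intro i
      refine Fin.addCases (fun i => ?_) (fun i => ?_) i
      · intro z hz
        rw [Fin.append_left]
        exact (hdiv _ (Bh i) (a3 i).2 z hz).trans (hCL2 i)
      · intro z hz
        rw [Fin.append_right, norm_zero]
        exact hCL0
    · intro z hz
      rw [Fin.sum_univ_add, hw]
      simp only [Fin.append_left, Fin.append_right, mul_zero, Finset.sum_const_zero, add_zero]
      have h11 := hΛ0 z hz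
      have h12 : ∑ i, v i z * (h i (D, x) z / Λ z) = (∑ i, v i z * h i (D, x) z) / Λ z := by
        rw [Finset.sum_div]
        exact Finset.sum_congr rfl fun i _ => by ring
      rw [h12]
      have h13 : ∑ i, v i z * h i (D, x) z = Λ z - x z * Ψ (D, x) z := by
        rw [hΛ]; ring
      rw [h13]
      field_simp
      ring

/-- PROOF. Copy the proof of `inT_analytic` (`INDEq.lean`) with `cluster_E` in place of `cluster_T`. (`Δ` is nonempty: `hE` with `N = 0`, `k = 0`: the empty family is solvable on the empty set.) -/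
theorem inT_analyticE {A : Set (EuclideanSpace ℂ (Fin n) → ℂ)}
    (hAH : ∀ a ∈ A, IsHinf Δ a) {F : EuclideanSpace ℂ (Fin n) → ℂ}
    (hF : IsHinf Δ F) {Φ : Char Δ Unit} (hE : Ext Δ A Φ)
    {R : Set (EuclideanSpace ℂ (Fin n) → ℂ)} (hR : ∀ a ∈ R, InT Φ (flt Φ A F) a) :
    ∀ g ∈ AnalyticOverOn Δ R, InT Φ (flt Φ A F) g := by
  have hΔ : Δ.Nonempty := N4_nonempty hE
  rintro G ⟨hGd, a, A', M, ρ, c, hMρ, hc, haR, hGM, haA, hs, hlow, heq⟩
  have hg := flt_good Φ A F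
  obtain ⟨z₀, h0⟩ := hΔ
  have hM0 : 0 ≤ M := (norm_nonneg _).trans (hGM z₀ h0)
  have hρ0 : 0 < ρ := lt_of_le_of_lt hM0 hMρ
  have hA0 : ∀ k, 0 ≤ A' k := fun k => (norm_nonneg _).trans (haA k z₀ h0)
  have haT : ∀ k, InT Φ (flt Φ A F) (a k) := fun k => hR _ (haR k)
  have hG : BH Δ (cf G) := ⟨fun _ => hGd, M, fun _ z hz => hGM z hz⟩
  obtain ⟨γ, hγ⟩ : ∃ γ, γ = Φ.φ (cf G) := ⟨_, rfl⟩
  have hγM : ‖γ‖ ≤ M := by rw [hγ]; exact Φ.bound hG hM0 fun _ z hz => hGM z hz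
  obtain ⟨d, hd⟩ : ∃ d : ℕ → ℂ, d = fun k => Φ.φ (cf (a k)) := ⟨_, rfl⟩
  have hdk : ∀ k, d k = Φ.φ (cf (a k)) := fun k => by rw [hd]
  have hdA : ∀ k, ‖d k‖ ≤ A' k := fun k => by
    rw [hdk]; exact Φ.bound (haT k).1 (hA0 k) fun _ z hz => haA k z hz
  -- the tails
  have hterm0 : ∀ k, 0 ≤ A' k * ρ ^ k := fun k => mul_nonneg (hA0 k) (by positivity)
  have htail : ∀ η : ℝ, 0 < η → ∃ m : ℕ, ∑' k, A' (k + m) * ρ ^ (k + m) < η := by
    intro η hη
    have h1 := tendsto_sum_nat_add fun k => A' k * ρ ^ k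
    exact (h1.eventually_lt_const hη).exists
  have htb : ∀ (b : ℕ → ℂ) (y : ℂ), (∀ k, ‖b k‖ ≤ A' k) → ‖y‖ ≤ ρ → (Summable fun k => b k * y ^ k) ∧
      ∀ m, ‖(∑' k, b k * y ^ k) - ∑ k ∈ Finset.range m, b k * y ^ k‖ ≤
        ∑' k, A' (k + m) * ρ ^ (k + m) := by
    intro b y hbk hy
    have h1 : ∀ k, ‖b k * y ^ k‖ ≤ A' k * ρ ^ k := fun k => by
      rw [norm_mul, norm_pow]
      exact mul_le_mul (hbk k) (pow_le_pow_left₀ (norm_nonneg _) hy k) (by positivity) (hA0 k)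
    have h2 : Summable fun k => b k * y ^ k := Summable.of_norm_bounded hs h1
    refine ⟨h2, fun m => ?_⟩
    rw [← h2.sum_add_tsum_nat_add m, add_sub_cancel_left]
    exact tsum_of_norm_bounded ((summable_nat_add_iff m).2 hs).hasSum fun k => h1 (k + m)
  -- not all the values of the coefficients are zero
  have hne : ∃ k, d k ≠ 0 := by
    by_contra hcon
    push Not at hcon
    obtain ⟨m, hm⟩ := htail (c / 2) (by positivity)
    obtain ⟨P, hP⟩ : ∃ P : ℝ, P = ∑ k ∈ Finset.range m, ρ ^ k := ⟨_, rfl⟩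
    have hP0 : 0 ≤ P := by rw [hP]; exact Finset.sum_nonneg fun k _ => by positivity
    obtain ⟨z, hz, hz1⟩ := cluster_E hAH hF hE (fun k : Fin m => a k) (fun k => haT k)
      (ε := c / (4 * (P + 1))) (by positivity)
    have h2 := hlow z hz
    have hsz : Summable fun k => ‖a k z‖ * ρ ^ k := by
      refine Summable.of_nonneg_of_le (fun k => by positivity) (fun k => ?_) hs
      exact mul_le_mul_of_nonneg_right (haA k z hz) (by positivity)
    rw [← hsz.sum_add_tsum_nat_add m] at h2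
    have h3 : ∑' k, ‖a (k + m) z‖ * ρ ^ (k + m) ≤ ∑' k, A' (k + m) * ρ ^ (k + m) :=
      Summable.tsum_le_tsum (fun k => mul_le_mul_of_nonneg_right (haA (k + m) z hz) (by positivity))
        ((summable_nat_add_iff m).2 hsz) ((summable_nat_add_iff m).2 hs)
    have h4 : ∑ k ∈ Finset.range m, ‖a k z‖ * ρ ^ k ≤ c / (4 * (P + 1)) * P := by
      have h8 : c / (4 * (P + 1)) * P = ∑ k ∈ Finset.range m, c / (4 * (P + 1)) * ρ ^ k := by
        rw [← Finset.mul_sum, ← hP]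
      rw [h8]
      refine Finset.sum_le_sum fun k hk => ?_
      have h5 := hz1 ⟨k, Finset.mem_range.1 hk⟩
      dsimp only at h5
      rw [← hdk k, hcon k, sub_zero] at h5
      exact mul_le_mul_of_nonneg_right h5.le (by positivity)
    have h6 : c / (4 * (P + 1)) * P ≤ c / 4 := by
      rw [div_mul_eq_mul_div, div_le_div_iff₀ (by positivity) (by norm_num)]
      nlinarith
    linarith
  obtain ⟨S, hS⟩ : ∃ S : ℂ → ℂ, S = fun y => ∑' k, d k * y ^ k := ⟨_, rfl⟩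
  have hSd : DifferentiableOn ℂ S (ball 0 ρ) := by
    rw [hS]
    refine Complex.differentiableOn_tsum_of_summable_norm hs (fun k => ?_) isOpen_ball
      fun k y hy => ?_
    · exact ((differentiable_id.pow k).const_mul (d k)).differentiableOn
    · rw [norm_mul, norm_pow]
      rw [mem_ball_zero_iff] at hy
      exact mul_le_mul (hdA k) (pow_le_pow_left₀ (norm_nonneg _) hy.le k) (by positivity) (hA0 k)
  have hSγ : S γ = 0 := by
    by_contra hcon
    have hpos : 0 < ‖S γ‖ := norm_pos_iff.2 hcon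
    obtain ⟨m, hm⟩ := htail (‖S γ‖ / 4) (by positivity)
    have h1 := (htb d γ hdA (by linarith)).2 m
    obtain ⟨h2, h3⟩ := map_poly Φ hG (fun k => (haT k).1) m
    have h4 : ‖Φ.φ (cf fun z => ∑ k ∈ Finset.range m, a k z * G z ^ k)‖ ≤ ‖S γ‖ / 4 := by
      refine Φ.bound h2 (by positivity) fun _ z hz => ?_
      have h5 := (htb (fun k => a k z) (G z) (fun k => haA k z hz)
        (by have := hGM z hz; linarith)).2 m
      rw [heq z hz, zero_sub, norm_neg] at h5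
      exact h5.trans hm.le
    rw [h3, ← hγ] at h4
    simp only [← hdk] at h4
    have h6 : S γ = ∑' k, d k * γ ^ k := by rw [hS]
    rw [← h6] at h1
    have h7 : ‖S γ‖ ≤ ‖S γ - ∑ k ∈ Finset.range m, d k * γ ^ k‖ +
        ‖∑ k ∈ Finset.range m, d k * γ ^ k‖ := by
      calc ‖S γ‖ = ‖(S γ - ∑ k ∈ Finset.range m, d k * γ ^ k) +
            ∑ k ∈ Finset.range m, d k * γ ^ k‖ := by rw [sub_add_cancel]
        _ ≤ _ := norm_add_le _ _
    linarith
  have hγU : γ ∈ ball (0 : ℂ) ρ := by rw [mem_ball_zero_iff]; linarith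
  have hSne : ∃ y ∈ ball (0 : ℂ) ρ, S y ≠ 0 := by
    rw [hS]; exact IN.series_ne hρ0 hdA hs hne
  obtain ⟨K, hK, q, hq, hq0, hfac⟩ := IN.factor_one isOpen_ball
    (convex_ball (0 : ℂ) ρ).isPreconnected hγU hSd hSγ hSne
  obtain ⟨R', T', hR', hT', hRT⟩ := IN.bezout_one isOpen_ball hγU hq hq0 K
  have hmemU : ∀ z ∈ Δ, G z ∈ ball (0 : ℂ) ρ := fun z hz => by
    rw [mem_ball_zero_iff]; exact (hGM z hz).trans_lt hMρ
  refine InT.core hg hG (bh_comp hG hMρ hGM hq) (bh_comp hG hMρ hGM hR')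
    (bh_comp hG hMρ hGM hT') hK (fun z hz => ?_) fun η hη => ?_
  · rw [← hγ]
    exact hRT _ (hmemU z hz)
  · obtain ⟨m, hm⟩ := htail (η / 2) (by positivity)
    refine ⟨m, fun k => a k, fun k z => -(G z ^ (k : ℕ)), fun k => haT k,
      fun k => (hG.pow k).neg, fun z hz => ?_⟩
    rw [← hγ]
    have h1 : (G z - γ) ^ K * q (G z) = S (G z) := (hfac _ (hmemU z hz)).symm
    have h2 : ∑ k : Fin m, (a k z - Φ.φ (cf (a k))) * -(G z ^ (k : ℕ)) =
        ∑ k ∈ Finset.range m, d k * G z ^ k - ∑ k ∈ Finset.range m, a k z * G z ^ k := by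
      rw [← Finset.sum_sub_distrib, ← Fin.sum_univ_eq_sum_range
        (fun k => d k * G z ^ k - a k z * G z ^ k) m]
      refine Finset.sum_congr rfl fun k _ => ?_
      rw [hdk]
      ring
    rw [h1, h2]
    have hGρ : ‖G z‖ ≤ ρ := by have := hGM z hz; linarith
    have h3 := (htb d (G z) hdA hGρ).2 m
    have h4 := (htb (fun k => a k z) (G z) (fun k => haA k z hz) hGρ).2 m
    rw [heq z hz, zero_sub, norm_neg] at h4
    have h5 : S (G z) = ∑' k, d k * G z ^ k := by rw [hS]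
    rw [← h5] at h3
    calc _ = ‖(S (G z) - ∑ k ∈ Finset.range m, d k * G z ^ k) +
          ∑ k ∈ Finset.range m, a k z * G z ^ k‖ := by congr 1; ring
      _ ≤ _ + _ := norm_add_le _ _
      _ ≤ η / 2 + η / 2 := add_le_add (h3.trans hm.le) (h4.trans hm.le)
      _ = η := by ring

/-- PROOF. Copy the proof of `inT_closure` (`INDom.lean`). -/
theorem inT_closureE (hΔo : IsOpen Δ) {A : Set (EuclideanSpace ℂ (Fin n) → ℂ)}
    (hAH : ∀ a ∈ A, IsHinf Δ a) {F : EuclideanSpace ℂ (Fin n) → ℂ}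
    (hF : IsHinf Δ F) {Φ : Char Δ Unit} (hE : Ext Δ A Φ) :
    ∀ g ∈ AnalyticClosureOn Δ (HullOn Δ A ∪ {F}), InT Φ (flt Φ A F) g := by
  intro g hg
  have hgood := flt_good Φ A F
  have h1 : {g | InT Φ (flt Φ A F) g} ∈ {T : Set (EuclideanSpace ℂ (Fin n) → ℂ) |
      (HullOn Δ A ∪ {F}) ⊆ T ∧ ClosedAlgOn Δ T ⊆ T ∧ AnalyticOverOn Δ T ⊆ T} := by
    refine ⟨?_, fun g hg => inT_closedAlg hgood (fun _ h => h) g hg,
      fun g hg => inT_analyticE hAH hF hE (fun _ h => h) g hg⟩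
    rintro x (hx | hx)
    · exact InT.of_hull hΔo Φ hAH F hx
    · rw [mem_singleton_iff] at hx
      subst hx
      exact InT.of_n0 hgood (bh_of_hinf hF) (n0_F Φ A x)
  exact hg _ h1

end Pool.Agent.MPca0fc2.IND
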