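import Pool.Agent.Lib.MP_ca0fc2_an.Mg.G042

/-! The relative corona theorem in the disc, for functions which are holomorphic across the circle. -/

set_option autoImplicit false

open Metric Set MeasureTheory Filter Topology
open scoped ComplexConjugate

namespace Pool.Agent.MPca0fc2.RC

private lemma R12_db_congr {f g : ℂ → ℂ} {z : ℂ} (h : f =ᶠ[𝓝 z] g) : db f z = db g z := by
  unfold db
  rw [h.fderiv_eq]

private lemma R12_db_const (c z : ℂ) : db (fun _ => c) z = 0 := by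
  simp [db]

private lemma R12_db_add {f g : ℂ → ℂ} {z : ℂ} (hf : DifferentiableAt ℝ f z)
    (hg : DifferentiableAt ℝ g z) : db (fun z => f z + g z) z = db f z + db g z := by
  unfold db
  rw [fderiv_fun_add hf hg]
  simp only [add_apply]
  ring

private lemma R12_db_sub {f g : ℂ → ℂ} {z : ℂ} (hf : DifferentiableAt ℝ f z)
    (hg : DifferentiableAt ℝ g z) : db (fun z => f z - g z) z = db f z - db g z := by
  unfold db
  rw [fderiv_fun_sub hf hg]
  simp only [sub_apply]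
  ring

private lemma R12_dz_sub {f g : ℂ → ℂ} {z : ℂ} (hf : DifferentiableAt ℝ f z)
    (hg : DifferentiableAt ℝ g z) : dz (fun z => f z - g z) z = dz f z - dz g z := by
  unfold dz
  rw [fderiv_fun_sub hf hg]
  simp only [sub_apply]
  ring

private lemma R12_db_sum {ι : Type} (s : Finset ι) {f : ι → ℂ → ℂ} {z : ℂ}
    (hf : ∀ i, DifferentiableAt ℝ (f i) z) :
    db (fun z => ∑ i ∈ s, f i z) z = ∑ i ∈ s, db (f i) z := by
  classical
  induction s using Finset.induction_on with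
  | empty => simp [db]
  | insert i s hi ih =>
    simp only [Finset.sum_insert hi]
    rw [R12_db_add (hf i) (DifferentiableAt.fun_sum fun j _ => hf j), ih]

private lemma R12_lap_mul (c : ℝ) {f : ℂ → ℝ} {z : ℂ} (hf : ContDiffAt ℝ 2 f z) :
    lap (fun w => c * f w) z = c * lap f z := by
  have h1 : ∀ᶠ w in 𝓝 z, DifferentiableAt ℝ f w := by
    filter_upwards [hf.eventually (by simp)] with w hw
    exact hw.differentiableAt (by norm_num)
  have h2 : ∀ X : ℂ, (fun w => fderiv ℝ (fun w => c * f w) w X) =ᶠ[𝓝 z]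
      fun w => c * fderiv ℝ f w X := by
    intro X
    filter_upwards [h1] with w hw
    rw [fderiv_const_mul hw]
    rfl
  have h3 : ∀ X : ℂ, DifferentiableAt ℝ (fun w => fderiv ℝ f w X) z := by
    intro X
    have h4 : ContDiffAt ℝ 1 (fderiv ℝ f) z := hf.fderiv_right (by norm_num)
    exact (h4.differentiableAt (by norm_num)).clm_apply (differentiableAt_const X)
  unfold lap
  rw [(h2 1).fderiv_eq, (h2 Complex.I).fderiv_eq, fderiv_const_mul (h3 1),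
    fderiv_const_mul (h3 Complex.I)]
  simp only [smul_apply, smul_eq_mul]
  ring

private lemma R12_db_smooth {f : ℂ → ℂ} {s : Set ℂ} (hs : IsOpen s) (hf : ContDiffOn ℝ 4 f s) :
    ContDiffOn ℝ 2 (db f) s := by
  have h1 : ContDiffOn ℝ 2 (fderiv ℝ f) s := hf.fderiv_of_isOpen hs (by norm_num)
  unfold db
  have h2 : ∀ X : ℂ, ContDiffOn ℝ 2 (fun z => fderiv ℝ f z X) s :=
    fun X => h1.clm_apply contDiffOn_const
  exact (((h2 1).add (contDiffOn_const.mul (h2 Complex.I))).div_const 2)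

/-- The bounds for `μ = φ db ψ - ψ db φ`. -/
private lemma R12_mu {f g : ℂ → ℂ} {R : ℝ} (hf : ContDiffOn ℝ 4 f (ball 0 R))
    (hg : ContDiffOn ℝ 4 g (ball 0 R)) {z : ℂ} (hz : z ∈ ball (0 : ℂ) R) {K S : ℝ} (hK : 0 ≤ K)
    (_hS : 0 ≤ S) (f0 : ‖f z‖ ≤ K) (g0 : ‖g z‖ ≤ K) (f1 : ‖db f z‖ ^ 2 ≤ K * S)
    (g1 : ‖db g z‖ ^ 2 ≤ K * S) (f2 : ‖dz f z‖ ^ 2 ≤ K * S) (g2 : ‖dz g z‖ ^ 2 ≤ K * S)
    (f3 : ‖dz (db f) z‖ ≤ K * S) (g3 : ‖dz (db g) z‖ ≤ K * S) :
    ‖f z * db g z - g z * db f z‖ ^ 2 ≤ 4 * K ^ 3 * S ∧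
      ‖dz (fun z => f z * db g z - g z * db f z) z‖ ≤ (2 * K + 2 * K ^ 2) * S := by
  have hn : ball (0 : ℂ) R ∈ 𝓝 z := isOpen_ball.mem_nhds hz
  have df : DifferentiableAt ℝ f z := (hf.contDiffAt hn).differentiableAt (by norm_num)
  have dg : DifferentiableAt ℝ g z := (hg.contDiffAt hn).differentiableAt (by norm_num)
  have ddf : DifferentiableAt ℝ (db f) z :=
    ((R12_db_smooth isOpen_ball hf).contDiffAt hn).differentiableAt (by norm_num)
  have ddg : DifferentiableAt ℝ (db g) z :=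
    ((R12_db_smooth isOpen_ball hg).contDiffAt hn).differentiableAt (by norm_num)
  constructor
  · have h1 : ‖f z * db g z - g z * db f z‖ ≤ K * ‖db g z‖ + K * ‖db f z‖ := by
      refine (norm_sub_le _ _).trans ?_
      rw [norm_mul, norm_mul]
      gcongr
    have h2 : ‖f z * db g z - g z * db f z‖ ^ 2 ≤ (K * ‖db g z‖ + K * ‖db f z‖) ^ 2 :=
      pow_le_pow_left₀ (norm_nonneg _) h1 2
    have h3 : (K * ‖db g z‖ + K * ‖db f z‖) ^ 2 ≤
        2 * K ^ 2 * (‖db g z‖ ^ 2 + ‖db f z‖ ^ 2) := by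
      nlinarith [sq_nonneg (K * ‖db g z‖ - K * ‖db f z‖)]
    have h4 : 2 * K ^ 2 * (‖db g z‖ ^ 2 + ‖db f z‖ ^ 2) ≤ 2 * K ^ 2 * (K * S + K * S) := by
      gcongr
    calc _ ≤ _ := h2
      _ ≤ _ := h3
      _ ≤ _ := h4
      _ = _ := by ring
  · rw [R12_dz_sub (df.fun_mul ddg) (dg.fun_mul ddf), dz_mul df ddg, dz_mul dg ddf]
    have e1 : ‖dz f z * db g z‖ ≤ K * S := by
      rw [norm_mul]
      nlinarith [sq_nonneg (‖dz f z‖ - ‖db g z‖)]
    have e2 : ‖dz g z * db f z‖ ≤ K * S := by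
      rw [norm_mul]
      nlinarith [sq_nonneg (‖dz g z‖ - ‖db f z‖)]
    have e3 : ‖f z * dz (db g) z‖ ≤ K * (K * S) := by
      rw [norm_mul]
      gcongr
    have e4 : ‖g z * dz (db f) z‖ ≤ K * (K * S) := by
      rw [norm_mul]
      gcongr
    calc _ ≤ ‖dz f z * db g z + f z * dz (db g) z‖ + ‖dz g z * db f z + g z * dz (db f) z‖ :=
          norm_sub_le _ _
      _ ≤ (‖dz f z * db g z‖ + ‖f z * dz (db g) z‖) +
          (‖dz g z * db f z‖ + ‖g z * dz (db f) z‖) :=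
          add_le_add (norm_add_le _ _) (norm_add_le _ _)
      _ ≤ (K * S + K * (K * S)) + (K * S + K * (K * S)) := by gcongr
      _ = _ := by ring

/-- The algebra. -/
private lemma R12_alg {N : ℕ} (a : Fin N → Fin N → ℂ) (ha : ∀ j k, a k j = - a j k)
    (g f : Fin N → ℂ) (h : ∑ j, g j * f j = 1) :
    ∑ j, g j * (f j + ∑ k, a j k * g k) = 1 := by
  have h1 : ∑ j, ∑ k, a j k * g j * g k = 0 := by
    have h2 : ∑ j, ∑ k, a j k * g j * g k = ∑ j, ∑ k, -(a j k * g j * g k) := by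
      rw [Finset.sum_comm]
      refine Finset.sum_congr rfl fun j _ => Finset.sum_congr rfl fun k _ => ?_
      rw [ha]
      ring
    simp only [Finset.sum_neg_distrib] at h2
    have h3 : (2 : ℂ) * ∑ j, ∑ k, a j k * g j * g k = 0 := by
      linear_combination h2
    exact (mul_eq_zero.1 h3).resolve_left (by norm_num)
  calc ∑ j, g j * (f j + ∑ k, a j k * g k) =
        ∑ j, g j * f j + ∑ j, ∑ k, a j k * g j * g k := by
        rw [← Finset.sum_add_distrib]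
        refine Finset.sum_congr rfl fun j _ => ?_
        rw [mul_add, Finset.mul_sum]
        congr 1
        exact Finset.sum_congr rfl fun k _ => by ring
    _ = 1 := by rw [h1, add_zero, h]

/-- The relative corona theorem.
PROOF. We may assume `M ≥ 1`, and `N ≥ 1` (for `N = 0` the set is empty). `cut_fn`: `φ_j = Θ_j ∘ G`, of class `C^4` on `ball 0 R`. On the open set `Ω = {δ < ∑ ‖G_j‖²}`: `∑ G_j φ_j = 1`. `μ_jk = φ_j db φ_k - φ_k db φ_j` is of class `C²` (even `C³`). `v = ∑ ‖G_j‖² / (N M²)`, `lap v = 4 ∑ ‖G_j'‖² / (N M²)` (`lap_sq`),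
`‖μ_jk‖² ≤ K lap v`, `‖dz μ_jk‖ ≤ K lap v` (`comp_bd`: `dz (φ_j db φ_k) = dz φ_j db φ_k + φ_j dz (db φ_k)`), with `K` depending on `N`, `M`, `δ` only. `bdd_db` for `j < k`: `u_jk`, `db u_jk = μ_jk`, bounded; `u_kj = - u_jk`, `u_jj = 0` (`μ` is antisymmetric). `h_j = φ_j + ∑_k u_jk G_k`.
`∑_j G_j h_j = ∑ G_j φ_j + 0 = 1` on `Ω`. On `Ω` (open): `∑_k G_k db φ_k = db (∑ G_k φ_k) = 0`, so `∑_k μ_jk G_k = φ_j ∑ G_k db φ_k - (∑ G_k φ_k) db φ_j = - db φ_j`, and `db h_j = db φ_j + ∑_k μ_jk G_k = 0`: `h_j` is holomorphic (`hol_of_db`). -/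
theorem rc_smooth (N : ℕ) (M δ : ℝ) (hδ : 0 < δ) : ∃ C : ℝ, ∀ (R : ℝ) (G : Fin N → ℂ → ℂ), 1 < R →
    (∀ j, DifferentiableOn ℂ (G j) (ball 0 R)) →
    (∀ j, ∀ z ∈ closedBall (0 : ℂ) 1, ‖G j z‖ ≤ M) →
    ∃ h : Fin N → ℂ → ℂ,
      (∀ j, DifferentiableOn ℂ (h j) {z | z ∈ ball (0 : ℂ) 1 ∧ δ < ∑ j, ‖G j z‖ ^ 2}) ∧
      (∀ j, ∀ z ∈ ball (0 : ℂ) 1, δ < ∑ j, ‖G j z‖ ^ 2 → ‖h j z‖ ≤ C) ∧
      ∀ z ∈ ball (0 : ℂ) 1, δ < ∑ j, ‖G j z‖ ^ 2 → ∑ j, G j z * h j z = 1 := by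
  classical
  rcases Nat.eq_zero_or_pos N with hN | hN
  · subst hN
    refine ⟨0, fun R G _ _ _ => ⟨fun _ _ => 0, fun j => j.elim0, fun j => j.elim0, ?_⟩⟩
    intro z _ h
    simp at h
    exact absurd h (not_lt.2 hδ.le)
  have hN' : (0 : ℝ) < N := Nat.cast_pos.2 hN
  obtain ⟨Θ, hΘ, hΘ'⟩ := cut_fn N hδ
  set M' : ℝ := max M 1 with hM'
  have hM1 : 1 ≤ M' := le_max_right _ _
  have hc : ∀ j, ∃ K : ℝ, 0 ≤ K ∧
    ∀ (R : ℝ) (G : Fin N → ℂ → ℂ), (∀ j, DifferentiableOn ℂ (G j) (ball 0 R)) →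
      ∀ z ∈ ball (0 : ℂ) R, (∀ j, ‖G j z‖ ≤ M') →
      ‖Θ j (fun j => G j z)‖ ≤ K ∧
      ‖db (fun z => Θ j (fun j => G j z)) z‖ ^ 2 ≤ K * ∑ j, ‖deriv (G j) z‖ ^ 2 ∧
      ‖dz (fun z => Θ j (fun j => G j z)) z‖ ^ 2 ≤ K * ∑ j, ‖deriv (G j) z‖ ^ 2 ∧
      ‖dz (db (fun z => Θ j (fun j => G j z))) z‖ ≤ K * ∑ j, ‖deriv (G j) z‖ ^ 2 :=
    fun j => comp_bd N ((hΘ j).of_le (by norm_num)) M'
  choose Kf hK0 hKf using hc
  set K0 : ℝ := ∑ j, Kf j with hK0def
  have hK0' : 0 ≤ K0 := Finset.sum_nonneg fun j _ => hK0 j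
  have hKle : ∀ j, Kf j ≤ K0 := fun j =>
    Finset.single_le_sum (f := Kf) (fun i _ => hK0 i) (Finset.mem_univ j)
  set K : ℝ := (4 * K0 ^ 3 + (2 * K0 + 2 * K0 ^ 2)) * (N * M' ^ 2 / 4) with hKdef
  have hKnn : 0 ≤ K := by positivity
  refine ⟨K0 + N * ((22 * K + 3) * M'), ?_⟩
  intro R G hR hG hGM
  have hsub : closedBall (0 : ℂ) 1 ⊆ ball 0 R := closedBall_subset_ball hR
  have hGM' : ∀ j, ∀ z ∈ closedBall (0 : ℂ) 1, ‖G j z‖ ≤ M' :=
    fun j z hz => (hGM j z hz).trans (le_max_left _ _)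
  have hGs : ∀ j, ContDiffOn ℝ 4 (G j) (ball 0 R) := fun j =>
    ((hG j).contDiffOn isOpen_ball).restrict_scalars ℝ
  set φ : Fin N → ℂ → ℂ := fun j z => Θ j (fun i => G i z) with hφ
  have hφs : ∀ j, ContDiffOn ℝ 4 (φ j) (ball 0 R) := fun j =>
    (hΘ j).comp_contDiffOn (contDiffOn_pi.2 hGs)
  -- the weight
  set v : ℂ → ℝ := fun z => (N * M' ^ 2)⁻¹ * ∑ j, ‖G j z‖ ^ 2 with hv
  have hsum : ContDiffOn ℝ 2 (fun z => ∑ j, ‖G j z‖ ^ 2) (ball 0 R) :=
    ContDiffOn.sum fun j _ => ((hGs j).of_le (by norm_num)).norm_sq ℝ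
  have hvs : ContDiffOn ℝ 2 v (ball 0 R) := contDiffOn_const.mul hsum
  have hlap : ∀ z ∈ ball (0 : ℂ) R, ∑ j, ‖deriv (G j) z‖ ^ 2 = (N * M' ^ 2 / 4) * lap v z := by
    intro z hz
    rw [hv, R12_lap_mul _ (hsum.contDiffAt (isOpen_ball.mem_nhds hz)), lap_sq hG hz]
    field_simp
  have hS0 : ∀ z, 0 ≤ ∑ j, ‖deriv (G j) z‖ ^ 2 := fun z =>
    Finset.sum_nonneg fun j _ => sq_nonneg _
  have hvl : ∀ z ∈ closedBall (0 : ℂ) 1, 0 ≤ lap v z := by
    intro z hz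
    have h1 := hlap z (hsub hz)
    have h2 := hS0 z
    rw [h1] at h2
    exact nonneg_of_mul_nonneg_right h2 (by positivity)
  have hv0 : ∀ z ∈ closedBall (0 : ℂ) 1, 0 ≤ v z := by
    intro z _
    exact mul_nonneg (by positivity) (Finset.sum_nonneg fun j _ => sq_nonneg _)
  have hv1 : ∀ z ∈ closedBall (0 : ℂ) 1, v z ≤ 1 := by
    intro z hz
    have h1 : ∑ j, ‖G j z‖ ^ 2 ≤ N * M' ^ 2 := by
      calc ∑ j, ‖G j z‖ ^ 2 ≤ ∑ _j : Fin N, M' ^ 2 :=
            Finset.sum_le_sum fun j _ => pow_le_pow_left₀ (norm_nonneg _) (hGM' j z hz) 2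
        _ = N * M' ^ 2 := by simp
    show (N * M' ^ 2)⁻¹ * ∑ j, ‖G j z‖ ^ 2 ≤ 1
    rw [inv_mul_le_iff₀ (by positivity), mul_one]
    exact h1
  -- the forms
  have hμ : ∀ j k, ∃ u : ℂ → ℂ, ContDiff ℝ 2 u ∧
      (∀ z ∈ ball (0 : ℂ) 1, db u z = φ j z * db (φ k) z - φ k z * db (φ j) z) ∧
      ∀ z ∈ closedBall (0 : ℂ) 1, ‖u z‖ ≤ 22 * K + 3 := by
    intro j k
    have hb : ∀ z ∈ closedBall (0 : ℂ) 1,
        ‖φ j z * db (φ k) z - φ k z * db (φ j) z‖ ^ 2 ≤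
          4 * K0 ^ 3 * ∑ j, ‖deriv (G j) z‖ ^ 2 ∧
        ‖dz (fun z => φ j z * db (φ k) z - φ k z * db (φ j) z) z‖ ≤
          (2 * K0 + 2 * K0 ^ 2) * ∑ j, ‖deriv (G j) z‖ ^ 2 := by
      intro z hz
      obtain ⟨a0, a1, a2, a3⟩ := hKf j R G hG z (hsub hz) fun i => hGM' i z hz
      obtain ⟨b0, b1, b2, b3⟩ := hKf k R G hG z (hsub hz) fun i => hGM' i z hz
      have hj : Kf j * ∑ j, ‖deriv (G j) z‖ ^ 2 ≤ K0 * ∑ j, ‖deriv (G j) z‖ ^ 2 :=
        mul_le_mul_of_nonneg_right (hKle j) (hS0 z)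
      have hk : Kf k * ∑ j, ‖deriv (G j) z‖ ^ 2 ≤ K0 * ∑ j, ‖deriv (G j) z‖ ^ 2 :=
        mul_le_mul_of_nonneg_right (hKle k) (hS0 z)
      exact R12_mu (hφs j) (hφs k) (hsub hz) hK0' (hS0 z) (a0.trans (hKle j))
        (b0.trans (hKle k)) (a1.trans hj) (b1.trans hk) (a2.trans hj) (b2.trans hk)
        (a3.trans hj) (b3.trans hk)
    refine bdd_db hR hvs hv0 hv1 hvl (m := fun z => φ j z * db (φ k) z - φ k z * db (φ j) z)
      ?_ hKnn ?_ ?_
    · exact (((hφs j).of_le (by norm_num)).mul (R12_db_smooth isOpen_ball (hφs k))).sub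
        (((hφs k).of_le (by norm_num)).mul (R12_db_smooth isOpen_ball (hφs j)))
    · intro z hz
      refine (hb z hz).1.trans ?_
      rw [hlap z (hsub hz), hKdef]
      have h1 := hvl z hz
      have h2 : 0 ≤ (2 * K0 + 2 * K0 ^ 2) * (N * M' ^ 2 / 4) * lap v z := by positivity
      nlinarith
    · intro z hz
      refine (hb z hz).2.trans ?_
      rw [hlap z (hsub hz), hKdef]
      have h1 := hvl z hz
      have h2 : 0 ≤ (4 * K0 ^ 3) * (N * M' ^ 2 / 4) * lap v z := by positivity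
      nlinarith
  choose U hUs hUd hUb using hμ
  set a : Fin N → Fin N → ℂ → ℂ := fun j k z => (1 / 2 : ℂ) * (U j k z - U k j z) with ha
  have has : ∀ j k, ContDiff ℝ 2 (a j k) := fun j k =>
    contDiff_const.mul ((hUs j k).sub (hUs k j))
  have had : ∀ j k, ∀ z ∈ ball (0 : ℂ) 1,
      db (a j k) z = φ j z * db (φ k) z - φ k z * db (φ j) z := by
    intro j k z hz
    have d1 : DifferentiableAt ℝ (U j k) z := (hUs j k).contDiffAt.differentiableAt (by norm_num)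
    have d2 : DifferentiableAt ℝ (U k j) z := (hUs k j).contDiffAt.differentiableAt (by norm_num)
    rw [ha]
    show db (fun z => (fun _ => (1 / 2 : ℂ)) z * (fun z => U j k z - U k j z) z) z = _
    rw [db_mul (differentiableAt_const _) (d1.fun_sub d2), R12_db_const, R12_db_sub d1 d2,
      hUd j k z hz, hUd k j z hz]
    ring
  have hab : ∀ j k, ∀ z ∈ closedBall (0 : ℂ) 1, ‖a j k z‖ ≤ 22 * K + 3 := by
    intro j k z hz
    have h1 := hUb j k z hz
    have h2 := hUb k j z hz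
    show ‖(1 / 2 : ℂ) * (U j k z - U k j z)‖ ≤ _
    rw [norm_mul]
    have h3 : ‖(1 / 2 : ℂ)‖ = 1 / 2 := by norm_num
    rw [h3]
    have h4 := norm_sub_le (U j k z) (U k j z)
    linarith
  have haa : ∀ z j k, a k j z = - a j k z := by
    intro z j k
    show (1 / 2 : ℂ) * (U k j z - U j k z) = -((1 / 2 : ℂ) * (U j k z - U k j z))
    ring
  have hone : ∀ z, δ < ∑ j, ‖G j z‖ ^ 2 → ∑ j, G j z * φ j z = 1 := by
    intro z hz
    have hpos : (0 : ℝ) < ∑ j, ‖G j z‖ ^ 2 := hδ.trans hz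
    have h1 : ∀ j, φ j z = conj (G j z) / ((∑ i, ‖G i z‖ ^ 2 : ℝ) : ℂ) :=
      fun j => hΘ' j (fun i => G i z) hz.le
    simp only [h1]
    have h2 : ∀ j, G j z * (conj (G j z) / ((∑ i, ‖G i z‖ ^ 2 : ℝ) : ℂ)) =
        ((‖G j z‖ ^ 2 : ℝ) : ℂ) / ((∑ i, ‖G i z‖ ^ 2 : ℝ) : ℂ) := by
      intro j
      rw [← mul_div_assoc, Complex.mul_conj, Complex.normSq_eq_norm_sq]
    simp only [h2]
    rw [← Finset.sum_div, ← Complex.ofReal_sum, div_self]
    exact_mod_cast hpos.ne'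
  refine ⟨fun j z => φ j z + ∑ k, a j k z * G k z, ?_, ?_, ?_⟩
  · rintro j z ⟨hz, hzδ⟩
    refine DifferentiableAt.differentiableWithinAt ?_
    have hzc : z ∈ closedBall (0 : ℂ) 1 := ball_subset_closedBall hz
    have hzR : z ∈ ball (0 : ℂ) R := hsub hzc
    have hn : ball (0 : ℂ) R ∈ 𝓝 z := isOpen_ball.mem_nhds hzR
    have dφ : ∀ j, DifferentiableAt ℝ (φ j) z := fun j =>
      ((hφs j).contDiffAt hn).differentiableAt (by norm_num)
    have dG : ∀ j, DifferentiableAt ℝ (G j) z := fun j =>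
      ((hGs j).contDiffAt hn).differentiableAt (by norm_num)
    have da : ∀ j k, DifferentiableAt ℝ (a j k) z := fun j k =>
      (has j k).contDiffAt.differentiableAt (by norm_num)
    have dbG : ∀ j, db (G j) z = 0 := fun j => db_hol ((hG j).differentiableAt hn)
    have hd1 : DifferentiableAt ℝ (fun z => ∑ k, a j k z * G k z) z :=
      DifferentiableAt.fun_sum fun k _ => (da j k).mul (dG k)
    refine hol_of_db ((dφ j).add hd1) ?_
    rw [R12_db_add (dφ j) hd1, R12_db_sum _ (fun k => (da j k).fun_mul (dG k))]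
    have h1 : ∀ k, db (fun z => a j k z * G k z) z =
        φ j z * (G k z * db (φ k) z) - (G k z * φ k z) * db (φ j) z := by
      intro k
      rw [db_mul (da j k) (dG k), dbG, had j k z hz]
      ring
    simp only [h1]
    rw [Finset.sum_sub_distrib, ← Finset.mul_sum, ← Finset.sum_mul, hone z hzδ]
    have h2 : ∑ k, G k z * db (φ k) z = 0 := by
      have h3 : (fun z => ∑ k, G k z * φ k z) =ᶠ[𝓝 z] fun _ => (1 : ℂ) := by
        have hcont : ContinuousAt (fun z => ∑ j, ‖G j z‖ ^ 2) z :=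
          (hsum.contDiffAt hn).continuousAt
        filter_upwards [hcont.eventually (lt_mem_nhds hzδ)] with w hw
        exact hone w hw
      have h4 := R12_db_congr h3
      rw [R12_db_const, R12_db_sum _ (fun k => (dG k).fun_mul (dφ k))] at h4
      rw [← h4]
      refine Finset.sum_congr rfl fun k _ => ?_
      rw [db_mul (dG k) (dφ k), dbG]
      ring
    rw [h2]
    ring
  · intro j z hz _
    have hzc : z ∈ closedBall (0 : ℂ) 1 := ball_subset_closedBall hz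
    have h1 : ‖φ j z‖ ≤ K0 :=
      ((hKf j R G hG z (hsub hzc) fun i => hGM' i z hzc).1).trans (hKle j)
    have h2 : ‖∑ k, a j k z * G k z‖ ≤ N * ((22 * K + 3) * M') := by
      calc ‖∑ k, a j k z * G k z‖ ≤ ∑ k, ‖a j k z * G k z‖ := norm_sum_le _ _
        _ ≤ ∑ _k : Fin N, (22 * K + 3) * M' := by
            refine Finset.sum_le_sum fun k _ => ?_
            rw [norm_mul]
            exact mul_le_mul (hab j k z hzc) (hGM' k z hzc) (norm_nonneg _) (by positivity)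
        _ = N * ((22 * K + 3) * M') := by simp
    exact (norm_add_le _ _).trans (add_le_add h1 h2)
  · intro z _ hzδ
    exact R12_alg (fun j k => a j k z) (fun j k => haa z j k) (fun j => G j z)
      (fun j => φ j z) (hone z hzδ)

end Pool.Agent.MPca0fc2.RC
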