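import Pool.Agent.Lib.MP_ca0fc2_an.GW.M5b
import Pool.Agent.Lib.MP_ca0fc2_an.GW.M5c
import Pool.Agent.Lib.MP_ca0fc2_an.Mg.G041

/-! The theorem on Q1 with cells, and the extension of the characters. -/

set_option autoImplicit false

open Metric Set MeasureTheory Filter Topology

namespace Pool.Agent.MPca0fc2.GW

open Pool.Agent.MPca0fc2.FD
open Pool.Agent.Lib.MP_ca0fc2_an

variable {n : ℕ}

/-- Q1 for data which are near the analytic closure on the cells of tame functions near each boundary point.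
PROOF. As `sptame` (`M5b.lean`), with `IND.q1_cells` in place of `IND.q1_closure`. `loc_tame`: `D'`, `D ∩ ball p r' ⊆ D' ⊆ D ∩ ball p r`, `LocOn D' (TameOn D (ball p r))`. The functions `a i` are in `HullOn D' (TameOn D (ball p r))` (`hullOn_mono`). The cells of `a` in `D'` are contained in the cells in `D ∩ ball p r` (`cellOn_mono`);
restrict `F` and the closure (`isHinf_mono`, `analyticClosureOn_mono`, `hullOn_mono`). -/
theorem spcells (hn : 2 ≤ n) {D U : Set (Ec n)} {ρ : Ec n → ℝ} {h : Ec n → Ec n → Fin n → ℂ} {c : ℝ}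
    (hs : SupportData D U ρ h c) (hρ : ContDiffOn ℝ 3 ρ U) {N : ℕ} {f : Fin N → Ec n → ℂ} {δ : ℝ}
    (hf : ∀ j, IsHinf D (f j)) (hδ0 : 0 < δ) (hδ : ∀ z ∈ D, δ ≤ ∑ j, ‖f j z‖ ^ 2)
    (hloc : ∀ p ∈ frontier D, ∃ r > 0, ∃ (k : ℕ) (a : Fin k → Ec n → ℂ) (s : ℝ), 0 < s ∧
      (∀ i, a i ∈ HullOn (D ∩ ball p r) (TameOn D (ball p r))) ∧
      ∀ c : Fin k → ℂ, ∃ F : Ec n → ℂ, IsHinf (cellOn (D ∩ ball p r) a c s) F ∧
      ∃ (η : ℝ) (q : Fin N → Ec n → ℂ), 4 * N * η ^ 2 < δ ∧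
        (∀ j, q j ∈ AnalyticClosureOn (cellOn (D ∩ ball p r) a c s)
          (HullOn (cellOn (D ∩ ball p r) a c s) (TameOn D (ball p r)) ∪ {F})) ∧
        ∀ j, ∀ z ∈ cellOn (D ∩ ball p r) a c s, ‖f j z - q j z‖ ≤ η) :
    ∃ C : ℝ, SolvableOn f D C := by
  have hDo : IsOpen D := by
    rw [hs.eq]
    exact hs.dρ.continuousOn.isOpen_inter_preimage hs.opn (isOpen_Iio (a := (0:ℝ)))
  have hfH := hf
  choose hfd Mf hMf using hf
  refine fibre_loc' hn hs (M := ∑ j, |Mf j|) hfd (fun j z hz => (hMf j z hz).trans ((le_abs_self _).trans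
    (Finset.single_le_sum (f := fun j => |Mf j|) (fun _ _ => abs_nonneg _) (Finset.mem_univ j)))) ?_
  intro p hp
  by_cases hpD : p ∈ D
  · exact solv_interior hDo hfd hδ0 hδ hpD
  · have hpf : p ∈ frontier D := ⟨hp, by rwa [hDo.interior_eq]⟩
    obtain ⟨r, hr, k, a, s, hs0, ha, hcell⟩ := hloc p hpf
    obtain ⟨D', r', hr', hD'o, hsub, hsub', hLoc⟩ := loc_tame hn hs hρ hpf hr
    have hD'D : D' ⊆ D := fun z hz => (hsub' hz).1
    obtain ⟨C, hC⟩ := IND.q1_cells hD'o hLoc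
      (fun a ha => isHinf_mono hsub' (tame_hinf ha)) (f := f) (δ := δ)
      (fun j => isHinf_mono hD'D (hfH j)) (fun z hz => hδ z (hD'D hz))
      (fun i => hullOn_mono hsub' subset_rfl (ha i)) hs0 (fun c => by
        obtain ⟨F, hF, η, q, hη, hq, hfq⟩ := hcell c
        have hm := cellOn_mono hsub' a c s
        exact ⟨F, isHinf_mono hm hF, η, q, hη,
          fun j => analyticClosureOn_mono hm (union_subset_union_left _ fun u hu =>
            hullOn_mono hm subset_rfl hu) (hq j),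
          fun j z hz => hfq j z (hm hz)⟩)
    exact ⟨r', hr', C, Fib_mono hC hsub le_rfl⟩

/-- Extension of the characters.
PROOF. `CXS.char_extend` with `CXS.locOn_hull` and `locOn_tame`; `D` is open (`hs.eq`, `hs.dρ`). -/
theorem tame_spec (hn : 2 ≤ n) {D U : Set (Ec n)} {ρ : Ec n → ℝ} {h : Ec n → Ec n → Fin n → ℂ}
    {c : ℝ} (hs : SupportData D U ρ h c) (hρ : ContDiffOn ℝ 3 ρ U)
    {χ : (Ec n → ℂ) → ℂ} (hχ : IsCharacter D χ) {k : ℕ} {a : Fin k → Ec n → ℂ}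
    (ha : ∀ i, a i ∈ HullOn D (TameGlob D)) {ε : ℝ} (hε : 0 < ε) :
    ∃ M, IsCharacter {z | z ∈ D ∧ ∀ i, ‖a i z - χ (a i)‖ < ε} M ∧ ∀ f, IsHinf D f → M f = χ f := by
  have hDo : IsOpen D := by
    rw [hs.eq]
    exact hs.dρ.continuousOn.isOpen_inter_preimage hs.opn (isOpen_Iio (a := (0:ℝ)))
  exact CXS.char_extend hDo (CXS.locOn_hull hDo (fun u hu => hu.1.1) (locOn_tame hn hs hρ))
    (fun a ha => ha.1) hχ ha hε

end Pool.Agent.MPca0fc2.GW
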