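import Pool.Agent.Lib.MP_ca0fc2_an.GW.M6
import Pool.Agent.Lib.MP_ca0fc2_an.CXSRate

/-! The characters of `H^∞(D)` are local, and they extend to the cells of the functions which are tame
near a boundary point. -/

set_option autoImplicit false

open Metric Set MeasureTheory Filter Topology

namespace Pool.Agent.MPca0fc2.GW

open Pool.Agent.MPca0fc2.FD
open Pool.Agent.Lib.MP_ca0fc2_an

variable {n : ℕ}

theorem char_mono {E E' : Set (Ec n)} (hE : E' ⊆ E) {m : (Ec n → ℂ) → ℂ} (hm : IsCharacter E' m) :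
    IsCharacter E m where
  congr f g hf hg h := hm.congr f g (isHinf_mono hE hf) (isHinf_mono hE hg) fun z hz => h z (hE hz)
  one := hm.one
  smul c f hf := hm.smul c f (isHinf_mono hE hf)
  add f g hf hg := hm.add f g (isHinf_mono hE hf) (isHinf_mono hE hg)
  mul f g hf hg := hm.mul f g (isHinf_mono hE hf) (isHinf_mono hE hg)

theorem char_nonempty {E : Set (Ec n)} {m : (Ec n → ℂ) → ℂ} (hm : IsCharacter E m) :
    E.Nonempty := by
  by_contra h
  rw [not_nonempty_iff_eq_empty] at h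
  have h1 : m (fun _ => 1) = m (fun _ => 0) :=
    hm.congr _ _ (CXS.hinf_const 1) (CXS.hinf_const 0) (by rw [h]; simp)
  have h2 := hm.smul 0 (fun _ => 1) (CXS.hinf_const 1)
  simp only [zero_mul] at h2
  rw [hm.one, h2] at h1
  exact one_ne_zero h1

theorem char_cst {E : Set (Ec n)} {m : (Ec n → ℂ) → ℂ} (hm : IsCharacter E m) (c : ℂ) :
    m (fun _ => c) = c := by
  have h := hm.smul c (fun _ => 1) (CXS.hinf_const 1)
  rw [hm.one, mul_one] at h
  simpa using h

/-- Characters are bounded by the supremum norm. -/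
theorem char_le {E : Set (Ec n)} {m : (Ec n → ℂ) → ℂ} (hm : IsCharacter E m) {F : Ec n → ℂ}
    (hF : IsHinf E F) {C : ℝ} (hC : ∀ z ∈ E, ‖F z‖ ≤ C) : ‖m F‖ ≤ C := by
  by_contra hlt
  push Not at hlt
  have hpos : 0 < ‖m F‖ - C := by linarith
  have hlow : ∀ z ∈ E, ‖m F‖ - C ≤ ‖m F + (-1) * F z‖ := by
    intro z hz
    have h1 : ‖m F‖ - ‖F z‖ ≤ ‖m F - F z‖ := norm_sub_norm_le _ _
    have h2 : m F + (-1) * F z = m F - F z := by ring
    rw [h2]
    linarith [hC z hz]
  have hne : ∀ z ∈ E, m F + (-1) * F z ≠ 0 := by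
    intro z hz h0
    have := hlow z hz
    rw [h0, norm_zero] at this
    linarith
  have hL : IsHinf E (fun z => (-1 : ℂ) * F z) := CXS.hinf_mul (CXS.hinf_const (-1)) hF
  have hK : IsHinf E (fun z => m F + (-1) * F z) := CXS.hinf_add (CXS.hinf_const (m F)) hL
  have hG : IsHinf E (fun z => (m F + (-1) * F z)⁻¹) := by
    refine ⟨hK.1.inv hne, (‖m F‖ - C)⁻¹, fun z hz => ?_⟩
    rw [norm_inv]
    exact inv_anti₀ hpos (hlow z hz)
  have e1 : m (fun z => (m F + (-1) * F z) * (m F + (-1) * F z)⁻¹) = 1 := by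
    have e0 := hm.congr (fun z => (m F + (-1) * F z) * (m F + (-1) * F z)⁻¹) (fun _ => 1)
      (CXS.hinf_mul hK hG) (CXS.hinf_const 1) fun z hz => mul_inv_cancel₀ (hne z hz)
    rw [e0, hm.one]
  have e2 := hm.mul _ _ hK hG
  have e3 : m (fun z => m F + (-1) * F z) = 0 := by
    have h1 := hm.add (fun _ => m F) (fun z => (-1 : ℂ) * F z) (CXS.hinf_const (m F)) hL
    rw [char_cst hm, hm.smul (-1) F hF] at h1
    rw [h1]
    ring
  rw [e3, zero_mul] at e2
  rw [e2] at e1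
  exact zero_ne_one e1

/-- The coordinates are tame. -/
theorem coord_tame {D : Set (Ec n)} (hDb : Bornology.IsBounded D) (j : Fin n) :
    (fun z : Ec n => z j) ∈ TameGlob D := by
  obtain ⟨R, hR⟩ := hDb.exists_norm_le
  have hd : ∀ E : Set (Ec n), DifferentiableOn ℂ (fun z : Ec n => z j) E := fun E =>
    (EuclideanSpace.proj (𝕜 := ℂ) j).differentiable.differentiableOn
  have hb : IsHinf D (fun z : Ec n => z j) :=
    ⟨hd D, R, fun z hz => (PiLp.norm_apply_le z j).trans (hR z hz)⟩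
  refine ⟨hb, fun p _ => ⟨1, one_pos, Or.inr ⟨isHinf_mono inter_subset_left hb, fun t => t,
    CXS.rate_id, ?_, fun z _ _ => ?_⟩⟩⟩
  · intro a ha b hb _
    show b / b ≤ a / a
    rw [div_self (ne_of_gt ha.1), div_self (ne_of_gt hb.1)]
  · have h1 : fderiv ℂ (fun z : Ec n => z j) z = EuclideanSpace.proj (𝕜 := ℂ) j :=
      (EuclideanSpace.proj (𝕜 := ℂ) j).fderiv
    have h2 : ‖(EuclideanSpace.proj (𝕜 := ℂ) j : Ec n →L[ℂ] ℂ)‖ ≤ 1 :=
      ContinuousLinearMap.opNorm_le_bound _ zero_le_one fun v => by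
        rw [one_mul]
        exact PiLp.norm_apply_le v j
    rw [h1]
    exact mul_le_of_le_one_right infDist_nonneg h2

/-- Each character of `H^∞(D)` is the evaluation at a point of `D` or lies over a boundary point `p`.
In the second case it extends, for each `r > 0`, to a character of `H^∞(D ∩ ball p r)` which extends
further to all cells of the functions which are tame near `p`. -/
theorem local_spec (hn : 2 ≤ n) {D U : Set (Ec n)} {ρ : Ec n → ℝ} {h : Ec n → Ec n → Fin n → ℂ}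
    {c : ℝ} (hs : SupportData D U ρ h c) (hρ : ContDiffOn ℝ 3 ρ U) (hDb : Bornology.IsBounded D)
    {χ : (Ec n → ℂ) → ℂ} (hχ : IsCharacter D χ) :
    (∃ p ∈ D, ∀ f, IsHinf D f → χ f = f p) ∨
    ∃ p ∈ frontier D, ∀ r > 0, ∃ M, IsCharacter (D ∩ ball p r) M ∧ (∀ f, IsHinf D f → M f = χ f) ∧
      ∀ (k : ℕ) (a : Fin k → Ec n → ℂ),
        (∀ i, a i ∈ HullOn (D ∩ ball p r) (TameOn D (ball p r))) → ∀ ε > 0,
        ∃ M', IsCharacter {z | z ∈ D ∩ ball p r ∧ ∀ i, ‖a i z - M (a i)‖ < ε} M' ∧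
          ∀ f, IsHinf (D ∩ ball p r) f → M' f = M f := by
  have hDo : IsOpen D := by
    rw [hs.eq]
    exact hs.dρ.continuousOn.isOpen_inter_preimage hs.opn (isOpen_Iio (a := (0:ℝ)))
  have hcoord : ∀ j : Fin n, (fun z : Ec n => z j) ∈ HullOn D (TameGlob D) := fun j =>
    IND.sub_hull (fun a ha => ha.1) (coord_tame hDb j)
  obtain ⟨p, hpdef⟩ : ∃ p : Ec n, ∀ j, p j = χ (fun z => z j) :=
    ⟨WithLp.toLp 2 fun j => χ (fun z => z j), fun j => rfl⟩
  have hext : ∀ ε > 0, ∃ M, IsCharacter (D ∩ ball p ε) M ∧ ∀ f, IsHinf D f → M f = χ f := by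
    intro ε hε
    obtain ⟨M, hM, hMf⟩ := tame_spec hn hs hρ hχ (a := fun (j : Fin n) (z : Ec n) => z j) hcoord
      (ε := ε / (n + 1)) (by positivity)
    refine ⟨M, char_mono ?_ hM, hMf⟩
    rintro z ⟨hz, hz'⟩
    refine ⟨hz, ?_⟩
    rw [mem_ball, dist_eq_norm]
    have h1 : ‖z - p‖ ≤ ∑ j, ‖(z - p) j‖ := by
      rw [EuclideanSpace.norm_eq]
      refine Real.sqrt_le_iff.mpr ⟨Finset.sum_nonneg fun _ _ => norm_nonneg _, ?_⟩
      exact Finset.sum_sq_le_sq_sum_of_nonneg (fun _ _ => norm_nonneg _)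
    have h2 : ∑ j, ‖(z - p) j‖ ≤ ∑ _j : Fin n, ε / (n + 1) := by
      refine Finset.sum_le_sum fun j _ => ?_
      have h3 := (hz' j).le
      rw [← hpdef j] at h3
      exact h3
    rw [Finset.sum_const, Finset.card_univ, Fintype.card_fin, nsmul_eq_mul] at h2
    refine (h1.trans h2).trans_lt ?_
    rw [mul_div_assoc', div_lt_iff₀ (by positivity)]
    nlinarith
  have hpcl : p ∈ closure D := by
    rw [Metric.mem_closure_iff]
    intro ε hε
    obtain ⟨M, hM, -⟩ := hext ε hε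
    obtain ⟨z, hz⟩ := char_nonempty hM
    exact ⟨z, hz.1, by rw [dist_comm]; exact hz.2⟩
  by_cases hpD : p ∈ D
  · left
    refine ⟨p, hpD, fun f hf => ?_⟩
    have h1 : ∀ η > 0, ‖χ f - f p‖ ≤ η := by
      intro η hη
      have hc : ContinuousAt f p := (hf.1.continuousOn).continuousAt (hDo.mem_nhds hpD)
      obtain ⟨ε, hε, hball⟩ := Metric.continuousAt_iff.mp hc η hη
      obtain ⟨M, hM, hMf⟩ := hext ε hε
      have hfE : IsHinf (D ∩ ball p ε) f := isHinf_mono inter_subset_left hf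
      have h2 := hM.add f (fun _ => - f p) hfE (CXS.hinf_const _)
      rw [char_cst hM, hMf f hf] at h2
      have h3 := char_le hM (CXS.hinf_add hfE (CXS.hinf_const (- f p))) (C := η) (fun z hz => by
        have h4 := hball hz.2
        rw [dist_eq_norm] at h4
        rw [← sub_eq_add_neg]
        exact h4.le)
      rw [h2, ← sub_eq_add_neg] at h3
      exact h3
    have h2 : ‖χ f - f p‖ ≤ 0 := le_of_forall_pos_le_add fun η hη => by
      rw [zero_add]
      exact h1 η hη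
    exact sub_eq_zero.mp (norm_le_zero_iff.mp h2)
  · right
    have hpf : p ∈ frontier D := ⟨hpcl, by rwa [hDo.interior_eq]⟩
    refine ⟨p, hpf, fun r hr => ?_⟩
    obtain ⟨D', r', hr', hD'o, hsub, hsub', hLoc⟩ := loc_tame hn hs hρ hpf hr
    obtain ⟨M, hM, hMf⟩ := hext r' hr'
    have hMD' : IsCharacter D' M := char_mono hsub hM
    refine ⟨M, char_mono hsub' hMD', hMf, fun k a ha ε hε => ?_⟩
    have hA : ∀ u ∈ TameOn D (ball p r), IsHinf D' u := fun u hu =>
      isHinf_mono hsub' (tame_hinf hu)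
    obtain ⟨M', hM', hM'f⟩ := CXS.char_extend hD'o
      (CXS.locOn_hull hD'o (fun u hu => (hA u hu).1) hLoc) (fun a ha => ha.1) hMD'
      (fun i => hullOn_mono hsub' subset_rfl (ha i)) hε
    have hEE : {z | z ∈ D' ∧ ∀ i, ‖a i z - M (a i)‖ < ε} ⊆
        {z | z ∈ D ∩ ball p r ∧ ∀ i, ‖a i z - M (a i)‖ < ε} := fun z hz => ⟨hsub' hz.1, hz.2⟩
    exact ⟨M', char_mono hEE hM', fun f hf => hM'f f (isHinf_mono hsub' hf)⟩

end Pool.Agent.MPca0fc2.GW
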