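import Pool.Agent.Lib.MP_ca0fc2_an.Mg.G003
import Pool.Agent.Lib.MP_ca0fc2_an.Mg.G001
import Pool.Agent.Lib.MP_ca0fc2_an.Mg.G045

/-! Comparison of the functions `V` at different points. -/

set_option autoImplicit false

open Metric Set MeasureTheory Filter Topology

namespace Pool.Agent.MPca0fc2.GW

open Pool.Agent.MPca0fc2.FD

variable {n : ℕ} {U : Set (Ec n)} {δ : Ec n → ℝ} {h : Ec n → Ec n → Fin n → ℂ} {c C A : ℝ}

private theorem P2_da {P : PS n} (hD : CD U δ h c C) (hP : PA P U δ h A) (x : Fin P.R) {z : Ec n}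
    (hz : z ∈ U) : DifferentiableAt ℂ (P.V x) z :=
  (hP.hol x).differentiableAt (hD.geo.opn.mem_nhds hz)

/-- PROOF. `U` is convex; `Vl` and the mean value inequality for `z ↦ V z - dV(ζ) z` on the segment. -/
theorem PA.taylor {P : PS n} (hD : CD U δ h c C) (hP : PA P U δ h A) (x : Fin P.R) {z ζ : Ec n}
    (hz : z ∈ U) (hζ : ζ ∈ U) :
    ‖P.V x z - P.V x ζ - fderiv ℂ (P.V x) ζ (z - ζ)‖ ≤ A * ‖z - ζ‖ ^ 2 := by
  have hA : 0 ≤ A := by linarith [hP.A1]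
  have hseg : segment ℝ ζ z ⊆ U := hD.cvx.segment_subset hζ hz
  have h1 : ‖P.V x z - P.V x ζ - fderiv ℂ (P.V x) ζ (z - ζ)‖ ≤ A * ‖z - ζ‖ * ‖z - ζ‖ := by
    refine Convex.norm_image_sub_le_of_norm_fderiv_le' (𝕜 := ℂ) (s := segment ℝ ζ z) (x := ζ)
      (y := z) ?_ ?_ (convex_segment ζ z) (left_mem_segment ℝ ζ z) (right_mem_segment ℝ ζ z)
    · intro w hw
      exact P2_da hD hP x (hseg hw)
    · intro w hw
      refine (hP.Vl x w (hseg hw) ζ hζ).trans (mul_le_mul_of_nonneg_left ?_ hA)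
      obtain ⟨a, b, ha, hb, hab, rfl⟩ := hw
      have e : a • ζ + b • z - ζ = b • (z - ζ) := by
        have : a = 1 - b := by linarith
        rw [this, sub_smul, one_smul, smul_sub]
        abel
      rw [e, norm_smul, Real.norm_eq_abs, abs_of_nonneg hb]
      have hb1 : b ≤ 1 := by linarith
      exact mul_le_of_le_one_left (norm_nonneg _) hb1
  calc _ ≤ A * ‖z - ζ‖ * ‖z - ζ‖ := h1
    _ = A * ‖z - ζ‖ ^ 2 := by ring

/-- PROOF. `U` is convex; `Vd` and the mean value inequality. -/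
theorem PA.lip {P : PS n} (hD : CD U δ h c C) (hP : PA P U δ h A) (x : Fin P.R) {z ζ : Ec n}
    (hz : z ∈ U) (hζ : ζ ∈ U) : ‖P.V x z - P.V x ζ‖ ≤ A * ‖z - ζ‖ :=
  Convex.norm_image_sub_le_of_norm_fderiv_le (𝕜 := ℂ) (s := U) (x := ζ) (y := z)
    (fun _ hw => P2_da hD hP x hw) (fun w hw => hP.Vd x w hw) hD.cvx hζ hz

/-- In the domain. PROOF. `PA.re`: `N + δ z ≤ A Re V ≤ A |V|`. -/
theorem PA.dom {P : PS n} (hP : PA P U δ h A) (x : Fin P.R) {z : Ec n} (hz : z ∈ Om U δ) :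
    P.N x ≤ A * ‖P.V x z‖ ∧ δ z ≤ A * ‖P.V x z‖ ∧ 0 < ‖P.V x z‖ := by
  have hA : 0 < A := by linarith [hP.A1]
  have h1 := hP.re x z hz
  have h2 : A * (P.V x z).re ≤ A * ‖P.V x z‖ :=
    mul_le_mul_of_nonneg_left (Complex.re_le_norm _) hA.le
  have h3 := hP.N0 x
  have h4 := hz.2
  refine ⟨by linarith, by linarith, ?_⟩
  have h5 : 0 < A * ‖P.V x z‖ := by linarith
  exact (pos_iff_pos_of_mul_pos h5).1 hA

/-- Dilations.
PROOF. `|V(dil s w) - V w| ≤ A C s`. For `s ≤ ek k ≤ (8 / c) dk` this is at most `K dk`, and `δ (dil s w) ≥ (c / 4 C) dk` (`dil_lo`), so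
`|V(dil s w)| ≥ (c / 4 A C) dk` (`PA.dom`), and `|V w| ≤ |V(dil s w)| + K dk ≤ K' |V(dil s w)|`. -/
theorem V_dil (n : ℕ) (c C A : ℝ) : ∃ K : ℝ, 1 ≤ K ∧ ∀ (U : Set (Ec n)) (δ : Ec n → ℝ)
    (h : Ec n → Ec n → Fin n → ℂ) (P : PS n), CD U δ h c C → PA P U δ h A → ∀ (x : Fin P.R) (k : ℕ),
    ∀ w ∈ Dk U δ c k,
      P.N x ≤ K * (‖P.V x w‖ + dk δ c k w) ∧
      ∀ s ∈ Icc (ek (k + 1)) (ek k), ‖P.V x w‖ + dk δ c k w ≤ K * ‖P.V x (dil s w)‖ ∧
        ‖P.V x (dil s w)‖ ≤ K * (‖P.V x w‖ + dk δ c k w) := by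
  set K1 : ℝ := |A| * |C| * (8 / |c|) with hK1
  set K2 : ℝ := 4 * |C| / |c| * |A| with hK2
  have hK10 : 0 ≤ K1 := by positivity
  have hK20 : 0 ≤ K2 := by positivity
  set K : ℝ := 1 + (1 + K1) * K2 + (1 + |A|) * (1 + K1) with hK
  have hKa : 1 + (K1 + 1) * K2 ≤ K := by
    have : 0 ≤ (1 + |A|) * (1 + K1) := by positivity
    rw [hK]
    linarith
  have hKb : (1 + |A|) * (1 + K1) ≤ K := by
    have : 0 ≤ (1 + K1) * K2 := by positivity
    rw [hK]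
    linarith
  refine ⟨K, ?_, fun U δ h P hD hP x k w hw => ?_⟩
  · have : 0 ≤ (1 + K1) * K2 := by positivity
    have : 0 ≤ (1 + |A|) * (1 + K1) := by positivity
    rw [hK]
    linarith
  obtain ⟨hc, hc1, hC1⟩ := hD.pos
  have hC : 0 < C := by linarith
  have hA1 := hP.A1
  have hA : 0 < A := by linarith
  have ecc : |c| = c := abs_of_pos hc
  have eCC : |C| = C := abs_of_pos hC
  have eAA : |A| = A := abs_of_pos hA
  rw [eAA, eCC, ecc] at hK1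
  rw [eAA, eCC, ecc] at hK2
  rw [eAA] at hKb
  obtain ⟨hwU, -, hw2, hw3, hw4⟩ := Dk_basic hD hw
  have hek := ek_pos k
  have hdk : 0 < dk δ c k w := lt_of_le_of_lt (by positivity) hw2
  have hekdk : ek k ≤ 8 / c * dk δ c k w := by
    rw [div_mul_eq_mul_div, le_div_iff₀ hc]
    linarith
  -- the main estimates
  have main : ∀ s ∈ Icc (ek (k + 1)) (ek k), ‖P.V x w‖ + dk δ c k w ≤ (1 + (K1 + 1) * K2) *
      ‖P.V x (dil s w)‖ ∧ ‖P.V x (dil s w)‖ ≤ (1 + K1) * (‖P.V x w‖ + dk δ c k w) ∧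
      P.N x ≤ A * ‖P.V x (dil s w)‖ := by
    intro s hs
    have hs0 : 0 ≤ s := (ek_pos (k + 1)).le.trans hs.1
    have hs1 : s ≤ 1 := hs.2.trans (ek_le_one k)
    obtain ⟨hd1, hd2⟩ := dil_lo hD hw hs.1 hs1
    obtain ⟨hN, hδ, hV⟩ := hP.dom x hd1
    have hlip : ‖P.V x (dil s w) - P.V x w‖ ≤ K1 * dk δ c k w := by
      calc ‖P.V x (dil s w) - P.V x w‖ ≤ A * ‖dil s w - w‖ := hP.lip hD x hd1.1 hwU
        _ = A * (s * ‖w‖) := by
            rw [dil_sub, norm_neg, norm_smul, Complex.norm_real, Real.norm_eq_abs,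
              abs_of_nonneg hs0]
        _ ≤ A * (8 / c * dk δ c k w * C) := by
            refine mul_le_mul_of_nonneg_left ?_ hA.le
            exact mul_le_mul (hs.2.trans hekdk) hw4 (norm_nonneg _)
              (mul_nonneg (by positivity) hdk.le)
        _ = K1 * dk δ c k w := by rw [hK1]; ring
    have hdkV : dk δ c k w ≤ K2 * ‖P.V x (dil s w)‖ := by
      have h1 : c / (4 * C) * dk δ c k w ≤ A * ‖P.V x (dil s w)‖ := hd2.trans hδ
      have h2 : dk δ c k w = 4 * C / c * (c / (4 * C) * dk δ c k w) := by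
        field_simp
      rw [h2, hK2]
      calc 4 * C / c * (c / (4 * C) * dk δ c k w) ≤ 4 * C / c * (A * ‖P.V x (dil s w)‖) :=
            mul_le_mul_of_nonneg_left h1 (by positivity)
        _ = _ := by ring
    have t1 : ‖P.V x w‖ ≤ ‖P.V x (dil s w)‖ + K1 * dk δ c k w := by
      have := norm_sub_norm_le (P.V x w) (P.V x (dil s w))
      rw [norm_sub_rev] at this
      linarith
    have t2 : ‖P.V x (dil s w)‖ ≤ ‖P.V x w‖ + K1 * dk δ c k w := by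
      have := norm_sub_norm_le (P.V x (dil s w)) (P.V x w)
      linarith
    refine ⟨?_, ?_, hN⟩
    · have t3 : (K1 + 1) * dk δ c k w ≤ (K1 + 1) * (K2 * ‖P.V x (dil s w)‖) :=
        mul_le_mul_of_nonneg_left hdkV (by positivity)
      calc ‖P.V x w‖ + dk δ c k w ≤ ‖P.V x (dil s w)‖ + (K1 + 1) * dk δ c k w := by linarith
        _ ≤ ‖P.V x (dil s w)‖ + (K1 + 1) * (K2 * ‖P.V x (dil s w)‖) := by linarith
        _ = _ := by ring
    · have t4 : 0 ≤ K1 * ‖P.V x w‖ := mul_nonneg hK10 (norm_nonneg _)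
      calc ‖P.V x (dil s w)‖ ≤ ‖P.V x w‖ + K1 * dk δ c k w := t2
        _ ≤ (1 + K1) * (‖P.V x w‖ + dk δ c k w) := by
            have : (1 + K1) * (‖P.V x w‖ + dk δ c k w) =
              ‖P.V x w‖ + K1 * dk δ c k w + (K1 * ‖P.V x w‖ + dk δ c k w) := by ring
            rw [this]
            linarith
  have hS : 0 ≤ ‖P.V x w‖ + dk δ c k w := add_nonneg (norm_nonneg _) hdk.le
  have hKc : 1 + K1 ≤ K := by
    have : 1 + K1 ≤ (1 + A) * (1 + K1) := by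
      have : 0 ≤ A * (1 + K1) := by positivity
      linarith
    linarith
  have hKd : A * (1 + K1) ≤ K := by
    have : (1 + A) * (1 + K1) = (1 + K1) + A * (1 + K1) := by ring
    have h0 : 0 ≤ 1 + K1 := by positivity
    linarith
  refine ⟨?_, fun s hs => ?_⟩
  · obtain ⟨-, m2, m3⟩ := main (ek k) ⟨ek_anti (Nat.le_succ k), le_refl _⟩
    calc P.N x ≤ A * ‖P.V x (dil (ek k) w)‖ := m3
      _ ≤ A * ((1 + K1) * (‖P.V x w‖ + dk δ c k w)) := mul_le_mul_of_nonneg_left m2 hA.le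
      _ = A * (1 + K1) * (‖P.V x w‖ + dk δ c k w) := by ring
      _ ≤ K * (‖P.V x w‖ + dk δ c k w) := mul_le_mul_of_nonneg_right hKd hS
  · obtain ⟨m1, m2, -⟩ := main s hs
    exact ⟨m1.trans (mul_le_mul_of_nonneg_right hKa (norm_nonneg _)),
      m2.trans (mul_le_mul_of_nonneg_right hKc hS)⟩

private theorem P2_h_diff (a b : Fin n → ℂ) (X : Ec n) :
    ‖∑ k, a k * X k‖ ≤ ‖∑ k, b k * X k‖ + n * ‖a - b‖ * ‖X‖ := by
  have e : ∑ k, a k * X k = ∑ k, b k * X k + ∑ k, (a - b) k * X k := by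
    rw [← Finset.sum_add_distrib]
    refine Finset.sum_congr rfl fun k _ => ?_
    rw [Pi.sub_apply]
    ring
  rw [e]
  exact (norm_add_le _ _).trans (add_le_add le_rfl (lin_le (a - b) X))

/-- The tangential derivative.
PROOF. Let `w' = dil (ek k) w ∈ Om U δ`, `‖w - w'‖ ≤ C ek k ≤ K dk`. `dV(w) X = dV(w') X + O(A C ek k) ‖X‖` (`Vl`), `PA.tan` at `w'`, `|h(w',w') X| ≤ |h(w,w) X| + K ek k ‖X‖`
(`dil_up`), `|V w'| ≤ K (|V w| + dk)` (`V_dil`), and `ek k ≤ K dk ≤ K √C √dk`. -/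
theorem V_tan (n : ℕ) (c C A : ℝ) : ∃ K : ℝ, 1 ≤ K ∧ ∀ (U : Set (Ec n)) (δ : Ec n → ℝ)
    (h : Ec n → Ec n → Fin n → ℂ) (P : PS n), CD U δ h c C → PA P U δ h A → ∀ (x : Fin P.R) (k : ℕ),
    ∀ w ∈ Dk U δ c k, ∀ X : Ec n, ‖fderiv ℂ (P.V x) w X‖ ≤
      K * (‖∑ k, h w w k * X k‖ + Real.sqrt (‖P.V x w‖ + dk δ c k w) * ‖X‖) ∧
      ‖fderiv ℂ (P.V x) w X‖ ≤ K * (‖P.V x w‖ + dk δ c k w) * gau (dk δ c k) h w X := by
  obtain ⟨K0, hK0, hdil⟩ := V_dil n c C A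
  obtain ⟨L, hL, hup⟩ := dil_up n c C
  set K : ℝ := 1 + |A| + (|A| * n * L * (8 / |c|) * Real.sqrt |C| + |A| * Real.sqrt K0 +
    |A| * |C| * (8 / |c|) * Real.sqrt |C|) with hK
  have hL0 : 0 ≤ L := by linarith
  have hKn : 0 ≤ |A| * n * L * (8 / |c|) * Real.sqrt |C| + |A| * Real.sqrt K0 +
    |A| * |C| * (8 / |c|) * Real.sqrt |C| := by positivity
  have hK1 : 1 ≤ K := by
    have := abs_nonneg A
    rw [hK]
    linarith
  refine ⟨K, hK1, fun U δ h P hD hP x k w hw X => ?_⟩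
  obtain ⟨hc, hc1, hC1⟩ := hD.pos
  have hC : 0 < C := by linarith
  have hA : 0 < A := by linarith [hP.A1]
  have ecc : |c| = c := abs_of_pos hc
  have eCC : |C| = C := abs_of_pos hC
  have eAA : |A| = A := abs_of_pos hA
  rw [eAA, eCC, ecc] at hK
  obtain ⟨hwU, -, hw2, hw3, hw4⟩ := Dk_basic hD hw
  have hek := ek_pos k
  have hek1 := ek_le_one k
  have hdk : 0 < dk δ c k w := lt_of_le_of_lt (by positivity) hw2
  have hekdk : ek k ≤ 8 / c * dk δ c k w := by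
    rw [div_mul_eq_mul_div, le_div_iff₀ hc]
    linarith
  set S := ‖P.V x w‖ + dk δ c k w with hS
  have hSdk : dk δ c k w ≤ S := by
    rw [hS]
    linarith [norm_nonneg (P.V x w)]
  have hS0 : 0 < S := hdk.trans_le hSdk
  have hsq : Real.sqrt (dk δ c k w) ≤ Real.sqrt S := Real.sqrt_le_sqrt hSdk
  have hekS : ek k ≤ 8 / c * Real.sqrt C * Real.sqrt S := by
    calc ek k ≤ 8 / c * dk δ c k w := hekdk
      _ = 8 / c * (Real.sqrt (dk δ c k w) * Real.sqrt (dk δ c k w)) := by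
          rw [Real.mul_self_sqrt hdk.le]
      _ ≤ 8 / c * (Real.sqrt C * Real.sqrt S) := by
          refine mul_le_mul_of_nonneg_left ?_ (by positivity)
          exact mul_le_mul (Real.sqrt_le_sqrt hw3) hsq (Real.sqrt_nonneg _) (Real.sqrt_nonneg _)
      _ = _ := by ring
  obtain ⟨hd1, hd2⟩ := dil_lo hD hw (ek_anti (Nat.le_succ k)) hek1
  set w' := dil (ek k) w with hw'
  have hww : ‖w - w'‖ ≤ C * ek k := by
    rw [norm_sub_rev, hw', dil_sub, norm_neg, norm_smul, Complex.norm_real, Real.norm_eq_abs,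
      abs_of_pos hek, mul_comm]
    exact mul_le_mul_of_nonneg_right hw4 hek.le
  have hXn := norm_nonneg X
  have e1 : ‖fderiv ℂ (P.V x) w X‖ ≤ ‖fderiv ℂ (P.V x) w' X‖ + A * (C * ek k) * ‖X‖ := by
    have e11 : fderiv ℂ (P.V x) w X = fderiv ℂ (P.V x) w' X +
        (fderiv ℂ (P.V x) w - fderiv ℂ (P.V x) w') X := by
      rw [sub_apply]
      ring
    rw [e11]
    refine (norm_add_le _ _).trans (add_le_add le_rfl ?_)
    refine (ContinuousLinearMap.le_opNorm _ _).trans ?_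
    refine mul_le_mul_of_nonneg_right ?_ hXn
    exact (hP.Vl x w hwU w' hd1.1).trans (mul_le_mul_of_nonneg_left hww hA.le)
  have e2 := hP.tan x w' hd1 X
  have e3 : ‖∑ k, h w' w' k * X k‖ ≤ ‖∑ k, h w w k * X k‖ + n * (L * ek k) * ‖X‖ := by
    refine (P2_h_diff (h w' w') (h w w) X).trans (add_le_add le_rfl ?_)
    refine mul_le_mul_of_nonneg_right ?_ hXn
    refine mul_le_mul_of_nonneg_left ?_ (Nat.cast_nonneg n)
    exact (hup U δ h hD w (Dk_anti hD (Nat.zero_le k) hw) (ek k) ⟨hek.le, hek1⟩).2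
  have e4 : Real.sqrt ‖P.V x w'‖ ≤ Real.sqrt K0 * Real.sqrt S := by
    rw [← Real.sqrt_mul (by linarith)]
    exact Real.sqrt_le_sqrt ((hdil U δ h P hD hP x k w hw).2 (ek k)
      ⟨ek_anti (Nat.le_succ k), le_refl _⟩).2
  have hsS : 0 ≤ Real.sqrt S := Real.sqrt_nonneg S
  have first : ‖fderiv ℂ (P.V x) w X‖ ≤ K * (‖∑ k, h w w k * X k‖ + Real.sqrt S * ‖X‖) := by
    have f1 : ‖fderiv ℂ (P.V x) w X‖ ≤ A * (‖∑ k, h w w k * X k‖ + n * (L * ek k) * ‖X‖ +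
        Real.sqrt K0 * Real.sqrt S * ‖X‖) + A * (C * ek k) * ‖X‖ := by
      refine e1.trans (add_le_add (e2.trans ?_) le_rfl)
      refine mul_le_mul_of_nonneg_left ?_ hA.le
      exact add_le_add e3 (mul_le_mul_of_nonneg_right e4 hXn)
    have f2 : A * (n * (L * ek k) * ‖X‖) ≤
        A * n * L * (8 / c) * Real.sqrt C * (Real.sqrt S * ‖X‖) := by
      calc A * (n * (L * ek k) * ‖X‖) = A * n * L * ‖X‖ * ek k := by ring
        _ ≤ A * n * L * ‖X‖ * (8 / c * Real.sqrt C * Real.sqrt S) :=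
            mul_le_mul_of_nonneg_left hekS (by positivity)
        _ = _ := by ring
    have f3 : A * (C * ek k) * ‖X‖ ≤ A * C * (8 / c) * Real.sqrt C * (Real.sqrt S * ‖X‖) := by
      calc A * (C * ek k) * ‖X‖ = A * C * ‖X‖ * ek k := by ring
        _ ≤ A * C * ‖X‖ * (8 / c * Real.sqrt C * Real.sqrt S) :=
            mul_le_mul_of_nonneg_left hekS (by positivity)
        _ = _ := by ring
    have hH := norm_nonneg (∑ k, h w w k * X k)
    have hSX : 0 ≤ Real.sqrt S * ‖X‖ := mul_nonneg hsS hXn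
    rw [ecc, eCC, eAA] at hKn
    have g1 : 0 ≤ (A * n * L * (8 / c) * Real.sqrt C + A * Real.sqrt K0 +
      A * C * (8 / c) * Real.sqrt C) * ‖∑ k, h w w k * X k‖ := mul_nonneg hKn hH
    have g2 : 0 ≤ (1 + A) * (Real.sqrt S * ‖X‖) := by positivity
    rw [hK]
    nlinarith [f1, f2, f3, g1, g2, hH]
  refine ⟨first, first.trans ?_⟩
  rw [mul_assoc]
  refine mul_le_mul_of_nonneg_left ?_ (by linarith)
  unfold gau
  have hdks : 0 < Real.sqrt (dk δ c k w) := Real.sqrt_pos.2 hdk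
  rw [mul_add]
  refine add_le_add ?_ ?_
  · rw [mul_div_assoc', le_div_iff₀ hdk, mul_comm]
    exact mul_le_mul_of_nonneg_right hSdk (norm_nonneg _)
  · rw [mul_div_assoc', le_div_iff₀ hdks]
    calc Real.sqrt S * ‖X‖ * Real.sqrt (dk δ c k w) ≤ Real.sqrt S * ‖X‖ * Real.sqrt S :=
          mul_le_mul_of_nonneg_left hsq (mul_nonneg hsS hXn)
      _ = (Real.sqrt S * Real.sqrt S) * ‖X‖ := by ring
      _ = S * ‖X‖ := by rw [Real.mul_self_sqrt hS0.le]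

private theorem P2_real {T C' E A v S d H Y : ℝ} (hT : 0 ≤ T) (hC' : 0 ≤ C') (hE : 0 ≤ E)
    (hA : 0 ≤ A) (hv : 0 ≤ v) (_ : 0 ≤ d) (hY : Y ≤ T * (H + Real.sqrt S * d) + A * d ^ 2)
    (hH : H ≤ C' * v) (hd : d ^ 2 ≤ E * v) :
    Y ≤ (T * C' + T * Real.sqrt E + A * E) * (v + Real.sqrt v * Real.sqrt S) := by
  have h1 : d ≤ Real.sqrt E * Real.sqrt v := by
    rw [← Real.sqrt_mul hE]
    exact Real.le_sqrt_of_sq_le hd
  have hs := Real.sqrt_nonneg S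
  have hsv := Real.sqrt_nonneg v
  have hsE := Real.sqrt_nonneg E
  have h2 : T * H ≤ T * (C' * v) := mul_le_mul_of_nonneg_left hH hT
  have h3 : T * (Real.sqrt S * d) ≤ T * (Real.sqrt S * (Real.sqrt E * Real.sqrt v)) :=
    mul_le_mul_of_nonneg_left (mul_le_mul_of_nonneg_left h1 hs) hT
  have h4 : A * d ^ 2 ≤ A * (E * v) := mul_le_mul_of_nonneg_left hd hA
  have g1 : 0 ≤ T * C' * (Real.sqrt v * Real.sqrt S) := by positivity
  have g2 : 0 ≤ T * Real.sqrt E * v := by positivity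
  have g3 : 0 ≤ A * E * (Real.sqrt v * Real.sqrt S) := by positivity
  have e : (T * C' + T * Real.sqrt E + A * E) * (v + Real.sqrt v * Real.sqrt S) =
      T * (C' * v) + T * (Real.sqrt S * (Real.sqrt E * Real.sqrt v)) + A * (E * v) +
        (T * C' * (Real.sqrt v * Real.sqrt S) + T * Real.sqrt E * v +
        A * E * (Real.sqrt v * Real.sqrt S)) := by ring
  rw [e]
  have e2 : T * (H + Real.sqrt S * d) = T * H + T * (Real.sqrt S * d) := by ring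
  linarith

private theorem P2_young {v S : ℝ} (hv : 0 ≤ v) (hS : 0 ≤ S) :
    Real.sqrt v * Real.sqrt S ≤ v + S := by
  have h1 := Real.sq_sqrt hv
  have h2 := Real.sq_sqrt hS
  nlinarith [sq_nonneg (Real.sqrt v - Real.sqrt S), Real.sqrt_nonneg v, Real.sqrt_nonneg S]

private theorem P2_neg (a : Fin n → ℂ) (z ζ : Ec n) :
    ‖∑ k, a k * (z - ζ) k‖ = ‖∑ k, a k * (ζ k - z k)‖ := by
  have e : ∑ k, a k * (z - ζ) k = -∑ k, a k * (ζ k - z k) := by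
    rw [← Finset.sum_neg_distrib]
    refine Finset.sum_congr rfl fun k _ => ?_
    rw [PiLp.sub_apply]
    ring
  rw [e, norm_neg]

/-- Two points of a level, `v = vv (δ + t)`.
PROOF. `V z - V ζ = dV(ζ)(z - ζ) + O(A ‖z - ζ‖²)`; `V_tan` at `ζ ∈ Dk k` (as `t ≤ (c / 8) ek k`); `|h(ζ,ζ)(z - ζ)| ≤ K |v|` (`g_le` for
`δ + t`), `‖z - ζ‖² ≤ K |v|` (`v_lb`). This is (1). (2): `|V z| ≤ |V ζ| + K |v| + K √(...) √|v| ≤ K' (|V ζ| + dk ζ + |v|)`; `dk z ≤ (δ z + t) + (c / 4) ek k ≤ 2 |v| + 2 dk ζ`;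
and `δ ζ + t ≤ dk ζ`, `δ ζ + t ≤ 2 |v|`. -/
theorem V_two (n : ℕ) (c C A : ℝ) : ∃ K : ℝ, 1 ≤ K ∧ ∀ (U : Set (Ec n)) (δ : Ec n → ℝ)
    (h : Ec n → Ec n → Fin n → ℂ) (P : PS n), CD U δ h c C → PA P U δ h A → ∀ (x : Fin P.R) (k : ℕ)
    (t : ℝ), 0 ≤ t → t ≤ c / 8 * ek k → ∀ z ∈ Om U (fun w => δ w + t),
    ∀ ζ ∈ Om U (fun w => δ w + t),
      ‖P.V x z - P.V x ζ‖ ≤ K * (‖vv (fun w => δ w + t) h z ζ‖ +
        Real.sqrt ‖vv (fun w => δ w + t) h z ζ‖ * Real.sqrt (‖P.V x ζ‖ + dk δ c k ζ)) ∧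
      ‖P.V x z‖ + dk δ c k z ≤ K * (‖vv (fun w => δ w + t) h z ζ‖ / (δ ζ + t)) *
        (‖P.V x ζ‖ + dk δ c k ζ) := by
  obtain ⟨T, hT1, htan⟩ := V_tan n c C A
  obtain ⟨C', hC', hg⟩ := g_le n (c / 2) C
  set K1 : ℝ := T * C' + T * Real.sqrt (4 / |c|) + |A| * (4 / |c|) with hK1
  have hT : 0 ≤ T := by linarith
  have hK10 : 0 ≤ K1 := by positivity
  refine ⟨3 * (3 + 2 * K1), by linarith, fun U δ h P hD hP x k t ht htc z hz ζ hζ => ?_⟩
  obtain ⟨hc, hc1, hC1⟩ := hD.pos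
  have hA : 0 < A := by linarith [hP.A1]
  have ecc : |c| = c := abs_of_pos hc
  have eAA : |A| = A := abs_of_pos hA
  rw [eAA, ecc] at hK1
  have hek := ek_pos k
  have hek1 := ek_le_one k
  have ht2 : t ≤ c / 2 := by
    have : c / 8 * ek k ≤ c / 8 * 1 := mul_le_mul_of_nonneg_left hek1 (by positivity)
    linarith
  have hgeo := hD.lev ht ht2
  have hζD : ζ ∈ Dk U δ c k := ⟨hζ.1, by
    have := hζ.2
    simp only at this ⊢
    linarith⟩
  obtain ⟨hζU, -, hζ2, hζ3, hζ4⟩ := Dk_basic hD hζD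
  obtain ⟨v1, v2, v3, v4⟩ := v_lb hgeo hz hζ
  obtain ⟨g1, -⟩ := hg U _ h hgeo z hz ζ hζ
  set v := ‖vv (fun w => δ w + t) h z ζ‖ with hv
  set S := ‖P.V x ζ‖ + dk δ c k ζ with hS
  have hdkζ : 0 < dk δ c k ζ := lt_of_le_of_lt (by positivity) hζ2
  have hS0 : 0 < S := add_pos_of_nonneg_of_pos (norm_nonneg _) hdkζ
  have hdist : ‖z - ζ‖ ^ 2 ≤ 4 / c * v := by
    rw [norm_sub_rev, div_mul_eq_mul_div, le_div_iff₀ hc]
    linarith
  have hY : ‖P.V x z - P.V x ζ‖ ≤ T * (‖∑ k, h ζ ζ k * (ζ k - z k)‖ +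
      Real.sqrt S * ‖z - ζ‖) + A * ‖z - ζ‖ ^ 2 := by
    have y1 := hP.taylor hD x hz.1 hζU
    have y2 := (htan U δ h P hD hP x k ζ hζD (z - ζ)).1
    rw [P2_neg] at y2
    have y3 : ‖P.V x z - P.V x ζ‖ ≤ ‖P.V x z - P.V x ζ - fderiv ℂ (P.V x) ζ (z - ζ)‖ +
        ‖fderiv ℂ (P.V x) ζ (z - ζ)‖ := by
      have := norm_add_le (P.V x z - P.V x ζ - fderiv ℂ (P.V x) ζ (z - ζ))
        (fderiv ℂ (P.V x) ζ (z - ζ))
      rwa [sub_add_cancel] at this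
    linarith
  have first : ‖P.V x z - P.V x ζ‖ ≤ K1 * (v + Real.sqrt v * Real.sqrt S) := by
    rw [hK1]
    exact P2_real hT hC'.le (by positivity) hA.le v4.le (norm_nonneg _) hY g1 hdist
  have hvS : 0 ≤ v + Real.sqrt v * Real.sqrt S := by positivity
  refine ⟨first.trans (mul_le_mul_of_nonneg_right (by linarith) hvS), ?_⟩
  have hyo := P2_young v4.le hS0.le
  have hVz : ‖P.V x z‖ ≤ ‖P.V x ζ‖ + K1 * (2 * v + S) := by
    have a1 := norm_sub_norm_le (P.V x z) (P.V x ζ)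
    have a2 : K1 * (v + Real.sqrt v * Real.sqrt S) ≤ K1 * (2 * v + S) :=
      mul_le_mul_of_nonneg_left (by linarith) hK10
    linarith
  have hdkz : dk δ c k z ≤ 2 * v + 2 * dk δ c k ζ := by
    have a1 : dk δ c k z = (δ z + t) + c / 4 * ek k - t := by unfold dk; ring
    have a2 : c / 4 * ek k = 2 * (c / 8 * ek k) := by ring
    have a3 : δ z + t ≤ 2 * v := v1
    linarith
  have hζt : δ ζ + t ≤ dk δ c k ζ := by
    unfold dk
    have : c / 8 * ek k ≤ c / 4 * ek k := mul_le_mul_of_nonneg_right (by linarith) hek.le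
    linarith
  have ha : 0 < δ ζ + t := hζ.2
  have hdkS : dk δ c k ζ ≤ S := by
    rw [hS]
    linarith [norm_nonneg (P.V x ζ)]
  have hq : 1 ≤ 2 * (v / (δ ζ + t)) := by
    rw [mul_div_assoc', le_div_iff₀ ha, one_mul]
    exact v2
  have b1 : S ≤ 2 * (v / (δ ζ + t)) * S := le_mul_of_one_le_left hS0.le hq
  have b2 : v ≤ v / (δ ζ + t) * S := by
    calc v = v / (δ ζ + t) * (δ ζ + t) := by field_simp
      _ ≤ v / (δ ζ + t) * S :=
        mul_le_mul_of_nonneg_left (hζt.trans hdkS) (div_nonneg v4.le ha.le)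
  have hSz : ‖P.V x z‖ + dk δ c k z ≤ (3 + 2 * K1) * (S + v) := by
    have c1 : ‖P.V x ζ‖ + 2 * dk δ c k ζ ≤ 3 * S := by linarith [hdkS, norm_nonneg (P.V x ζ)]
    have c2 : K1 * (2 * v + S) ≤ 2 * K1 * (S + v) := by nlinarith
    nlinarith [hVz, hdkz, v4]
  have hKK : 0 ≤ 3 + 2 * K1 := by positivity
  calc ‖P.V x z‖ + dk δ c k z ≤ (3 + 2 * K1) * (S + v) := hSz
    _ ≤ (3 + 2 * K1) * (2 * (v / (δ ζ + t)) * S + v / (δ ζ + t) * S) :=
      mul_le_mul_of_nonneg_left (add_le_add b1 b2) hKK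
    _ = 3 * (3 + 2 * K1) * (v / (δ ζ + t)) * S := by ring

/-- Two points of the domain, `v = vv δ`.
PROOF. As `V_two`, directly with `PA.tan` at `ζ ∈ Om U δ` (`g_le`, `v_lb` for `δ`, `CD.geo0`). (2) from (1). (3) from (1) with `z` and `ζ` exchanged in the
first line (the Taylor formula at `z`; `|∑ h_k(z,z)(ζ - z)_k| ≤ K |v|` is also in `g_le`). (4) from (2): `|v| = (|v| / δ ζ) δ ζ`, `δ ζ ≤ A |V ζ|`, `|v| ≥ δ ζ / 2`. -/
theorem V_dom (n : ℕ) (c C A : ℝ) : ∃ K : ℝ, 1 ≤ K ∧ ∀ (U : Set (Ec n)) (δ : Ec n → ℝ)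
    (h : Ec n → Ec n → Fin n → ℂ) (P : PS n), CD U δ h c C → PA P U δ h A → ∀ (x : Fin P.R),
    ∀ z ∈ Om U δ, ∀ ζ ∈ Om U δ,
      ‖P.V x z - P.V x ζ‖ ≤ K * (‖vv δ h z ζ‖ + Real.sqrt ‖vv δ h z ζ‖ * Real.sqrt ‖P.V x ζ‖) ∧
      ‖P.V x z‖ ≤ K * (‖P.V x ζ‖ + ‖vv δ h z ζ‖) ∧ ‖P.V x ζ‖ ≤ K * (‖P.V x z‖ + ‖vv δ h z ζ‖) ∧
      ‖P.V x z‖ ≤ K * (‖vv δ h z ζ‖ / δ ζ) * ‖P.V x ζ‖ := by
  obtain ⟨C', hC', hg⟩ := g_le n (c / 2) C
  set K1 : ℝ := |A| * C' + |A| * Real.sqrt (4 / |c|) + |A| * (4 / |c|) with hK1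
  have hK10 : 0 ≤ K1 := by positivity
  have hKK : 0 ≤ 1 + 2 * K1 := by positivity
  refine ⟨(1 + 2 * K1) * (2 + |A|), ?_, fun U δ h P hD hP x z hz ζ hζ => ?_⟩
  · have := abs_nonneg A
    nlinarith
  obtain ⟨hc, hc1, hC1⟩ := hD.pos
  have hA1 := hP.A1
  have hA : 0 < A := by linarith
  have ecc : |c| = c := abs_of_pos hc
  have eAA : |A| = A := abs_of_pos hA
  rw [eAA, ecc] at hK1
  rw [eAA]
  have hgeo := hD.geo0
  obtain ⟨v1, v2, v3, v4⟩ := v_lb hgeo hz hζ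
  obtain ⟨g1, g2⟩ := hg U _ h hgeo z hz ζ hζ
  obtain ⟨-, dζ, Vζ⟩ := hP.dom x hζ
  set v := ‖vv δ h z ζ‖ with hv
  have hdist : ‖z - ζ‖ ^ 2 ≤ 4 / c * v := by
    rw [norm_sub_rev, div_mul_eq_mul_div, le_div_iff₀ hc]
    linarith
  have hdist' : ‖ζ - z‖ ^ 2 ≤ 4 / c * v := by rwa [norm_sub_rev]
  have gen : ∀ a b : Ec n, a ∈ Om U δ → b ∈ Om U δ → ‖∑ k, h b b k * (a - b) k‖ ≤ C' * v →
      ‖a - b‖ ^ 2 ≤ 4 / c * v →
      ‖P.V x a - P.V x b‖ ≤ K1 * (v + Real.sqrt v * Real.sqrt ‖P.V x b‖) := by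
    intro a b ha hb hh hd
    have hY : ‖P.V x a - P.V x b‖ ≤ A * (‖∑ k, h b b k * (a - b) k‖ +
        Real.sqrt ‖P.V x b‖ * ‖a - b‖) + A * ‖a - b‖ ^ 2 := by
      have y1 := hP.taylor hD x ha.1 hb.1
      have y2 := hP.tan x b hb (a - b)
      have y3 : ‖P.V x a - P.V x b‖ ≤ ‖P.V x a - P.V x b - fderiv ℂ (P.V x) b (a - b)‖ +
          ‖fderiv ℂ (P.V x) b (a - b)‖ := by
        have := norm_add_le (P.V x a - P.V x b - fderiv ℂ (P.V x) b (a - b))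
          (fderiv ℂ (P.V x) b (a - b))
        rwa [sub_add_cancel] at this
      linarith
    rw [hK1]
    exact P2_real hA.le hC'.le (by positivity) hA.le v4.le (norm_nonneg _) hY hh hd
  have r1 := gen z ζ hz hζ (by rw [P2_neg]; exact g1) hdist
  have r2 := gen ζ z hζ hz (by
    have : ∑ k, h z z k * (ζ - z) k = ∑ k, h z z k * (ζ k - z k) :=
      Finset.sum_congr rfl fun k _ => by rw [PiLp.sub_apply]
    rw [this]
    exact g2) hdist'
  have hbig1 : K1 ≤ (1 + 2 * K1) * (2 + A) := by nlinarith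
  have hbig2 : 1 + 2 * K1 ≤ (1 + 2 * K1) * (2 + A) := by nlinarith
  have two : ∀ a b : Ec n, ‖P.V x a - P.V x b‖ ≤ K1 * (v + Real.sqrt v * Real.sqrt ‖P.V x b‖) →
      ‖P.V x a‖ ≤ (1 + 2 * K1) * (‖P.V x b‖ + v) := by
    intro a b hab
    have a1 := norm_sub_norm_le (P.V x a) (P.V x b)
    have a2 := P2_young v4.le (norm_nonneg (P.V x b))
    have a3 : K1 * (v + Real.sqrt v * Real.sqrt ‖P.V x b‖) ≤ K1 * (2 * v + ‖P.V x b‖) :=
      mul_le_mul_of_nonneg_left (by linarith) hK10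
    have a4 := norm_nonneg (P.V x b)
    nlinarith
  have t1 := two z ζ r1
  have t2 := two ζ z r2
  have hq : 1 ≤ 2 * (v / δ ζ) := by
    rw [mul_div_assoc', le_div_iff₀ hζ.2, one_mul]
    exact v2
  refine ⟨r1.trans (mul_le_mul_of_nonneg_right hbig1 (by positivity)),
    t1.trans (mul_le_mul_of_nonneg_right hbig2 (by positivity)),
    t2.trans (mul_le_mul_of_nonneg_right hbig2 (by positivity)), ?_⟩
  have b1 : ‖P.V x ζ‖ ≤ 2 * (v / δ ζ) * ‖P.V x ζ‖ := le_mul_of_one_le_left (norm_nonneg _) hq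
  have b2 : v ≤ v / δ ζ * (A * ‖P.V x ζ‖) := by
    have hδ := hζ.2
    calc v = v / δ ζ * δ ζ := by field_simp
      _ ≤ _ := mul_le_mul_of_nonneg_left dζ (div_nonneg v4.le hδ.le)
  calc ‖P.V x z‖ ≤ (1 + 2 * K1) * (‖P.V x ζ‖ + v) := t1
    _ ≤ (1 + 2 * K1) * (2 * (v / δ ζ) * ‖P.V x ζ‖ + v / δ ζ * (A * ‖P.V x ζ‖)) :=
      mul_le_mul_of_nonneg_left (add_le_add b1 b2) hKK
    _ = (1 + 2 * K1) * (2 + A) * (v / δ ζ) * ‖P.V x ζ‖ := by ring

end Pool.Agent.MPca0fc2.GW
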