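import Pool.Agent.Lib.MP_ca0fc2_an.Mg.G027
import Pool.Agent.Lib.MP_ca0fc2_an.GW.P2

/-! The Carleson condition and the potentials. -/

set_option autoImplicit false

open Metric Set MeasureTheory Filter Topology

namespace Pool.Agent.MPca0fc2.GW

open Pool.Agent.MPca0fc2.FD

variable {n : ℕ} {U : Set (Ec n)} {δ : Ec n → ℝ} {h : Ec n → Ec n → Fin n → ℂ} {c C A : ℝ}

private theorem P3a_core (P : PS n) (hP : PA P U δ h A) (w z' : Ec n)
    (hz : z' ∈ Om U δ) (ρ d R : ℝ) (hd : 0 < d) (hdz : d ≤ δ z') (hR : 0 ≤ R)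
    (hV : ∀ x, ‖P.V x w‖ ≤ ρ → ‖P.V x z'‖ ≤ R) :
    ∑ x, (if ‖P.V x w‖ ≤ ρ then P.w x * P.N x else 0) ≤ R ^ 2 / d * A := by
  have hc := hP.carl z' hz
  have h1 : ∑ x, (if ‖P.V x w‖ ≤ ρ then P.w x * P.N x else 0) ≤
      ∑ x, R ^ 2 / d * (P.w x * P.N x * δ z' / ‖P.V x z'‖ ^ 2) := by
    refine Finset.sum_le_sum fun x _ => ?_
    have hw := hP.w0 x
    have hN := hP.N0 x
    have hv := (hP.dom x hz).2.2
    have hwN : 0 ≤ P.w x * P.N x := mul_nonneg hw hN.le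
    split_ifs with hx
    · have hVx := hV x hx
      have h2 : ‖P.V x z'‖ ^ 2 ≤ R ^ 2 := pow_le_pow_left₀ hv.le hVx 2
      have h3 : R ^ 2 / d * (P.w x * P.N x * δ z' / ‖P.V x z'‖ ^ 2) =
          P.w x * P.N x * ((R ^ 2 / ‖P.V x z'‖ ^ 2) * (δ z' / d)) := by
        field_simp
      rw [h3]
      have h4 : 1 ≤ R ^ 2 / ‖P.V x z'‖ ^ 2 := by
        rw [one_le_div (by positivity)]
        exact h2
      have h5 : 1 ≤ δ z' / d := by
        rw [one_le_div hd]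
        exact hdz
      have h6 : 1 ≤ (R ^ 2 / ‖P.V x z'‖ ^ 2) * (δ z' / d) := one_le_mul_of_one_le_of_one_le h4 h5
      calc P.w x * P.N x = P.w x * P.N x * 1 := by ring
        _ ≤ _ := mul_le_mul_of_nonneg_left h6 hwN
    · have hδ : 0 < δ z' := lt_of_lt_of_le hd hdz
      positivity
  refine h1.trans ?_
  rw [← Finset.mul_sum]
  exact mul_le_mul_of_nonneg_left hc (by positivity)

/-- The mass of `{|V| ≤ r}`.
PROOF. Let `s = min 1 (2 r / c)`, `z' = dil s w`. If `2 r ≤ c`: `δ z' ≥ (1 - s) δ w + s c ≥ - r + 2 r = r` (`dil_conc`); if `2 r > c`: `z' = 0`, `δ z' ≥ c`. So `z' ∈ Om U δ`. For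
`x` with `|V w| ≤ r`: `|V z'| ≤ r + A C s ≤ K r`, and `|V z'| ≤ A`. The Carleson condition at `z'`:
`∑ w N δ z' / |V z'|² ≤ A`. If `2 r ≤ c`: `∑_{|V w| ≤ r} w N ≤ A K² r² / r`. If `2 r > c`: `∑ w N ≤ A³ / c ≤ (2 A³ / c²) r`. -/
theorem sum_N (n : ℕ) (c C A : ℝ) : ∃ K : ℝ, 1 ≤ K ∧ ∀ (U : Set (Ec n)) (δ : Ec n → ℝ)
    (h : Ec n → Ec n → Fin n → ℂ) (P : PS n), CD U δ h c C → PA P U δ h A → ∀ w ∈ U, ∀ r : ℝ,
    0 < r → -r ≤ δ w → ∑ x, (if ‖P.V x w‖ ≤ r then P.w x * P.N x else 0) ≤ K * r := by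
  refine ⟨max 1 (max ((1 + 2 * A * C / c) ^ 2 * A) (2 * A ^ 3 / c ^ 2)), le_max_left _ _, ?_⟩
  intro U δ h P hD hP w hw r hr hδ
  obtain ⟨hc, hc1, hC⟩ := hD.pos
  have hA := hP.A1
  have hwC : ‖w‖ ≤ C := hD.geo.bz w hw
  by_cases h2 : 2 * r ≤ c
  · set s := 2 * r / c with hs
    have hs0 : 0 ≤ s := by positivity
    have hs1 : s ≤ 1 := by rw [hs, div_le_one hc]; exact h2
    have hsc : s * c = 2 * r := by rw [hs]; field_simp
    have hconc := dil_conc hD hw hs0 hs1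
    have hU := dil_U hD hw hs0 hs1
    have hδ' : r ≤ δ (dil s w) := by
      have h3 : (1 - s) * (-r) ≤ (1 - s) * δ w := mul_le_mul_of_nonneg_left hδ (by linarith)
      have h4 : 0 ≤ s * r := by positivity
      nlinarith
    have hz : dil s w ∈ Om U δ := ⟨hU, lt_of_lt_of_le hr hδ'⟩
    have hdist : ‖dil s w - w‖ ≤ s * C := by
      rw [dil_sub, norm_neg, norm_smul, Complex.norm_real, Real.norm_of_nonneg hs0]
      exact mul_le_mul_of_nonneg_left hwC hs0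
    have hb := P3a_core P hP w (dil s w) hz r r ((1 + 2 * A * C / c) * r) hr hδ' (by positivity)
      (by
        intro x hx
        have h5 := PA.lip hD hP x hU hw
        have h6 : ‖P.V x (dil s w)‖ ≤ ‖P.V x w‖ + ‖P.V x (dil s w) - P.V x w‖ := by
          have := norm_add_le (P.V x w) (P.V x (dil s w) - P.V x w)
          rwa [add_sub_cancel] at this
        have h7 : A * ‖dil s w - w‖ ≤ A * (s * C) :=
          mul_le_mul_of_nonneg_left hdist (by linarith)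
        have h8 : A * (s * C) = 2 * A * C / c * r := by rw [hs]; field_simp
        have h9 : (1 + 2 * A * C / c) * r = r + 2 * A * C / c * r := by ring
        rw [h9]
        linarith)
    refine hb.trans ?_
    have h10 : ((1 + 2 * A * C / c) * r) ^ 2 / r * A = (1 + 2 * A * C / c) ^ 2 * A * r := by
      field_simp
    rw [h10]
    exact mul_le_mul_of_nonneg_right ((le_max_left _ _).trans (le_max_right _ _)) hr.le
  · push Not at h2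
    have h0 : (0 : Ec n) ∈ Om U δ := ⟨hD.zero, lt_of_lt_of_le hc hD.cen⟩
    have hb := P3a_core P hP w 0 h0 r c A hc hD.cen (by linarith)
      (fun x _ => hP.Vb x 0 hD.zero)
    refine hb.trans ?_
    have h3 : A ^ 2 / c * A ≤ 2 * A ^ 3 / c ^ 2 * r := by
      have h4 : 2 * A ^ 3 / c ^ 2 * r = (A ^ 2 / c * A) * (2 * r / c) := by
        field_simp
      rw [h4]
      have h5 : 1 ≤ 2 * r / c := by rw [one_le_div hc]; exact h2.le
      have h6 : 0 ≤ A ^ 2 / c * A := by positivity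
      nlinarith
    refine h3.trans ?_
    exact mul_le_mul_of_nonneg_right ((le_max_right _ _).trans (le_max_right _ _)) hr.le

/-- PROOF. All the terms are nonnegative (`w0`; `rpow` of nonnegative numbers). -/
theorem pot_nonneg {P : PS n} (hP : PA P U δ h A) (τ : ℝ) (hτ : 0 ≤ τ) (w : Ec n) :
    0 ≤ pot P τ w := by
  unfold pot
  refine Finset.sum_nonneg fun x _ => ?_
  have hw := hP.w0 x
  have h1 : 0 ≤ τ ^ (1 / 4 : ℝ) := Real.rpow_nonneg hτ _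
  have h2 : 0 ≤ (‖P.V x w‖ ^ 2 + τ ^ 2) ^ (9 / 8 : ℝ) := Real.rpow_nonneg (by positivity) _
  positivity

/-- A sum over the functions `V`, at a point of the level `k`.
PROOF. `sum_dec` with `μ = w N`, `v = |V w| + τ`, `τ = dk δ c k w`, `{v ≤ r} ⊆ {|V w| ≤ r}`; `sum_N` (`- r ≤ - τ ≤ δ w` as `τ ≥ (c/8) ek k`, `δ w ≥ -(c/8) ek k`). -/
theorem sum_lev (n : ℕ) (c C A : ℝ) {γ : ℝ} (hγ : 0 < γ) : ∃ K : ℝ, 1 ≤ K ∧ ∀ (U : Set (Ec n))
    (δ : Ec n → ℝ) (h : Ec n → Ec n → Fin n → ℂ) (P : PS n), CD U δ h c C → PA P U δ h A →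
    ∀ (k : ℕ), ∀ w ∈ Dk U δ c k,
    ∑ x, P.w x * P.N x * (‖P.V x w‖ + dk δ c k w) ^ (-(1 + γ)) ≤ K * (dk δ c k w) ^ (-γ) := by
  obtain ⟨K0, hK0, hdec⟩ := sum_dec hγ
  obtain ⟨K1, hK1, hN⟩ := sum_N n c C A
  refine ⟨max 1 (K0 * K1), le_max_left _ _, ?_⟩
  intro U δ h P hD hP k w hw
  obtain ⟨hc, hc1, hC⟩ := hD.pos
  obtain ⟨hwU, hδw, hdk, hdkC, hwC⟩ := Dk_basic hD hw
  have hek := ek_pos k
  have hτ : 0 < dk δ c k w := lt_trans (by positivity) hdk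
  have h1 := hdec (fun x : Fin P.R => P.w x * P.N x) (fun x => ‖P.V x w‖ + dk δ c k w)
    (dk δ c k w) K1 hτ (by linarith) (fun x => mul_nonneg (hP.w0 x) (hP.N0 x).le)
    (fun x => by have := norm_nonneg (P.V x w); linarith)
    (by
      intro r hr
      have hr0 : 0 < r := lt_of_lt_of_le hτ hr
      refine le_trans (Finset.sum_le_sum fun x _ => ?_) (hN U δ h P hD hP w hwU r hr0 (by linarith))
      have hwN : 0 ≤ P.w x * P.N x := mul_nonneg (hP.w0 x) (hP.N0 x).le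
      split_ifs with h2 h3
      · exact le_refl _
      · exfalso; apply h3; linarith
      · exact hwN
      · exact le_refl _)
  refine h1.trans ?_
  exact mul_le_mul_of_nonneg_right (le_max_right _ _) (Real.rpow_nonneg hτ.le _)

private theorem P3a_term (a τ N wx K : ℝ) (ha : 0 ≤ a) (hτ : 0 < τ) (hN : 0 ≤ N) (hw : 0 ≤ wx)
    (hNK : N ≤ K * (a + τ)) :
    wx * N ^ 2 * (τ ^ (1 / 4 : ℝ) / (a ^ 2 + τ ^ 2) ^ (9 / 8 : ℝ)) ≤
      (2 : ℝ) ^ (9 / 8 : ℝ) * K * τ ^ (1 / 4 : ℝ) * (wx * N * (a + τ) ^ (-(1 + (1 / 4 : ℝ)))) := by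
  have hs : 0 < a + τ := by linarith
  have h1 : (a + τ) ^ 2 / 2 ≤ a ^ 2 + τ ^ 2 := by nlinarith [sq_nonneg (a - τ)]
  have h2 : ((a + τ) ^ 2 / 2) ^ (9 / 8 : ℝ) ≤ (a ^ 2 + τ ^ 2) ^ (9 / 8 : ℝ) :=
    Real.rpow_le_rpow (by positivity) h1 (by norm_num)
  have h3 : ((a + τ) ^ 2 / 2) ^ (9 / 8 : ℝ) = (a + τ) ^ (9 / 4 : ℝ) / (2 : ℝ) ^ (9 / 8 : ℝ) := by
    rw [Real.div_rpow (by positivity) (by norm_num), ← Real.rpow_natCast (a + τ) 2,
      ← Real.rpow_mul hs.le]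
    norm_num
  rw [h3] at h2
  have h2p : 0 < (2 : ℝ) ^ (9 / 8 : ℝ) := Real.rpow_pos_of_pos (by norm_num) _
  have h4p : 0 < (a + τ) ^ (9 / 4 : ℝ) := Real.rpow_pos_of_pos hs _
  have h5 : 0 ≤ τ ^ (1 / 4 : ℝ) := Real.rpow_nonneg hτ.le _
  have h6 : τ ^ (1 / 4 : ℝ) / (a ^ 2 + τ ^ 2) ^ (9 / 8 : ℝ) ≤
      τ ^ (1 / 4 : ℝ) / ((a + τ) ^ (9 / 4 : ℝ) / (2 : ℝ) ^ (9 / 8 : ℝ)) :=
    div_le_div_of_nonneg_left h5 (by positivity) h2
  have h7 : (a + τ) ^ (-(1 + (1 / 4 : ℝ))) = (a + τ) / (a + τ) ^ (9 / 4 : ℝ) := by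
    rw [eq_div_iff h4p.ne', ← Real.rpow_add hs]
    norm_num
  have h8 : wx * N ^ 2 ≤ wx * N * (K * (a + τ)) := by
    have : wx * N ^ 2 = wx * N * N := by ring
    rw [this]
    exact mul_le_mul_of_nonneg_left hNK (mul_nonneg hw hN)
  calc wx * N ^ 2 * (τ ^ (1 / 4 : ℝ) / (a ^ 2 + τ ^ 2) ^ (9 / 8 : ℝ))
      ≤ (wx * N * (K * (a + τ))) *
          (τ ^ (1 / 4 : ℝ) / ((a + τ) ^ (9 / 4 : ℝ) / (2 : ℝ) ^ (9 / 8 : ℝ))) := by
        apply mul_le_mul h8 h6 (by positivity)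
        exact le_trans (by positivity) h8
    _ = _ := by
        rw [h7]
        field_simp

/-- The potentials are bounded.
PROOF. `N ≤ K (|V w| + τ)` (`V_dil`), `(|V|² + τ²)^(9/8) ≥ 2^(-9/8) (|V| + τ)^(9/4)`, so `pot ≤ K τ^(1/4) ∑ w N (|V| + τ)^(-5/4) ≤ K'` (`sum_lev` with `γ = 1/4`). -/
theorem pot_le (n : ℕ) (c C A : ℝ) : ∃ K : ℝ, 1 ≤ K ∧ ∀ (U : Set (Ec n)) (δ : Ec n → ℝ)
    (h : Ec n → Ec n → Fin n → ℂ) (P : PS n), CD U δ h c C → PA P U δ h A → ∀ (k : ℕ),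
    ∀ w ∈ Dk U δ c k, poti P δ c k w ≤ K := by
  obtain ⟨K0, hK0, hV⟩ := V_dil n c C A
  obtain ⟨K1, hK1, hL⟩ := sum_lev n c C A (γ := 1 / 4) (by norm_num)
  refine ⟨max 1 ((2 : ℝ) ^ (9 / 8 : ℝ) * K0 * K1), le_max_left _ _, ?_⟩
  intro U δ h P hD hP k w hw
  refine le_trans ?_ (le_max_right _ _)
  obtain ⟨hc, hc1, hC⟩ := hD.pos
  obtain ⟨hwU, hδw, hdk, hdkC, hwC⟩ := Dk_basic hD hw
  have hek := ek_pos k
  have hτ : 0 < dk δ c k w := lt_trans (by positivity) hdk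
  have h1 : poti P δ c k w ≤ ∑ x, (2 : ℝ) ^ (9 / 8 : ℝ) * K0 * (dk δ c k w) ^ (1 / 4 : ℝ) *
      (P.w x * P.N x * (‖P.V x w‖ + dk δ c k w) ^ (-(1 + (1 / 4 : ℝ)))) := by
    unfold poti pot
    refine Finset.sum_le_sum fun x _ => ?_
    exact P3a_term _ _ _ _ _ (norm_nonneg _) hτ (hP.N0 x).le (hP.w0 x)
      (hV U δ h P hD hP x k w hw).1
  refine h1.trans ?_
  rw [← Finset.mul_sum]
  have h2 := hL U δ h P hD hP k w hw
  have h3 : (dk δ c k w) ^ (1 / 4 : ℝ) * (dk δ c k w) ^ (-(1 / 4) : ℝ) = 1 := by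
    rw [← Real.rpow_add hτ]
    norm_num
  have h4 : 0 ≤ (2 : ℝ) ^ (9 / 8 : ℝ) * K0 * (dk δ c k w) ^ (1 / 4 : ℝ) := by
    have := Real.rpow_nonneg hτ.le (1 / 4 : ℝ)
    positivity
  calc _ ≤ (2 : ℝ) ^ (9 / 8 : ℝ) * K0 * (dk δ c k w) ^ (1 / 4 : ℝ) *
        (K1 * (dk δ c k w) ^ (-(1 / 4) : ℝ)) := mul_le_mul_of_nonneg_left h2 h4
    _ = (2 : ℝ) ^ (9 / 8 : ℝ) * K0 * K1 *
        ((dk δ c k w) ^ (1 / 4 : ℝ) * (dk δ c k w) ^ (-(1 / 4) : ℝ)) := by ring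
    _ = _ := by rw [h3, mul_one]
    _ ≤ _ := le_refl _

/-- PROOF. All the terms are nonnegative, and each term is monotone in `r`. -/
theorem TT_mono {P : PS n} (hP : PA P U δ h A) (z : Ec n) {r r' : ℝ} (hr : r ≤ r') :
    0 ≤ TT P z r ∧ TT P z r ≤ TT P z r' := by
  unfold TT
  constructor
  · refine Finset.sum_nonneg fun x _ => ?_
    have hw := hP.w0 x
    split_ifs
    · positivity
    · exact le_refl _
  · refine Finset.sum_le_sum fun x _ => ?_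
    have hw := hP.w0 x
    split_ifs with h1 h2
    · exact le_refl _
    · exact absurd (h1.trans hr) h2
    · positivity
    · exact le_refl _

end Pool.Agent.MPca0fc2.GW
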