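import Pool.Agent.Lib.MP_ca0fc2_an.Mg.G031

/-! The exponential weight of the potentials. -/

set_option autoImplicit false

open Metric Set MeasureTheory Filter Topology

namespace Pool.Agent.MPca0fc2.GW

open Pool.Agent.MPca0fc2.FD

variable {n : ℕ} {U : Set (Ec n)} {δ : Ec n → ℝ} {h : Ec n → Ec n → Fin n → ℂ} {c C A : ℝ}

private theorem P4_th (N s : ℝ) : 0 ≤ th N s ∧ th N s ≤ 1 :=
  ⟨Real.smoothTransition.nonneg _, Real.smoothTransition.le_one _⟩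

private theorem P4_th1 {N s : ℝ} (hN : 0 < N) (h : N ≤ s) : th N s = 1 := by
  unfold th
  refine Real.smoothTransition.one_of_one_le ?_
  have h1 : 1 ≤ s / N := by rw [le_div_iff₀ hN]; linarith
  linarith

private theorem P4_re (N : ℝ) (V : ℂ) : ((N : ℂ) / V).re = N * V.re / ‖V‖ ^ 2 := by
  rw [Complex.div_re, Complex.ofReal_re, Complex.ofReal_im, zero_mul, zero_div, add_zero,
    Complex.normSq_eq_norm_sq]

private theorem P4_rpow {a : ℝ} (ha : 0 < a) :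
    a ^ (-(1 + (1 / 2 : ℝ))) = Real.sqrt a / a ^ 2 := by
  rw [show -(1 + (1 / 2 : ℝ)) = 1 / 2 - 2 by norm_num, Real.rpow_sub ha, Real.sqrt_eq_rpow,
    Real.rpow_two]

/-- The far terms. -/
private theorem P4_far {a b t N K₁ : ℝ} {Vz Vζ : ℂ} (hK : 1 ≤ K₁) (ht : 0 < t) (hN : 0 ≤ N)
    (ha : ‖Vζ‖ = a) (hb : ‖Vz‖ = b) (hat : 16 * K₁ ^ 2 * t < a)
    (hd : ‖Vz - Vζ‖ ≤ K₁ * (t + Real.sqrt t * Real.sqrt a)) :
    ((N : ℂ) / Vζ).re - ((N : ℂ) / Vz).re ≤ 4 * K₁ * Real.sqrt t * (N * (Real.sqrt a / a ^ 2)) := by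
  have ha0 : 0 < a := lt_trans (by positivity) hat
  have hst : 0 < Real.sqrt t := Real.sqrt_pos.2 ht
  have hsa : 0 < Real.sqrt a := Real.sqrt_pos.2 ha0
  have hst2 : Real.sqrt t * Real.sqrt t = t := Real.mul_self_sqrt ht.le
  have hsa2 : Real.sqrt a * Real.sqrt a = a := Real.mul_self_sqrt ha0.le
  have h4 : 4 * K₁ * Real.sqrt t ≤ Real.sqrt a := by
    refine Real.le_sqrt_of_sq_le ?_
    have h5 : (4 * K₁ * Real.sqrt t) ^ 2 = 16 * K₁ ^ 2 * t := by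
      rw [mul_pow, mul_pow, Real.sq_sqrt ht.le]
      norm_num
    rw [h5]
    exact hat.le
  have hsts : Real.sqrt t ≤ Real.sqrt a := by nlinarith
  have hd2 : ‖Vz - Vζ‖ ≤ 2 * K₁ * (Real.sqrt t * Real.sqrt a) := by
    refine hd.trans ?_
    have h6 : t ≤ Real.sqrt t * Real.sqrt a := by nlinarith
    nlinarith
  have hd3 : ‖Vz - Vζ‖ ≤ a / 2 := by
    refine hd2.trans ?_
    nlinarith
  have hb2 : a / 2 ≤ b := by
    have h7 : ‖Vζ‖ ≤ ‖Vz‖ + ‖Vz - Vζ‖ := by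
      have h8 : Vζ = Vz - (Vz - Vζ) := by ring
      calc ‖Vζ‖ = ‖Vz - (Vz - Vζ)‖ := by rw [← h8]
        _ ≤ ‖Vz‖ + ‖Vz - Vζ‖ := norm_sub_le _ _
    rw [ha, hb] at h7
    linarith
  have hb0 : 0 < b := by linarith
  have hVζ : Vζ ≠ 0 := by
    intro h0
    rw [h0, norm_zero] at ha
    linarith
  have hVz : Vz ≠ 0 := by
    intro h0
    rw [h0, norm_zero] at hb
    linarith
  have h9 : (N : ℂ) / Vζ - (N : ℂ) / Vz = (N : ℂ) * (Vz - Vζ) / (Vζ * Vz) := by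
    field_simp
  have h10 : ((N : ℂ) / Vζ).re - ((N : ℂ) / Vz).re ≤ N * ‖Vz - Vζ‖ / (a * b) := by
    rw [← Complex.sub_re, h9]
    refine (Complex.re_le_norm _).trans (le_of_eq ?_)
    rw [norm_div, norm_mul, norm_mul, ha, hb, Complex.norm_real, Real.norm_of_nonneg hN]
  refine h10.trans ?_
  rw [div_le_iff₀ (mul_pos ha0 hb0)]
  have h11 : N * ‖Vz - Vζ‖ ≤ N * (2 * K₁ * (Real.sqrt t * Real.sqrt a)) :=
    mul_le_mul_of_nonneg_left hd2 hN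
  have h12 : 4 * K₁ * Real.sqrt t * (N * (Real.sqrt a / a ^ 2)) * (a * (a / 2)) =
      N * (2 * K₁ * (Real.sqrt t * Real.sqrt a)) := by
    field_simp
    ring
  have h13 : 4 * K₁ * Real.sqrt t * (N * (Real.sqrt a / a ^ 2)) * (a * (a / 2)) ≤
      4 * K₁ * Real.sqrt t * (N * (Real.sqrt a / a ^ 2)) * (a * b) :=
    mul_le_mul_of_nonneg_left (mul_le_mul_of_nonneg_left hb2 ha0.le) (by positivity)
  linarith

/-- The real part of the exponent. Notation: `t = ‖v(z, ζ)‖`, `s = δ ζ ≤ 2 t`, `θ = th N s ∈ [0, 1]`, `θ = 1` if `N ≤ s`.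
PROOF. Fix a large `Λ ≥ 1`.
Far terms, `|V ζ| > Λ t`: `|V z - V ζ| ≤ K (t + √t √|V ζ|) ≤ 2 K √t √|V ζ| ≤ |V ζ| / 2` if `Λ` is large (`V_dom`), so `|V z| ≥ |V ζ| / 2` and
`|N / V ζ - N / V z| ≤ 4 K N √t |V ζ|^(-3/2)`; the sum of `w N √t |V ζ|^(-3/2)` over `|V ζ| > Λ t` is bounded: `sum_dec` with `γ = 1/2`, `τ = Λ t`, `sum_N`.
Near terms, `|V ζ| ≤ Λ t`: `Re (N / V ζ) ≤ N / |V ζ|`, and `|V ζ| ≥ s / A`: `sum_log` with `τ = s / (2 A)`, `R = Λ t` gives `≤ K (1 + log (2 t / s))`. And `- Re (N / V z) =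
- N Re V z / |V z|² ≤ - (1 / A) (N / |V z|)² ≤ 0` (`PA.re`).
If `|V z| ≤ s / K` (`K ≥ A`), then `N ≤ A |V z| ≤ s`, so `θ = 1`; and `|V ζ| ≤ K' (|V z| + t) ≤ Λ t` (if `Λ` is large), so `x` is a near term: these terms give `- (1 / A) TT P z (s / K)`. -/
theorem exp_block (n : ℕ) (c C A : ℝ) : ∃ K : ℝ, 1 ≤ K ∧ ∀ (U : Set (Ec n)) (δ : Ec n → ℝ)
    (h : Ec n → Ec n → Fin n → ℂ) (P : PS n), CD U δ h c C → PA P U δ h A →
    ∀ z ∈ Om U δ, ∀ ζ ∈ Om U δ,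
    ∑ x, P.w x * th (P.N x) (δ ζ) * (((P.N x : ℂ) / P.V x ζ).re - ((P.N x : ℂ) / P.V x z).re) ≤
      K * (1 + Real.log (2 * ‖vv δ h z ζ‖ / δ ζ)) - 1 / K * TT P z (δ ζ / K) := by
  obtain ⟨K1, hK1, hdom⟩ := V_dom n c C A
  obtain ⟨K2, hK2, hN⟩ := sum_N n c C A
  obtain ⟨K3, hK3, hdec⟩ := sum_dec (γ := 1 / 2) (by norm_num)
  obtain ⟨Λ, hΛ⟩ : ∃ Λ : ℝ, Λ = 16 * K1 ^ 2 + 3 * K1 := ⟨_, rfl⟩
  have hΛ1 : 1 ≤ Λ := by nlinarith
  have hΛ2 : 16 * K1 ^ 2 ≤ Λ := by linarith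
  have hΛ3 : 3 * K1 ≤ Λ := by nlinarith
  obtain ⟨A', hA'⟩ : ∃ A' : ℝ, A' = max 1 A := ⟨_, rfl⟩
  have hA'1 : 1 ≤ A' := by rw [hA']; exact le_max_left _ _
  have hlog : 0 ≤ Real.log (Λ * A') := Real.log_nonneg (by nlinarith)
  obtain ⟨K, hKdef⟩ : ∃ K : ℝ, K = 4 * K1 * K2 * K3 + 4 * K2 * (1 + Real.log (Λ * A')) + A' :=
    ⟨_, rfl⟩
  have hp1 : 0 ≤ 4 * K1 * K2 * K3 := by positivity
  have hp2 : 0 ≤ 4 * K2 * (1 + Real.log (Λ * A')) := by positivity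
  have hK2' : 4 * K2 ≤ K := by
    have h1 : 4 * K2 * 1 ≤ 4 * K2 * (1 + Real.log (Λ * A')) :=
      mul_le_mul_of_nonneg_left (by linarith) (by linarith)
    rw [hKdef]
    linarith
  have hKA : A' ≤ K := by rw [hKdef]; linarith
  have hKpos : 0 < K := by linarith
  refine ⟨K, by linarith, ?_⟩
  intro U δ h P hD hP z hz ζ hζ
  have hAA : A' = A := by rw [hA']; exact max_eq_right hP.A1
  rw [hAA] at hA'1 hlog hKdef hp2 hKA
  have hA0 : 0 < A := by linarith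
  have hs : 0 < δ ζ := hζ.2
  obtain ⟨-, hv2, -, ht⟩ := v_lb hD.geo0 hz hζ
  obtain ⟨t, htdef⟩ : ∃ t : ℝ, t = ‖vv δ h z ζ‖ := ⟨_, rfl⟩
  rw [← htdef] at hv2 ht ⊢
  obtain ⟨s, hsdef⟩ : ∃ s : ℝ, s = δ ζ := ⟨_, rfl⟩
  rw [← hsdef] at hv2 hs ⊢
  have hdomx : ∀ x, ‖P.V x z - P.V x ζ‖ ≤ K1 * (t + Real.sqrt t * Real.sqrt ‖P.V x ζ‖) ∧
      ‖P.V x ζ‖ ≤ K1 * (‖P.V x z‖ + t) := by
    intro x
    obtain ⟨h1, -, h3, -⟩ := hdom U δ h P hD hP x z hz ζ hζ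
    rw [← htdef] at h1 h3
    exact ⟨h1, h3⟩
  -- the termwise bound
  have hterm : ∀ x, P.w x * th (P.N x) s *
      (((P.N x : ℂ) / P.V x ζ).re - ((P.N x : ℂ) / P.V x z).re) ≤
      4 * K1 * Real.sqrt t * ((if Λ * t < ‖P.V x ζ‖ then P.w x * P.N x else 0) *
        (max ‖P.V x ζ‖ (Λ * t)) ^ (-(1 + (1 / 2 : ℝ)))) +
      (if ‖P.V x ζ‖ ≤ Λ * t then P.w x * P.N x / ‖P.V x ζ‖ else 0) -
      1 / A * (if ‖P.V x z‖ ≤ s / K then P.w x * (P.N x / ‖P.V x z‖) ^ 2 else 0) := by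
    intro x
    obtain ⟨d1, d3⟩ := hdomx x
    obtain ⟨z1, z2, z3⟩ := hP.dom x hz
    obtain ⟨y1, y2, y3⟩ := hP.dom x hζ
    have hN0 := hP.N0 x
    have hw0 := hP.w0 x
    obtain ⟨θ0, θ1⟩ := P4_th (P.N x) s
    have hnear : ‖P.V x z‖ ≤ s / K → ‖P.V x ζ‖ ≤ Λ * t := by
      intro hx
      have h1 : s / K ≤ 2 * t := by
        rw [div_le_iff₀ hKpos]
        nlinarith
      have h2 : K1 * (‖P.V x z‖ + t) ≤ K1 * (2 * t + t) :=
        mul_le_mul_of_nonneg_left (by linarith) (by linarith)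
      nlinarith
    by_cases hfar : Λ * t < ‖P.V x ζ‖
    · have h1 : ¬ ‖P.V x z‖ ≤ s / K := fun hx => absurd (hnear hx) (not_le.2 hfar)
      rw [if_pos hfar, if_neg (not_le.2 hfar), if_neg h1, mul_zero, sub_zero, add_zero,
        max_eq_left hfar.le, P4_rpow y3]
      have h2 : 16 * K1 ^ 2 * t < ‖P.V x ζ‖ :=
        lt_of_le_of_lt (mul_le_mul_of_nonneg_right hΛ2 ht.le) hfar
      have h3 := P4_far hK1 ht hN0.le rfl rfl h2 d1
      have h4 : 0 ≤ 4 * K1 * Real.sqrt t *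
          (P.N x * (Real.sqrt ‖P.V x ζ‖ / ‖P.V x ζ‖ ^ 2)) := by positivity
      calc P.w x * th (P.N x) s * (((P.N x : ℂ) / P.V x ζ).re - ((P.N x : ℂ) / P.V x z).re) ≤
            P.w x * th (P.N x) s * (4 * K1 * Real.sqrt t *
              (P.N x * (Real.sqrt ‖P.V x ζ‖ / ‖P.V x ζ‖ ^ 2))) :=
            mul_le_mul_of_nonneg_left h3 (mul_nonneg hw0 θ0)
        _ ≤ P.w x * 1 * (4 * K1 * Real.sqrt t *
              (P.N x * (Real.sqrt ‖P.V x ζ‖ / ‖P.V x ζ‖ ^ 2))) :=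
            mul_le_mul_of_nonneg_right (mul_le_mul_of_nonneg_left θ1 hw0) h4
        _ = _ := by ring
    · rw [if_neg hfar, if_pos (not_lt.1 hfar), zero_mul, mul_zero, zero_add]
      have h1 : ((P.N x : ℂ) / P.V x ζ).re ≤ P.N x / ‖P.V x ζ‖ := by
        refine (Complex.re_le_norm _).trans (le_of_eq ?_)
        rw [norm_div, Complex.norm_real, Real.norm_of_nonneg hN0.le]
      have h2 : 1 / A * (P.N x / ‖P.V x z‖) ^ 2 ≤ ((P.N x : ℂ) / P.V x z).re := by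
        rw [P4_re, div_pow, ← mul_div_assoc]
        refine div_le_div_of_nonneg_right ?_ (by positivity)
        have h3 := hP.re x z hz
        have h4 : 0 < δ z := hz.2
        have h5 : P.N x ≤ A * (P.V x z).re := by linarith
        rw [one_div, ← div_eq_inv_mul, div_le_iff₀ hA0, sq]
        calc P.N x * P.N x ≤ P.N x * (A * (P.V x z).re) := mul_le_mul_of_nonneg_left h5 hN0.le
          _ = P.N x * (P.V x z).re * A := by ring
      have h2' : 0 ≤ 1 / A * (P.N x / ‖P.V x z‖) ^ 2 := by positivity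
      have h6 : 0 ≤ P.N x / ‖P.V x ζ‖ := by positivity
      by_cases hx : ‖P.V x z‖ ≤ s / K
      · rw [if_pos hx]
        have h7 : P.N x ≤ s := by
          have h8 : A * ‖P.V x z‖ ≤ A * (s / K) := mul_le_mul_of_nonneg_left hx hA0.le
          have h9 : A * (s / K) ≤ s := by
            rw [← mul_div_assoc, div_le_iff₀ hKpos, mul_comm]
            exact mul_le_mul_of_nonneg_left hKA hs.le
          linarith
        rw [P4_th1 hN0 h7, mul_one]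
        calc P.w x * (((P.N x : ℂ) / P.V x ζ).re - ((P.N x : ℂ) / P.V x z).re) ≤
              P.w x * (P.N x / ‖P.V x ζ‖ - 1 / A * (P.N x / ‖P.V x z‖) ^ 2) :=
              mul_le_mul_of_nonneg_left (by linarith) hw0
          _ = _ := by ring
      · rw [if_neg hx, mul_zero, sub_zero]
        calc P.w x * th (P.N x) s *
              (((P.N x : ℂ) / P.V x ζ).re - ((P.N x : ℂ) / P.V x z).re) ≤
              P.w x * th (P.N x) s * (P.N x / ‖P.V x ζ‖) :=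
              mul_le_mul_of_nonneg_left (by linarith) (mul_nonneg hw0 θ0)
          _ ≤ P.w x * 1 * (P.N x / ‖P.V x ζ‖) :=
              mul_le_mul_of_nonneg_right (mul_le_mul_of_nonneg_left θ1 hw0) h6
          _ = _ := by ring
  -- the sums
  have hΛt : 0 < Λ * t := by positivity
  have hs1 : ∑ x, (if Λ * t < ‖P.V x ζ‖ then P.w x * P.N x else 0) *
      (max ‖P.V x ζ‖ (Λ * t)) ^ (-(1 + (1 / 2 : ℝ))) ≤ K3 * K2 * (Λ * t) ^ (-(1 / 2 : ℝ)) := by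
    refine hdec _ _ (Λ * t) K2 hΛt (by linarith) ?_ ?_ ?_
    · intro x
      split_ifs
      · exact mul_nonneg (hP.w0 x) (hP.N0 x).le
      · exact le_rfl
    · intro x
      exact le_max_right _ _
    · intro r hr
      refine le_trans (Finset.sum_le_sum fun x _ => ?_)
        (hN U δ h P hD hP ζ hζ.1 r (lt_of_lt_of_le hΛt hr) (by linarith [hζ.2]))
      have hwN : 0 ≤ P.w x * P.N x := mul_nonneg (hP.w0 x) (hP.N0 x).le
      by_cases h1 : max ‖P.V x ζ‖ (Λ * t) ≤ r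
      · rw [if_pos h1, if_pos ((le_max_left _ _).trans h1)]
        split_ifs
        · exact le_rfl
        · exact hwN
      · rw [if_neg h1]
        split_ifs
        · exact hwN
        · exact le_rfl
  have hs2 : ∑ x, (if ‖P.V x ζ‖ ≤ Λ * t then P.w x * P.N x / ‖P.V x ζ‖ else 0) ≤
      4 * K2 * (1 + Real.log (Λ * t / (s / (2 * A)))) := by
    have hτ : 0 < s / (2 * A) := by positivity
    refine sum_log _ _ (s / (2 * A)) K2 (Λ * t) hτ (by linarith) ?_ ?_ ?_ ?_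
    · intro x
      exact mul_nonneg (hP.w0 x) (hP.N0 x).le
    · intro x
      obtain ⟨y1, y2, y3⟩ := hP.dom x hζ
      rw [← hsdef] at y2
      rw [div_le_iff₀ (by positivity)]
      nlinarith
    · rw [div_le_iff₀ (by positivity)]
      have h1 : t * 1 ≤ Λ * t * A := by
        rw [mul_assoc]
        nlinarith [mul_pos ht hA0]
      nlinarith
    · intro r hr
      exact hN U δ h P hD hP ζ hζ.1 r (lt_of_lt_of_le hτ hr)
        (by linarith [hζ.2, lt_of_lt_of_le hτ hr])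
  have hTT : ∑ x, (if ‖P.V x z‖ ≤ s / K then P.w x * (P.N x / ‖P.V x z‖) ^ 2 else 0) =
      TT P z (s / K) := rfl
  have hTT0 : 0 ≤ TT P z (s / K) := (TT_mono hP z le_rfl).1
  refine (Finset.sum_le_sum fun x _ => hterm x).trans ?_
  rw [Finset.sum_sub_distrib, Finset.sum_add_distrib, ← Finset.mul_sum, ← Finset.mul_sum, hTT]
  have hst : 4 * K1 * Real.sqrt t * (K3 * K2 * (Λ * t) ^ (-(1 / 2 : ℝ))) ≤
      4 * K1 * K2 * K3 := by
    have h1 : (Λ * t) ^ (-(1 / 2 : ℝ)) ≤ t ^ (-(1 / 2 : ℝ)) :=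
      Real.rpow_le_rpow_of_nonpos ht (by nlinarith) (by norm_num)
    have h2 : Real.sqrt t * t ^ (-(1 / 2 : ℝ)) = 1 := by
      rw [Real.sqrt_eq_rpow, ← Real.rpow_add ht]
      norm_num
    have h3 : Real.sqrt t * (Λ * t) ^ (-(1 / 2 : ℝ)) ≤ 1 :=
      (mul_le_mul_of_nonneg_left h1 (Real.sqrt_nonneg _)).trans (le_of_eq h2)
    calc 4 * K1 * Real.sqrt t * (K3 * K2 * (Λ * t) ^ (-(1 / 2 : ℝ))) =
          4 * K1 * K2 * K3 * (Real.sqrt t * (Λ * t) ^ (-(1 / 2 : ℝ))) := by ring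
      _ ≤ 4 * K1 * K2 * K3 * 1 := mul_le_mul_of_nonneg_left h3 hp1
      _ = _ := mul_one _
  have h1 : 4 * K1 * Real.sqrt t * ∑ x, (if Λ * t < ‖P.V x ζ‖ then P.w x * P.N x else 0) *
      (max ‖P.V x ζ‖ (Λ * t)) ^ (-(1 + (1 / 2 : ℝ))) ≤ 4 * K1 * K2 * K3 :=
    (mul_le_mul_of_nonneg_left hs1 (by positivity)).trans hst
  have hL0 : 0 ≤ Real.log (2 * t / s) :=
    Real.log_nonneg (by rw [le_div_iff₀ hs]; linarith)
  have h2 : Real.log (Λ * t / (s / (2 * A))) = Real.log (Λ * A) + Real.log (2 * t / s) := by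
    rw [← Real.log_mul (by positivity) (by positivity)]
    congr 1
    field_simp
  rw [h2] at hs2
  have h3 : 1 / K * TT P z (s / K) ≤ 1 / A * TT P z (s / K) :=
    mul_le_mul_of_nonneg_right (one_div_le_one_div_of_le hA0 hKA) hTT0
  have h4 : 4 * K2 * Real.log (2 * t / s) ≤ K * Real.log (2 * t / s) :=
    mul_le_mul_of_nonneg_right hK2' hL0
  have h5 : 4 * K1 * K2 * K3 + 4 * K2 * (1 + Real.log (Λ * A)) ≤ K := by
    rw [hKdef]
    linarith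
  nlinarith

/-- The derivative of the weight. Notation as above.
PROOF. `|th'| ≤ (K / N) 1[N / 2 ≤ s ≤ N]` (`smooth_deriv`; `th N s = smoothTransition (2 (s / N) - 1)`). For these `x`: `|V z| ≥ N / A ≥ s / A`, so `|V ζ| ≤ K (|V z| + t) ≤ K' (t / s) |V z|` (`t ≥ s / 2`). So the
term is at most `K w ‖H‖ / (|V z| |V ζ|) ≤ K w (t / s) / |V ζ|² ≤ K (t / s) w N s / |V ζ|² / s²` (as `N ≥ s`); the Carleson condition at `ζ`. -/
theorem r_block (n : ℕ) (c C A : ℝ) : ∃ K : ℝ, 1 ≤ K ∧ ∀ (U : Set (Ec n)) (δ : Ec n → ℝ)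
    (h : Ec n → Ec n → Fin n → ℂ) (P : PS n), CD U δ h c C → PA P U δ h A →
    ∀ z ∈ Om U δ, ∀ ζ ∈ Om U δ,
    ∑ x, P.w x * |deriv (fun s => th (P.N x) s) (δ ζ)| * (P.N x * ‖P.H x z ζ‖ /
      (‖P.V x z‖ * ‖P.V x ζ‖)) ≤ K * ‖vv δ h z ζ‖ / (δ ζ) ^ 3 := by
  obtain ⟨K1, hK1, hdom⟩ := V_dom n c C A
  obtain ⟨K4, hK4, hder⟩ := smooth_deriv
  refine ⟨K4 * |A| * (K1 * (2 + |A|)) * |A| + 1, ?_, ?_⟩
  · have : 0 ≤ K4 * |A| * (K1 * (2 + |A|)) * |A| := by positivity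
    linarith
  intro U δ h P hD hP z hz ζ hζ
  have hA1 := hP.A1
  have hA0 : 0 < A := by linarith
  rw [abs_of_pos hA0]
  have hs : 0 < δ ζ := hζ.2
  obtain ⟨-, hv2, -, ht⟩ := v_lb hD.geo0 hz hζ
  obtain ⟨t, htdef⟩ : ∃ t : ℝ, t = ‖vv δ h z ζ‖ := ⟨_, rfl⟩
  rw [← htdef] at hv2 ht ⊢
  have hterm : ∀ x, P.w x * |deriv (fun s => th (P.N x) s) (δ ζ)| * (P.N x * ‖P.H x z ζ‖ /
      (‖P.V x z‖ * ‖P.V x ζ‖)) ≤ K4 * A * (K1 * (2 + A)) * (t / (δ ζ) ^ 3) *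
        (P.w x * P.N x * δ ζ / ‖P.V x ζ‖ ^ 2) := by
    intro x
    obtain ⟨z1, z2, z3⟩ := hP.dom x hz
    obtain ⟨y1, y2, y3⟩ := hP.dom x hζ
    have hN0 := hP.N0 x
    have hw0 := hP.w0 x
    have hH := hP.Hb x z hz.1 ζ hζ.1
    have hd : |deriv (fun s => th (P.N x) s) (δ ζ)| ≤
        if P.N x / 2 ≤ δ ζ ∧ δ ζ ≤ P.N x then K4 / P.N x else 0 := hder (P.N x) (δ ζ) hN0
    have hR : 0 ≤ K4 * A * (K1 * (2 + A)) * (t / (δ ζ) ^ 3) *
        (P.w x * P.N x * δ ζ / ‖P.V x ζ‖ ^ 2) := by positivity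
    have hq : 0 ≤ P.N x * ‖P.H x z ζ‖ / (‖P.V x z‖ * ‖P.V x ζ‖) := by positivity
    by_cases hx : P.N x / 2 ≤ δ ζ ∧ δ ζ ≤ P.N x
    · rw [if_pos hx] at hd
      obtain ⟨-, -, h3, -⟩ := hdom U δ h P hD hP x z hz ζ hζ
      rw [← htdef] at h3
      -- `|V ζ| ≤ K1 (2 + A) (t / s) |V z|`
      have h4 : ‖P.V x ζ‖ * δ ζ ≤ K1 * (2 + A) * t * ‖P.V x z‖ := by
        have h5 : ‖P.V x z‖ * δ ζ ≤ 2 * t * ‖P.V x z‖ := by nlinarith
        have h6 : t * δ ζ ≤ A * t * ‖P.V x z‖ := by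
          have h7 : δ ζ ≤ A * ‖P.V x z‖ := hx.2.trans z1
          nlinarith
        calc ‖P.V x ζ‖ * δ ζ ≤ K1 * (‖P.V x z‖ + t) * δ ζ :=
              mul_le_mul_of_nonneg_right h3 hs.le
          _ = K1 * (‖P.V x z‖ * δ ζ + t * δ ζ) := by ring
          _ ≤ K1 * (2 * t * ‖P.V x z‖ + A * t * ‖P.V x z‖) :=
              mul_le_mul_of_nonneg_left (by linarith) (by linarith)
          _ = _ := by ring
      have h8 : P.w x * |deriv (fun s => th (P.N x) s) (δ ζ)| * (P.N x * ‖P.H x z ζ‖ /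
          (‖P.V x z‖ * ‖P.V x ζ‖)) ≤ P.w x * (K4 / P.N x) * (P.N x * A /
          (‖P.V x z‖ * ‖P.V x ζ‖)) := by
        refine mul_le_mul (mul_le_mul_of_nonneg_left hd hw0) ?_ hq (by positivity)
        refine div_le_div_of_nonneg_right ?_ (by positivity)
        exact mul_le_mul_of_nonneg_left hH hN0.le
      refine h8.trans ?_
      have h9 : P.w x * (K4 / P.N x) * (P.N x * A / (‖P.V x z‖ * ‖P.V x ζ‖)) =
          K4 * A * P.w x * (1 / (‖P.V x z‖ * ‖P.V x ζ‖)) := by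
        field_simp
      have h10 : K4 * A * (K1 * (2 + A)) * (t / (δ ζ) ^ 3) *
          (P.w x * P.N x * δ ζ / ‖P.V x ζ‖ ^ 2) =
          K4 * A * P.w x * (K1 * (2 + A) * t * P.N x / ((δ ζ) ^ 2 * ‖P.V x ζ‖ ^ 2)) := by
        field_simp
      rw [h9, h10]
      refine mul_le_mul_of_nonneg_left ?_ (by positivity)
      rw [div_le_div_iff₀ (by positivity) (by positivity)]
      have h11 : (‖P.V x ζ‖ * δ ζ) * (δ ζ * ‖P.V x ζ‖) ≤
          (K1 * (2 + A) * t * ‖P.V x z‖) * (P.N x * ‖P.V x ζ‖) := by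
        refine mul_le_mul h4 ?_ (by positivity) (by positivity)
        exact mul_le_mul_of_nonneg_right hx.2 y3.le
      calc 1 * ((δ ζ) ^ 2 * ‖P.V x ζ‖ ^ 2) = (‖P.V x ζ‖ * δ ζ) * (δ ζ * ‖P.V x ζ‖) := by ring
        _ ≤ (K1 * (2 + A) * t * ‖P.V x z‖) * (P.N x * ‖P.V x ζ‖) := h11
        _ = _ := by ring
    · rw [if_neg hx] at hd
      have h0 : |deriv (fun s => th (P.N x) s) (δ ζ)| = 0 := le_antisymm hd (abs_nonneg _)
      rw [h0, mul_zero, zero_mul]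
      exact hR
  refine (Finset.sum_le_sum fun x _ => hterm x).trans ?_
  rw [← Finset.mul_sum]
  have h1 := hP.carl ζ hζ
  have h2 : 0 ≤ K4 * A * (K1 * (2 + A)) * (t / (δ ζ) ^ 3) := by positivity
  refine (mul_le_mul_of_nonneg_left h1 h2).trans ?_
  have h3 : 0 ≤ t / (δ ζ) ^ 3 := by positivity
  rw [mul_div_assoc]
  calc K4 * A * (K1 * (2 + A)) * (t / (δ ζ) ^ 3) * A =
        K4 * A * (K1 * (2 + A)) * A * (t / (δ ζ) ^ 3) := by ring
    _ ≤ (K4 * A * (K1 * (2 + A)) * A + 1) * (t / (δ ζ) ^ 3) :=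
        mul_le_mul_of_nonneg_right (by linarith) h3

end Pool.Agent.MPca0fc2.GW
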