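import Pool.Agent.Lib.MP_ca0fc2_an.Mg.G001
import Pool.Agent.Lib.MP_ca0fc2_an.Mg.G051

/-! The dilated functions and their increments. -/

set_option autoImplicit false

open Metric Set MeasureTheory Filter Topology

namespace Pool.Agent.MPca0fc2.GW

open Pool.Agent.MPca0fc2.FD

variable {n : ℕ} {U : Set (Ec n)} {δ : Ec n → ℝ} {h : Ec n → Ec n → Fin n → ℂ} {c C : ℝ}

private theorem V3_open (hD : CD U δ h c C) : IsOpen (Om U δ) := by
  have h1 := Om_lev_open hD 0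
  rwa [Om_zero] at h1

private theorem V3_deriv (w : Ec n) (s : ℝ) : HasDerivAt (fun s : ℝ => dil s w) (-w) s := by
  have h1 : HasDerivAt (fun s : ℝ => ((1 - s : ℝ) : ℂ)) ((-1 : ℝ) : ℂ) s :=
    ((hasDerivAt_id s).const_sub 1).ofReal_comp
  have h2 := h1.smul_const w
  have h3 : (((-1 : ℝ) : ℂ)) • w = -w := by
    rw [Complex.ofReal_neg, Complex.ofReal_one, neg_smul, one_smul]
  rw [h3] at h2
  exact h2

private theorem V3_seg (hD : CD U δ h c C) {u : Ec n → ℂ} (hu : DifferentiableOn ℂ u (Om U δ))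
    {w : Ec n} {a b B : ℝ} (hab : a ≤ b) (hO : ∀ s ∈ Icc a b, dil s w ∈ Om U δ)
    (hB : ∀ s ∈ Icc a b, ‖fderiv ℂ u (dil s w) w‖ ≤ B) :
    ‖u (dil a w) - u (dil b w)‖ ≤ B * (b - a) := by
  have h1 : ∀ s ∈ Icc a b, HasDerivWithinAt (fun s : ℝ => u (dil s w))
      (-(fderiv ℂ u (dil s w) w)) (Icc a b) s := by
    intro s hs
    have h2 : HasFDerivAt u ((fderiv ℂ u (dil s w)).restrictScalars ℝ) (dil s w) :=
      ((hu.differentiableAt ((V3_open hD).mem_nhds (hO s hs))).hasFDerivAt).restrictScalars ℝ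
    have h3 := (h2.comp_hasDerivAt s (V3_deriv w s)).hasDerivWithinAt (s := Icc a b)
    have h4 : ((fderiv ℂ u (dil s w)).restrictScalars ℝ) (-w) = -(fderiv ℂ u (dil s w) w) := by
      rw [ContinuousLinearMap.coe_restrictScalars', map_neg]
    rw [h4] at h3
    exact h3
  have h5 := (convex_Icc a b).norm_image_sub_le_of_norm_hasDerivWithin_le (C := B) h1
    (fun s hs => by
      rw [norm_neg]
      exact hB s hs) (right_mem_Icc.2 hab) (left_mem_Icc.2 hab)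
  rw [Real.norm_eq_abs, abs_sub_comm, abs_of_nonneg (by linarith : 0 ≤ b - a)] at h5
  exact h5

private theorem V3_M (hD : CD U δ h c C) {u : Ec n → ℂ} {M : ℝ}
    (hM : ∀ z ∈ Om U δ, ‖u z‖ ≤ M) {k : ℕ} {w : Ec n} (hw : w ∈ Dk U δ c k) : 0 ≤ M := by
  have h1 := (dil_lo hD hw (s := ek (k + 1)) le_rfl (ek_le_one _)).1
  exact (norm_nonneg _).trans (hM _ h1)

/-- PROOF. `dil (ek i)` maps `Dk k` into `Om U δ` (`dil_lo`, `ek (k + 1) ≤ ek i ≤ 1`), and is linear. -/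
theorem uk_hol (hD : CD U δ h c C) {u : Ec n → ℂ} (hu : DifferentiableOn ℂ u (Om U δ)) {i k : ℕ}
    (hik : i ≤ k + 1) : DifferentiableOn ℂ (uk u i) (Dk U δ c k) := by
  refine hu.comp (f := fun w => dil (ek i) w) ?_ ?_
  · have h1 : Differentiable ℂ (fun w : Ec n => dil (ek i) w) := by
      unfold dil
      fun_prop
    exact h1.differentiableOn
  · intro w hw
    exact (dil_lo hD hw (ek_anti hik) (ek_le_one i)).1

/-- PROOF. A holomorphic function on an open set of `ℂⁿ` is smooth (Hartogs is not needed: it is complex differentiable;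
`DifferentiableOn.contDiffOn` exists for functions of one variable only; see `age_hol_c2` in `QTAge.lean` for a
complex inner product space of finite dimension). -/
theorem hol_c2 {S : Set (Ec n)} (hS : IsOpen S) {f : Ec n → ℂ} (hf : DifferentiableOn ℂ f S) :
    ContDiffOn ℝ 2 f S := by
  exact QT.age_hol_c2 hS hf

theorem uk_c2 (hD : CD U δ h c C) {u : Ec n → ℂ} (hu : DifferentiableOn ℂ u (Om U δ)) {i k : ℕ}
    (hik : i ≤ k + 1) : ContDiffOn ℝ 2 (uk u i) (Dk U δ c k) := by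
  exact hol_c2 (Dk_open hD k) (uk_hol hD hu hik)

theorem uk_le (hD : CD U δ h c C) {u : Ec n → ℂ} {M : ℝ} (hM : ∀ z ∈ Om U δ, ‖u z‖ ≤ M) {i k : ℕ}
    (hik : i ≤ k + 1) {w : Ec n} (hw : w ∈ Dk U δ c k) : ‖uk u i w‖ ≤ M := by
  exact hM _ (dil_lo hD hw (ek_anti hik) (ek_le_one i)).1

/-- `dil 1 w = 0`. -/
theorem uk_zero (u : Ec n → ℂ) (w : Ec n) : uk u 0 w = u 0 := by
  rw [uk, ek_zero, dil_one]

/-- The mean value inequality on the segment `s ↦ dil s w`, `s ∈ [ek (i + 1), ek i]`, which is in `Om U δ` (`dil_lo`);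
its velocity is `- w`, its length of parameter is `ek i / 2`. -/
theorem inc_int (hD : CD U δ h c C) {u : Ec n → ℂ} (hu : DifferentiableOn ℂ u (Om U δ)) {i : ℕ}
    {w : Ec n} (hw : w ∈ Dk U δ c i) {B : ℝ}
    (hB : ∀ s ∈ Icc (ek (i + 1)) (ek i), ‖fderiv ℂ u (dil s w) w‖ ≤ B) :
    ‖uk u (i + 1) w - uk u i w‖ ≤ B * ek i := by
  have h0 : ek (i + 1) ≤ ek i := ek_anti (Nat.le_succ i)
  have h1 := V3_seg hD hu h0 (fun s hs => (dil_lo hD hw hs.1 (hs.2.trans (ek_le_one i))).1) hB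
  have hB0 : 0 ≤ B := (norm_nonneg _).trans (hB _ (left_mem_Icc.2 h0))
  refine h1.trans (mul_le_mul_of_nonneg_left ?_ hB0)
  have := ek_pos (i + 1)
  linarith

/-- PROOF. `inc_int`, `schwarz_iso`, `dil_lo`, `‖w‖ ≤ C`. -/
theorem inc_le (n : ℕ) (c C : ℝ) : ∃ K : ℝ, 0 < K ∧ ∀ (U : Set (Ec n)) (δ : Ec n → ℝ)
    (h : Ec n → Ec n → Fin n → ℂ), CD U δ h c C → ∀ (u : Ec n → ℂ) (M : ℝ),
    DifferentiableOn ℂ u (Om U δ) → (∀ z ∈ Om U δ, ‖u z‖ ≤ M) → ∀ i : ℕ, ∀ w ∈ Dk U δ c i,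
    ‖uk u (i + 1) w - uk u i w‖ ≤ K * M * (ek i / dk δ c i w) := by
  by_cases hcC : 0 < c ∧ 1 ≤ C
  swap
  · exact ⟨1, one_pos, fun U δ h hD => absurd ⟨hD.pos.1, hD.pos.2.2⟩ hcC⟩
  obtain ⟨hc, hC⟩ := hcC
  obtain ⟨K, hK, hS⟩ := schwarz_iso n (c / 2) C
  refine ⟨K * C * (4 * C / c), by positivity, fun U δ h hD u M hu hM i w hw => ?_⟩
  have hM0 := V3_M hD hM hw
  obtain ⟨-, -, hd1, -, hw2⟩ := Dk_basic hD hw
  have hdk : 0 < dk δ c i w := lt_trans (by have := ek_pos i; positivity) hd1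
  have h1 : ∀ s ∈ Icc (ek (i + 1)) (ek i),
      ‖fderiv ℂ u (dil s w) w‖ ≤ K * C * (4 * C / c) * M / dk δ c i w := by
    intro s hs
    obtain ⟨h2, h3⟩ := dil_lo hD hw hs.1 (hs.2.trans (ek_le_one i))
    have h4 := hS U δ h hD.geo0 u M hu hM _ h2
    have h5 : 0 < c / (4 * C) * dk δ c i w := by positivity
    calc ‖fderiv ℂ u (dil s w) w‖ ≤ ‖fderiv ℂ u (dil s w)‖ * ‖w‖ :=
          ContinuousLinearMap.le_opNorm _ _
      _ ≤ (K * M / δ (dil s w)) * C :=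
          mul_le_mul h4 hw2 (norm_nonneg _) ((norm_nonneg _).trans h4)
      _ ≤ (K * M / (c / (4 * C) * dk δ c i w)) * C := by
          apply mul_le_mul_of_nonneg_right _ (by linarith)
          exact div_le_div_of_nonneg_left (by positivity) h5 h3
      _ = K * C * (4 * C / c) * M / dk δ c i w := by
          field_simp
  refine (inc_int hD hu hw h1).trans (le_of_eq ?_)
  ring

/-- The gradients.
PROOF. For `s = ek k` and `s = ek (k + 1)`: the derivative of `w ↦ u (dil s w)` in the direction `X` is `(1 - s) du(dil s w) X`;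
`schwarz_gau`, `gau_dil`. (For `s = ek 0 = 1` the function is constant.) -/
theorem inc_grad (n : ℕ) (c C : ℝ) : ∃ K : ℝ, 0 < K ∧ ∀ (U : Set (Ec n)) (δ : Ec n → ℝ)
    (h : Ec n → Ec n → Fin n → ℂ), CD U δ h c C → ∀ (u : Ec n → ℂ) (M : ℝ),
    DifferentiableOn ℂ u (Om U δ) → (∀ z ∈ Om U δ, ‖u z‖ ≤ M) → ∀ (k i : ℕ), (i = k ∨ i = k + 1) →
    ∀ w ∈ Dk U δ c k, ∀ X : Ec n, ‖fderiv ℝ (uk u i) w X‖ ≤ K * M * gau (dk δ c k) h w X := by
  obtain ⟨K, hK, hS⟩ := schwarz_gau n (c / 2) C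
  obtain ⟨K', hK', hG⟩ := gau_dil n c C
  refine ⟨K * K', by positivity, fun U δ h hD u M hu hM k i hik w hw X => ?_⟩
  have hM0 := V3_M hD hM hw
  have hs : ek i ∈ Icc (ek (k + 1)) (ek k) := by
    rcases hik with rfl | rfl
    · exact ⟨ek_anti (Nat.le_succ _), le_rfl⟩
    · exact ⟨le_rfl, ek_anti (Nat.le_succ _)⟩
  obtain ⟨h2, -⟩ := dil_lo hD hw hs.1 (ek_le_one i)
  have h3 : HasFDerivAt u ((fderiv ℂ u (dil (ek i) w)).restrictScalars ℝ) (dil (ek i) w) :=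
    ((hu.differentiableAt ((V3_open hD).mem_nhds h2)).hasFDerivAt).restrictScalars ℝ
  have h4 : HasFDerivAt (fun w : Ec n => dil (ek i) w)
      (((1 - ek i : ℝ) : ℂ) • ContinuousLinearMap.id ℝ (Ec n)) w :=
    HasFDerivAt.const_smul (f := fun w : Ec n => w) (hasFDerivAt_id (𝕜 := ℝ) w)
      (((1 - ek i : ℝ) : ℂ))
  have h5 : fderiv ℝ (uk u i) w X = ((1 - ek i : ℝ) : ℂ) * fderiv ℂ u (dil (ek i) w) X := by
    have h6 : HasFDerivAt (uk u i) _ w := h3.comp w h4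
    rw [h6.fderiv, ContinuousLinearMap.comp_apply, ContinuousLinearMap.coe_restrictScalars',
      _root_.smul_apply, ContinuousLinearMap.id_apply, map_smul, smul_eq_mul]
  have h7 : ‖((1 - ek i : ℝ) : ℂ)‖ ≤ 1 := by
    rw [Complex.norm_real, Real.norm_eq_abs, abs_le]
    have := ek_pos i
    have := ek_le_one i
    constructor <;> linarith
  rw [h5, norm_mul]
  calc ‖((1 - ek i : ℝ) : ℂ)‖ * ‖fderiv ℂ u (dil (ek i) w) X‖
      ≤ 1 * ‖fderiv ℂ u (dil (ek i) w) X‖ := mul_le_mul_of_nonneg_right h7 (norm_nonneg _)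
    _ = ‖fderiv ℂ u (dil (ek i) w) X‖ := one_mul _
    _ ≤ K * M * gau δ h (dil (ek i) w) X := hS U δ h hD.geo0 u M hu hM _ h2 X
    _ ≤ K * M * (K' * gau (dk δ c k) h w X) :=
        mul_le_mul_of_nonneg_left (hG U δ h hD k w hw _ hs X) (by positivity)
    _ = K * K' * M * gau (dk δ c k) h w X := by ring

/-- The dilated function is near the function.
PROOF. If `ek m ≤ 1 / 2`: mean value inequality on `s ∈ [0, ek m]`: `δ (dil s z) ≥ (c / 4 C) δ z` (`dil_lo'`), `schwarz_iso`, `‖z‖ ≤ C`.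
If `m = 0`: `‖u 0 - u z‖ ≤ 2 M` and `δ z ≤ C`. -/
theorem uk_near (n : ℕ) (c C : ℝ) : ∃ K : ℝ, 0 < K ∧ ∀ (U : Set (Ec n)) (δ : Ec n → ℝ)
    (h : Ec n → Ec n → Fin n → ℂ), CD U δ h c C → ∀ (u : Ec n → ℂ) (M : ℝ),
    DifferentiableOn ℂ u (Om U δ) → (∀ z ∈ Om U δ, ‖u z‖ ≤ M) → ∀ m : ℕ, ∀ z ∈ Om U δ,
    ‖uk u m z - u z‖ ≤ K * M * (ek m / δ z) := by
  by_cases hcC : 0 < c ∧ 1 ≤ C
  swap
  · exact ⟨1, one_pos, fun U δ h hD => absurd ⟨hD.pos.1, hD.pos.2.2⟩ hcC⟩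
  obtain ⟨hc, hC⟩ := hcC
  obtain ⟨K, hK, hS⟩ := schwarz_iso n (c / 2) C
  refine ⟨K * C * (4 * C / c), by positivity, fun U δ h hD u M hu hM m z hz => ?_⟩
  have hM0 : 0 ≤ M := (norm_nonneg _).trans (hM _ hz)
  have hdz : 0 < δ z := hz.2
  obtain ⟨-, -, -, -, hw2⟩ := Dk_basic hD (Om_sub_Dk hD 0 hz)
  have h1 : ∀ s ∈ Icc (0 : ℝ) (ek m),
      ‖fderiv ℂ u (dil s z) z‖ ≤ K * C * (4 * C / c) * M / δ z := by
    intro s hs
    obtain ⟨h2, h3⟩ := dil_lo' hD hz hs.1 (hs.2.trans (ek_le_one m))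
    have h4 := hS U δ h hD.geo0 u M hu hM _ h2
    have h5 : 0 < c / (4 * C) * δ z := by positivity
    have h6 : c / (4 * C) * δ z ≤ δ (dil s z) :=
      (mul_le_mul_of_nonneg_left (by linarith [hs.1]) (by positivity)).trans h3
    calc ‖fderiv ℂ u (dil s z) z‖ ≤ ‖fderiv ℂ u (dil s z)‖ * ‖z‖ :=
          ContinuousLinearMap.le_opNorm _ _
      _ ≤ (K * M / δ (dil s z)) * C :=
          mul_le_mul h4 hw2 (norm_nonneg _) ((norm_nonneg _).trans h4)
      _ ≤ (K * M / (c / (4 * C) * δ z)) * C := by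
          apply mul_le_mul_of_nonneg_right _ (by linarith)
          exact div_le_div_of_nonneg_left (by positivity) h5 h6
      _ = K * C * (4 * C / c) * M / δ z := by
          field_simp
  have h7 := V3_seg hD hu (ek_pos m).le
    (fun s hs => (dil_lo' hD hz hs.1 (hs.2.trans (ek_le_one m))).1) h1
  rw [dil_zero, norm_sub_rev, sub_zero] at h7
  refine h7.trans (le_of_eq ?_)
  ring

end Pool.Agent.MPca0fc2.GW
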