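import Pool.Agent.Lib.MP_ca0fc2_an.Mg.G001
import Pool.Agent.Lib.MP_ca0fc2_an.Mg.G045

/-! Comparison of the values of a function at two points, by a path. -/

set_option autoImplicit false

open Metric Set MeasureTheory Filter Topology

namespace Pool.Agent.MPca0fc2.GW

open Pool.Agent.MPca0fc2.FD

variable {n : ℕ} {U : Set (Ec n)} {δ : Ec n → ℝ} {h : Ec n → Ec n → Fin n → ℂ} {c C : ℝ}

private theorem V4a_ex (a b : ℝ) (ζ z v : Ec n) (g : Fin n → ℂ) :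
    ∑ k, g k * ((a : ℂ) • (ζ - z) - (b : ℂ) • v : Ec n) k =
      (a : ℂ) * (∑ k, g k * (ζ k - z k)) - (b : ℂ) * ∑ k, g k * v k := by
  rw [Finset.mul_sum, Finset.mul_sum, ← Finset.sum_sub_distrib]
  refine Finset.sum_congr rfl fun k _ => ?_
  rw [PiLp.sub_apply, PiLp.smul_apply, PiLp.smul_apply, PiLp.sub_apply, smul_eq_mul, smul_eq_mul]
  ring

private theorem V4a_norm {a : ℝ} (ha : 0 ≤ a) : ‖(a : ℂ)‖ = a := by
  rw [Complex.norm_real, Real.norm_eq_abs, abs_of_nonneg ha]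

/-- a general point `y` near the segment -/
private theorem V4a_aux (n : ℕ) (c C : ℝ) (hc : 0 < c) : ∃ K : ℝ, 1 ≤ K ∧ ∀ (U : Set (Ec n))
    (δ : Ec n → ℝ) (h : Ec n → Ec n → Fin n → ℂ), CD U δ h c C → ∀ z ∈ Om U δ, ∀ ζ ∈ Om U δ,
    ∀ y ∈ Om U δ, ∀ a ∈ Icc (0 : ℝ) 1, ∀ s ∈ Icc (0 : ℝ) 1, ∀ v : Ec n, ‖v‖ ≤ C →
      y - z = (a : ℂ) • (ζ - z) - (s : ℂ) • v →
      ‖vv δ h z y‖ ≤ K * (δ z + a * ‖vv δ h z ζ‖ + s) := by
  obtain ⟨C1, hC1, hg1⟩ := g_le n (c / 2) C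
  obtain ⟨K2, hK2, hv⟩ := v_upper n (c / 2) C (by linarith)
  have hc8 : 0 < 8 / c := by positivity
  have hnC : 0 ≤ (n : ℝ) * C ^ 2 := by positivity
  refine ⟨1 + K2 * (1 + C1 + 8 / c + n * C ^ 2 + 2 * C ^ 2), ?_, ?_⟩
  · have : 0 ≤ K2 * (1 + C1 + 8 / c + n * C ^ 2 + 2 * C ^ 2) := by positivity
    linarith
  intro U δ h hD z hz ζ hζ y hy a ha s hs v hvC hyz
  have hg := hD.geo0
  have hC0 : 0 ≤ C := by linarith [hD.pos.2.2]
  obtain ⟨v1, v2, v3, v4⟩ := v_lb hg hz hζ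
  have g1 := (hg1 U δ h hg z hz ζ hζ).2
  have hu := hv U δ h hg z hz y hy
  set t := ‖vv δ h z ζ‖ with ht
  set N := ‖ζ - z‖ with hN
  have hN0 : 0 ≤ N := norm_nonneg _
  have hN2 : N ^ 2 ≤ 4 / c * t := by
    have : c * N ^ 2 ≤ 4 * t := by linarith
    rw [div_mul_eq_mul_div, le_div_iff₀ hc]
    linarith
  have e1 : ‖∑ k, h z z k * (y - z : Ec n) k‖ ≤ a * (C1 * t) + s * (n * C ^ 2) := by
    rw [hyz, V4a_ex]
    refine (norm_sub_le _ _).trans ?_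
    rw [norm_mul, norm_mul, V4a_norm ha.1, V4a_norm hs.1]
    refine add_le_add (mul_le_mul_of_nonneg_left g1 ha.1) (mul_le_mul_of_nonneg_left ?_ hs.1)
    refine (lin_le (h z z) v).trans ?_
    have hh := hg.bh z hz.1 z hz.1
    calc (n : ℝ) * ‖h z z‖ * ‖v‖ ≤ n * C * C := by
          refine mul_le_mul (mul_le_mul_of_nonneg_left hh (Nat.cast_nonneg _)) hvC
            (norm_nonneg _) (by positivity)
      _ = n * C ^ 2 := by ring
  have e2 : ‖y - z‖ ≤ a * N + s * C := by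
    rw [hyz]
    refine (norm_sub_le _ _).trans ?_
    rw [norm_smul, norm_smul, V4a_norm ha.1, V4a_norm hs.1]
    exact add_le_add le_rfl (mul_le_mul_of_nonneg_left hvC hs.1)
  have e3 : ‖y - z‖ ^ 2 ≤ a * (8 / c * t) + s * (2 * C ^ 2) := by
    have e4 : ‖y - z‖ ^ 2 ≤ (a * N + s * C) ^ 2 := pow_le_pow_left₀ (norm_nonneg _) e2 2
    have e5 : (a * N + s * C) ^ 2 ≤ 2 * (a * N) ^ 2 + 2 * (s * C) ^ 2 := by
      nlinarith [sq_nonneg (a * N - s * C)]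
    have e6 : 2 * (a * N) ^ 2 ≤ a * (8 / c * t) := by
      have : a ^ 2 ≤ a := by nlinarith [ha.1, ha.2]
      have h8 : 8 / c * t = 2 * (4 / c * t) := by ring
      calc 2 * (a * N) ^ 2 = 2 * (a ^ 2 * N ^ 2) := by ring
        _ ≤ 2 * (a * (4 / c * t)) := by
            have h9 : a ^ 2 * N ^ 2 ≤ a * (4 / c * t) :=
              mul_le_mul this hN2 (sq_nonneg _) ha.1
            linarith
        _ = a * (8 / c * t) := by rw [h8]; ring
    have e7 : 2 * (s * C) ^ 2 ≤ s * (2 * C ^ 2) := by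
      have : s ^ 2 ≤ s := by nlinarith [hs.1, hs.2]
      have h9 : s ^ 2 * C ^ 2 ≤ s * C ^ 2 := mul_le_mul_of_nonneg_right this (sq_nonneg _)
      calc 2 * (s * C) ^ 2 = 2 * (s ^ 2 * C ^ 2) := by ring
        _ ≤ 2 * (s * C ^ 2) := by linarith
        _ = s * (2 * C ^ 2) := by ring
    linarith
  have hat : 0 ≤ a * t := mul_nonneg ha.1 v4.le
  have hsn : 0 ≤ s := hs.1
  have hz0 := hz.2.le
  have hsum : δ z + ‖∑ k, h z z k * (y - z : Ec n) k‖ + ‖y - z‖ ^ 2 ≤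
      (1 + C1 + 8 / c + n * C ^ 2 + 2 * C ^ 2) * (δ z + a * t + s) := by
    have x1 : 0 ≤ (C1 + 8 / c + n * C ^ 2 + 2 * C ^ 2) * δ z := by positivity
    have x2 : 0 ≤ (1 + n * C ^ 2 + 2 * C ^ 2) * (a * t) := by positivity
    have x3 : 0 ≤ (1 + C1 + 8 / c) * s := by positivity
    nlinarith
  calc ‖vv δ h z y‖ ≤ K2 * (δ z + ‖∑ k, h z z k * (y - z : Ec n) k‖ + ‖y - z‖ ^ 2) := hu
    _ ≤ K2 * ((1 + C1 + 8 / c + n * C ^ 2 + 2 * C ^ 2) * (δ z + a * t + s)) :=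
        mul_le_mul_of_nonneg_left hsum hK2.le
    _ ≤ (1 + K2 * (1 + C1 + 8 / c + n * C ^ 2 + 2 * C ^ 2)) * (δ z + a * t + s) := by
        have : 0 ≤ δ z + a * t + s := by positivity
        nlinarith

private theorem V4a_dil1 (s : ℝ) (ζ z : Ec n) :
    dil s ζ - z = ((1 : ℝ) : ℂ) • (ζ - z) - (s : ℂ) • ζ := by
  unfold dil
  ext k
  simp only [PiLp.sub_apply, PiLp.smul_apply, smul_eq_mul]
  push_cast
  ring

private theorem V4a_dil2 (s l : ℝ) (ζ z : Ec n) :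
    ((1 - l) • dil s ζ + l • dil s z) - z =
      (((1 - s) * (1 - l) : ℝ) : ℂ) • (ζ - z) - (s : ℂ) • z := by
  unfold dil
  ext k
  simp only [PiLp.sub_apply, PiLp.add_apply, PiLp.smul_apply, smul_eq_mul, Complex.real_smul]
  push_cast
  ring

private theorem V4a_dil3 (s : ℝ) (z : Ec n) :
    dil s z - z = ((0 : ℝ) : ℂ) • (z - z) - (s : ℂ) • z := by
  unfold dil
  ext k
  simp only [PiLp.sub_apply, PiLp.smul_apply, smul_eq_mul]
  push_cast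
  ring

private theorem V4a_mem (hD : CD U δ h c C) {z ζ : Ec n} (hz : z ∈ Om U δ) (hζ : ζ ∈ Om U δ)
    {s l : ℝ} (hs : s ∈ Icc (0 : ℝ) 1) (hl : l ∈ Icc (0 : ℝ) 1) :
    (1 - l) • dil s ζ + l • dil s z ∈ Om U δ ∧
      c / (4 * C) * s ≤ δ ((1 - l) • dil s ζ + l • dil s z) := by
  obtain ⟨a1, a2⟩ := dil_lo' hD hζ hs.1 hs.2
  obtain ⟨b1, b2⟩ := dil_lo' hD hz hs.1 hs.2
  have hl0 : 0 ≤ 1 - l := by linarith [hl.2]
  have hU : (1 - l) • dil s ζ + l • dil s z ∈ U :=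
    hD.cvx a1.1 b1.1 hl0 hl.1 (by ring)
  have hcc := hD.ccv.2 a1.1 b1.1 hl0 hl.1 (by ring)
  simp only [smul_eq_mul] at hcc
  have hq : 0 < c / (4 * C) := by
    have h1 := hD.pos
    have : 0 < C := by linarith [h1.2.2]
    have := h1.1
    positivity
  have a3 : c / (4 * C) * s ≤ δ (dil s ζ) := by nlinarith [hζ.2]
  have b3 : c / (4 * C) * s ≤ δ (dil s z) := by nlinarith [hz.2]
  refine ⟨⟨hU, ?_⟩, ?_⟩
  · have p1 : 0 ≤ (1 - l) * δ (dil s ζ) := mul_nonneg hl0 a1.2.le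
    have p2 : 0 ≤ l * δ (dil s z) := mul_nonneg hl.1 b1.2.le
    rcases eq_or_lt_of_le hl.1 with h0 | h0
    · rw [← h0] at hcc ⊢
      have := a1.2
      linarith
    · have : 0 < l * δ (dil s z) := mul_pos h0 b1.2
      linarith
  · have p1 := mul_le_mul_of_nonneg_left a3 hl0
    have p2 := mul_le_mul_of_nonneg_left b3 hl.1
    linarith

/-- The points of the path. Let `z, ζ ∈ Om U δ`, `t = ‖v(z, ζ)‖`.
PROOF. (1) `δ z ≤ 2 t` (`v_lb`), `|h(z,z)(ζ - z)| ≤ C' t` (`g_le`), `‖ζ - z‖² ≤ (4 / c) t`. `dil s ζ - z = (ζ - z) - s ζ`: `|h(z,z)(dil s ζ - z)| ≤ C' t + n C² s`,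
`‖dil s ζ - z‖² ≤ 2 ‖ζ - z‖² + 2 s² C²`; `v_upper`. (2) The point `y` is in the convex set `Om U δ`, `y - z = (1 - s)(1 - l)(ζ - z) - s z`.
(3) `ζ = z`, the same with `‖v(z, z)‖ = δ z`. -/
theorem path_pts (n : ℕ) (c C : ℝ) (hc : 0 < c) : ∃ K : ℝ, 1 ≤ K ∧ ∀ (U : Set (Ec n))
    (δ : Ec n → ℝ) (h : Ec n → Ec n → Fin n → ℂ), CD U δ h c C → ∀ z ∈ Om U δ, ∀ ζ ∈ Om U δ,
    ∀ s ∈ Icc (0 : ℝ) 1,
      ‖vv δ h z (dil s ζ)‖ ≤ K * (‖vv δ h z ζ‖ + s) ∧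
      (∀ l ∈ Icc (0 : ℝ) 1, ‖vv δ h z ((1 - l) • dil s ζ + l • dil s z)‖ ≤
        K * (‖vv δ h z ζ‖ + s)) ∧
      ‖vv δ h z (dil s z)‖ ≤ K * (δ z + s) := by
  obtain ⟨K, hK, hA⟩ := V4a_aux n c C hc
  refine ⟨3 * K, by linarith, fun U δ h hD z hz ζ hζ s hs => ?_⟩
  have hg := hD.geo0
  obtain ⟨v1, v2, v3, v4⟩ := v_lb hg hz hζ
  have hz0 := hz.2
  have hsn := hs.1
  refine ⟨?_, fun l hl => ?_, ?_⟩
  · have h1 := hA U δ h hD z hz ζ hζ _ (dil_lo' hD hζ hs.1 hs.2).1 1 ⟨zero_le_one, le_rfl⟩ s hs ζ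
      (hg.bz ζ hζ.1) (V4a_dil1 s ζ z)
    have h2 : δ z + 1 * ‖vv δ h z ζ‖ + s ≤ 3 * (‖vv δ h z ζ‖ + s) := by linarith
    calc _ ≤ _ := h1
      _ ≤ K * (3 * (‖vv δ h z ζ‖ + s)) := mul_le_mul_of_nonneg_left h2 (by linarith)
      _ = _ := by ring
  · have hl0 : 0 ≤ 1 - l := by linarith [hl.2]
    have hs0 : 0 ≤ 1 - s := by linarith [hs.2]
    have ha : (1 - s) * (1 - l) ∈ Icc (0 : ℝ) 1 :=
      ⟨mul_nonneg hs0 hl0, by nlinarith [hl.1]⟩
    have h1 := hA U δ h hD z hz ζ hζ _ (V4a_mem hD hz hζ hs hl).1 _ ha s hs z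
      (hg.bz z hz.1) (V4a_dil2 s l ζ z)
    have h3 : (1 - s) * (1 - l) * ‖vv δ h z ζ‖ ≤ 1 * ‖vv δ h z ζ‖ :=
      mul_le_mul_of_nonneg_right ha.2 v4.le
    have h2 : δ z + (1 - s) * (1 - l) * ‖vv δ h z ζ‖ + s ≤ 3 * (‖vv δ h z ζ‖ + s) := by linarith
    calc _ ≤ _ := h1
      _ ≤ K * (3 * (‖vv δ h z ζ‖ + s)) := mul_le_mul_of_nonneg_left h2 (by linarith)
      _ = _ := by ring
  · have h1 := hA U δ h hD z hz z hz _ (dil_lo' hD hz hs.1 hs.2).1 0 ⟨le_rfl, zero_le_one⟩ s hs z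
      (hg.bz z hz.1) (V4a_dil3 s z)
    have h2 : δ z + 0 * ‖vv δ h z z‖ + s ≤ 3 * (δ z + s) := by linarith
    calc _ ≤ _ := h1
      _ ≤ K * (3 * (δ z + s)) := mul_le_mul_of_nonneg_left h2 (by linarith)
      _ = _ := by ring

/-- The length of the chord at the depth `T`.
PROOF. `y` is in `Om U δ`, `δ y ≥ min (δ (dil T ζ)) (δ (dil T z)) ≥ (c / 4 C) T` (concavity, `dil_lo'`). The direction is
`X = dil T z - dil T ζ = (1 - T)(z - ζ)`. `|h(y,y) X| ≤ |h(z,z) X| + n L ‖y - z‖ ‖X‖` (`CD_lip`), `|h(z,z)(z - ζ)| ≤ C' t` (`g_le`), `‖y - z‖ ≤ ‖ζ - z‖ + T C`,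
`‖ζ - z‖² ≤ (4 / c) t`, `T ≤ t`. So `|h(y,y) X| ≤ K t` and `‖X‖ ≤ K √t`, and `dk j y ≥ δ y ≥ (c / 4 C) T`, `T = min 1 t ≥ t / K` (`t ≤ K`, by
`v_ub`). -/
theorem chord_gau (n : ℕ) (c C : ℝ) (hc : 0 < c) : ∃ K : ℝ, 1 ≤ K ∧ ∀ (U : Set (Ec n))
    (δ : Ec n → ℝ) (h : Ec n → Ec n → Fin n → ℂ), CD U δ h c C → ∀ z ∈ Om U δ, ∀ ζ ∈ Om U δ,
    ∀ T : ℝ, T = min 1 ‖vv δ h z ζ‖ → ∀ l ∈ Icc (0 : ℝ) 1, ∀ j : ℕ, ∀ y : Ec n,
    y = (1 - l) • dil T ζ + l • dil T z →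
      y ∈ Om U δ ∧ ‖vv δ h z ζ‖ ≤ K * δ y ∧ δ y ≤ K * ‖vv δ h z ζ‖ ∧
      gau (dk δ c j) h y (dil T z - dil T ζ) ≤ K := by
  obtain ⟨Kp, hKp, hP⟩ := path_pts n c C hc
  obtain ⟨C1, hC1, hg1⟩ := g_le n (c / 2) C
  obtain ⟨C2, hC2, hub⟩ := v_ub n (c / 2) C
  obtain ⟨L, hL, hLip⟩ := CD_lip n c C
  set A : ℝ := 1 + 3 * |C| * C2 with hA
  have hA1 : 1 ≤ A := by
    have : 0 ≤ 3 * |C| * C2 := by positivity
    linarith
  set Ka : ℝ := A * (4 * |C| / c) with hKa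
  set K1 : ℝ := C1 + n * L * (4 / c + 2 * C ^ 2) with hK1
  have hKa0 : 0 ≤ Ka := by positivity
  have hK10 : 0 ≤ K1 := by positivity
  refine ⟨1 + Ka + 4 * Kp + K1 * Ka + Real.sqrt (4 / c * Ka), ?_, ?_⟩
  · have : 0 ≤ K1 * Ka := mul_nonneg hK10 hKa0
    have : 0 ≤ Real.sqrt (4 / c * Ka) := Real.sqrt_nonneg _
    linarith
  intro U δ h hD z hz ζ hζ T hT l hl j y hy
  have hg := hD.geo0
  have hCp := hD.pos.2.2
  have hC0 : 0 < C := by linarith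
  have hCC : |C| = C := abs_of_pos hC0
  obtain ⟨v1, v2, v3, v4⟩ := v_lb hg hz hζ
  have g1 := (hg1 U δ h hg z hz ζ hζ).2
  have u1 := hub U δ h hg z hz ζ hζ
  have p1 := (hP U δ h hD z hz ζ hζ)
  set t := ‖vv δ h z ζ‖ with ht
  set N := ‖ζ - z‖ with hN
  have hN0 : 0 ≤ N := norm_nonneg _
  have hN2 : N ^ 2 ≤ 4 / c * t := by
    have : c * N ^ 2 ≤ 4 * t := by linarith
    rw [div_mul_eq_mul_div, le_div_iff₀ hc]
    linarith
  have hN2C : N ≤ 2 * C := by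
    have h1 := norm_sub_le ζ z
    have h2 := hg.bz ζ hζ.1
    have h3 := hg.bz z hz.1
    linarith
  have htA : t ≤ A := by
    have h1 := hg.bδ ζ hζ.1
    have h2 : C2 * (δ ζ + N) ≤ C2 * (3 * C) := mul_le_mul_of_nonneg_left (by linarith) hC2.le
    rw [hA, hCC]
    nlinarith
  have hTs : T ∈ Icc (0 : ℝ) 1 := by
    rw [hT]
    exact ⟨le_min zero_le_one v4.le, min_le_left _ _⟩
  have hTt : T ≤ t := by
    rw [hT]
    exact min_le_right _ _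
  have hTA : t ≤ A * T := by
    rw [hT]
    rcases le_total 1 t with h1 | h1
    · rw [min_eq_left h1]
      linarith
    · rw [min_eq_right h1]
      nlinarith
  obtain ⟨m1, m2⟩ := V4a_mem hD hz hζ hTs hl
  rw [← hy] at m1 m2
  have hty : t ≤ Ka * δ y := by
    have h1 : T ≤ 4 * C / c * δ y := by
      have h2 : 4 * C / c * (c / (4 * C) * T) ≤ 4 * C / c * δ y :=
        mul_le_mul_of_nonneg_left m2 (by positivity)
      have h3 : 4 * C / c * (c / (4 * C) * T) = T := by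
        field_simp
      rwa [h3] at h2
    calc t ≤ A * T := hTA
      _ ≤ A * (4 * C / c * δ y) := mul_le_mul_of_nonneg_left h1 (by linarith)
      _ = Ka * δ y := by rw [hKa, hCC]; ring
  have hyt : δ y ≤ 4 * Kp * t := by
    have h1 := (v_lb hg hz m1).2.1
    have h2 := (p1 T hTs).2.1 l hl
    rw [← hy] at h2
    nlinarith
  have hyp := m1.2
  have hs4 : 0 ≤ Real.sqrt (4 / c * Ka) := Real.sqrt_nonneg _
  have hKK : 0 ≤ K1 * Ka := mul_nonneg hK10 hKa0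
  refine ⟨m1, ?_, ?_, ?_⟩
  · refine hty.trans (mul_le_mul_of_nonneg_right ?_ hyp.le)
    linarith
  · refine hyt.trans (mul_le_mul_of_nonneg_right ?_ v4.le)
    linarith
  · set X : Ec n := dil T z - dil T ζ with hX
    have hT0 : 0 ≤ 1 - T := by linarith [hTs.2]
    have hXe : X = (((T - 1 : ℝ)) : ℂ) • (ζ - z) - ((0 : ℝ) : ℂ) • z := by
      rw [hX]
      unfold dil
      ext k
      simp only [PiLp.sub_apply, PiLp.smul_apply, smul_eq_mul]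
      push_cast
      ring
    have hXn : ‖X‖ ≤ N := by
      rw [hXe, Complex.ofReal_zero, zero_smul, sub_zero, norm_smul, Complex.norm_real,
        Real.norm_eq_abs, abs_of_nonpos (by linarith)]
      nlinarith [hTs.1]
    have hzX : ‖∑ k, h z z k * X k‖ ≤ C1 * t := by
      rw [hXe, V4a_ex, Complex.ofReal_zero, zero_mul, sub_zero, norm_mul, Complex.norm_real,
        Real.norm_eq_abs, abs_of_nonpos (by linarith)]
      have h0 := norm_nonneg (∑ k, h z z k * (ζ k - z k))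
      nlinarith [hTs.1]
    have hyz : ‖y - z‖ ≤ N + T * C := by
      rw [hy, V4a_dil2]
      refine (norm_sub_le _ _).trans ?_
      have hl0 : 0 ≤ 1 - l := by linarith [hl.2]
      have ha0 : 0 ≤ (1 - T) * (1 - l) := mul_nonneg hT0 hl0
      have ha1 : (1 - T) * (1 - l) ≤ 1 := by nlinarith [hl.1, hTs.1]
      rw [norm_smul, norm_smul, V4a_norm ha0, V4a_norm hTs.1]
      refine add_le_add ?_ (mul_le_mul_of_nonneg_left (hg.bz z hz.1) hTs.1)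
      calc (1 - T) * (1 - l) * ‖ζ - z‖ ≤ 1 * ‖ζ - z‖ :=
            mul_le_mul_of_nonneg_right ha1 (norm_nonneg _)
        _ = N := one_mul _
    have mz : z ∈ Om U (fun w => δ w + c / 4) := ⟨hz.1, by
      have := hz.2
      positivity⟩
    have my : y ∈ Om U (fun w => δ w + c / 4) := ⟨m1.1, by positivity⟩
    have hlip := (hLip U δ h hD y my z mz).2.1
    have hyX : ‖∑ k, h y y k * X k‖ ≤ K1 * t := by
      have e1 : ∑ k, h y y k * X k = ∑ k, h z z k * X k + ∑ k, (h y y - h z z) k * X k := by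
        rw [← Finset.sum_add_distrib]
        refine Finset.sum_congr rfl fun k _ => ?_
        rw [Pi.sub_apply]
        ring
      rw [e1]
      refine (norm_add_le _ _).trans ?_
      have e2 := lin_le (h y y - h z z) X
      have e3 : ‖h y y - h z z‖ ≤ L * (N + T * C) :=
        hlip.trans (mul_le_mul_of_nonneg_left hyz (by linarith))
      have e4 : ‖h y y - h z z‖ * ‖X‖ ≤ L * (N + T * C) * N :=
        mul_le_mul e3 hXn (norm_nonneg _) (by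
          have := hTs.1
          positivity)
      have e5 : (N + T * C) * N ≤ (4 / c + 2 * C ^ 2) * t := by
        have h1 : T * C * N ≤ t * C * (2 * C) := by
          have h2 : T * C ≤ t * C := mul_le_mul_of_nonneg_right hTt hC0.le
          exact mul_le_mul h2 hN2C hN0 (by positivity)
        nlinarith
      have e6 : (n : ℝ) * ‖h y y - h z z‖ * ‖X‖ ≤ n * L * (4 / c + 2 * C ^ 2) * t := by
        calc (n : ℝ) * ‖h y y - h z z‖ * ‖X‖ = n * (‖h y y - h z z‖ * ‖X‖) := by ring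
          _ ≤ n * (L * (N + T * C) * N) := mul_le_mul_of_nonneg_left e4 (Nat.cast_nonneg _)
          _ = n * L * ((N + T * C) * N) := by ring
          _ ≤ n * L * ((4 / c + 2 * C ^ 2) * t) :=
              mul_le_mul_of_nonneg_left e5 (by positivity)
          _ = n * L * (4 / c + 2 * C ^ 2) * t := by ring
      rw [hK1]
      nlinarith
    have hdk : δ y ≤ dk δ c j y := by
      unfold dk
      have := ek_pos j
      have : 0 ≤ c / 4 * ek j := by positivity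
      linarith
    have hsq : 0 < Real.sqrt (δ y) := Real.sqrt_pos.2 hyp
    have q1 : ‖∑ k, h y y k * X k‖ / dk δ c j y ≤ K1 * Ka := by
      have h1 : ‖∑ k, h y y k * X k‖ / dk δ c j y ≤ ‖∑ k, h y y k * X k‖ / δ y :=
        div_le_div_of_nonneg_left (norm_nonneg _) hyp hdk
      have h2 : ‖∑ k, h y y k * X k‖ / δ y ≤ K1 * Ka := by
        rw [div_le_iff₀ hyp]
        calc _ ≤ K1 * t := hyX
          _ ≤ K1 * (Ka * δ y) := mul_le_mul_of_nonneg_left hty hK10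
          _ = K1 * Ka * δ y := by ring
      exact h1.trans h2
    have q2 : ‖X‖ / Real.sqrt (dk δ c j y) ≤ Real.sqrt (4 / c * Ka) := by
      have h1 : ‖X‖ / Real.sqrt (dk δ c j y) ≤ ‖X‖ / Real.sqrt (δ y) :=
        div_le_div_of_nonneg_left (norm_nonneg _) hsq (Real.sqrt_le_sqrt hdk)
      refine h1.trans ?_
      rw [div_le_iff₀ hsq, ← Real.sqrt_mul (by positivity)]
      apply Real.le_sqrt_of_sq_le
      have h3 : ‖X‖ ^ 2 ≤ N ^ 2 := pow_le_pow_left₀ (norm_nonneg _) hXn 2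
      have h4 : 4 / c * t ≤ 4 / c * (Ka * δ y) :=
        mul_le_mul_of_nonneg_left hty (by positivity)
      linarith
    unfold gau
    linarith

end Pool.Agent.MPca0fc2.GW
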