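import Pool.Agent.Lib.MP_ca0fc2_an.GW.V4a

/-! Comparison of the values of a function at two points, by a path. -/

set_option autoImplicit false

open Metric Set MeasureTheory Filter Topology

namespace Pool.Agent.MPca0fc2.GW

open Pool.Agent.MPca0fc2.FD

variable {n : ℕ} {U : Set (Ec n)} {δ : Ec n → ℝ} {h : Ec n → Ec n → Fin n → ℂ} {c C : ℝ}

private theorem V4b_dil_deriv (w : Ec n) (s : ℝ) :
    HasDerivAt (fun s : ℝ => dil s w) (-w) s := by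
  have h1 : HasDerivAt (fun s : ℝ => ((1 - s : ℝ) : ℂ)) (-1 : ℂ) s := by
    have := ((hasDerivAt_id s).const_sub 1).ofReal_comp
    simpa using this
  have h2 := h1.smul_const w
  simpa [dil] using h2

private theorem V4b_rad {O : Set (Ec n)} (hO : IsOpen O) {f : Ec n → ℂ}
    (hf : DifferentiableOn ℝ f O) (w : Ec n) {T : ℝ} (hT : 0 ≤ T)
    (hmem : ∀ s ∈ Icc (0 : ℝ) T, dil s w ∈ O) (B B' : ℝ → ℝ)
    (hB : ∀ s ∈ Icc (0 : ℝ) T, HasDerivAt B (B' s) s) (hB0 : 0 ≤ B 0)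
    (hb : ∀ s ∈ Icc (0 : ℝ) T, ‖fderiv ℝ f (dil s w) w‖ ≤ B' s) :
    ‖f (dil T w) - f w‖ ≤ B T := by
  have hg : ∀ s ∈ Icc (0 : ℝ) T, HasDerivAt (fun s => f (dil s w) - f w)
      (fderiv ℝ f (dil s w) (-w)) s := by
    intro s hs
    have h1 : HasFDerivAt f (fderiv ℝ f (dil s w)) (dil s w) :=
      (hf.differentiableAt (hO.mem_nhds (hmem s hs))).hasFDerivAt
    exact (h1.comp_hasDerivAt s (V4b_dil_deriv w s)).sub_const _
  exact image_norm_le_of_norm_deriv_right_le_deriv_boundary'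
    (f := fun s => f (dil s w) - f w) (f' := fun s => fderiv ℝ f (dil s w) (-w))
    (B := B) (B' := B') (a := 0) (b := T)
    (fun s hs => (hg s hs).continuousAt.continuousWithinAt)
    (fun s hs => (hg s (Ico_subset_Icc_self hs)).hasDerivWithinAt)
    (by rw [dil_zero]; simpa using hB0)
    (fun s hs => (hB s hs).continuousAt.continuousWithinAt)
    (fun s hs => (hB s (Ico_subset_Icc_self hs)).hasDerivWithinAt)
    (fun s hs => by rw [map_neg, norm_neg]; exact hb s (Ico_subset_Icc_self hs))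
    (right_mem_Icc.2 hT)

private theorem V4b_gau (hD : CD U δ h c C) (j : ℕ) {y w : Ec n} (hy : y ∈ Om U δ)
    (hw : w ∈ U) : gau (dk δ c j) h y w ≤ ((n + 1) * C ^ 2) / dk δ c j y := by
  obtain ⟨c0, c1, C1⟩ := hD.pos
  have hyk := Om_sub_Dk hD j hy
  obtain ⟨yU, -, hτ, hτC, -⟩ := Dk_basic hD hyk
  have he := ek_pos j
  have hτ0 : 0 < dk δ c j y := lt_trans (by positivity) hτ
  have hwC : ‖w‖ ≤ C := hD.geo.bz w hw
  have hC0 : 0 < C := by linarith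
  have h1 : ‖∑ k, h y y k * w k‖ ≤ n * C * C := by
    refine (lin_le (h y y) w).trans ?_
    have hh : ‖h y y‖ ≤ C := hD.geo.bh y yU y yU
    have := norm_nonneg w
    have := norm_nonneg (h y y)
    gcongr
  have hs0 : 0 < Real.sqrt (dk δ c j y) := Real.sqrt_pos.2 hτ0
  have hsC : Real.sqrt (dk δ c j y) ≤ C := by
    rw [Real.sqrt_le_left hC0.le]
    nlinarith
  have h2 : ‖w‖ / Real.sqrt (dk δ c j y) ≤ C ^ 2 / dk δ c j y := by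
    rw [div_le_div_iff₀ hs0 hτ0]
    have h3 : Real.sqrt (dk δ c j y) * Real.sqrt (dk δ c j y) = dk δ c j y :=
      Real.mul_self_sqrt hτ0.le
    calc ‖w‖ * dk δ c j y ≤ C * dk δ c j y := by gcongr
      _ = C * (Real.sqrt (dk δ c j y) * Real.sqrt (dk δ c j y)) := by rw [h3]
      _ ≤ C * (C * Real.sqrt (dk δ c j y)) := by gcongr
      _ = C ^ 2 * Real.sqrt (dk δ c j y) := by ring
  have h4 : ‖∑ k, h y y k * w k‖ / dk δ c j y ≤ (n * C * C) / dk δ c j y := by gcongr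
  unfold gau
  calc ‖∑ k, h y y k * w k‖ / dk δ c j y + ‖w‖ / Real.sqrt (dk δ c j y)
      ≤ (n * C * C) / dk δ c j y + C ^ 2 / dk δ c j y := add_le_add h4 h2
    _ = ((n + 1) * C ^ 2) / dk δ c j y := by ring

private theorem V4b_comb (hD : CD U δ h c C) {j : ℕ} {f : Ec n → ℂ} {S : Ec n → ℝ} {K₁ G : ℝ}
    (hK1 : 1 ≤ K₁) (hS0 : ∀ w ∈ Om U δ, 0 ≤ S w)
    (hS : ∀ z ∈ Om U δ, ∀ ζ ∈ Om U δ, S ζ ≤ K₁ * (‖vv δ h z ζ‖ / δ ζ) ^ (9 / 4 : ℝ) *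
      (max 1 (dk δ c j ζ / dk δ c j z)) ^ (1 / 4 : ℝ) * S z)
    (hf : ∀ w ∈ Om U δ, ∀ X : Ec n, ‖fderiv ℝ f w X‖ ≤
      K₁ * (dk δ c j w / ek j) ^ (1 / 32 : ℝ) * S w * gau (dk δ c j) h w X)
    {z y : Ec n} (hz : z ∈ Om U δ) (hy : y ∈ Om U δ) (h1 : dk δ c j y / ek j ≤ G)
    (h2 : max 1 (dk δ c j y / dk δ c j z) ≤ G) {V g : ℝ} (hV : ‖vv δ h z y‖ / δ y ≤ V)
    (X : Ec n) (hg : gau (dk δ c j) h y X ≤ g) :
    ‖fderiv ℝ f y X‖ ≤ K₁ ^ 2 * G ^ (9 / 32 : ℝ) * V ^ (9 / 4 : ℝ) * g * S z := by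
  obtain ⟨c0, c1, C1⟩ := hD.pos
  have he := ek_pos j
  have hτy : 0 < dk δ c j y := by
    have := hy.2
    unfold dk
    positivity
  have hτz : 0 < dk δ c j z := by
    have := hz.2
    unfold dk
    positivity
  have hG1 : 1 ≤ G := le_trans (le_max_left _ _) h2
  have hG0 : 0 < G := by linarith
  have hS1 := hS0 y hy
  have hSz := hS0 z hz
  have hga : 0 ≤ gau (dk δ c j) h y X := gau_nonneg hτy X
  have hv0 : 0 ≤ ‖vv δ h z y‖ / δ y := div_nonneg (norm_nonneg _) hy.2.le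
  have hV0 : 0 ≤ V := hv0.trans hV
  have hg0 : 0 ≤ g := hga.trans hg
  have p1 : (dk δ c j y / ek j) ^ (1 / 32 : ℝ) ≤ G ^ (1 / 32 : ℝ) :=
    Real.rpow_le_rpow (by positivity) h1 (by norm_num)
  have p2 : (max 1 (dk δ c j y / dk δ c j z)) ^ (1 / 4 : ℝ) ≤ G ^ (1 / 4 : ℝ) :=
    Real.rpow_le_rpow (by positivity) h2 (by norm_num)
  have p3 : (‖vv δ h z y‖ / δ y) ^ (9 / 4 : ℝ) ≤ V ^ (9 / 4 : ℝ) :=
    Real.rpow_le_rpow hv0 hV (by norm_num)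
  have hSy : S y ≤ K₁ * V ^ (9 / 4 : ℝ) * G ^ (1 / 4 : ℝ) * S z := by
    refine (hS z hz y hy).trans ?_
    have := Real.rpow_nonneg hv0 (9 / 4 : ℝ)
    have h0 : 0 ≤ (max 1 (dk δ c j y / dk δ c j z)) ^ (1 / 4 : ℝ) := by positivity
    gcongr
  calc ‖fderiv ℝ f y X‖
      ≤ K₁ * (dk δ c j y / ek j) ^ (1 / 32 : ℝ) * S y * gau (dk δ c j) h y X := hf y hy X
    _ ≤ K₁ * G ^ (1 / 32 : ℝ) * (K₁ * V ^ (9 / 4 : ℝ) * G ^ (1 / 4 : ℝ) * S z) * g := by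
        have h0 : 0 ≤ (dk δ c j y / ek j) ^ (1 / 32 : ℝ) := by positivity
        have h00 := Real.rpow_nonneg hG0.le (1 / 32 : ℝ)
        gcongr
    _ = K₁ ^ 2 * (G ^ (1 / 32 : ℝ) * G ^ (1 / 4 : ℝ)) * V ^ (9 / 4 : ℝ) * g * S z := by ring
    _ = K₁ ^ 2 * G ^ (9 / 32 : ℝ) * V ^ (9 / 4 : ℝ) * g * S z := by
        rw [← Real.rpow_add hG0]
        norm_num

private theorem V4b_pow {x : ℝ} (hx : 0 < x) (q : ℝ) {s : ℝ} (hs : 0 ≤ s) :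
    HasDerivAt (fun s : ℝ => (x + s) ^ q) (q * (x + s) ^ (q - 1)) s := by
  have h1 : HasDerivAt (fun s : ℝ => x + s) 1 s := by
    simpa using (hasDerivAt_id s).const_add x
  have h2 := h1.rpow_const (p := q) (Or.inl (by positivity))
  convert h2 using 1
  ring

private theorem V4b_step1 (hD : CD U δ h c C) {j : ℕ} {f : Ec n → ℂ} {S : Ec n → ℝ} {K₁ G : ℝ}
    (hK1 : 1 ≤ K₁) (hS0 : ∀ w ∈ Om U δ, 0 ≤ S w)
    (hS : ∀ z ∈ Om U δ, ∀ ζ ∈ Om U δ, S ζ ≤ K₁ * (‖vv δ h z ζ‖ / δ ζ) ^ (9 / 4 : ℝ) *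
      (max 1 (dk δ c j ζ / dk δ c j z)) ^ (1 / 4 : ℝ) * S z)
    (hf : ∀ w ∈ Om U δ, ∀ X : Ec n, ‖fderiv ℝ f w X‖ ≤
      K₁ * (dk δ c j w / ek j) ^ (1 / 32 : ℝ) * S w * gau (dk δ c j) h w X)
    (hfd : DifferentiableOn ℝ f (Om U δ))
    {z ζ : Ec n} (hz : z ∈ Om U δ) (hζ : ζ ∈ Om U δ) {T a A t M : ℝ} (hT : 0 ≤ T) (ha : 0 < a)
    (hA : 0 ≤ A) (ht : 0 ≤ t) (hM : 0 ≤ M)
    (hmem : ∀ s ∈ Icc (0 : ℝ) T, dil s ζ ∈ Om U δ ∧ a * (δ ζ + s) ≤ δ (dil s ζ))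
    (hG1 : ∀ s ∈ Icc (0 : ℝ) T, dk δ c j (dil s ζ) / ek j ≤ G)
    (hG2 : ∀ s ∈ Icc (0 : ℝ) T, max 1 (dk δ c j (dil s ζ) / dk δ c j z) ≤ G)
    (hV : ∀ s ∈ Icc (0 : ℝ) T, ‖vv δ h z (dil s ζ)‖ ≤ A * t)
    (hgau : ∀ s ∈ Icc (0 : ℝ) T, gau (dk δ c j) h (dil s ζ) ζ ≤ M / dk δ c j (dil s ζ)) :
    ‖f (dil T ζ) - f ζ‖ ≤ 4 / 9 * (K₁ ^ 2 * G ^ (9 / 32 : ℝ) * (A / a) ^ (9 / 4 : ℝ) * (M / a)) *
      (t / δ ζ) ^ (9 / 4 : ℝ) * S z := by
  obtain ⟨c0, c1, C1⟩ := hD.pos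
  have he := ek_pos j
  have hd := hζ.2
  have hSz := hS0 z hz
  have hG0 : 0 < G := lt_of_lt_of_le one_pos
    (le_trans (le_max_left _ _) (hG2 0 (left_mem_Icc.2 hT)))
  set W : ℝ := K₁ ^ 2 * G ^ (9 / 32 : ℝ) * (A * t / a) ^ (9 / 4 : ℝ) * (M / a) * S z with hWdef
  have hW0 : 0 ≤ W := by positivity
  have key := V4b_rad (hD.geo0.dδ.continuousOn.isOpen_inter_preimage hD.geo0.opn isOpen_Ioi) hfd ζ
    hT (fun s hs => (hmem s hs).1)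
    (fun s => W * (4 / 9 * ((δ ζ) ^ (-(9 / 4) : ℝ) - (δ ζ + s) ^ (-(9 / 4) : ℝ))))
    (fun s => W * (δ ζ + s) ^ (-(13 / 4) : ℝ))
    (fun s hs => by
      have h1 := V4b_pow hd (-(9 / 4)) hs.1
      have h2 := ((h1.const_sub ((δ ζ) ^ (-(9 / 4) : ℝ))).const_mul (4 / 9)).const_mul W
      refine h2.congr_deriv ?_
      have : (-(9 / 4) - 1 : ℝ) = -(13 / 4) := by norm_num
      rw [this]
      ring)
    (by simp)
    (fun s hs => by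
      obtain ⟨m1, m2⟩ := hmem s hs
      have hx : 0 < δ ζ + s := by linarith [hs.1]
      have hax : 0 < a * (δ ζ + s) := by positivity
      have hτ : a * (δ ζ + s) ≤ dk δ c j (dil s ζ) := by
        unfold dk
        have : 0 < c / 4 * ek j := by positivity
        linarith
      have hVV : ‖vv δ h z (dil s ζ)‖ / δ (dil s ζ) ≤ A * t / (a * (δ ζ + s)) := by
        have := hV s hs
        gcongr
      have hgg : gau (dk δ c j) h (dil s ζ) ζ ≤ M / (a * (δ ζ + s)) := by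
        refine (hgau s hs).trans ?_
        gcongr
      refine (V4b_comb hD hK1 hS0 hS hf hz m1 (hG1 s hs) (hG2 s hs) hVV ζ hgg).trans (le_of_eq ?_)
      have e1 : A * t / (a * (δ ζ + s)) = (A * t / a) * (δ ζ + s)⁻¹ := by
        field_simp
      have e2 : ((A * t / a) * (δ ζ + s)⁻¹) ^ (9 / 4 : ℝ) =
          (A * t / a) ^ (9 / 4 : ℝ) * (δ ζ + s) ^ (-(9 / 4) : ℝ) := by
        rw [Real.mul_rpow (by positivity) (by positivity), Real.inv_rpow hx.le,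
          ← Real.rpow_neg hx.le]
      have e3 : (δ ζ + s) ^ (-(13 / 4) : ℝ) = (δ ζ + s) ^ (-(9 / 4) : ℝ) * (δ ζ + s)⁻¹ := by
        rw [← Real.rpow_neg_one (δ ζ + s), ← Real.rpow_add hx]
        norm_num
      have e4 : M / (a * (δ ζ + s)) = M / a * (δ ζ + s)⁻¹ := by
        field_simp
      rw [e1, e2, e3, e4, hWdef]
      ring)
  refine key.trans ?_
  have h5 : (0 : ℝ) ≤ (δ ζ + T) ^ (-(9 / 4) : ℝ) := by positivity
  have h6 : W * (4 / 9 * ((δ ζ) ^ (-(9 / 4) : ℝ) - (δ ζ + T) ^ (-(9 / 4) : ℝ))) ≤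
      W * (4 / 9 * (δ ζ) ^ (-(9 / 4) : ℝ)) := by
    refine mul_le_mul_of_nonneg_left ?_ hW0
    linarith
  refine h6.trans (le_of_eq ?_)
  have e5 : (A * t / a) ^ (9 / 4 : ℝ) = (A / a) ^ (9 / 4 : ℝ) * t ^ (9 / 4 : ℝ) := by
    rw [← Real.mul_rpow (by positivity) ht]
    congr 1
    ring
  have e6 : (t / δ ζ) ^ (9 / 4 : ℝ) = t ^ (9 / 4 : ℝ) * (δ ζ) ^ (-(9 / 4) : ℝ) := by
    rw [Real.div_rpow ht hd.le, Real.rpow_neg hd.le, div_eq_mul_inv]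
  rw [hWdef, e5, e6]
  ring

private theorem V4b_step3 (hD : CD U δ h c C) {j : ℕ} {f : Ec n → ℂ} {S : Ec n → ℝ} {K₁ : ℝ}
    (hK1 : 1 ≤ K₁) (hS0 : ∀ w ∈ Om U δ, 0 ≤ S w)
    (hS : ∀ z ∈ Om U δ, ∀ ζ ∈ Om U δ, S ζ ≤ K₁ * (‖vv δ h z ζ‖ / δ ζ) ^ (9 / 4 : ℝ) *
      (max 1 (dk δ c j ζ / dk δ c j z)) ^ (1 / 4 : ℝ) * S z)
    (hf : ∀ w ∈ Om U δ, ∀ X : Ec n, ‖fderiv ℝ f w X‖ ≤
      K₁ * (dk δ c j w / ek j) ^ (1 / 32 : ℝ) * S w * gau (dk δ c j) h w X)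
    (hfd : DifferentiableOn ℝ f (Om U δ))
    {z : Ec n} (hz : z ∈ Om U δ) {T a A L M : ℝ} (hT : 0 ≤ T) (ha : 0 < a) (ha1 : a ≤ 1)
    (hA : 0 ≤ A) (hL : 1 ≤ L) (hM : 0 ≤ M)
    (hmem : ∀ s ∈ Icc (0 : ℝ) T, dil s z ∈ Om U δ ∧ a * (δ z + s) ≤ δ (dil s z))
    (hup : ∀ s ∈ Icc (0 : ℝ) T, dk δ c j (dil s z) ≤ L * (dk δ c j z + s))
    (hV : ∀ s ∈ Icc (0 : ℝ) T, ‖vv δ h z (dil s z)‖ ≤ A * (δ z + s))
    (hgau : ∀ s ∈ Icc (0 : ℝ) T, gau (dk δ c j) h (dil s z) z ≤ M / dk δ c j (dil s z)) :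
    ‖f (dil T z) - f z‖ ≤ 32 / 9 * (K₁ ^ 2 * (4 * L / c) ^ (9 / 32 : ℝ) * (A / a) ^ (9 / 4 : ℝ) *
      (M / a)) * ((dk δ c j z + T) / ek j) ^ (9 / 32 : ℝ) * S z := by
  obtain ⟨c0, c1, C1⟩ := hD.pos
  have he := ek_pos j
  have he1 := ek_le_one j
  have hd := hz.2
  have hSz := hS0 z hz
  have hτz : 0 < dk δ c j z := by
    unfold dk
    positivity
  have hτze : c / 4 * ek j ≤ dk δ c j z := by
    unfold dk
    linarith
  set W : ℝ := K₁ ^ 2 * (4 * L / c) ^ (9 / 32 : ℝ) * (ek j) ^ (-(9 / 32) : ℝ) *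
    (A / a) ^ (9 / 4 : ℝ) * (M / a) * S z with hWdef
  have hW0 : 0 ≤ W := by positivity
  have key := V4b_rad (hD.geo0.dδ.continuousOn.isOpen_inter_preimage hD.geo0.opn isOpen_Ioi) hfd z
    hT (fun s hs => (hmem s hs).1)
    (fun s => W * (32 / 9 * (dk δ c j z + s) ^ (9 / 32 : ℝ)))
    (fun s => W * (dk δ c j z + s) ^ (9 / 32 - 1 : ℝ))
    (fun s hs => by
      have h1 := V4b_pow hτz (9 / 32) hs.1
      have h2 := (h1.const_mul (32 / 9)).const_mul W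
      refine h2.congr_deriv ?_
      ring)
    (by positivity)
    (fun s hs => by
      obtain ⟨m1, m2⟩ := hmem s hs
      have hs0 := hs.1
      have hx : 0 < δ z + s := by linarith
      have hσ : 0 < dk δ c j z + s := by linarith
      have hax : 0 < a * (δ z + s) := by positivity
      have hτ : a * (dk δ c j z + s) ≤ dk δ c j (dil s z) := by
        have h1 : a * (c / 4 * ek j) ≤ c / 4 * ek j :=
          mul_le_of_le_one_left (by positivity) ha1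
        unfold dk
        nlinarith
      have hVV : ‖vv δ h z (dil s z)‖ / δ (dil s z) ≤ A / a := by
        have h1 := hV s hs
        rw [div_le_div_iff₀ m1.2 ha]
        calc ‖vv δ h z (dil s z)‖ * a ≤ (A * (δ z + s)) * a := by gcongr
          _ = A * (a * (δ z + s)) := by ring
          _ ≤ A * δ (dil s z) := by gcongr
      have hgg : gau (dk δ c j) h (dil s z) z ≤ M / (a * (dk δ c j z + s)) := by
        refine (hgau s hs).trans ?_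
        gcongr
      have hu := hup s hs
      have hq1 : 1 ≤ 4 / c := by
        rw [one_le_div c0]
        linarith
      have hG1 : dk δ c j (dil s z) / ek j ≤ 4 * L / c * ((dk δ c j z + s) / ek j) := by
        calc dk δ c j (dil s z) / ek j ≤ (L * (dk δ c j z + s)) / ek j := by gcongr
          _ = 1 * (L * ((dk δ c j z + s) / ek j)) := by ring
          _ ≤ 4 / c * (L * ((dk δ c j z + s) / ek j)) := by gcongr
          _ = 4 * L / c * ((dk δ c j z + s) / ek j) := by ring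
      have hG2' : L * ((dk δ c j z + s) / dk δ c j z) ≤
          4 * L / c * ((dk δ c j z + s) / ek j) := by
        calc L * ((dk δ c j z + s) / dk δ c j z) ≤ L * ((dk δ c j z + s) / (c / 4 * ek j)) := by
              gcongr
          _ = 4 * L / c * ((dk δ c j z + s) / ek j) := by
              field_simp
      have hG2 : max 1 (dk δ c j (dil s z) / dk δ c j z) ≤
          4 * L / c * ((dk δ c j z + s) / ek j) := by
        refine max_le ?_ ?_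
        · refine le_trans ?_ hG2'
          have : 1 ≤ (dk δ c j z + s) / dk δ c j z := by
            rw [one_le_div hτz]
            linarith
          nlinarith
        · refine le_trans ?_ hG2'
          rw [← mul_div_assoc]
          gcongr
      refine (V4b_comb hD hK1 hS0 hS hf hz m1 hG1 hG2 hVV z hgg).trans (le_of_eq ?_)
      have e1 : (4 * L / c * ((dk δ c j z + s) / ek j)) ^ (9 / 32 : ℝ) =
          (4 * L / c) ^ (9 / 32 : ℝ) * (dk δ c j z + s) ^ (9 / 32 : ℝ) *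
            (ek j) ^ (-(9 / 32) : ℝ) := by
        rw [Real.mul_rpow (by positivity) (by positivity), Real.div_rpow hσ.le he.le,
          Real.rpow_neg he.le]
        ring
      have e3 : (dk δ c j z + s) ^ (9 / 32 - 1 : ℝ) =
          (dk δ c j z + s) ^ (9 / 32 : ℝ) * (dk δ c j z + s)⁻¹ := by
        rw [← Real.rpow_neg_one (dk δ c j z + s), ← Real.rpow_add hσ]
        norm_num
      have e4 : M / (a * (dk δ c j z + s)) = M / a * (dk δ c j z + s)⁻¹ := by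
        field_simp
      rw [e1, e3, e4, hWdef]
      ring)
  refine key.trans (le_of_eq ?_)
  have e6 : ((dk δ c j z + T) / ek j) ^ (9 / 32 : ℝ) =
      (dk δ c j z + T) ^ (9 / 32 : ℝ) * (ek j) ^ (-(9 / 32) : ℝ) := by
    rw [Real.div_rpow (by linarith) he.le, Real.rpow_neg he.le, div_eq_mul_inv]
  rw [hWdef, e6]
  ring

private theorem V4b_step2 (hD : CD U δ h c C) {j : ℕ} {f : Ec n → ℂ} {S : Ec n → ℝ} {K₁ G : ℝ}
    (hK1 : 1 ≤ K₁) (hS0 : ∀ w ∈ Om U δ, 0 ≤ S w)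
    (hS : ∀ z ∈ Om U δ, ∀ ζ ∈ Om U δ, S ζ ≤ K₁ * (‖vv δ h z ζ‖ / δ ζ) ^ (9 / 4 : ℝ) *
      (max 1 (dk δ c j ζ / dk δ c j z)) ^ (1 / 4 : ℝ) * S z)
    (hf : ∀ w ∈ Om U δ, ∀ X : Ec n, ‖fderiv ℝ f w X‖ ≤
      K₁ * (dk δ c j w / ek j) ^ (1 / 32 : ℝ) * S w * gau (dk δ c j) h w X)
    (hfd : DifferentiableOn ℝ f (Om U δ))
    {z : Ec n} (hz : z ∈ Om U δ) {p q : Ec n} {V g : ℝ}
    (hmem : ∀ l ∈ Icc (0 : ℝ) 1, (1 - l) • p + l • q ∈ Om U δ)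
    (hG1 : ∀ l ∈ Icc (0 : ℝ) 1, dk δ c j ((1 - l) • p + l • q) / ek j ≤ G)
    (hG2 : ∀ l ∈ Icc (0 : ℝ) 1, max 1 (dk δ c j ((1 - l) • p + l • q) / dk δ c j z) ≤ G)
    (hV : ∀ l ∈ Icc (0 : ℝ) 1,
      ‖vv δ h z ((1 - l) • p + l • q)‖ / δ ((1 - l) • p + l • q) ≤ V)
    (hgau : ∀ l ∈ Icc (0 : ℝ) 1, gau (dk δ c j) h ((1 - l) • p + l • q) (q - p) ≤ g) :
    ‖f q - f p‖ ≤ K₁ ^ 2 * G ^ (9 / 32 : ℝ) * V ^ (9 / 4 : ℝ) * g * S z := by
  have hO : IsOpen (Om U δ) :=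
    hD.geo0.dδ.continuousOn.isOpen_inter_preimage hD.geo0.opn isOpen_Ioi
  have hder : ∀ l ∈ Icc (0 : ℝ) 1, HasDerivAt (fun l : ℝ => f ((1 - l) • p + l • q))
      (fderiv ℝ f ((1 - l) • p + l • q) (q - p)) l := by
    intro l hl
    have h1 : HasDerivAt (fun l : ℝ => (1 - l) • p + l • q) (q - p) l := by
      have h2 := ((hasDerivAt_id l).const_sub 1).smul_const p
      have h3 := (hasDerivAt_id l).smul_const q
      refine (h2.add h3).congr_deriv ?_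
      simp only [one_smul, neg_smul]
      abel
    exact ((hfd.differentiableAt (hO.mem_nhds (hmem l hl))).hasFDerivAt).comp_hasDerivAt l h1
  have := norm_image_sub_le_of_norm_deriv_le_segment_01'
    (f := fun l : ℝ => f ((1 - l) • p + l • q))
    (f' := fun l : ℝ => fderiv ℝ f ((1 - l) • p + l • q) (q - p))
    (C := K₁ ^ 2 * G ^ (9 / 32 : ℝ) * V ^ (9 / 4 : ℝ) * g * S z)
    (fun l hl => (hder l hl).hasDerivWithinAt)
    (fun l hl => V4b_comb hD hK1 hS0 hS hf hz (hmem l (Ico_subset_Icc_self hl))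
      (hG1 l (Ico_subset_Icc_self hl)) (hG2 l (Ico_subset_Icc_self hl))
      (hV l (Ico_subset_Icc_self hl)) (q - p) (hgau l (Ico_subset_Icc_self hl)))
  simpa using this

private theorem V4b_G (hD : CD U δ h c C) {j : ℕ} {z y : Ec n} (hz : z ∈ Om U δ) {A t : ℝ}
    (hA : 1 ≤ A) (ht : 0 < t) (hy : δ y ≤ A * t) :
    dk δ c j y / ek j ≤ 4 * A / c * (1 + t / ek j) ∧
      max 1 (dk δ c j y / dk δ c j z) ≤ 4 * A / c * (1 + t / ek j) := by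
  obtain ⟨c0, c1, C1⟩ := hD.pos
  have he := ek_pos j
  have hq1 : 1 ≤ 4 / c := by
    rw [one_le_div c0]
    linarith
  have hte : 0 ≤ t / ek j := by positivity
  have hq : 1 ≤ 4 * A / c := by
    rw [one_le_div c0]
    linarith
  have hτze : c / 4 * ek j ≤ dk δ c j z := by
    have := hz.2
    unfold dk
    linarith
  have h0 : dk δ c j y ≤ A * t + c / 4 * ek j := by
    unfold dk
    linarith
  have h1 : (A * t + c / 4 * ek j) / (c / 4 * ek j) = 4 * A / c * (t / ek j) + 1 := by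
    field_simp
  constructor
  · calc dk δ c j y / ek j ≤ (A * t + c / 4 * ek j) / ek j := by gcongr
      _ = A * (t / ek j) + c / 4 := by field_simp
      _ ≤ A * (t / ek j) + A := by linarith
      _ = 1 * (A * (1 + t / ek j)) := by ring
      _ ≤ 4 / c * (A * (1 + t / ek j)) := by gcongr
      _ = 4 * A / c * (1 + t / ek j) := by ring
  · refine max_le ?_ ?_
    · nlinarith
    · calc dk δ c j y / dk δ c j z ≤ (A * t + c / 4 * ek j) / dk δ c j z := by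
            have : 0 < dk δ c j z := lt_of_lt_of_le (by positivity) hτze
            gcongr
        _ ≤ (A * t + c / 4 * ek j) / (c / 4 * ek j) := by gcongr
        _ = 4 * A / c * (t / ek j) + 1 := h1
        _ ≤ 4 * A / c * (1 + t / ek j) := by linarith

private theorem V4b_fin {N1 N2 N3 R P M S : ℝ} (h1 : 0 ≤ N1) (h2 : 0 ≤ N2) (h3 : 0 ≤ N3)
    (hR : 1 ≤ 2 * R) (hP : 0 ≤ P) (hM : 1 ≤ M) (hPM : P ≤ 3 * ((2 * R) * M)) (hS : 0 ≤ S) :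
    N1 * P ^ (9 / 32 : ℝ) * R ^ (9 / 4 : ℝ) * S + N2 * P ^ (9 / 32 : ℝ) * S +
      N3 * P ^ (9 / 32 : ℝ) * S ≤ 24 * (N1 + N2 + N3) * R ^ 3 * M ^ (5 / 16 : ℝ) * S := by
  have hR0 : 0 < 2 * R := by linarith
  have hRR : 0 < R := by linarith
  have hM0 : 0 < M := by linarith
  have e1 : (1 : ℝ) ≤ (2 * R) ^ (9 / 4 : ℝ) := Real.one_le_rpow hR (by norm_num)
  have e2 : R ^ (9 / 4 : ℝ) ≤ (2 * R) ^ (9 / 4 : ℝ) :=
    Real.rpow_le_rpow hRR.le (by linarith) (by norm_num)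
  have e3 : P ^ (9 / 32 : ℝ) ≤ 3 * ((2 * R) ^ (9 / 32 : ℝ) * M ^ (5 / 16 : ℝ)) := by
    have a1 : P ^ (9 / 32 : ℝ) ≤ (3 * ((2 * R) * M)) ^ (9 / 32 : ℝ) :=
      Real.rpow_le_rpow hP hPM (by norm_num)
    have a2 : (3 * ((2 * R) * M)) ^ (9 / 32 : ℝ) =
        3 ^ (9 / 32 : ℝ) * ((2 * R) ^ (9 / 32 : ℝ) * M ^ (9 / 32 : ℝ)) := by
      rw [Real.mul_rpow (by norm_num) (by positivity), Real.mul_rpow hR0.le hM0.le]
    have a3 : (3 : ℝ) ^ (9 / 32 : ℝ) ≤ 3 := by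
      have := Real.rpow_le_rpow_of_exponent_le (x := 3) (by norm_num)
        (show (9 / 32 : ℝ) ≤ 1 by norm_num)
      rwa [Real.rpow_one] at this
    have a4 : M ^ (9 / 32 : ℝ) ≤ M ^ (5 / 16 : ℝ) :=
      Real.rpow_le_rpow_of_exponent_le hM (by norm_num)
    rw [a2] at a1
    refine a1.trans ?_
    gcongr
  have e4 : (2 * R) ^ (9 / 4 : ℝ) * (2 * R) ^ (9 / 32 : ℝ) ≤ 8 * R ^ 3 := by
    rw [← Real.rpow_add hR0]
    have a1 : (2 * R) ^ (9 / 4 + 9 / 32 : ℝ) ≤ (2 * R) ^ (3 : ℝ) :=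
      Real.rpow_le_rpow_of_exponent_le hR (by norm_num)
    have a2 : (2 * R) ^ (3 : ℝ) = 8 * R ^ 3 := by
      rw [show (3 : ℝ) = ((3 : ℕ) : ℝ) by norm_num, Real.rpow_natCast]
      ring
    exact a1.trans a2.le
  have hq : 0 ≤ P ^ (9 / 32 : ℝ) := Real.rpow_nonneg hP _
  have hm : 0 ≤ M ^ (5 / 16 : ℝ) := Real.rpow_nonneg hM0.le _
  calc N1 * P ^ (9 / 32 : ℝ) * R ^ (9 / 4 : ℝ) * S + N2 * P ^ (9 / 32 : ℝ) * S +
      N3 * P ^ (9 / 32 : ℝ) * S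
      = (N1 * R ^ (9 / 4 : ℝ) + N2 * 1 + N3 * 1) * P ^ (9 / 32 : ℝ) * S := by ring
    _ ≤ (N1 * (2 * R) ^ (9 / 4 : ℝ) + N2 * (2 * R) ^ (9 / 4 : ℝ) + N3 * (2 * R) ^ (9 / 4 : ℝ)) *
        (3 * ((2 * R) ^ (9 / 32 : ℝ) * M ^ (5 / 16 : ℝ))) * S := by gcongr
    _ = 3 * (N1 + N2 + N3) * ((2 * R) ^ (9 / 4 : ℝ) * (2 * R) ^ (9 / 32 : ℝ)) *
        M ^ (5 / 16 : ℝ) * S := by ring
    _ ≤ 3 * (N1 + N2 + N3) * (8 * R ^ 3) * M ^ (5 / 16 : ℝ) * S := by gcongr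
    _ = 24 * (N1 + N2 + N3) * R ^ 3 * M ^ (5 / 16 : ℝ) * S := by ring

/-- The comparison.
PROOF. Notation: `t = ‖v(z, ζ)‖`, `T = min 1 t`, `e = ek j`, `τ(y) = dk δ c j y`, `K` = constants. `δ z, δ ζ ≤ 2 t` (`v_lb`). `τ(y) ≤ δ y + e`, `τ(z) ≥ (c / 4) e`.
(0) For `y ∈ Om U δ` with `δ y ≤ K t`: `max 1 (τ(y) / τ(z)) ≤ K (1 + t / e)`, so `hS` gives
`S y ≤ K (‖v(z, y)‖ / δ y)^(9/4) (1 + t / e)^(1/4) S z`, and `τ(y)^(1/32) / e^(1/32) ≤ K (1 + t / e)^(1/32)`.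
(1) The radial path from `ζ` to `dil T ζ`, `y = dil s ζ`: `δ y ≥ (c / 4 C)(δ ζ + s)` (`dil_lo'`), `δ y ≤ δ ζ + L s ≤ K t` (`dil_up`), `‖v(z, y)‖ ≤ K (t + s) ≤ 2 K t` (`path_pts`), and
`gau (dk j) h y ζ ≤ K / τ(y) ≤ K / δ y ≤ K / (δ ζ + s)` (`gau_le`-type bound: `|h(y,y) ζ| ≤ n C²`, `‖ζ‖ ≤ C`, `τ ≤ C`). So
`‖df(y) ζ‖ ≤ K (1 + t / e)^(9/32) t^(9/4) (δ ζ + s)^(-13/4) S z`; the integral over `s ∈ [0, T]` is at most
`K (1 + t / e)^(9/32) (t / δ ζ)^(9/4) S z`.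
(2) The chord from `dil T ζ` to `dil T z`, `y = (1 - l) dil T ζ + l dil T z`: `chord_gau`; `‖v(z, y)‖ ≤ K t`, `δ y ≥ t / K`, so by (0) `‖df(y) X‖ ≤ K (1 + t / e)^(9/32) S z`.
(3) The radial path from `z` to `dil T z`, `y = dil s z`: `‖v(z, y)‖ ≤ K (δ z + s)` and `δ y ≥ (c / 4 C)(δ z + s)`, so the first factor in `hS` is bounded;
`τ(z) + s ≤ K τ(y)` and `τ(y) ≤ K (τ(z) + s)` (`dil_lo'`, `dil_up`). `‖df(y) z‖ ≤ K e^(-1/32) τ(z)^(-1/4) (τ(z) + s)^(1/32 + 1/4 - 1) S z`. The integral over `s ∈ [0, T]` is at most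
`K e^(-1/32) τ(z)^(-1/4) (τ(z) + T)^(9/32) S z ≤ K (1 + t / e)^(9/32) S z` (`τ(z) + T ≤ 3 t + e`, `τ(z) ≥ (c / 4) e`).
Together: `‖f ζ - f z‖ ≤ K (1 + t / e)^(9/32) (t / δ ζ)^(9/4) S z` (as `t / δ ζ ≥ 1 / 2`), and `1 + t / e ≤ 3 (t / δ ζ) max 1 (δ ζ / e)`,
`(t / δ ζ)^(9/4 + 9/32) ≤ K (t / δ ζ)^3`, `(max 1 (δ ζ / e))^(9/32) ≤ (max 1 (δ ζ / e))^(5/16)`.
(The integrals: mean value inequality in the form `image_norm_le_of_norm_deriv_right_le_deriv_boundary`, with the primitive of the bound.) -/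
theorem path_cmp (n : ℕ) (c C K₀ : ℝ) (hc : 0 < c) : ∃ K : ℝ, 1 ≤ K ∧ ∀ (U : Set (Ec n))
    (δ : Ec n → ℝ) (h : Ec n → Ec n → Fin n → ℂ), CD U δ h c C → ∀ (j : ℕ) (f : Ec n → ℂ)
    (S : Ec n → ℝ), DifferentiableOn ℝ f (Om U δ) → (∀ w ∈ Om U δ, 0 ≤ S w) →
    (∀ z ∈ Om U δ, ∀ ζ ∈ Om U δ, S ζ ≤ K₀ * (‖vv δ h z ζ‖ / δ ζ) ^ (9 / 4 : ℝ) *
      (max 1 (dk δ c j ζ / dk δ c j z)) ^ (1 / 4 : ℝ) * S z) →
    (∀ w ∈ Om U δ, ∀ X : Ec n, ‖fderiv ℝ f w X‖ ≤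
      K₀ * (dk δ c j w / ek j) ^ (1 / 32 : ℝ) * S w * gau (dk δ c j) h w X) →
    ∀ z ∈ Om U δ, ∀ ζ ∈ Om U δ, ‖f ζ - f z‖ ≤
      K * (‖vv δ h z ζ‖ / δ ζ) ^ 3 * (max 1 (δ ζ / ek j)) ^ (5 / 16 : ℝ) * S z := by
  obtain ⟨Kp, hKp1, hKp⟩ := path_pts n c C hc
  obtain ⟨Kc, hKc1, hKc⟩ := chord_gau n c C hc
  obtain ⟨L, hL1, hL⟩ := dil_up n c C
  set K₁ : ℝ := max K₀ 1 with hK₁
  have hK11 : 1 ≤ K₁ := le_max_right _ _
  have hK01 : K₀ ≤ K₁ := le_max_left _ _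
  set A₃ : ℝ := 2 + L + Kc with hA₃
  set a : ℝ := c / (4 * C) with ha
  set M : ℝ := (n + 1) * C ^ 2 with hM
  set N1 : ℝ := 4 / 9 * (K₁ ^ 2 * (4 * A₃ / c) ^ (9 / 32 : ℝ) * (2 * Kp / a) ^ (9 / 4 : ℝ) *
    (M / a)) with hN1
  set N2 : ℝ := K₁ ^ 2 * (4 * A₃ / c) ^ (9 / 32 : ℝ) * (2 * Kp * Kc) ^ (9 / 4 : ℝ) * Kc with hN2
  set N3 : ℝ := 32 / 9 * (K₁ ^ 2 * (4 * L / c) ^ (9 / 32 : ℝ) * (Kp / a) ^ (9 / 4 : ℝ) *
    (M / a)) * 3 ^ (9 / 32 : ℝ) with hN3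
  refine ⟨max 1 (24 * (N1 + N2 + N3)), le_max_left _ _, ?_⟩
  intro U δ h hD j f S hfd hS0 hS' hf' z hz ζ hζ
  obtain ⟨c0, c1, C1⟩ := hD.pos
  have he := ek_pos j
  have hC0 : 0 < C := by linarith
  have ha0 : 0 < a := by positivity
  have ha1 : a ≤ 1 := by
    rw [ha, div_le_one (by positivity)]
    linarith
  have hM0 : 0 ≤ M := by positivity
  have hA31 : 1 ≤ A₃ := by linarith
  have hgeo := hD.geo0
  obtain ⟨v1, v2, v3, v4⟩ := v_lb hgeo hz hζ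
  set t : ℝ := ‖vv δ h z ζ‖ with ht
  set T : ℝ := min 1 t with hT
  have hT0 : 0 ≤ T := le_min zero_le_one v4.le
  have hT1 : T ≤ 1 := min_le_left _ _
  have hTt : T ≤ t := min_le_right _ _
  have hsub : ∀ s ∈ Icc (0 : ℝ) T, s ∈ Icc (0 : ℝ) 1 := fun s hs => ⟨hs.1, hs.2.trans hT1⟩
  have hdk : ∀ w ∈ Om U δ, 0 < dk δ c j w := by
    intro w hw
    have := hw.2
    unfold dk
    positivity
  have hS : ∀ z ∈ Om U δ, ∀ ζ ∈ Om U δ, S ζ ≤ K₁ * (‖vv δ h z ζ‖ / δ ζ) ^ (9 / 4 : ℝ) *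
      (max 1 (dk δ c j ζ / dk δ c j z)) ^ (1 / 4 : ℝ) * S z := by
    intro z hz ζ hζ
    refine (hS' z hz ζ hζ).trans ?_
    have h0 := hS0 z hz
    have h1 : 0 ≤ (‖vv δ h z ζ‖ / δ ζ) ^ (9 / 4 : ℝ) :=
      Real.rpow_nonneg (div_nonneg (norm_nonneg _) hζ.2.le) _
    have h2 : 0 ≤ (max 1 (dk δ c j ζ / dk δ c j z)) ^ (1 / 4 : ℝ) := by positivity
    gcongr
  have hf : ∀ w ∈ Om U δ, ∀ X : Ec n, ‖fderiv ℝ f w X‖ ≤
      K₁ * (dk δ c j w / ek j) ^ (1 / 32 : ℝ) * S w * gau (dk δ c j) h w X := by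
    intro w hw X
    refine (hf' w hw X).trans ?_
    have h0 := hS0 w hw
    have h1 := hdk w hw
    have h2 : 0 ≤ gau (dk δ c j) h w X := gau_nonneg h1 X
    have h3 : 0 ≤ (dk δ c j w / ek j) ^ (1 / 32 : ℝ) := by positivity
    gcongr
  have hSz := hS0 z hz
  -- step 1
  have b1 := V4b_step1 (G := 4 * A₃ / c * (1 + t / ek j)) hD hK11 hS0 hS hf hfd hz hζ
    (T := T) (a := a) (A := 2 * Kp) (t := t) (M := M) hT0 ha0 (by positivity) v4.le hM0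
    (fun s hs => dil_lo' hD hζ hs.1 (hsub s hs).2)
    (fun s hs => (V4b_G hD hz hA31 v4 (by
      have h1 := (hL U δ h hD ζ (Om_sub_Dk hD 0 hζ) s (hsub s hs)).1
      have h2 := (abs_le.1 h1).2
      have h3 : L * s ≤ L * t := mul_le_mul_of_nonneg_left (hs.2.trans hTt) (by linarith)
      rw [hA₃]
      nlinarith)).1)
    (fun s hs => (V4b_G hD hz hA31 v4 (by
      have h1 := (hL U δ h hD ζ (Om_sub_Dk hD 0 hζ) s (hsub s hs)).1
      have h2 := (abs_le.1 h1).2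
      have h3 : L * s ≤ L * t := mul_le_mul_of_nonneg_left (hs.2.trans hTt) (by linarith)
      rw [hA₃]
      nlinarith)).2)
    (fun s hs => by
      have h1 := (hKp U δ h hD z hz ζ hζ s (hsub s hs)).1
      have h2 : s ≤ t := hs.2.trans hTt
      refine h1.trans ?_
      nlinarith)
    (fun s hs => V4b_gau hD j (dil_lo' hD hζ hs.1 (hsub s hs).2).1 hζ.1)
  -- step 2
  have hch := fun (l : ℝ) (hl : l ∈ Icc (0 : ℝ) 1) =>
    hKc U δ h hD z hz ζ hζ T hT l hl j ((1 - l) • dil T ζ + l • dil T z) rfl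
  have hchG : ∀ l ∈ Icc (0 : ℝ) 1, δ ((1 - l) • dil T ζ + l • dil T z) ≤ A₃ * t := by
    intro l hl
    refine (hch l hl).2.2.1.trans ?_
    rw [hA₃]
    nlinarith
  have b2 := V4b_step2 (G := 4 * A₃ / c * (1 + t / ek j)) hD hK11 hS0 hS hf hfd hz
    (p := dil T ζ) (q := dil T z) (V := 2 * Kp * Kc) (g := Kc)
    (fun l hl => (hch l hl).1)
    (fun l hl => (V4b_G hD hz hA31 v4 (hchG l hl)).1)
    (fun l hl => (V4b_G hD hz hA31 v4 (hchG l hl)).2)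
    (fun l hl => by
      obtain ⟨m1, m2, m3, m4⟩ := hch l hl
      rw [div_le_iff₀ m1.2]
      have h1 := (hKp U δ h hD z hz ζ hζ T ⟨hT0, hT1⟩).2.1 l hl
      calc ‖vv δ h z ((1 - l) • dil T ζ + l • dil T z)‖ ≤ Kp * (t + T) := h1
        _ ≤ Kp * (t + t) := by gcongr
        _ = 2 * Kp * t := by ring
        _ ≤ 2 * Kp * (Kc * δ ((1 - l) • dil T ζ + l • dil T z)) := by gcongr
        _ = 2 * Kp * Kc * δ ((1 - l) • dil T ζ + l • dil T z) := by ring)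
    (fun l hl => (hch l hl).2.2.2)
  -- step 3
  have b3 := V4b_step3 hD hK11 hS0 hS hf hfd hz
    (T := T) (a := a) (A := Kp) (L := L) (M := M) hT0 ha0 ha1 (by positivity) hL1 hM0
    (fun s hs => dil_lo' hD hz hs.1 (hsub s hs).2)
    (fun s hs => by
      have h1 := (hL U δ h hD z (Om_sub_Dk hD 0 hz) s (hsub s hs)).1
      have h2 := (abs_le.1 h1).2
      have h3 : dk δ c j (dil s z) ≤ dk δ c j z + L * s := by
        unfold dk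
        linarith
      have h4 := hdk z hz
      nlinarith)
    (fun s hs => (hKp U δ h hD z hz ζ hζ s (hsub s hs)).2.2)
    (fun s hs => V4b_gau hD j (dil_lo' hD hz hs.1 (hsub s hs).2).1 hz.1)
  -- the bounds in terms of `P`
  set P : ℝ := 1 + t / ek j with hPdef
  have hP0 : 0 < P := by positivity
  have hN10 : 0 ≤ N1 := by positivity
  have hN20 : 0 ≤ N2 := by positivity
  have hN30 : 0 ≤ N3 := by positivity
  have hGP : (4 * A₃ / c * P) ^ (9 / 32 : ℝ) = (4 * A₃ / c) ^ (9 / 32 : ℝ) * P ^ (9 / 32 : ℝ) :=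
    Real.mul_rpow (by positivity) hP0.le
  have b1' : ‖f (dil T ζ) - f ζ‖ ≤ N1 * P ^ (9 / 32 : ℝ) * (t / δ ζ) ^ (9 / 4 : ℝ) * S z := by
    refine b1.trans (le_of_eq ?_)
    rw [hGP, hN1]
    ring
  have b2' : ‖f (dil T z) - f (dil T ζ)‖ ≤ N2 * P ^ (9 / 32 : ℝ) * S z := by
    refine b2.trans (le_of_eq ?_)
    rw [hGP, hN2]
    ring
  have b3' : ‖f (dil T z) - f z‖ ≤ N3 * P ^ (9 / 32 : ℝ) * S z := by
    have h1 : ((dk δ c j z + T) / ek j) ^ (9 / 32 : ℝ) ≤ (3 * P) ^ (9 / 32 : ℝ) := by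
      refine Real.rpow_le_rpow (div_nonneg (by linarith [hdk z hz]) he.le) ?_ (by norm_num)
      rw [div_le_iff₀ he]
      have h2 : 3 * P * ek j = 3 * ek j + 3 * t := by
        rw [hPdef]
        field_simp
      rw [h2]
      unfold dk
      nlinarith
    rw [Real.mul_rpow (by norm_num) hP0.le] at h1
    calc ‖f (dil T z) - f z‖ ≤ 32 / 9 * (K₁ ^ 2 * (4 * L / c) ^ (9 / 32 : ℝ) *
        (Kp / a) ^ (9 / 4 : ℝ) * (M / a)) * ((dk δ c j z + T) / ek j) ^ (9 / 32 : ℝ) * S z := b3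
      _ ≤ 32 / 9 * (K₁ ^ 2 * (4 * L / c) ^ (9 / 32 : ℝ) *
        (Kp / a) ^ (9 / 4 : ℝ) * (M / a)) * (3 ^ (9 / 32 : ℝ) * P ^ (9 / 32 : ℝ)) * S z := by
          gcongr
      _ = N3 * P ^ (9 / 32 : ℝ) * S z := by
          rw [hN3]
          ring
  have hR : 1 ≤ 2 * (t / δ ζ) := by
    rw [← mul_div_assoc, one_le_div hζ.2]
    exact v2
  have hM1 : 1 ≤ max 1 (δ ζ / ek j) := le_max_left _ _
  have hPM : P ≤ 3 * ((2 * (t / δ ζ)) * max 1 (δ ζ / ek j)) := by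
    have h1 : t / ek j ≤ (t / δ ζ) * max 1 (δ ζ / ek j) := by
      have h2 : t / ek j = (t / δ ζ) * (δ ζ / ek j) := by
        have := hζ.2.ne'
        field_simp
      rw [h2]
      have := hζ.2
      gcongr
      exact le_max_right _ _
    have h3 : 1 ≤ (2 * (t / δ ζ)) * max 1 (δ ζ / ek j) := by nlinarith
    rw [hPdef]
    nlinarith
  have hfin := V4b_fin hN10 hN20 hN30 hR hP0.le hM1 hPM hSz
  have htri : ‖f ζ - f z‖ ≤ ‖f (dil T ζ) - f ζ‖ + ‖f (dil T z) - f (dil T ζ)‖ +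
      ‖f (dil T z) - f z‖ := by
    have h1 : f ζ - f z = -(f (dil T ζ) - f ζ) + -(f (dil T z) - f (dil T ζ)) +
        (f (dil T z) - f z) := by ring
    rw [h1]
    refine (norm_add_le _ _).trans ?_
    refine add_le_add ((norm_add_le _ _).trans ?_) le_rfl
    rw [norm_neg, norm_neg]
  have h0 : 0 ≤ (t / δ ζ) ^ 3 * (max 1 (δ ζ / ek j)) ^ (5 / 16 : ℝ) * S z := by
    have := hζ.2
    positivity
  calc ‖f ζ - f z‖ ≤ 24 * (N1 + N2 + N3) * (t / δ ζ) ^ 3 *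
        (max 1 (δ ζ / ek j)) ^ (5 / 16 : ℝ) * S z := by linarith
    _ = 24 * (N1 + N2 + N3) * ((t / δ ζ) ^ 3 * (max 1 (δ ζ / ek j)) ^ (5 / 16 : ℝ) * S z) := by
        ring
    _ ≤ max 1 (24 * (N1 + N2 + N3)) *
        ((t / δ ζ) ^ 3 * (max 1 (δ ζ / ek j)) ^ (5 / 16 : ℝ) * S z) :=
        mul_le_mul_of_nonneg_right (le_max_right _ _) h0
    _ = max 1 (24 * (N1 + N2 + N3)) * (t / δ ζ) ^ 3 *
        (max 1 (δ ζ / ek j)) ^ (5 / 16 : ℝ) * S z := by ring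

end Pool.Agent.MPca0fc2.GW
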